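import Pool.Agent.Lib.MP_1ef7cf_nt.PrimeSum

/-!
Sums over prime ideals of a number field near `s = 1`: upper bound for the zeta function.
-/

set_option linter.style.haveILetI false

open NumberField Filter Topology Ideal nonZeroDivisors IsDedekindDomain

namespace Pool.Agent.ST

section primes

variable {F : Type*} [Field F] [NumberField F]

/-- the exponent of a prime in an ideal -/
noncomputable def mlt (P : PrI F) (I : Ideal (𝓞 F)) : ℕ := multiplicity P.asIdeal I

lemma ideal_eq_prod (I : Ideal (𝓞 F)) (hI : I ≠ ⊥) (T : Finset (PrI F))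
    (hT : ∀ P : PrI F, P.asIdeal ∣ I → P ∈ T) : I = ∏ P ∈ T, P.asIdeal ^ mlt P I := by
  have h := Ideal.finprod_heightOneSpectrum_pow_multiplicity hI
  rw [finprod_eq_prod_of_mulSupport_subset] at h
  · exact h.symm
  · intro P hP
    rw [Function.mem_mulSupport] at hP
    apply hT
    by_contra hn
    apply hP
    rw [multiplicity_eq_zero.2 hn, pow_zero]

lemma absNorm_rpow_eq (I : Ideal (𝓞 F)) (hI : I ≠ ⊥) (T : Finset (PrI F))
    (hT : ∀ P : PrI F, P.asIdeal ∣ I → P ∈ T) (s : ℝ) :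
    (absNorm I : ℝ) ^ (-s) = ∏ P ∈ T, px s P ^ mlt P I := by
  conv_lhs => rw [ideal_eq_prod I hI T hT]
  rw [map_prod, Nat.cast_prod, ← Real.finsetProd_rpow _ _ (fun P _ => Nat.cast_nonneg _)]
  apply Finset.prod_congr rfl
  intro P _
  rw [map_pow, Nat.cast_pow, px, pn, ← Real.rpow_natCast, ← Real.rpow_natCast,
    ← Real.rpow_mul (Nat.cast_nonneg _), ← Real.rpow_mul (Nat.cast_nonneg _), mul_comm]

lemma exists_primes (A : Finset (NzI F)) :
    ∃ T : Finset (PrI F), ∀ I ∈ A, ∀ P : PrI F, P.asIdeal ∣ I.1 → P ∈ T := by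
  classical
  have h : ∀ I : NzI F, {v : HeightOneSpectrum (𝓞 F) | v.asIdeal ∣ I.1}.Finite :=
    fun I => Ideal.finite_factors I.2
  refine ⟨A.biUnion fun I => (h I).toFinset, ?_⟩
  intro I hI P hP
  rw [Finset.mem_biUnion]
  exact ⟨I, hI, by simpa using hP⟩

lemma geom_le {x : ℝ} (h0 : 0 ≤ x) (h1 : x < 1) (M : ℕ) :
    ∑ k ∈ Finset.range M, x ^ k ≤ (1 - x)⁻¹ := by
  rw [← tsum_geometric_of_lt_one h0 h1]
  exact (summable_geometric_of_lt_one h0 h1).sum_le_tsum _ fun k _ => by positivity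

lemma zetaR_le_exp {s : ℝ} (hs : 1 < s) :
    zetaR F s ≤ Real.exp (primeSum F s + 2 * primeSum F 2) := by
  classical
  unfold zetaR
  apply (summable_ideal F hs).tsum_le_of_sum_le
  intro A
  obtain ⟨T, hT⟩ := exists_primes A
  -- bound on the exponents
  set M : ℕ := (A.sup fun I => T.sup fun P => mlt P I.1) + 1 with hM
  have hlt : ∀ I ∈ A, ∀ P ∈ T, mlt P I.1 < M := by
    intro I hI P hP
    have h1 : mlt P I.1 ≤ T.sup fun P => mlt P I.1 :=
      Finset.le_sup (f := fun P => mlt P I.1) hP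
    have h2 : (T.sup fun P => mlt P I.1) ≤ A.sup fun I => T.sup fun P => mlt P I.1 :=
      Finset.le_sup (f := fun I : NzI F => T.sup fun P => mlt P I.1) hI
    omega
  have h1 : ∑ I ∈ A, (absNorm I.1 : ℝ) ^ (-s) =
      ∑ I ∈ A, ∏ P : T, px s P.1 ^ mlt P.1 I.1 := by
    apply Finset.sum_congr rfl
    intro I hI
    rw [absNorm_rpow_eq I.1 I.2 T (hT I hI) s]
    exact (Finset.prod_coe_sort T (fun P => px s P ^ mlt P I.1)).symm
  set g : NzI F → (T → ℕ) := fun I P => mlt P.1 I.1 with hg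
  have hinj : Set.InjOn g A := by
    intro I hI J hJ hIJ
    apply Subtype.ext
    rw [ideal_eq_prod I.1 I.2 T (hT I hI), ideal_eq_prod J.1 J.2 T (hT J hJ)]
    apply Finset.prod_congr rfl
    intro P hP
    have := congrFun hIJ ⟨P, hP⟩
    simp only [hg] at this
    rw [this]
  have h2 : ∑ I ∈ A, ∏ P : T, px s P.1 ^ mlt P.1 I.1 =
      ∑ e ∈ A.image g, ∏ P : T, px s P.1 ^ e P := by
    rw [Finset.sum_image hinj]
  rw [h1, h2]
  have h3 : A.image g ⊆ Fintype.piFinset (fun _ : T => Finset.range M) := by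
    intro e he
    rw [Finset.mem_image] at he
    obtain ⟨I, hI, rfl⟩ := he
    rw [Fintype.mem_piFinset]
    intro P
    rw [Finset.mem_range]
    exact hlt I hI P.1 P.2
  refine (Finset.sum_le_sum_of_subset_of_nonneg h3 fun e _ _ =>
    Finset.prod_nonneg fun P _ => pow_nonneg (px_pos s P.1).le _).trans ?_
  rw [← Finset.prod_univ_sum (t := fun _ : T => Finset.range M)
    (f := fun P k => px s P.1 ^ k)]
  have h4 : ∏ P : T, ∑ k ∈ Finset.range M, px s P.1 ^ k ≤
      ∏ P : T, Real.exp (px s P.1 + 2 * px s P.1 ^ 2) := by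
    apply Finset.prod_le_prod (fun P _ => Finset.sum_nonneg fun k _ => pow_nonneg (px_pos s P.1).le _)
    intro P _
    have h5 := px_le_half hs.le P.1
    exact (geom_le (px_pos s P.1).le (by linarith) M).trans (inv_one_sub_le (px_pos s P.1).le h5)
  refine h4.trans ?_
  rw [← Real.exp_sum]
  apply Real.exp_le_exp.2
  rw [Finset.sum_add_distrib, ← Finset.mul_sum]
  have h6 : ∑ P : T, px s P.1 ≤ primeSum F s := by
    rw [Finset.sum_coe_sort T (fun P => px s P)]
    exact (summable_px hs).sum_le_tsum _ fun P _ => (px_pos s P).le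
  have h7 : ∑ P : T, px s P.1 ^ 2 ≤ primeSum F 2 := by
    rw [Finset.sum_coe_sort T (fun P => px s P ^ 2)]
    exact sum_px_sq_le hs.le T
  linarith

/-- The prime sum is asymptotic to `log (1 / (s - 1))` up to a bounded error. -/
lemma primeSum_asymp (F : Type*) [Field F] [NumberField F] :
    ∃ C : ℝ, ∀ᶠ s in 𝓝[>] (1 : ℝ), |primeSum F s + Real.log (s - 1)| ≤ C := by
  have hpos : 0 < dedekindZeta_residue F := dedekindZeta_residue_pos F
  have h1 := tendsto_zetaR F
  have h2 : ∀ᶠ s in 𝓝[>] (1 : ℝ), (s - 1) * zetaR F s ∈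
      Set.Icc (dedekindZeta_residue F / 2) (2 * dedekindZeta_residue F) := by
    apply h1
    apply Icc_mem_nhds <;> linarith
  set ρ := dedekindZeta_residue F with hρ
  refine ⟨|Real.log (ρ / 2)| + |Real.log (2 * ρ)| + 2 * |primeSum F 2|, ?_⟩
  filter_upwards [h2, self_mem_nhdsWithin] with s hs hs1
  have hs1' : (1 : ℝ) < s := hs1
  have hs0 : 0 < s - 1 := by linarith
  have hz : 0 < zetaR F s := (Real.exp_pos _).trans_le (exp_primeSum_le hs1')
  have e1 : Real.log ((s - 1) * zetaR F s) = Real.log (s - 1) + Real.log (zetaR F s) :=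
    Real.log_mul hs0.ne' hz.ne'
  have e2 : Real.log (ρ / 2) ≤ Real.log ((s - 1) * zetaR F s) :=
    Real.log_le_log (by linarith) hs.1
  have e3 : Real.log ((s - 1) * zetaR F s) ≤ Real.log (2 * ρ) :=
    Real.log_le_log (mul_pos hs0 hz) hs.2
  have e4 : primeSum F s - primeSum F 2 ≤ Real.log (zetaR F s) := by
    rw [← Real.log_exp (primeSum F s - primeSum F 2)]
    exact Real.log_le_log (Real.exp_pos _) (exp_primeSum_le hs1')
  have e5 : Real.log (zetaR F s) ≤ primeSum F s + 2 * primeSum F 2 := by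
    rw [← Real.log_exp (primeSum F s + 2 * primeSum F 2)]
    exact Real.log_le_log hz (zetaR_le_exp hs1')
  have a1 := le_abs_self (Real.log (2 * ρ))
  have a2 := neg_abs_le (Real.log (ρ / 2))
  have a3 := le_abs_self (primeSum F 2)
  have a4 := abs_nonneg (Real.log (2 * ρ))
  have a5 := abs_nonneg (Real.log (ρ / 2))
  have a6 := abs_nonneg (primeSum F 2)
  rw [abs_le]
  constructor <;> linarith

end primes

end Pool.Agent.ST
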