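import Pool.Agent.Lib.MP_1ef7cf_nt.Frob
import Pool.Agent.Lib.MP_1ef7cf_nt.PrimeSum2

/-!
Frobenius elements and existence of primes with nontrivial Frobenius.
-/

set_option linter.style.haveILetI false

open NumberField Filter Topology Ideal nonZeroDivisors IsDedekindDomain

namespace Pool.Agent.ST

section frob

variable (K : Type*) {E : Type*} [Field K] [NumberField K] [Field E] [NumberField E] [Algebra K E]

attribute [local instance] FractionRing.liftAlgebra FractionRing.isScalarTower_liftAlgebra in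
lemma finite_ramified : {P : PrI E | ¬ Algebra.IsUnramifiedAt (𝓞 K) P.asIdeal}.Finite := by
  have hne : differentIdeal (𝓞 K) (𝓞 E) ≠ ⊥ := differentIdeal_ne_bot
  refine (Ideal.finite_factors hne).subset ?_
  intro P hP
  exact dvd_differentIdeal_iff.2 hP

/-- `σ` is a Frobenius element at `P`. -/
def IsFrob (P : PrI E) (σ : E ≃ₐ[K] E) : Prop :=
  ∀ x : 𝓞 E, σ • x - x ^ pn (und K P) ∈ P.asIdeal

omit [NumberField K] [NumberField E] in
lemma coe_smul' (σ : E ≃ₐ[K] E) (x : 𝓞 E) :
    algebraMap (𝓞 E) E (σ • x) = σ (algebraMap (𝓞 E) E x) := rfl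

instance instSMulComm : SMulCommClass (E ≃ₐ[K] E) (𝓞 K) (𝓞 E) where
  smul_comm σ a x := by
    apply RingOfIntegers.coe_injective
    rw [coe_smul', Algebra.smul_def, Algebra.smul_def, map_mul, map_mul, map_mul, coe_smul']
    congr 1
    exact σ.commutes (a : K)

variable {K}

omit [NumberField E] in
lemma isFrob_iff (P : PrI E) (σ : E ≃ₐ[K] E) : IsFrob K P σ ↔ IsArithFrobAt (𝓞 K) σ P.asIdeal := by
  have h : pn (und K P) = Nat.card (𝓞 K ⧸ P.asIdeal.under (𝓞 K)) := by
    unfold pn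
    rw [Ideal.absNorm_apply, Submodule.cardQuot_apply]
    rfl
  unfold IsFrob
  rw [h]
  rfl

lemma exists_isFrob [IsGalois K E] (P : PrI E) : ∃ σ : E ≃ₐ[K] E, IsFrob K P σ := by
  haveI : Finite (𝓞 E ⧸ P.asIdeal) := Ideal.finiteQuotientOfFreeOfNeBot P.asIdeal P.ne_bot
  obtain ⟨σ, hσ⟩ := IsArithFrobAt.exists_of_isInvariant (𝓞 K) (E ≃ₐ[K] E) P.asIdeal
  exact ⟨σ, (isFrob_iff P σ).2 hσ⟩

lemma isFrob_unique {P : PrI E} [Algebra.IsUnramifiedAt (𝓞 K) P.asIdeal] {σ τ : E ≃ₐ[K] E}
    (hσ : IsFrob K P σ) (hτ : IsFrob K P τ) : σ = τ := by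
  rw [isFrob_iff] at hσ hτ
  have h := AlgHom.IsArithFrobAt.eq_of_isUnramifiedAt (R := 𝓞 K) hσ hτ
    (P.asIdeal.primeCompl_le_nonZeroDivisors)
  ext x
  obtain ⟨a, b, hb, rfl⟩ := IsFractionRing.div_surjective (A := 𝓞 E) x
  have ha := DFunLike.congr_fun h a
  have hb := DFunLike.congr_fun h b
  have e : ∀ (ρ : E ≃ₐ[K] E) (y : 𝓞 E), ρ (algebraMap (𝓞 E) E y) = algebraMap (𝓞 E) E (ρ • y) := by
    intro ρ y
    rfl
  rw [map_div₀, map_div₀, e, e, e, e]
  simp only [MulSemiringAction.toAlgHom_apply] at ha hb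
  rw [ha, hb]

lemma pn_eq_of_isFrob_one {P : PrI E} (h : IsFrob K P (1 : E ≃ₐ[K] E)) : pn P = pn (und K P) := by
  refine le_antisymm ?_ (pn_und_le K P)
  haveI : Finite (𝓞 E ⧸ P.asIdeal) := Ideal.finiteQuotientOfFreeOfNeBot P.asIdeal P.ne_bot
  haveI : P.asIdeal.IsMaximal := P.isMaximal
  letI : Field (𝓞 E ⧸ P.asIdeal) := Ideal.Quotient.field P.asIdeal
  haveI : Fintype (𝓞 E ⧸ P.asIdeal) := Fintype.ofFinite _
  classical
  set q := pn (und K P) with hq
  have hq2 : 2 ≤ q := two_le_pn _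
  have h1 : pn P = Fintype.card (𝓞 E ⧸ P.asIdeal) := by
    unfold pn
    rw [Ideal.absNorm_apply, Submodule.cardQuot_apply, Nat.card_eq_fintype_card]
  have h2 : ∀ y : 𝓞 E ⧸ P.asIdeal, y ^ q = y := by
    intro y
    obtain ⟨x, rfl⟩ := Ideal.Quotient.mk_surjective y
    have h3 := h x
    rw [one_smul] at h3
    rw [← map_pow]
    exact (Ideal.Quotient.eq.2 h3).symm
  rw [h1]
  have h4 : (Polynomial.X ^ q - Polynomial.X : Polynomial (𝓞 E ⧸ P.asIdeal)).natDegree = q :=
    FiniteField.X_pow_card_sub_X_natDegree_eq _ hq2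
  have h5 : (Polynomial.X ^ q - Polynomial.X : Polynomial (𝓞 E ⧸ P.asIdeal)) ≠ 0 := by
    intro h6
    rw [h6] at h4
    simp at h4
    omega
  have h6 := Polynomial.card_roots' (Polynomial.X ^ q - Polynomial.X : Polynomial (𝓞 E ⧸ P.asIdeal))
  rw [h4] at h6
  refine le_trans ?_ h6
  have h7 : (Finset.univ : Finset (𝓞 E ⧸ P.asIdeal)).val ≤
      (Polynomial.X ^ q - Polynomial.X : Polynomial (𝓞 E ⧸ P.asIdeal)).roots := by
    rw [Multiset.le_iff_subset Finset.univ.nodup]
    intro y _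
    rw [Polynomial.mem_roots h5]
    simp [h2 y]
  calc Fintype.card (𝓞 E ⧸ P.asIdeal) = Multiset.card (Finset.univ : Finset (𝓞 E ⧸ P.asIdeal)).val := rfl
    _ ≤ _ := Multiset.card_le_card h7

lemma isFrob_one_of_pn_eq {P : PrI E} (h : pn P = pn (und K P)) : IsFrob K P (1 : E ≃ₐ[K] E) := by
  intro x
  rw [one_smul, ← h]
  haveI : Finite (𝓞 E ⧸ P.asIdeal) := Ideal.finiteQuotientOfFreeOfNeBot P.asIdeal P.ne_bot
  haveI : P.asIdeal.IsMaximal := P.isMaximal
  letI : Field (𝓞 E ⧸ P.asIdeal) := Ideal.Quotient.field P.asIdeal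
  haveI : Fintype (𝓞 E ⧸ P.asIdeal) := Fintype.ofFinite _
  have h1 : pn P = Fintype.card (𝓞 E ⧸ P.asIdeal) := by
    unfold pn
    rw [Ideal.absNorm_apply, Submodule.cardQuot_apply, Nat.card_eq_fintype_card]
  rw [← Ideal.Quotient.eq, map_pow, h1, FiniteField.pow_card]

end frob

section tower

variable {K E₁ E₂ : Type*} [Field K] [NumberField K] [Field E₁] [NumberField E₁] [Field E₂]
  [NumberField E₂] [Algebra K E₁] [Algebra K E₂] [Algebra E₁ E₂] [IsScalarTower K E₁ E₂]

omit [NumberField K] [NumberField E₁] [NumberField E₂] in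
lemma und_und (P : PrI E₂) : und K (und E₁ P) = und K P := by
  apply HeightOneSpectrum.ext
  simp only [HeightOneSpectrum.under_asIdeal]
  exact Ideal.under_under P.asIdeal

omit [NumberField E₁] [NumberField E₂] in
lemma isFrob_und {P : PrI E₂} {σ₂ : E₂ ≃ₐ[K] E₂} {σ₁ : E₁ ≃ₐ[K] E₁}
    (h : ∀ x : E₁, algebraMap E₁ E₂ (σ₁ x) = σ₂ (algebraMap E₁ E₂ x)) (hP : IsFrob K P σ₂) :
    IsFrob K (und E₁ P) σ₁ := by
  intro x
  rw [und_und]
  change algebraMap (𝓞 E₁) (𝓞 E₂) _ ∈ P.asIdeal
  have h1 := hP (algebraMap (𝓞 E₁) (𝓞 E₂) x)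
  rw [map_sub, map_pow]
  have h2 : algebraMap (𝓞 E₁) (𝓞 E₂) (σ₁ • x) = σ₂ • (algebraMap (𝓞 E₁) (𝓞 E₂) x) := by
    apply RingOfIntegers.coe_injective
    rw [coe_smul']
    exact h x
  rw [h2]
  exact h1

lemma unramified_und (P : PrI E₂) [Algebra.IsUnramifiedAt (𝓞 K) P.asIdeal] :
    Algebra.IsUnramifiedAt (𝓞 K) (und E₁ P).asIdeal := by
  haveI : P.asIdeal.LiesOver (und E₁ P).asIdeal := ⟨rfl⟩
  exact Algebra.IsUnramifiedAt.of_liesOver (𝓞 K) (und E₁ P).asIdeal P.asIdeal

end tower

section FZ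

variable {K L : Type*} [Field K] [NumberField K] [Field L] [NumberField L] [Algebra K L]
  [IsGalois K L]

omit [NumberField L] [IsGalois K L] in
lemma exists_ovr (p : PrI K) : ∃ P : PrI L, und K P = p := by
  haveI := p.isMaximal
  obtain ⟨Q, hQ, hQ2⟩ := Ideal.exists_maximal_ideal_liesOver_of_isIntegral (S := 𝓞 L) p.asIdeal
  have h3 : Q ≠ ⊥ := by
    rintro rfl
    apply p.ne_bot
    rw [hQ2.over, Ideal.under, Ideal.comap_bot_of_injective]
    exact FaithfulSMul.algebraMap_injective _ _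
  refine ⟨⟨Q, hQ.isPrime, h3⟩, ?_⟩
  apply HeightOneSpectrum.ext
  exact hQ2.over.symm

/-- Existence of primes with nontrivial Frobenius acting trivially on a subfield. -/
theorem exists_frob (F : IntermediateField K L) [IsGalois K F] (hF : F ≠ ⊤)
    (B : Set (PrI K)) (hB : B.Finite) :
    ∃ P : PrI L, und K P ∉ B ∧ Algebra.IsUnramifiedAt (𝓞 K) P.asIdeal ∧
      ∃ σ : L ≃ₐ[K] L, IsFrob K P σ ∧ (∀ x ∈ F, σ x = x) ∧ σ ≠ 1 := by
  by_contra hcon
  push Not at hcon
  set R : Set (PrI L) := {P : PrI L | ¬ Algebra.IsUnramifiedAt (𝓞 K) P.asIdeal} with hR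
  set B' : Set (PrI K) := B ∪ und K '' R with hB'
  have hB'fin : B'.Finite := hB.union ((finite_ramified K).image _)
  set T : Set (PrI K) := {p | p ∉ B' ∧ ∃ q : PrI F, und K q = p ∧ pn q = pn p} with hT
  have claim1 : ∀ p ∈ T, (ovr K (E := L) p).ncard = Module.finrank K L ∧
      ∀ P : PrI L, und K P = p → pn P = pn p := by
    rintro p ⟨hp1, q, hq1, hq2⟩
    have key : ∀ P : PrI L, und K P = p → pn P = pn p ∧
        Algebra.IsUnramifiedAt (𝓞 K) P.asIdeal := by
      intro P hP
      have hun : Algebra.IsUnramifiedAt (𝓞 K) P.asIdeal := by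
        by_contra hn
        exact hp1 (Or.inr ⟨P, hn, hP⟩)
      refine ⟨?_, hun⟩
      obtain ⟨σ, hσ⟩ := exists_isFrob (K := K) P
      have h1 : und K (und F P) = p := by rw [und_und, hP]
      have h2 : pn (und F P) = pn (und K (und F P)) := by
        rw [h1, ← hq2]
        exact pn_eq_of_und_eq K (by rw [h1, hq1])
      haveI : Algebra.IsUnramifiedAt (𝓞 K) (und F P).asIdeal := unramified_und P
      have h3 : IsFrob K (und F P) (σ.restrictNormal F) :=
        isFrob_und (fun x => σ.restrictNormal_commutes F x) hσ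
      have h4 : σ.restrictNormal F = 1 := isFrob_unique h3 (isFrob_one_of_pn_eq h2)
      have h5 : ∀ x ∈ F, σ x = x := by
        intro x hx
        have := σ.restrictNormal_commutes F ⟨x, hx⟩
        rw [h4] at this
        exact this.symm
      have h6 : σ = 1 := hcon P (fun h => hp1 (Or.inl (hP ▸ h))) hun σ hσ h5
      rw [h6] at hσ
      rw [pn_eq_of_isFrob_one hσ, hP]
    refine ⟨?_, fun P hP => (key P hP).1⟩
    obtain ⟨P, hP⟩ := exists_ovr (L := L) p
    haveI := (key P hP).2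
    have := ncard_ovr_eq K (P := P) (by rw [(key P hP).1, hP])
    rwa [hP] at this
  -- upper bound for the prime sum of F
  set g : ℝ → PrI K → ℝ := fun s p => T.indicator (px s) p + px 2 p + B'.indicator (fun _ => 1) p
    with hg
  have hsumB : Summable (B'.indicator (fun _ => (1 : ℝ)) : PrI K → ℝ) := by
    apply summable_of_hasFiniteSupport
    exact hB'fin.subset (Set.support_indicator_subset)
  have hsumT : ∀ s : ℝ, 1 < s → Summable (T.indicator (px s) : PrI K → ℝ) :=
    fun s hs => (summable_px hs).indicator T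
  have hg0 : ∀ s p, 0 ≤ g s p := by
    intro s p
    have h1 : 0 ≤ T.indicator (px s) p := Set.indicator_nonneg (fun x _ => (px_pos s x).le) p
    have h2 : (0 : ℝ) ≤ B'.indicator (fun _ => (1 : ℝ)) p :=
      Set.indicator_nonneg (fun x _ => zero_le_one) p
    have h3 := (px_pos 2 p).le
    simp only [hg]
    linarith
  have hgs : ∀ s : ℝ, 1 < s → Summable (g s) := fun s hs =>
    ((hsumT s hs).add (summable_px one_lt_two)).add hsumB
  have claim2 : ∀ s : ℝ, 1 < s → ∀ q : PrI F, px s q ≤ g s (und K q) := by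
    intro s hs q
    have h1 : 0 ≤ T.indicator (px s) (und K q) :=
      Set.indicator_nonneg (fun x _ => (px_pos s x).le) _
    have h2 : (0 : ℝ) ≤ B'.indicator (fun _ => (1 : ℝ)) (und K q) :=
      Set.indicator_nonneg (fun x _ => zero_le_one) _
    have h3 := (px_pos 2 (und K q)).le
    simp only [hg]
    by_cases hb : und K q ∈ B'
    · have h4 := px_le_half hs.le q
      rw [Set.indicator_of_mem hb]
      linarith
    · by_cases hq : pn q = pn (und K q)
      · have h5 : und K q ∈ T := ⟨hb, q, rfl, hq⟩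
        rw [Set.indicator_of_mem h5]
        have h6 : px s q = px s (und K q) := by rw [px, px, hq]
        linarith
      · have h5 := pn_sq_le K hq
        have h6 : px s q ≤ px 2 (und K q) := by
          have h7 := two_le_pn (und K q)
          have h8 : (2 : ℝ) ≤ (pn (und K q) : ℝ) := by exact_mod_cast h7
          have h9 : ((pn (und K q) : ℝ)) ^ 2 ≤ (pn q : ℝ) := by exact_mod_cast h5
          unfold px
          calc (pn q : ℝ) ^ (-s) ≤ ((pn (und K q) : ℝ) ^ 2) ^ (-s) := by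
                apply Real.rpow_le_rpow_of_nonpos (by positivity) h9 (by linarith)
            _ = (pn (und K q) : ℝ) ^ (-(2 * s)) := by
                rw [← Real.rpow_natCast, ← Real.rpow_mul (by positivity)]
                congr 1
                push_cast
                ring
            _ ≤ (pn (und K q) : ℝ) ^ (-2 : ℝ) := by
                apply Real.rpow_le_rpow_of_exponent_le (by linarith) (by linarith)
        linarith
  have up : ∀ s : ℝ, 1 < s → primeSum F s ≤ Module.finrank K F *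
      (∑' p, T.indicator (px s) p + primeSum K 2 + ∑' p, B'.indicator (fun _ => (1 : ℝ)) p) := by
    intro s hs
    have h1 := primeSum_le_of K (E := F) (g s) (hg0 s) (hgs s hs) (claim2 s hs)
    have h2 : ∑' p, g s p = ∑' p, T.indicator (px s) p + primeSum K 2 +
        ∑' p, B'.indicator (fun _ => (1 : ℝ)) p := by
      simp only [hg]
      rw [((hsumT s hs).add (summable_px one_lt_two)).tsum_add hsumB,
        (hsumT s hs).tsum_add (summable_px one_lt_two)]
      rfl
    rwa [h2] at h1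
  have low : ∀ s : ℝ, 1 < s → Module.finrank K L * ∑' p, T.indicator (px s) p ≤ primeSum L s :=
    fun s hs => le_primeSum_of K hs T claim1
  obtain ⟨CL, hCL⟩ := primeSum_asymp L
  obtain ⟨CF, hCF⟩ := primeSum_asymp F
  set β : ℝ := ∑' p, B'.indicator (fun _ => (1 : ℝ)) p with hβ
  -- degrees
  have hdeg : 2 * Module.finrank K F ≤ Module.finrank K L := by
    have h1 := Module.finrank_mul_finrank K F L
    have h2 : Module.finrank F L ≠ 1 := by
      intro h3
      apply hF
      exact IntermediateField.finrank_eq_one_iff_eq_top.1 h3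
    have h3 : 0 < Module.finrank F L := Module.finrank_pos
    have h4 : 2 ≤ Module.finrank F L := by omega
    rw [← h1, mul_comm]
    exact Nat.mul_le_mul_left _ h4
  set a : ℝ := (Module.finrank K F : ℝ) with ha
  set b : ℝ := (Module.finrank K L : ℝ) with hb
  have ha1 : 1 ≤ a := by
    rw [ha]
    exact_mod_cast (Module.finrank_pos : 0 < Module.finrank K F)
  have hab : 2 * a ≤ b := by rw [ha, hb]; exact_mod_cast hdeg
  -- choose s
  have hlog : Tendsto (fun s : ℝ => -Real.log (s - 1)) (𝓝[>] 1) atTop := by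
    have h1 : Tendsto (fun s : ℝ => s - 1) (𝓝[>] 1) (𝓝[>] 0) := by
      have h2 : Tendsto (fun s : ℝ => s - 1) (𝓝 1) (𝓝 0) := by
        have h3 : Continuous fun s : ℝ => s - 1 := by fun_prop
        have h4 := h3.tendsto 1
        rwa [sub_self] at h4
      refine tendsto_nhdsWithin_iff.2 ⟨h2.mono_left nhdsWithin_le_nhds, ?_⟩
      filter_upwards [self_mem_nhdsWithin] with s hs
      have : (1 : ℝ) < s := hs
      simpa using this
    exact tendsto_neg_atBot_atTop.comp (Real.tendsto_log_nhdsGT_zero.comp h1)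
  have hev := (hlog.eventually_gt_atTop (CL + 2 * (CF + a * (primeSum K 2 + β)))).and
    ((hCL.and hCF).and self_mem_nhdsWithin)
  obtain ⟨s, hs1, ⟨hs2, hs3⟩, hs4⟩ := hev.exists
  have hs5 : (1 : ℝ) < s := hs4
  have e1 := up s hs5
  have e2 := low s hs5
  rw [abs_le] at hs2 hs3
  set S : ℝ := ∑' p, T.indicator (px s) p with hS
  have hS0 : 0 ≤ S := tsum_nonneg fun p => Set.indicator_nonneg (fun x _ => (px_pos s x).le) p
  have e3 : 2 * a * S ≤ b * S := mul_le_mul_of_nonneg_right hab hS0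
  nlinarith [hs2.2, hs3.1]

end FZ

end Pool.Agent.ST
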