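import Pool.Agent.Lib.MP_1ef7cf_nt.Mg.G001

/-!
Abelian extensions inside `ℝ` generated by square roots.
-/

set_option linter.style.haveILetI false

open IntermediateField Polynomial

namespace Pool.Agent.ST

variable {K : Type*} [Field K] [Algebra K ℝ] {H L M Ω : IntermediateField K ℝ}

lemma charZero_base (K : Type*) [Field K] [Algebra K ℝ] : CharZero K :=
  (algebraMap K ℝ).charZero

lemma isGalois_of_normal (L : IntermediateField K ℝ) [Normal K L] : IsGalois K L := by
  haveI := charZero_base K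
  haveI : Algebra.IsSeparable K L := inferInstance
  exact ⟨⟩

lemma isAbelianGalois_of_comm [Normal K L]
    (h : ∀ γ δ : L ≃ₐ[K] L, γ * δ = δ * γ) : IsAbelianGalois K L :=
  haveI := isGalois_of_normal L
  { is_comm := ⟨h⟩ }

lemma isAbelianGalois_sup [IsAbelianGalois K L] [IsAbelianGalois K M] :
    IsAbelianGalois K (L ⊔ M : IntermediateField K ℝ) := by
  apply isAbelianGalois_of_comm
  intro γ δ
  have hL : L ≤ L ⊔ M := le_sup_left
  have hM : M ≤ L ⊔ M := le_sup_right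
  apply eq_of_eq_on_sup (L₁ := L) (L₂ := M) le_rfl hL hM
  · intro x hx
    rw [act_comp _ _ (hL hx), act_comp _ _ (hL hx), ← act_res hL δ hx, ← act_res hL γ hx,
      ← act_res hL γ (act_mem _ hx), ← act_res hL δ (act_mem _ hx), act_act_comm _ _ hx]
  · intro x hx
    rw [act_comp _ _ (hM hx), act_comp _ _ (hM hx), ← act_res hM δ hx, ← act_res hM γ hx,
      ← act_res hM γ (act_mem _ hx), ← act_res hM δ (act_mem _ hx), act_act_comm _ _ hx]

lemma eq_of_eq_on_sqrtExt {u : ℝ} {γ δ : sqrtExt H u ≃ₐ[K] sqrtExt H u}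
    (e1 : ∀ x ∈ H, act γ x = act δ x) (e2 : act γ (Real.sqrt u) = act δ (Real.sqrt u)) :
    γ = δ := by
  have h2 : K⟮Real.sqrt u⟯ ≤ eqField γ δ := by
    rw [adjoin_simple_le_iff]
    exact ⟨sqrt_mem_sqrtExt H u, e2⟩
  apply eq_of_eq_on_sup (L₁ := H) (L₂ := K⟮Real.sqrt u⟯) le_rfl (le_sqrtExt H u)
    (le_sup_right : K⟮Real.sqrt u⟯ ≤ sqrtExt H u) e1
  intro x hx
  exact (h2 hx).2

/-- an automorphism maps `√u` to `± √(γ u)`. -/
lemma act_sqrt {u : ℝ} (hu : Real.sqrt u ∈ M) (h0 : 0 ≤ u) (γ : M ≃ₐ[K] M) :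
    ∃ s : ℝ, (s = 1 ∨ s = -1) ∧ act γ (Real.sqrt u) = s * Real.sqrt (act γ u) := by
  have h1 : (act γ (Real.sqrt u)) ^ 2 = act γ u := by
    rw [← act_pow γ hu, Real.sq_sqrt h0]
  rcases le_total 0 (act γ (Real.sqrt u)) with h | h
  · refine ⟨1, Or.inl rfl, ?_⟩
    rw [← h1, Real.sqrt_sq h, one_mul]
  · refine ⟨-1, Or.inr rfl, ?_⟩
    rw [← h1, Real.sqrt_sq_eq_abs, abs_of_nonpos h]; ring

lemma act_const {s : ℝ} (hs : s = 1 ∨ s = -1) (γ : M ≃ₐ[K] M) : act γ s = s := by
  rcases hs with rfl | rfl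
  · exact act_one_right γ
  · exact act_neg_one γ

lemma const_mem {s : ℝ} (hs : s = 1 ∨ s = -1) (M : IntermediateField K ℝ) : s ∈ M := by
  rcases hs with rfl | rfl
  · exact one_mem _
  · exact neg_mem (one_mem _)

/-- Criterion for `H(√u)/K` to be abelian. -/
lemma isAbelianGalois_sqrtExt [FiniteDimensional K H] [IsAbelianGalois K H] {u : ℝ} (hu : u ∈ H)
    (hpos : ∀ σ : H ≃ₐ[K] H, 0 < act σ u)
    (hc : ∀ σ : H ≃ₐ[K] H, Real.sqrt (act σ u) / Real.sqrt u ∈ H)
    (hcomm : ∀ σ τ : H ≃ₐ[K] H,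
      act τ (Real.sqrt (act σ u) / Real.sqrt u) * (Real.sqrt (act τ u) / Real.sqrt u) =
      act σ (Real.sqrt (act τ u) / Real.sqrt u) * (Real.sqrt (act σ u) / Real.sqrt u)) :
    IsAbelianGalois K (sqrtExt H u) := by
  have hu0 : 0 < u := by have := hpos 1; rwa [act_one_left hu] at this
  have hs0 : Real.sqrt u ≠ 0 := (Real.sqrt_pos.2 hu0).ne'
  have hHL := le_sqrtExt H u
  have hsL := sqrt_mem_sqrtExt H u
  haveI : Normal K (sqrtExt H u) := by
    apply normal_sqrtExt hu (fun σ => (hpos σ).le)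
    intro σ
    have : Real.sqrt (act σ u) = Real.sqrt (act σ u) / Real.sqrt u * Real.sqrt u := by
      field_simp
    rw [this]
    exact mul_mem (hHL (hc σ)) hsL
  apply isAbelianGalois_of_comm
  intro γ δ
  apply eq_of_eq_on_sqrtExt
  · intro x hx
    rw [act_comp _ _ (hHL hx), act_comp _ _ (hHL hx), ← act_res hHL δ hx, ← act_res hHL γ hx,
      ← act_res hHL γ (act_mem _ hx), ← act_res hHL δ (act_mem _ hx), act_act_comm _ _ hx]
  · obtain ⟨s, hs, hs'⟩ := act_sqrt hsL hu0.le γ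
    obtain ⟨t, ht, ht'⟩ := act_sqrt hsL hu0.le δ
    set σ := res hHL γ with hσ
    set τ := res hHL δ with hτ
    rw [← act_res hHL γ hu, ← hσ] at hs'
    rw [← act_res hHL δ hu, ← hτ] at ht'
    set a := Real.sqrt (act σ u) / Real.sqrt u with ha
    set b := Real.sqrt (act τ u) / Real.sqrt u with hb
    have ha1 : Real.sqrt (act σ u) = a * Real.sqrt u := by rw [ha]; field_simp
    have hb1 : Real.sqrt (act τ u) = b * Real.sqrt u := by rw [hb]; field_simp
    have haH : a ∈ H := hc σ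
    have hbH : b ∈ H := hc τ
    have hcm : act τ a * b = act σ b * a := hcomm σ τ
    rw [ha1] at hs'
    rw [hb1] at ht'
    have e1 : act γ b = act σ b := by rw [hσ, act_res hHL γ hbH]
    have e2 : act δ a = act τ a := by rw [hτ, act_res hHL δ haH]
    rw [act_comp _ _ hsL, act_comp _ _ hsL, hs', ht',
      act_mul _ (const_mem ht _) (mul_mem (hHL hbH) hsL), act_mul _ (hHL hbH) hsL,
      act_mul _ (const_mem hs _) (mul_mem (hHL haH) hsL), act_mul _ (hHL haH) hsL,
      act_const ht, act_const hs, hs', ht', e1, e2]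
    calc t * (act σ b * (s * (a * Real.sqrt u))) = t * s * Real.sqrt u * (act σ b * a) := by ring
      _ = t * s * Real.sqrt u * (act τ a * b) := by rw [hcm]
      _ = s * (act τ a * (t * (b * Real.sqrt u))) := by ring

end Pool.Agent.ST
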