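import Mathlib

/-!
Total version of the action of a Galois group of a subfield `H` of `ℝ` on real numbers,
restriction maps between Galois groups of subfields of `ℝ`, and a fixed point criterion.
-/

open IntermediateField

namespace Pool.Agent.ST

variable {K : Type*} [Field K] [Algebra K ℝ]

/-- Total version of the action of `σ ∈ Gal(H/K)` on real numbers (junk value `0` outside `H`). -/
noncomputable def act {H : IntermediateField K ℝ} (σ : H ≃ₐ[K] H) (x : ℝ) : ℝ :=
  open Classical in if hx : x ∈ H then ((σ ⟨x, hx⟩ : H) : ℝ) else 0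

section basic

variable {H : IntermediateField K ℝ} (σ τ : H ≃ₐ[K] H) {x y : ℝ}

lemma act_of_mem (hx : x ∈ H) : act σ x = ((σ ⟨x, hx⟩ : H) : ℝ) := dif_pos hx

lemma act_coe (x : H) : act σ (x : ℝ) = ((σ x : H) : ℝ) := act_of_mem σ x.2

lemma act_mem (hx : x ∈ H) : act σ x ∈ H := by
  rw [act_of_mem σ hx]; exact (σ ⟨x, hx⟩).2

lemma act_mul (hx : x ∈ H) (hy : y ∈ H) : act σ (x * y) = act σ x * act σ y := by
  lift x to H using hx
  lift y to H using hy
  rw [← MulMemClass.coe_mul, act_coe, act_coe, act_coe, map_mul, MulMemClass.coe_mul]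

lemma act_add (hx : x ∈ H) (hy : y ∈ H) : act σ (x + y) = act σ x + act σ y := by
  lift x to H using hx
  lift y to H using hy
  rw [← AddMemClass.coe_add, act_coe, act_coe, act_coe, map_add, AddMemClass.coe_add]

lemma act_neg (hx : x ∈ H) : act σ (-x) = - act σ x := by
  lift x to H using hx
  rw [← NegMemClass.coe_neg, act_coe, act_coe, map_neg, NegMemClass.coe_neg]

lemma act_inv (hx : x ∈ H) : act σ (x⁻¹) = (act σ x)⁻¹ := by
  lift x to H using hx
  have : ((x⁻¹ : H) : ℝ) = (x : ℝ)⁻¹ := rfl
  rw [← this, act_coe, act_coe, map_inv₀]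
  rfl

lemma act_div (hx : x ∈ H) (hy : y ∈ H) : act σ (x / y) = act σ x / act σ y := by
  rw [div_eq_mul_inv, div_eq_mul_inv, act_mul σ hx (inv_mem hy), act_inv σ hy]

lemma act_algebraMap (a : K) : act σ (algebraMap K ℝ a) = algebraMap K ℝ a := by
  have h : algebraMap K ℝ a ∈ H := H.algebraMap_mem a
  rw [act_of_mem σ h]
  have : (⟨algebraMap K ℝ a, h⟩ : H) = algebraMap K H a := rfl
  rw [this, σ.commutes]; rfl

lemma act_one_right : act σ (1 : ℝ) = 1 := by
  have := act_algebraMap σ (1 : K)
  simpa using this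

lemma act_neg_one : act σ (-1 : ℝ) = -1 := by
  have := act_algebraMap σ (-1 : K)
  simpa using this

lemma act_pow (hx : x ∈ H) (n : ℕ) : act σ (x ^ n) = (act σ x) ^ n := by
  induction n with
  | zero => simp [act_one_right]
  | succ n ih => rw [pow_succ, pow_succ, act_mul σ (pow_mem hx n) hx, ih]

lemma act_prod {ι : Type*} (s : Finset ι) (f : ι → ℝ) (hf : ∀ i ∈ s, f i ∈ H) :
    act σ (∏ i ∈ s, f i) = ∏ i ∈ s, act σ (f i) := by
  classical
  induction s using Finset.induction_on with
  | empty => simp [act_one_right]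
  | insert a s ha ih =>
    rw [Finset.prod_insert ha, Finset.prod_insert ha,
      act_mul σ (hf a (Finset.mem_insert_self _ _))
        (prod_mem fun i hi => hf i (Finset.mem_insert_of_mem hi)),
      ih fun i hi => hf i (Finset.mem_insert_of_mem hi)]

lemma act_one_left (hx : x ∈ H) : act (1 : H ≃ₐ[K] H) x = x := by
  rw [act_of_mem _ hx]; rfl

lemma act_comp (hx : x ∈ H) : act (σ * τ) x = act σ (act τ x) := by
  rw [act_of_mem _ hx, act_of_mem τ hx, act_coe]; rfl

lemma act_inv_act (hx : x ∈ H) : act σ⁻¹ (act σ x) = x := by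
  rw [← act_comp _ _ hx, inv_mul_cancel, act_one_left hx]

lemma act_act_inv (hx : x ∈ H) : act σ (act σ⁻¹ x) = x := by
  rw [← act_comp _ _ hx, mul_inv_cancel, act_one_left hx]

lemma act_ne_zero (hx : x ∈ H) (h0 : x ≠ 0) : act σ x ≠ 0 := by
  intro h
  have := act_inv_act σ hx
  rw [h, show (0 : ℝ) = ((0 : H) : ℝ) from rfl, act_coe, map_zero] at this
  exact h0 (by rw [← this]; rfl)

lemma act_inj (hx : x ∈ H) (hy : y ∈ H) (h : act σ x = act σ y) : x = y := by
  rw [← act_inv_act σ hx, h, act_inv_act σ hy]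

lemma act_ext (h : ∀ x ∈ H, act σ x = act τ x) : σ = τ := by
  ext x
  rw [← act_coe, ← act_coe]
  exact h x x.2

end basic

section res

variable {H L M : IntermediateField K ℝ}

/-- Restriction map `Gal(L/K) → Gal(H/K)` for subfields `H ≤ L` of `ℝ`. -/
noncomputable def res (h : H ≤ L) [Normal K H] : (L ≃ₐ[K] L) →* (H ≃ₐ[K] H) :=
  letI := (inclusion h).toAlgebra
  haveI : IsScalarTower K H L := IsScalarTower.of_algebraMap_eq' rfl
  AlgEquiv.restrictNormalHom H

lemma act_res (h : H ≤ L) [Normal K H] (γ : L ≃ₐ[K] L) {x : ℝ} (hx : x ∈ H) :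
    act (res h γ) x = act γ x := by
  letI := (inclusion h).toAlgebra
  haveI : IsScalarTower K H L := IsScalarTower.of_algebraMap_eq' rfl
  lift x to H using hx
  rw [act_coe, act_of_mem γ (h x.2)]
  have := AlgEquiv.restrictNormal_commutes γ H x
  exact congrArg (fun z : L => (z : ℝ)) this

lemma res_surjective (h : H ≤ L) [Normal K H] [Normal K L] :
    Function.Surjective (res h) := by
  letI := (inclusion h).toAlgebra
  haveI : IsScalarTower K H L := IsScalarTower.of_algebraMap_eq' rfl
  exact AlgEquiv.restrictNormalHom_surjective L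

lemma res_res (h1 : H ≤ L) (h2 : L ≤ M) [Normal K H] [Normal K L] (γ : M ≃ₐ[K] M) :
    res h1 (res h2 γ) = res (h1.trans h2) γ := by
  apply act_ext
  intro x hx
  rw [act_res h1 _ hx, act_res h2 _ (h1 hx), act_res _ _ hx]

lemma res_eq_one_iff (h : H ≤ L) [Normal K H] (γ : L ≃ₐ[K] L) :
    res h γ = 1 ↔ ∀ x ∈ H, act γ x = x := by
  constructor
  · intro h1 x hx
    rw [← act_res h γ hx, h1, act_one_left hx]
  · intro h1
    apply act_ext
    intro x hx
    rw [act_res h _ hx, act_one_left hx, h1 x hx]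

/-- Fixed point criterion: an element of the finite Galois extension `L` of `K` that is fixed by
all elements of `Gal(L/K)` fixing `H` lies in `H`. -/
lemma mem_of_fixed (h : H ≤ L) [FiniteDimensional K L] [IsGalois K L] {x : ℝ} (hx : x ∈ L)
    (hfix : ∀ γ : L ≃ₐ[K] L, (∀ y ∈ H, act γ y = y) → act γ x = x) : x ∈ H := by
  have key : (⟨x, hx⟩ : L) ∈ IntermediateField.fixedField
      (IntermediateField.fixingSubgroup (IntermediateField.restrict h)) := by
    rw [IntermediateField.mem_fixedField_iff]
    intro γ hγ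
    have h1 : ∀ y ∈ H, act γ y = y := by
      intro y hy
      have hy' : (⟨y, h hy⟩ : L) ∈ IntermediateField.restrict h := by
        rw [IntermediateField.mem_restrict]; exact hy
      have h2 := (IntermediateField.mem_fixingSubgroup_iff _ _).1 hγ _ hy'
      rw [act_of_mem γ (h hy)]
      exact congrArg (fun z : L => (z : ℝ)) h2
    have h3 := hfix γ h1
    rw [act_of_mem γ hx] at h3
    exact Subtype.ext h3
  rw [IsGalois.fixedField_fixingSubgroup, IntermediateField.mem_restrict] at key
  exact key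

end res

end Pool.Agent.ST
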