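import Mathlib

/-!
# Ray class groups, ray class fields and partial zeta functions of real quadratic fields

Definitions used in the statement of the main theorem.
-/

open NumberField IsDedekindDomain nonZeroDivisors IntermediateField

namespace Pool.Agent.ST

section defs

/-- The fractional ideals of the number field `K`. -/
abbrev FI (K : Type*) [Field K] [NumberField K] := FractionalIdeal (𝓞 K)⁰ K

variable {K : Type*} [Field K] [NumberField K]

/-- The group of nonzero fractional ideals of `K` prime to the integral ideal `m`: those in whose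
factorization no prime ideal dividing `m` occurs. -/
noncomputable def primeTo (m : Ideal (𝓞 K)) : Subgroup (FI K)ˣ where
  carrier := {J | ∀ v : HeightOneSpectrum (𝓞 K), v.asIdeal ∣ m →
    FractionalIdeal.count K v (J : FI K) = 0}
  one_mem' := by
    intro v _
    rw [Units.val_one, FractionalIdeal.count_one]
  mul_mem' := by
    intro a b ha hb v hv
    rw [Units.val_mul, FractionalIdeal.count_mul K v a.ne_zero b.ne_zero, ha v hv, hb v hv,
      add_zero]
  inv_mem' := by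
    intro a ha v hv
    rw [Units.val_inv_eq_inv_val, FractionalIdeal.count_inv, ha v hv, neg_zero]

/-- `α ≡ 1` modulo `m`, multiplicatively: `α = a / b` with `a`, `b` integers of `K`, `b` prime to
`m` and `a ≡ b` modulo `m`. -/
def OneMod (m : Ideal (𝓞 K)) (α : K) : Prop :=
  ∃ a b : 𝓞 K, IsCoprime (Ideal.span {b}) m ∧ a - b ∈ m ∧ α = (a : K) / (b : K)

omit [NumberField K] in
lemma OneMod.one (m : Ideal (𝓞 K)) : OneMod m (1 : K) :=
  ⟨1, 1, by
    rw [Ideal.isCoprime_iff_sup_eq, Ideal.span_singleton_one, top_sup_eq], by simp, by simp⟩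

omit [NumberField K] in
lemma OneMod.mul {m : Ideal (𝓞 K)} {α β : K} (hα : OneMod m α) (hβ : OneMod m β) :
    OneMod m (α * β) := by
  obtain ⟨a, b, hb, hab, rfl⟩ := hα
  obtain ⟨c, d, hd, hcd, rfl⟩ := hβ
  refine ⟨a * c, b * d, ?_, ?_, ?_⟩
  · rw [← Ideal.span_singleton_mul_span_singleton]
    exact hb.mul_left hd
  · have : a * c - b * d = a * (c - d) + d * (a - b) := by ring
    rw [this]
    exact m.add_mem (m.mul_mem_left _ hcd) (m.mul_mem_left _ hab)
  · push_cast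
    rw [div_mul_div_comm]

omit [NumberField K] in
lemma coprime_of_sub_mem {m : Ideal (𝓞 K)} {a b : 𝓞 K} (hb : IsCoprime (Ideal.span {b}) m)
    (hab : a - b ∈ m) : IsCoprime (Ideal.span {a}) m := by
  rw [Ideal.isCoprime_iff_exists] at hb ⊢
  obtain ⟨x, hx, y, hy, hxy⟩ := hb
  obtain ⟨c, rfl⟩ := Ideal.mem_span_singleton'.1 hx
  refine ⟨c * a, Ideal.mem_span_singleton'.2 ⟨c, rfl⟩, y - c * (a - b),
    m.sub_mem hy (m.mul_mem_left _ hab), ?_⟩
  linear_combination hxy

omit [NumberField K] in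
lemma OneMod.inv {m : Ideal (𝓞 K)} {α : K} (hα : OneMod m α) : OneMod m α⁻¹ := by
  obtain ⟨a, b, hb, hab, rfl⟩ := hα
  refine ⟨b, a, coprime_of_sub_mem hb hab, ?_, ?_⟩
  · have : b - a = -(a - b) := by ring
    rw [this]
    exact m.neg_mem hab
  · rw [inv_div]

/-- The subgroup of `primeTo m` of the principal ideals `(α)` with `α ≡ 1` modulo `m`
(multiplicatively) and `σ₂ α > 0`. -/
noncomputable def ray (σ₂ : K →+* ℝ) (m : Ideal (𝓞 K)) : Subgroup (primeTo m) where
  carrier := {J | ∃ α : K, OneMod m α ∧ 0 < σ₂ α ∧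
    ((J : (FI K)ˣ) : FI K) = FractionalIdeal.spanSingleton (𝓞 K)⁰ α}
  one_mem' := ⟨1, OneMod.one m, by simp, by simp⟩
  mul_mem' := by
    rintro J J' ⟨α, h1, h2, h3⟩ ⟨β, g1, g2, g3⟩
    refine ⟨α * β, h1.mul g1, by rw [map_mul]; exact mul_pos h2 g2, ?_⟩
    rw [Subgroup.coe_mul, Units.val_mul, h3, g3, FractionalIdeal.spanSingleton_mul_spanSingleton]
  inv_mem' := by
    rintro J ⟨α, h1, h2, h3⟩
    refine ⟨α⁻¹, h1.inv, by rw [map_inv₀]; exact inv_pos.2 h2, ?_⟩
    rw [Subgroup.coe_inv, Units.val_inv_eq_inv_val, h3, FractionalIdeal.spanSingleton_inv]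

/-- The ray class group of modulus `m ∞₂`, where `∞₂` is the real place given by `σ₂`. -/
def RayClassGroup (σ₂ : K →+* ℝ) (m : Ideal (𝓞 K)) := primeTo m ⧸ ray σ₂ m

noncomputable instance (σ₂ : K →+* ℝ) (m : Ideal (𝓞 K)) : CommGroup (RayClassGroup σ₂ m) :=
  inferInstanceAs (CommGroup (primeTo m ⧸ ray σ₂ m))

/-- The ray class of a fractional ideal prime to `m`. -/
noncomputable def cls (σ₂ : K →+* ℝ) (m : Ideal (𝓞 K)) : primeTo m →* RayClassGroup σ₂ m :=
  QuotientGroup.mk' (ray σ₂ m)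

/-- The integral ideals in the ray class `A`. -/
def idealsOf (σ₂ : K →+* ℝ) (m : Ideal (𝓞 K)) (A : RayClassGroup σ₂ m) : Set (Ideal (𝓞 K)) :=
  {I | ∃ J : primeTo m, ((J : (FI K)ˣ) : FI K) = (I : FI K) ∧ cls σ₂ m J = A}

/-- `Z` is the partial zeta function of the ray class `A`: the analytic continuation to `ℂ ∖ {1}`
of the sum of `N(𝔞) ^ (-s)` over the integral ideals `𝔞` in `A`. -/
def IsPartialZeta (σ₂ : K →+* ℝ) (m : Ideal (𝓞 K)) (A : RayClassGroup σ₂ m) (Z : ℂ → ℂ) : Prop :=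
  AnalyticOnNhd ℂ Z {1}ᶜ ∧
    ∀ s : ℂ, 1 < s.re → Z s = ∑' I : idealsOf σ₂ m A, ((Ideal.absNorm I.1 : ℕ) : ℂ) ^ (-s)

variable [Algebra K ℝ]

/-- `H` (a subfield of `ℝ` containing `K`) is the ray class field of modulus `m ∞₂` and `Art` is
the Artin isomorphism: `H / K` is a finite Galois extension, and for each prime ideal `𝔭` not
dividing `m` and each prime ideal `P` of `H` above `𝔭`, `P` is unramified over `K` and the image of
the class of `𝔭` is the Frobenius automorphism at `P`. -/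
structure IsRayClassField (σ₂ : K →+* ℝ) (m : Ideal (𝓞 K)) (H : IntermediateField K ℝ)
    (Art : RayClassGroup σ₂ m ≃* (H ≃ₐ[K] H)) : Prop where
  finite : FiniteDimensional K H
  galois : IsGalois K H
  frob : ∀ (v : HeightOneSpectrum (𝓞 K)) (J : primeTo m), ((J : (FI K)ˣ) : FI K) = v.asIdeal →
    ∀ (P : Ideal (𝓞 H)) [P.IsPrime], P.under (𝓞 K) = v.asIdeal →
      Algebra.IsUnramifiedAt (𝓞 K) P ∧
      ∀ x : 𝓞 H, Art (cls σ₂ m J) • x - x ^ Ideal.absNorm v.asIdeal ∈ P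

/-- The assertion of Q1 for `(K, m)`: the conditions 1-3 of `Stark(K, m)` hold, and for each ray
class `A` the extension `H(√ε_A) / K` is abelian. -/
def StarkTate (σ₂ : K →+* ℝ) (m : Ideal (𝓞 K)) : Prop :=
  ∃ (H : IntermediateField K ℝ) (Art : RayClassGroup σ₂ m ≃* (H ≃ₐ[K] H))
    (Z : RayClassGroup σ₂ m → ℂ → ℂ) (ε : RayClassGroup σ₂ m → (𝓞 H)ˣ),
    IsRayClassField σ₂ m H Art ∧
    (∀ A, IsPartialZeta σ₂ m A (Z A)) ∧
    (∀ A, ((((ε A : 𝓞 H) : H) : ℝ) : ℂ) = Complex.exp (-2 * deriv (Z A) 0)) ∧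
    (∀ A B, Art B ((ε A : 𝓞 H) : H) = ((ε (A * B) : 𝓞 H) : H)) ∧
    (∀ A, ∀ g : H →+* ℂ, (∀ a : K, g (algebraMap K H a) = (σ₂ a : ℂ)) →
      ‖g ((ε A : 𝓞 H) : H)‖ = 1) ∧
    (∀ A, IsAbelianGalois K (H ⊔ K⟮√(((ε A : 𝓞 H) : H) : ℝ)⟯ : IntermediateField K ℝ))

end defs

end Pool.Agent.ST
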