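import Pool.Agent.Lib.MP_1ef7cf_nt.SDefs
import Pool.Agent.Lib.MP_1ef7cf_nt.Defs

/-!
# The definitions used in the statement agree with those used in the proof
-/

open NumberField IsDedekindDomain nonZeroDivisors IntermediateField

namespace Pool.Agent.StarkRQ

variable {K : Type*} [Field K] [NumberField K]

lemma primeTo_eq (m : Ideal (𝓞 K)) : (primeTo m : Subgroup (IdealGroup K)) = ST.primeTo m := rfl

lemma primeToT_eq (m : Ideal (𝓞 K)) : (PrimeTo m) = (ST.primeTo m : Type _) := rfl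

lemma ray_eq (σ₂ : K →+* ℝ) (m : Ideal (𝓞 K)) : ray σ₂ m = ST.ray σ₂ m := rfl

lemma rayClassGroup_eq (σ₂ : K →+* ℝ) (m : Ideal (𝓞 K)) :
    RayClassGroup σ₂ m = ST.RayClassGroup σ₂ m := rfl

lemma idealsOf_eq (σ₂ : K →+* ℝ) (m : Ideal (𝓞 K)) (A : RayClassGroup σ₂ m) :
    idealsOf σ₂ m A = ST.idealsOf σ₂ m A := rfl

lemma isPartialZeta_iff (σ₂ : K →+* ℝ) (m : Ideal (𝓞 K)) (A : RayClassGroup σ₂ m) (Z : ℂ → ℂ) :
    IsPartialZeta σ₂ m A Z ↔ ST.IsPartialZeta σ₂ m A Z := Iff.rfl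

variable [Algebra K ℝ]

lemma isRayClassField_iff (σ₂ : K →+* ℝ) (m : Ideal (𝓞 K)) (H : IntermediateField K ℝ)
    (Art : RayClassGroup σ₂ m ≃* (H ≃ₐ[K] H)) :
    IsRayClassField σ₂ m H Art ↔ ST.IsRayClassField σ₂ m H Art :=
  ⟨fun h => ⟨h.finite, h.galois, h.frob⟩, fun h => ⟨h.finite, h.galois, h.frob⟩⟩

theorem starkTate_iff (σ₂ : K →+* ℝ) (m : Ideal (𝓞 K)) :
    StarkTate σ₂ m ↔ ST.StarkTate σ₂ m := by
  constructor
  · rintro ⟨H, Art, Z, ε, h1, h2, h3, h4⟩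
    exact ⟨H, Art, Z, ε, (isRayClassField_iff σ₂ m H Art).1 h1, h2, h3.1, h3.2, h3.3, h4⟩
  · rintro ⟨H, Art, Z, ε, h1, h2, h3, h4, h5, h6⟩
    exact ⟨H, Art, Z, ε, (isRayClassField_iff σ₂ m H Art).2 h1, h2, ⟨h3, h4, h5⟩, h6⟩

end Pool.Agent.StarkRQ
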