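import Pool.Agent.Lib.MP_1ef7cf_nt.Weak

/-!
# The assertion for the square roots of the ratios
-/

open NumberField IsDedekindDomain nonZeroDivisors IntermediateField

namespace Pool.Agent.ST

variable {K : Type*} [Field K] [NumberField K] [Algebra K ℝ] {σ₂ : K →+* ℝ}

/-- Assertion for the square roots of the ratios. -/
def StarkTateRatios (σ₂ : K →+* ℝ) (m : Ideal (𝓞 K)) : Prop :=
  ∃ (H : IntermediateField K ℝ) (Art : RayClassGroup σ₂ m ≃* (H ≃ₐ[K] H))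
    (Z : RayClassGroup σ₂ m → ℂ → ℂ)
    (ρ : RayClassGroup σ₂ m → RayClassGroup σ₂ m → (𝓞 H)ˣ),
    IsRayClassField σ₂ m H Art ∧ (∀ A, IsPartialZeta σ₂ m A (Z A)) ∧
    ∀ A B, ((((ρ A B : 𝓞 H) : H) : ℝ) : ℂ) = Complex.exp (-deriv (Z A) 0 + deriv (Z B) 0) ∧
      (∀ C, Art C (((ρ A B : 𝓞 H) : H) ^ 2) = ((ρ (A * C) (B * C) : 𝓞 H) : H) ^ 2) ∧
      ∀ g : H →+* ℂ, (∀ a : K, g (algebraMap K H a) = (σ₂ a : ℂ)) →
        ‖g ((ρ A B : 𝓞 H) : H)‖ = 1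

lemma sqrt_exp (x : ℝ) : Real.sqrt (Real.exp (-2 * x)) = Real.exp (-x) := by
  rw [show -2 * x = -x + -x by ring, Real.exp_add, Real.sqrt_mul_self (Real.exp_pos _).le]

omit [NumberField K] in
lemma unit_int {H : IntermediateField K ℝ} (v : (𝓞 H)ˣ) :
    IsIntegral ℤ (((v : 𝓞 H) : H) : ℝ) := by
  have h1 : IsIntegral ℤ ((v : 𝓞 H) : H) := RingOfIntegers.isIntegral_coe _
  exact h1.map (algebraMap H ℝ).toIntAlgHom

/-- The properties of the square roots. -/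
lemma sqrtP_of {m : Ideal (𝓞 K)} {H : IntermediateField K ℝ}
    {Art : RayClassGroup σ₂ m ≃* (H ≃ₐ[K] H)} (hr : IsRayClassField σ₂ m H Art)
    (r : (H ≃ₐ[K] H) → (H ≃ₐ[K] H) → H)
    (hval : ∀ σ τ, Real.sqrt (ex σ₂ m Art σ) / Real.sqrt (ex σ₂ m Art τ) = (r σ τ : ℝ))
    (hact : ∀ κ σ τ, κ (r σ τ ^ 2) = r (κ * σ) (κ * τ) ^ 2)
    (hint : ∀ σ τ, IsIntegral ℤ ((r σ τ : H) : ℝ))
    (habs : ∀ g : H →+* ℂ, (∀ a : K, g (algebraMap K H a) = (σ₂ a : ℂ)) → ∀ σ τ, ‖g (r σ τ)‖ = 1) :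
    SqrtP σ₂ m := by
  have hex : ∀ σ τ : H ≃ₐ[K] H, ex σ₂ m Art σ / ex σ₂ m Art τ = ((r σ τ ^ 2 : H) : ℝ) := by
    intro σ τ
    have h1 : ((r σ τ ^ 2 : H) : ℝ) = (r σ τ : ℝ) ^ 2 := SubmonoidClass.coe_pow _ _
    rw [h1, ← hval, div_pow, Real.sq_sqrt (show 0 ≤ ex σ₂ m Art σ from (Real.exp_pos _).le),
      Real.sq_sqrt (show 0 ≤ ex σ₂ m Art τ from (Real.exp_pos _).le)]
  refine ⟨H, Art, hr, ⟨fun σ => Real.exp_pos _, ?_, ?_, ?_, ?_⟩, ?_⟩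
  · intro σ τ
    rw [hex]
    exact SetLike.coe_mem _
  · intro κ σ τ
    rw [hex, hex, act_coe, hact]
  · intro σ τ
    rw [hex]
    have h1 : ((r σ τ ^ 2 : H) : ℝ) = (r σ τ : ℝ) ^ 2 := SubmonoidClass.coe_pow _ _
    rw [h1]
    exact (hint σ τ).pow 2
  · intro g hg σ τ
    rw [hex, emb_coe, map_pow, norm_pow, habs g hg, one_pow]
  · intro σ τ
    rw [hval]
    exact SetLike.coe_mem _

/-- `StarkTateRatios` implies `SqrtP`. -/
theorem StarkTateRatios.sqrtP {m : Ideal (𝓞 K)} (h : StarkTateRatios σ₂ m) : SqrtP σ₂ m := by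
  obtain ⟨H, Art, Z, δ, hr, hZ, hδ⟩ := h
  refine sqrtP_of hr (fun σ τ => ((δ (Art.symm σ) (Art.symm τ) : 𝓞 H) : H)) ?_ ?_ ?_ ?_
  · intro σ τ
    have h1 := (hδ (Art.symm σ) (Art.symm τ)).1
    rw [← zd_eq (hZ _), ← zd_eq (hZ _)] at h1
    have h2 : ((Real.exp (-zd σ₂ m (Art.symm σ)) / Real.exp (-zd σ₂ m (Art.symm τ)) : ℝ) : ℂ) =
        Complex.exp (-(zd σ₂ m (Art.symm σ) : ℂ) + (zd σ₂ m (Art.symm τ) : ℂ)) := by
      rw [← Real.exp_sub, Complex.ofReal_exp]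
      push_cast
      congr 1
      ring
    rw [← h2] at h1
    unfold ex
    rw [sqrt_exp, sqrt_exp]
    exact (Complex.ofReal_injective h1).symm
  · intro κ σ τ
    obtain ⟨C, rfl⟩ := Art.surjective κ
    obtain ⟨A, rfl⟩ := Art.surjective σ
    obtain ⟨B, rfl⟩ := Art.surjective τ
    simp only [← map_mul Art, MulEquiv.symm_apply_apply]
    rw [(hδ A B).2.1 C, mul_comm A C, mul_comm B C]
  · intro σ τ
    exact unit_int _
  · intro g hg σ τ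
    exact (hδ _ _).2.2 g hg

/-- `SqrtP` implies `StarkTateRatios`. -/
theorem SqrtP.starkTateRatios (h2 : Module.finrank ℚ K = 2) (hσ : σ₂ ≠ sg1 K) {m : Ideal (𝓞 K)}
    (hm : m ≠ ⊥) (hm1 : m ≠ ⊤) (h : SqrtP σ₂ m) : StarkTateRatios σ₂ m := by
  choose Z hZ _ using exists_pz (σ₂ := σ₂) h2 hσ hm hm1
  obtain ⟨H, Art, hr, hR, hS⟩ := h
  let r : (H ≃ₐ[K] H) → (H ≃ₐ[K] H) → H := fun σ τ => ⟨_, hS σ τ⟩
  have hr' : ∀ σ τ, (r σ τ : ℝ) =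
      Real.sqrt (ex σ₂ m Art σ) / Real.sqrt (ex σ₂ m Art τ) := fun _ _ => rfl
  have hpos : ∀ σ τ, 0 < (r σ τ : ℝ) := fun σ τ => by
    rw [hr']
    exact div_pos (Real.sqrt_pos.2 (hR.pos σ)) (Real.sqrt_pos.2 (hR.pos τ))
  have hsq : ∀ σ τ, ((r σ τ ^ 2 : H) : ℝ) = ex σ₂ m Art σ / ex σ₂ m Art τ := by
    intro σ τ
    have h1 : ((r σ τ ^ 2 : H) : ℝ) = (r σ τ : ℝ) ^ 2 := SubmonoidClass.coe_pow _ _
    rw [h1, hr', div_pow, Real.sq_sqrt (hR.pos σ).le, Real.sq_sqrt (hR.pos τ).le]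
  have hint : ∀ σ τ, IsIntegral ℤ (r σ τ) := by
    intro σ τ
    have h1 : IsIntegral ℤ (r σ τ ^ 2) := by
      rw [← isIntegral_algebraMap_iff (algebraMap H ℝ).injective]
      change IsIntegral ℤ ((r σ τ ^ 2 : H) : ℝ)
      rw [hsq]
      exact hR.int σ τ
    exact IsIntegral.of_pow (by norm_num) h1
  have hinv : ∀ σ τ, (r σ τ)⁻¹ = r τ σ := by
    intro σ τ
    apply Subtype.ext
    have h1 : (((r σ τ)⁻¹ : H) : ℝ) = (r σ τ : ℝ)⁻¹ := rfl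
    rw [h1, hr', hr', inv_div]
  have hu : ∀ σ τ, ∃ v : (𝓞 H)ˣ, ((v : 𝓞 H) : H) = r σ τ := by
    intro σ τ
    apply exists_unit
    · intro h0
      have h1 := hpos σ τ
      rw [h0] at h1
      exact lt_irrefl _ h1
    · exact hint σ τ
    · rw [hinv]
      exact hint τ σ
  choose v hv using hu
  refine ⟨H, Art, Z, fun A B => v (Art A) (Art B), hr, hZ, fun A B => ⟨?_, ?_, ?_⟩⟩
  · rw [hv, hr', ← zd_eq (hZ A), ← zd_eq (hZ B)]
    unfold ex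
    rw [sqrt_exp, sqrt_exp, MulEquiv.symm_apply_apply, MulEquiv.symm_apply_apply, ← Real.exp_sub,
      Complex.ofReal_exp]
    push_cast
    congr 1
    ring
  · intro C
    rw [hv, hv]
    apply Subtype.ext
    rw [hsq, ← act_coe, hsq, hR.act, ← map_mul, ← map_mul, mul_comm C A, mul_comm C B]
  · intro g hg
    rw [hv]
    have h1 := hR.abs g hg (Art A) (Art B)
    rw [← hsq, emb_coe, map_pow, norm_pow] at h1
    exact (pow_eq_one_iff_of_nonneg (norm_nonneg _) (by norm_num)).1 h1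

end Pool.Agent.ST
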