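import Pool.Agent.Lib.MP_1ef7cf_nt.SDefs2
import Pool.Agent.Lib.MP_1ef7cf_nt.Bridge
import Pool.Agent.Lib.MP_1ef7cf_nt.STR

/-!
# The definitions for the ratios agree with those used in the proof
-/

open NumberField IsDedekindDomain nonZeroDivisors IntermediateField

namespace Pool.Agent.StarkRQ

variable {K : Type*} [Field K] [NumberField K] [Algebra K ℝ] {σ₂ : K →+* ℝ}

theorem stark_iff (σ₂ : K →+* ℝ) (m : Ideal (𝓞 K)) : Stark σ₂ m ↔ ST.Stark σ₂ m := by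
  constructor
  · rintro ⟨H, Art, Z, ε, h1, h2, h3⟩
    exact ⟨H, Art, Z, ε, (isRayClassField_iff σ₂ m H Art).1 h1, h2, h3.1, h3.2, h3.3⟩
  · rintro ⟨H, Art, Z, ε, h1, h2, h3, h4, h5⟩
    exact ⟨H, Art, Z, ε, (isRayClassField_iff σ₂ m H Art).2 h1, h2, ⟨h3, h4, h5⟩⟩

omit [NumberField K] in
lemma unit_int {H : IntermediateField K ℝ} (v : (𝓞 H)ˣ) :
    IsIntegral ℤ (((v : 𝓞 H) : H) : ℝ) := by
  have h1 : IsIntegral ℤ ((v : 𝓞 H) : H) := RingOfIntegers.isIntegral_coe _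
  exact h1.map (algebraMap H ℝ).toIntAlgHom

omit [Algebra K ℝ] in
lemma zd_of_pz {m : Ideal (𝓞 K)} {A : RayClassGroup σ₂ m} {Z : ℂ → ℂ}
    (hZ : IsPartialZeta σ₂ m A Z) : deriv Z 0 = (ST.zd σ₂ m A : ℂ) := (ST.zd_eq hZ).symm

/-- `StarkRatios` implies `RatioP`. -/
theorem StarkRatios.ratioP {m : Ideal (𝓞 K)} (h : StarkRatios σ₂ m) : ST.RatioP σ₂ m := by
  obtain ⟨H, Art, Z, δ, hr, hZ, hδ⟩ := h
  have hval : ∀ A B : RayClassGroup σ₂ m, (((δ A B : 𝓞 H) : H) : ℝ) =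
      Real.exp (-2 * ST.zd σ₂ m A) / Real.exp (-2 * ST.zd σ₂ m B) := by
    intro A B
    have h1 := (hδ A B).1
    rw [zd_of_pz (hZ A), zd_of_pz (hZ B)] at h1
    have h2 : ((Real.exp (-2 * ST.zd σ₂ m A) / Real.exp (-2 * ST.zd σ₂ m B) : ℝ) : ℂ) =
        Complex.exp (-2 * (ST.zd σ₂ m A : ℂ) + 2 * (ST.zd σ₂ m B : ℂ)) := by
      rw [← Real.exp_sub, Complex.ofReal_exp]
      push_cast
      congr 1
      ring
    rw [← h2] at h1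
    exact_mod_cast h1
  have hex : ∀ σ τ : H ≃ₐ[K] H, ST.ex σ₂ m Art σ / ST.ex σ₂ m Art τ =
      (((δ (Art.symm σ) (Art.symm τ) : 𝓞 H) : H) : ℝ) := fun σ τ => (hval _ _).symm
  refine ⟨H, Art, (isRayClassField_iff σ₂ m H Art).1 hr, ⟨fun σ => Real.exp_pos _, ?_, ?_, ?_, ?_⟩⟩
  · intro σ τ
    rw [hex]
    exact ((δ (Art.symm σ) (Art.symm τ) : 𝓞 H) : H).2
  · intro κ σ τ
    obtain ⟨C, rfl⟩ := Art.surjective κ
    obtain ⟨A, rfl⟩ := Art.surjective σ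
    obtain ⟨B, rfl⟩ := Art.surjective τ
    rw [hex, hex, ← map_mul, ← map_mul, MulEquiv.symm_apply_apply, MulEquiv.symm_apply_apply,
      MulEquiv.symm_apply_apply, MulEquiv.symm_apply_apply, ST.act_coe, (hδ A B).2.1 C,
      mul_comm A C, mul_comm B C]
  · intro σ τ
    rw [hex]
    exact unit_int _
  · intro g hg σ τ
    rw [hex, ST.emb_coe]
    exact (hδ _ _).2.2 g hg

/-- `Stark` implies `StarkRatios`. -/
theorem Stark.ratios {m : Ideal (𝓞 K)} (h : Stark σ₂ m) : StarkRatios σ₂ m := by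
  obtain ⟨H, Art, Z, ε, hr, hZ, hε⟩ := h
  refine ⟨H, Art, Z, fun A B => ε A * (ε B)⁻¹, hr, hZ, fun A B => ?_⟩
  have hcoe : ∀ A B, (((ε A * (ε B)⁻¹ : (𝓞 H)ˣ) : 𝓞 H) : H) =
      ((ε A : 𝓞 H) : H) * (((ε B)⁻¹ : (𝓞 H)ˣ) : 𝓞 H) := fun A B => by
    rw [Units.val_mul]
    exact map_mul (algebraMap (𝓞 H) H) _ _
  have hinv : ∀ B, ((((ε B)⁻¹ : (𝓞 H)ˣ) : 𝓞 H) : H) = (((ε B : 𝓞 H) : H))⁻¹ := fun B => by
    have h3 : ((ε B : 𝓞 H) : H) * ((((ε B)⁻¹ : (𝓞 H)ˣ) : 𝓞 H) : H) = 1 := by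
      rw [← map_mul (algebraMap (𝓞 H) H), Units.mul_inv, map_one]
    exact eq_inv_of_mul_eq_one_right h3
  refine ⟨?_, ?_, ?_⟩
  · rw [hcoe, hinv]
    have h4 : ((((((ε A : 𝓞 H) : H) * (((ε B : 𝓞 H) : H))⁻¹ : H)) : ℝ) : ℂ) =
        ((((ε A : 𝓞 H) : H) : ℝ) : ℂ) * (((((ε B : 𝓞 H) : H) : ℝ) : ℂ))⁻¹ := by
      push_cast
      rfl
    rw [h4, hε.value, hε.value, ← Complex.exp_neg, ← Complex.exp_add]
    congr 1
    ring
  · intro C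
    rw [hcoe, hinv, map_mul, map_inv₀, hε.galois, hε.galois, hcoe, hinv]
  · intro g hg
    rw [hcoe, hinv, map_mul, map_inv₀, norm_mul, norm_inv, hε.abs_eq_one A g hg,
      hε.abs_eq_one B g hg, inv_one, mul_one]

theorem starkTateRatios_iff (σ₂ : K →+* ℝ) (m : Ideal (𝓞 K)) :
    StarkTateRatios σ₂ m ↔ ST.StarkTateRatios σ₂ m := by
  constructor
  · rintro ⟨H, Art, Z, ρ, h1, h2, h3⟩
    exact ⟨H, Art, Z, ρ, (isRayClassField_iff σ₂ m H Art).1 h1, h2, h3⟩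
  · rintro ⟨H, Art, Z, ρ, h1, h2, h3⟩
    exact ⟨H, Art, Z, ρ, (isRayClassField_iff σ₂ m H Art).2 h1, h2, h3⟩

omit [Algebra K ℝ] in
lemma not_dvd_of_val {m : Ideal (𝓞 K)} {q : HeightOneSpectrum (𝓞 K)} {J : PrimeTo m}
    (hJ : J.val = q.asIdeal) : ¬ q.asIdeal ∣ m := by
  let J' : ST.primeTo (K := K) m := J
  have hJ' : (((J' : (FractionalIdeal (𝓞 K)⁰ K)ˣ) : FractionalIdeal (𝓞 K)⁰ K)) =
    (q.asIdeal : FractionalIdeal (𝓞 K)⁰ K) := hJ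
  exact ST.coprime_prime_iff.1 (ST.coprime_of_mem_primeTo hJ' J'.2)

omit [Algebra K ℝ] in
/-- The two versions of the generation condition agree. -/
theorem Generated.genP {P : Ideal (𝓞 K) → Prop} {m : Ideal (𝓞 K)} {k : ℕ}
    (h : Generated σ₂ P m k) : ST.GenP σ₂ P m k := by
  obtain ⟨⟨q₁, h₁, q₂, h₂, hne⟩, hgen⟩ := h
  refine ⟨⟨q₁, q₂, hne, h₁.1, h₂.1, h₁.2, h₂.2⟩, ?_⟩
  rw [eq_top_iff]
  intro A _
  have hA : A ∈ Subgroup.closure {A : RayClassGroup σ₂ m | ∃ (q : HeightOneSpectrum (𝓞 K))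
      (J : PrimeTo m), J.val = q.asIdeal ∧ P (m * q.asIdeal ^ k) ∧ cls σ₂ m J = A} := by
    rw [hgen]; exact Subgroup.mem_top A
  refine Subgroup.closure_induction (p := fun x _ => x ∈ (Subgroup.closure
    {A : ST.RayClassGroup σ₂ m | ∃ (q : HeightOneSpectrum (𝓞 K))
    (h : ¬ q.asIdeal ∣ m), ST.cls σ₂ m (ST.prJ m q h) = A ∧ P (m * q.asIdeal ^ k)} :
      Subgroup (ST.RayClassGroup σ₂ m))) ?_ ?_ ?_ ?_ hA
  · rintro x ⟨q, J, hJ, hP, rfl⟩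
    apply Subgroup.subset_closure
    have hv : ¬ q.asIdeal ∣ m := not_dvd_of_val hJ
    refine ⟨q, hv, ?_, hP⟩
    have h4 : J = ST.prJ m q hv := by
      apply Subtype.ext
      apply Units.ext
      exact hJ
    rw [h4]
    rfl
  · exact Subgroup.one_mem _
  · intro x y _ _ hx hy
    exact Subgroup.mul_mem _ hx hy
  · intro x _ hx
    exact Subgroup.inv_mem _ hx

omit [Algebra K ℝ] in
theorem generated_of_genP {P : Ideal (𝓞 K) → Prop} {m : Ideal (𝓞 K)} {k : ℕ}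
    (h : ST.GenP σ₂ P m k) : Generated σ₂ P m k := by
  obtain ⟨⟨q₁, q₂, hne, h₁, h₂, h₃, h₄⟩, hgen⟩ := h
  refine ⟨⟨q₁, ⟨h₁, h₃⟩, q₂, ⟨h₂, h₄⟩, hne⟩, ?_⟩
  rw [eq_top_iff]
  intro A _
  have hA : A ∈ (Subgroup.closure
    {A : ST.RayClassGroup σ₂ m | ∃ (q : HeightOneSpectrum (𝓞 K))
    (h : ¬ q.asIdeal ∣ m), ST.cls σ₂ m (ST.prJ m q h) = A ∧ P (m * q.asIdeal ^ k)} :
      Subgroup (ST.RayClassGroup σ₂ m)) := by
    rw [hgen]; exact Subgroup.mem_top _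
  refine Subgroup.closure_induction (p := fun x _ => x ∈ (Subgroup.closure
    {A : RayClassGroup σ₂ m | ∃ (q : HeightOneSpectrum (𝓞 K))
      (J : PrimeTo m), J.val = q.asIdeal ∧ P (m * q.asIdeal ^ k) ∧ cls σ₂ m J = A} :
      Subgroup (RayClassGroup σ₂ m))) ?_ ?_ ?_ ?_ hA
  · rintro x ⟨q, hq, rfl, hP⟩
    apply Subgroup.subset_closure
    exact ⟨q, ST.prJ m q hq, rfl, hP, rfl⟩
  · exact Subgroup.one_mem _
  · intro x y _ _ hx hy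
    exact Subgroup.mul_mem _ hx hy
  · intro x _ hx
    exact Subgroup.inv_mem _ hx

end Pool.Agent.StarkRQ
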