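import Pool.Agent.Lib.MP_1ef7cf_nt.Unfold

/-!
Analytic continuation of the zeta functions attached to orbits of lattice points.
-/

open MeasureTheory Set Filter Topology

namespace Pool.Agent.ST

namespace Orb

variable {D : Type*} (O : Orb D)

lemma summ_nat (a : ℕ) (ha : 2 ≤ a) : Summable (fun d => ((O.nu d) ^ a)⁻¹) := by
  have h := O.summ a (by exact_mod_cast (by omega : 1 < a))
  refine h.congr fun d => ?_
  rw [Real.rpow_neg (abs_nonneg _), Real.rpow_natCast]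
  rfl

lemma abs_term_le (k a : ℕ) (ha : 1 ≤ a) {t : ℝ} (ht : 0 < t) (d : D) :
    ‖Real.sign (O.p2 d) ^ k * hk k (O.nu d * t)‖ ≤
      (KK k a * CI) * ((O.nu d) ^ a)⁻¹ * (t ^ a)⁻¹ := by
  have hn := O.nu_pos d
  rw [norm_mul, norm_pow, Real.norm_eq_abs, abs_sign (O.p2_ne d), one_pow, one_mul,
    Real.norm_eq_abs, abs_of_nonneg (hk_nonneg _ _)]
  refine (hk_le k a ha (mul_pos hn ht)).trans (le_of_eq ?_)
  rw [mul_pow, mul_inv]
  ring

lemma abs_I_le (k : ℕ) (hk1 : k ≤ 1) (a : ℕ) (ha : 2 ≤ a) :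
    ∃ C : ℝ, 0 ≤ C ∧ ∀ t : ℝ, 0 < t → |O.I k t| ≤ C * (t ^ a)⁻¹ := by
  refine ⟨∑' d, (KK k a * CI) * ((O.nu d) ^ a)⁻¹, ?_, ?_⟩
  · apply tsum_nonneg
    intro d
    have := O.nu_pos d
    have := KK_nonneg k a
    have := CI_nonneg
    positivity
  · intro t ht
    rw [← Real.norm_eq_abs, ← (O.hasSum_I k hk1 ht).tsum_eq]
    apply tsum_of_norm_bounded (((O.summ_nat a ha).mul_left _).hasSum.mul_right _)
    intro d
    exact O.abs_term_le k a (by omega) ht d

lemma continuousOn_I (k : ℕ) (hk1 : k ≤ 1) : ContinuousOn (O.I k) (Ioi 0) := by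
  have key : ∀ t₀ : ℝ, 0 < t₀ → ContinuousOn (O.I k) (Ioi t₀) := by
    intro t₀ ht₀
    have h1 : ContinuousOn (fun t => ∑' d, Real.sign (O.p2 d) ^ k * hk k (O.nu d * t)) (Ioi t₀) := by
      apply continuousOn_tsum (u := fun d => (KK k 2 * CI) * ((O.nu d) ^ 2)⁻¹ * (t₀ ^ 2)⁻¹)
      · intro d
        apply ContinuousOn.mul continuousOn_const
        apply (continuousOn_hk k).comp (by fun_prop)
        intro t ht
        have : t₀ < t := ht
        exact mul_pos (O.nu_pos d) (ht₀.trans this)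
      · exact ((O.summ_nat 2 le_rfl).mul_left _).mul_right _
      · intro d t ht
        have ht' : t₀ < t := ht
        refine (O.abs_term_le k 2 (by norm_num) (ht₀.trans ht') d).trans ?_
        have := O.nu_pos d
        have := KK_nonneg k 2
        have := CI_nonneg
        apply mul_le_mul_of_nonneg_left _ (by positivity)
        apply inv_anti₀ (by positivity)
        exact pow_le_pow_left₀ ht₀.le ht'.le 2
    refine h1.congr fun t ht => ?_
    have ht' : t₀ < t := ht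
    exact (O.hasSum_I k hk1 (ht₀.trans ht')).tsum_eq.symm
  intro t ht
  have ht' : (0 : ℝ) < t := ht
  exact ((key (t / 2) (half_pos ht')).continuousAt (Ioi_mem_nhds (half_lt_self ht'))).continuousWithinAt

lemma integrableOn_Th {t : ℝ} (ht : 0 < t) :
    IntegrableOn (fun w => O.L.Th 0 (Real.exp w) t) (Ioc 0 O.W) := by
  have hsum := (O.summable_absk 0 (by norm_num) (t := t * Real.exp (-O.W)) (by positivity)).mul_left
    ((√t) ^ 0)
  have h2 : ∀ w : ℝ, ∑' n : ℤ × ℤ, G 0 t (O.L.x1 n) (O.L.x2 n) w =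
      O.L.Th 0 (Real.exp w) t := by
    intro w
    unfold G Lat.Th Lat.Q
    simp
  have hc : ContinuousOn (fun w => O.L.Th 0 (Real.exp w) t) (Ioc 0 O.W) := by
    simp_rw [← h2]
    apply continuousOn_tsum _ hsum
    · intro n w hw
      exact O.norm_G_le 0 ht n hw
    · intro n
      exact (continuous_G 0 t _ _).continuousOn
  refine Integrable.mono' (g := fun _ => ∑' n : ℤ × ℤ, (√t) ^ 0 *
      (|O.L.x2 n| ^ 0 * Real.exp (-Real.pi * (t * Real.exp (-O.W)) * O.L.Q 1 n)))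
    (integrable_const _) (hc.aestronglyMeasurable measurableSet_Ioc) ?_
  · rw [ae_restrict_iff' measurableSet_Ioc]
    filter_upwards with w hw
    rw [← h2]
    exact tsum_of_norm_bounded hsum.hasSum fun n => O.norm_G_le 0 ht n hw

lemma vol_Ioc : volume.real (Ioc 0 O.W) = O.W := by
  rw [Real.volume_real_Ioc_of_le O.W_pos.le, sub_zero]

/-- small time asymptotics of the theta integral -/
lemma I0_bound (N : ℕ) : ∃ C : ℝ, 0 ≤ C ∧ ∀ t : ℝ, 0 < t → t ≤ 1 →
    |O.I 0 t - O.W / |O.L.det| * t⁻¹| ≤ C * t ^ N := by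
  obtain ⟨C, hC, h⟩ := O.L.Th0_bound (Real.exp O.W) N
  refine ⟨O.W * C, mul_nonneg O.W_pos.le hC, ?_⟩
  intro t ht ht1
  have hdet : 0 < |O.L.det| := abs_pos.2 O.L.det_ne'
  have h1 : O.I 0 t - O.W / |O.L.det| * t⁻¹ =
      ∫ w in Ioc 0 O.W, (O.L.Th 0 (Real.exp w) t - 1 / (t * |O.L.det|)) := by
    rw [integral_sub (O.integrableOn_Th ht)
      ((continuous_const.integrableOn_Icc (a := 0) (b := O.W)).mono_set Ioc_subset_Icc_self),
      setIntegral_const, O.vol_Ioc, smul_eq_mul]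
    unfold I
    simp only [pow_zero, one_mul]
    congr 1
    field_simp
  rw [h1, ← Real.norm_eq_abs]
  have h2 := norm_setIntegral_le_of_norm_le_const (μ := volume) (s := Ioc 0 O.W)
    (f := fun w => O.L.Th 0 (Real.exp w) t - 1 / (t * |O.L.det|)) (C := C * t ^ N) (by simp) (by
      intro w hw
      exact h (Real.exp w) (Real.one_le_exp hw.1.le) (Real.exp_le_exp.2 hw.2) t ht ht1)
  rw [O.vol_Ioc] at h2
  refine h2.trans (le_of_eq (by ring))

lemma I1_bound (N : ℕ) : ∃ C : ℝ, 0 ≤ C ∧ ∀ t : ℝ, 0 < t → t ≤ 1 →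
    |O.I 1 t| ≤ C * t ^ N := by
  obtain ⟨C, hC, h⟩ := O.L.Th1_bound (Real.exp O.W) N
  refine ⟨O.W * C, mul_nonneg O.W_pos.le hC, ?_⟩
  intro t ht ht1
  unfold I
  rw [← Real.norm_eq_abs]
  have h2 := norm_setIntegral_le_of_norm_le_const (μ := volume) (s := Ioc 0 O.W)
    (f := fun w => (√t * Real.exp (-w / 2)) ^ 1 * O.L.Th 1 (Real.exp w) t) (C := C * t ^ N)
    (by simp) (by
      intro w hw
      rw [pow_one, norm_mul, Real.norm_eq_abs, Real.norm_eq_abs, abs_of_nonneg (by positivity)]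
      have h3 : √t * Real.exp (-w / 2) ≤ 1 := by
        have h4 : √t ≤ 1 := by rwa [Real.sqrt_le_one]
        have h5 : Real.exp (-w / 2) ≤ 1 := by
          rw [Real.exp_le_one_iff]; linarith [hw.1]
        calc √t * Real.exp (-w / 2) ≤ 1 * 1 :=
              mul_le_mul h4 h5 (Real.exp_pos _).le zero_le_one
          _ = 1 := one_mul 1
      calc √t * Real.exp (-w / 2) * |O.L.Th 1 (Real.exp w) t| ≤
          1 * (C * t ^ N) := by
            apply mul_le_mul h3 _ (abs_nonneg _) zero_le_one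
            exact h (Real.exp w) (Real.one_le_exp hw.1.le) (Real.exp_le_exp.2 hw.2) t ht ht1
        _ = _ := one_mul _)
  rw [O.vol_Ioc] at h2
  refine h2.trans (le_of_eq (by ring))

/-- residue constant -/
noncomputable def c0 (k : ℕ) : ℝ := if k = 0 then O.W / |O.L.det| else 0

lemma I_bound (k : ℕ) (hk1 : k ≤ 1) (N : ℕ) : ∃ C : ℝ, 0 ≤ C ∧ ∀ t : ℝ, 0 < t → t ≤ 1 →
    |O.I k t - O.c0 k * t⁻¹| ≤ C * t ^ N := by
  interval_cases k
  · simpa [c0] using O.I0_bound N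
  · simpa [c0] using O.I1_bound N

/-- the regularised function -/
noncomputable def f (k : ℕ) (t : ℝ) : ℂ :=
  (O.I k t : ℂ) - (O.c0 k : ℂ) • (indicator (Ioc 0 1) (fun t : ℝ => (t : ℂ) ^ (-1 : ℂ))) t

lemma f_of_le (k : ℕ) {t : ℝ} (ht : 0 < t) (ht1 : t ≤ 1) :
    O.f k t = ((O.I k t - O.c0 k * t⁻¹ : ℝ) : ℂ) := by
  unfold f
  rw [indicator_of_mem (show t ∈ Ioc (0 : ℝ) 1 from ⟨ht, ht1⟩), Complex.cpow_neg_one, smul_eq_mul]
  push_cast
  ring

lemma f_of_gt (k : ℕ) {t : ℝ} (ht1 : 1 < t) : O.f k t = (O.I k t : ℂ) := by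
  unfold f
  rw [indicator_of_notMem (fun h => absurd h.2 (not_le.2 ht1)), smul_zero, sub_zero]

lemma isBigO_top (k : ℕ) (hk1 : k ≤ 1) (a : ℕ) (ha : 2 ≤ a) :
    (O.f k) =O[atTop] (fun t : ℝ => t ^ (-(a : ℝ))) := by
  obtain ⟨C, hC, h⟩ := O.abs_I_le k hk1 a ha
  apply Asymptotics.IsBigO.of_bound C
  filter_upwards [eventually_gt_atTop 1] with t ht
  have ht0 : 0 < t := by linarith
  rw [O.f_of_gt k ht, Complex.norm_real, Real.norm_eq_abs, Real.norm_eq_abs,
    abs_of_pos (Real.rpow_pos_of_pos ht0 _), Real.rpow_neg ht0.le, Real.rpow_natCast]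
  exact h t ht0

lemma isBigO_zero (k : ℕ) (hk1 : k ≤ 1) (N : ℕ) :
    (O.f k) =O[𝓝[>] 0] (fun t : ℝ => t ^ (-(-(N : ℝ)))) := by
  obtain ⟨C, hC, h⟩ := O.I_bound k hk1 N
  apply Asymptotics.IsBigO.of_bound C
  filter_upwards [Ioo_mem_nhdsGT (zero_lt_one' ℝ)] with t ht
  have ht0 : 0 < t := ht.1
  rw [O.f_of_le k ht0 ht.2.le, Complex.norm_real, Real.norm_eq_abs, Real.norm_eq_abs,
    abs_of_pos (Real.rpow_pos_of_pos ht0 _), neg_neg, Real.rpow_natCast]
  exact h t ht0 ht.2.le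

lemma locInt_I (k : ℕ) (hk1 : k ≤ 1) :
    LocallyIntegrableOn (fun t => (O.I k t : ℂ)) (Ioi 0) := by
  apply ContinuousOn.locallyIntegrableOn _ measurableSet_Ioi
  exact Complex.continuous_ofReal.comp_continuousOn (O.continuousOn_I k hk1)

lemma locInt_f (k : ℕ) (hk1 : k ≤ 1) : LocallyIntegrableOn (O.f k) (Ioi 0) := by
  unfold f
  have h1 : LocallyIntegrableOn (fun t : ℝ => (t : ℂ) ^ (-1 : ℂ)) (Ioi 0) := by
    apply ContinuousOn.locallyIntegrableOn _ measurableSet_Ioi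
    intro t ht
    have ht0 : (0 : ℝ) < t := ht
    exact (Complex.continuousAt_ofReal_cpow_const _ _ (Or.inr ht0.ne')).continuousWithinAt
  have h2 : LocallyIntegrableOn (indicator (Ioc 0 1) (fun t : ℝ => (t : ℂ) ^ (-1 : ℂ))) (Ioi 0) := by
    intro t ht
    obtain ⟨s, hs, hs'⟩ := h1 t ht
    exact ⟨s, hs, hs'.indicator measurableSet_Ioc⟩
  exact (O.locInt_I k hk1).sub (h2.smul (O.c0 k : ℂ))

lemma differentiable_mellin_f (k : ℕ) (hk1 : k ≤ 1) : Differentiable ℂ (mellin (O.f k)) := by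
  intro s
  obtain ⟨a, ha⟩ := exists_nat_gt (max s.re 2)
  obtain ⟨N, hN⟩ := exists_nat_gt (-s.re)
  have ha1 : s.re < a := (le_max_left _ _).trans_lt ha
  have ha2 : 2 ≤ a := by
    have : (2 : ℝ) < a := (le_max_right _ _).trans_lt ha
    exact_mod_cast this.le
  exact mellin_differentiableAt_of_isBigO_rpow (O.locInt_f k hk1) (O.isBigO_top k hk1 a ha2) ha1
    (O.isBigO_zero k hk1 N) (by linarith)

lemma mellinConvergent_f (k : ℕ) (hk1 : k ≤ 1) (s : ℂ) : MellinConvergent (O.f k) s := by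
  obtain ⟨a, ha⟩ := exists_nat_gt (max s.re 2)
  obtain ⟨N, hN⟩ := exists_nat_gt (-s.re)
  have ha1 : s.re < a := (le_max_left _ _).trans_lt ha
  have ha2 : 2 ≤ a := by
    have : (2 : ℝ) < a := (le_max_right _ _).trans_lt ha
    exact_mod_cast this.le
  exact mellinConvergent_of_isBigO_rpow (O.locInt_f k hk1) (O.isBigO_top k hk1 a ha2) ha1
    (O.isBigO_zero k hk1 N) (by linarith)

lemma hasMellin_I (k : ℕ) (hk1 : k ≤ 1) {s : ℂ} (hs : 1 < s.re) :
    HasMellin (fun t => (O.I k t : ℂ)) s (mellin (O.f k) s + O.c0 k / (s - 1)) := by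
  have h1 : HasMellin (O.f k) s (mellin (O.f k) s) := ⟨O.mellinConvergent_f k hk1 s, rfl⟩
  have h2 := hasMellin_cpow_Ioc (-1) (s := s) (by simp; linarith)
  have h3 := hasMellin_const_smul h2.1 (O.c0 k : ℂ)
  have h4 := hasMellin_add h1.1 h3.1
  have h5 : (fun t => O.f k t + (O.c0 k : ℂ) •
      (indicator (Ioc 0 1) (fun t : ℝ => (t : ℂ) ^ (-1 : ℂ))) t) =
      fun t => (O.I k t : ℂ) := by
    funext t
    unfold f
    ring
  rw [h5] at h4
  refine ⟨h4.1, ?_⟩
  rw [h4.2, h3.2, h2.2, smul_eq_mul]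
  congr 1
  rw [sub_eq_add_neg, mul_one_div]

end Orb

end Pool.Agent.ST
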