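import Pool.Agent.Lib.MP_1ef7cf_nt.Kernel

/-!
The Mellin transform of the Bessel type kernels.
-/

open MeasureTheory Set Filter Topology

namespace Pool.Agent.ST

lemma cpow_pos {x : ℝ} (hx : 0 < x) (z : ℂ) : (x : ℂ) ^ z = Complex.exp (z * (Real.log x : ℝ)) := by
  rw [Complex.cpow_def_of_ne_zero (by exact_mod_cast hx.ne'), Complex.ofReal_log hx.le, mul_comm]

/-- logistic function -/
noncomputable def lg (v : ℝ) : ℝ := Real.exp v / ch v

lemma lg_pos (v : ℝ) : 0 < lg v := div_pos (Real.exp_pos v) (ch_pos v)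

lemma one_sub_lg (v : ℝ) : 1 - lg v = Real.exp (-v) / ch v := by
  have := (ch_pos v).ne'
  unfold lg
  rw [eq_div_iff this]
  field_simp
  unfold ch
  ring

lemma one_sub_lg_pos (v : ℝ) : 0 < 1 - lg v := by
  rw [one_sub_lg]; exact div_pos (Real.exp_pos _) (ch_pos v)

lemma hasDerivAt_ch (v : ℝ) : HasDerivAt ch (Real.exp v - Real.exp (-v)) v := by
  have h1 := Real.hasDerivAt_exp v
  have h2 : HasDerivAt (fun v : ℝ => Real.exp (-v)) (Real.exp (-v) * (-1)) v :=
    (hasDerivAt_neg v).exp
  have h3 := h1.add h2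
  convert! h3 using 1
  ring

lemma hasDerivAt_lg (v : ℝ) : HasDerivAt lg (2 * ((ch v) ^ 2)⁻¹) v := by
  have h := (Real.hasDerivAt_exp v).div (hasDerivAt_ch v) (ch_pos v).ne'
  convert! h using 1
  rw [eq_div_iff (pow_ne_zero 2 (ch_pos v).ne'), mul_assoc, inv_mul_cancel₀
    (pow_ne_zero 2 (ch_pos v).ne'), mul_one]
  unfold ch
  have : Real.exp v * Real.exp (-v) = 1 := by rw [← Real.exp_add]; simp
  linear_combination (-2) * this

lemma lg_injective : Function.Injective lg := by
  apply StrictMono.injective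
  apply strictMono_of_deriv_pos
  intro v
  rw [(hasDerivAt_lg v).deriv]
  have := ch_pos v
  positivity

lemma range_lg : lg '' univ = Ioo 0 1 := by
  ext x
  constructor
  · rintro ⟨v, -, rfl⟩
    exact ⟨lg_pos v, by linarith [one_sub_lg_pos v]⟩
  · rintro ⟨h0, h1⟩
    have h2 : 0 < 1 - x := by linarith
    refine ⟨Real.log (x / (1 - x)) / 2, mem_univ _, ?_⟩
    set v := Real.log (x / (1 - x)) / 2 with hv
    have h3 : Real.exp v * Real.exp v = x / (1 - x) := by
      rw [← Real.exp_add, hv, add_halves, Real.exp_log (div_pos h0 h2)]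
    have h4 : Real.exp v * Real.exp (-v) = 1 := by rw [← Real.exp_add]; simp
    have h5 : Real.exp v * Real.exp v * (1 - x) = x := by rw [h3]; field_simp
    have hc := (ch_pos v).ne'
    unfold lg
    rw [div_eq_iff hc]
    have h6 : Real.exp v * (Real.exp v - x * ch v) = 0 := by
      unfold ch
      linear_combination h5 - x * h4
    have h7 := (mul_eq_zero.1 h6).resolve_left (Real.exp_pos v).ne'
    linarith

lemma beta_eq (u w : ℂ) : Complex.betaIntegral u w =
    2 * ∫ v : ℝ, Complex.exp ((u - w) * v) * (ch v : ℂ) ^ (-(u + w)) := by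
  unfold Complex.betaIntegral
  rw [intervalIntegral.integral_of_le zero_le_one, integral_Ioc_eq_integral_Ioo, ← range_lg,
    integral_image_eq_integral_abs_deriv_smul MeasurableSet.univ
      (fun v _ => (hasDerivAt_lg v).hasDerivWithinAt) lg_injective.injOn,
    Measure.restrict_univ, ← integral_const_mul]
  congr 1
  funext v
  have hc := ch_pos v
  have e1 : Real.log (lg v) = v - Real.log (ch v) := by
    unfold lg
    rw [Real.log_div (Real.exp_pos v).ne' hc.ne', Real.log_exp]
  have e2 : Real.log (1 - lg v) = -v - Real.log (ch v) := by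
    rw [one_sub_lg, Real.log_div (Real.exp_pos _).ne' hc.ne', Real.log_exp]
  have e3 : ((ch v : ℂ) ^ 2)⁻¹ = Complex.exp ((-2) * (Real.log (ch v) : ℝ)) := by
    rw [← cpow_pos hc]
    rw [Complex.cpow_neg]
    norm_num
  have e4 : (1 - (lg v : ℂ)) = ((1 - lg v : ℝ) : ℂ) := by push_cast; ring
  rw [abs_of_pos (by positivity), Complex.real_smul, e4, cpow_pos (lg_pos v),
    cpow_pos (one_sub_lg_pos v), cpow_pos hc, e1, e2]
  push_cast
  rw [e3, mul_assoc 2, ← Complex.exp_add, ← Complex.exp_add, ← Complex.exp_add]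
  congr 2
  ring

/-- the gamma factor -/
noncomputable def gam (k : ℕ) (s : ℂ) : ℂ :=
  1 / 2 * (Real.pi : ℂ) ^ (-(s + k / 2)) * (Complex.Gamma (s / 2) * Complex.Gamma ((s + k) / 2))

lemma kf_real (k : ℕ) {t : ℝ} (ht : 0 < t) (v σ : ℝ) :
    t ^ (σ - 1) * kf k t v = Real.exp (-(k / 2 * v)) *
      (t ^ ((σ + k / 2) - 1) * Real.exp (-(Real.pi * ch v * t))) := by
  unfold kf
  have h1 : (√t) ^ k = t ^ ((k : ℝ) / 2) := by
    rw [Real.sqrt_eq_rpow, ← Real.rpow_natCast, ← Real.rpow_mul ht.le]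
    congr 1; ring
  have h2 : Real.exp (-v / 2) ^ k = Real.exp (-(k / 2 * v)) := by
    rw [← Real.exp_nat_mul]; congr 1; ring
  have h3 : t ^ ((σ + k / 2) - 1) = t ^ (σ - 1) * t ^ ((k : ℝ) / 2) := by
    rw [← Real.rpow_add ht]; congr 1; ring
  have h4 : Real.pi * ch v * t = Real.pi * t * ch v := by ring
  rw [mul_pow, h1, h2, h3, h4]
  ring

lemma kf_complex (k : ℕ) {t : ℝ} (ht : 0 < t) (v : ℝ) (s : ℂ) :
    (t : ℂ) ^ (s - 1) * (kf k t v : ℝ) = (Real.exp (-(k / 2 * v)) : ℝ) *
      ((t : ℂ) ^ ((s + k / 2) - 1) * Complex.exp (-((Real.pi * ch v : ℝ) * t))) := by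
  unfold kf
  have h1 : (((√t) ^ k : ℝ) : ℂ) = (t : ℂ) ^ ((k : ℂ) / 2) := by
    have : (√t) ^ k = t ^ ((k : ℝ) / 2) := by
      rw [Real.sqrt_eq_rpow, ← Real.rpow_natCast, ← Real.rpow_mul ht.le]
      congr 1; ring
    rw [this, Complex.ofReal_cpow ht.le]
    push_cast; rfl
  have h2 : Real.exp (-v / 2) ^ k = Real.exp (-(k / 2 * v)) := by
    rw [← Real.exp_nat_mul]; congr 1; ring
  have h3 : (t : ℂ) ^ ((s + k / 2) - 1) = (t : ℂ) ^ (s - 1) * (t : ℂ) ^ ((k : ℂ) / 2) := by
    rw [← Complex.cpow_add _ _ (by exact_mod_cast ht.ne')]; congr 1; ring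
  have h4 : Real.pi * t * ch v = Real.pi * ch v * t := by ring
  rw [mul_pow, h2, h3, h4, ← h1]
  push_cast
  ring

lemma integral_real (k : ℕ) {σ : ℝ} (hσ : 1 < σ) (v : ℝ) :
    ∫ t in Ioi (0 : ℝ), t ^ (σ - 1) * kf k t v =
      Real.exp (-(k / 2 * v)) * ((1 / (Real.pi * ch v)) ^ (σ + k / 2) *
        Real.Gamma (σ + k / 2)) := by
  have hc := ch_pos v
  rw [← Real.integral_rpow_mul_exp_neg_mul_Ioi (by positivity : (0 : ℝ) < σ + k / 2)
    (by positivity : 0 < Real.pi * ch v), ← integral_const_mul]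
  apply setIntegral_congr_fun measurableSet_Ioi
  intro t ht
  exact kf_real k ht v σ

lemma integrable_real (k : ℕ) {σ : ℝ} (hσ : 1 < σ) (v : ℝ) :
    IntegrableOn (fun t => t ^ (σ - 1) * kf k t v) (Ioi 0) := by
  have h := integral_real k hσ v
  by_contra hn
  rw [integral_undef hn] at h
  have hc := ch_pos v
  have h1 : 0 < Real.Gamma (σ + k / 2) := Real.Gamma_pos_of_pos (by positivity)
  have h2 : 0 < (1 / (Real.pi * ch v)) ^ (σ + k / 2) := Real.rpow_pos_of_pos (by positivity) _
  have h3 : 0 < Real.exp (-(k / 2 * v)) * ((1 / (Real.pi * ch v)) ^ (σ + k / 2) *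
        Real.Gamma (σ + k / 2)) := by positivity
  rw [← h] at h3
  exact lt_irrefl _ h3

lemma norm_kf (k : ℕ) {t : ℝ} (ht : 0 < t) (v : ℝ) (s : ℂ) :
    ‖(t : ℂ) ^ (s - 1) * (kf k t v : ℝ)‖ = t ^ (s.re - 1) * kf k t v := by
  rw [norm_mul, Complex.norm_cpow_eq_rpow_re_of_pos ht, Complex.norm_real, Real.norm_eq_abs,
    abs_of_nonneg (kf_nonneg k t v), Complex.sub_re, Complex.one_re]

lemma integrable_prod (k : ℕ) {s : ℂ} (hs : 1 < s.re) :
    Integrable (fun p : ℝ × ℝ => (p.1 : ℂ) ^ (s - 1) * (kf k p.1 p.2 : ℝ))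
      ((volume.restrict (Ioi 0)).prod volume) := by
  have hmeas : AEStronglyMeasurable (fun p : ℝ × ℝ => (p.1 : ℂ) ^ (s - 1) * (kf k p.1 p.2 : ℝ))
      ((volume.restrict (Ioi 0)).prod volume) := by
    have h1 : ((volume : Measure ℝ).restrict (Ioi 0)).prod (volume : Measure ℝ) =
        (volume : Measure (ℝ × ℝ)).restrict (Ioi 0 ×ˢ univ) := by
      rw [Measure.volume_eq_prod, ← Measure.prod_restrict, Measure.restrict_univ]
    rw [h1]
    apply ContinuousOn.aestronglyMeasurable _ (measurableSet_Ioi.prod MeasurableSet.univ)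
    apply ContinuousOn.mul
    · intro p hp
      have hp1 : (0 : ℝ) < p.1 := hp.1
      apply ContinuousAt.continuousWithinAt
      have h2 : ContinuousAt (fun x : ℝ => (x : ℂ) ^ (s - 1)) p.1 :=
        Complex.continuousAt_ofReal_cpow_const _ _ (Or.inr hp1.ne')
      exact ContinuousAt.comp (f := fun p : ℝ × ℝ => p.1) h2 continuousAt_fst
    · exact (Complex.continuous_ofReal.comp (continuous_kf k)).continuousOn
  rw [integrable_prod_iff' hmeas]
  have hae : ∀ᵐ t ∂(volume.restrict (Ioi (0 : ℝ))), 0 < t :=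
    (ae_restrict_iff' measurableSet_Ioi).2 (Eventually.of_forall fun t ht => ht)
  constructor
  · filter_upwards with v
    have h2 := integrable_real k hs v
    apply Integrable.mono' h2
    · apply ContinuousOn.aestronglyMeasurable _ measurableSet_Ioi
      apply ContinuousOn.mul
      · intro x hx
        exact (Complex.continuousAt_ofReal_cpow_const _ _
          (Or.inr (ne_of_gt (by exact hx)))).continuousWithinAt
      · exact (Complex.continuous_ofReal.comp ((continuous_kf k).comp
          (by fun_prop : Continuous fun x : ℝ => ((x, v) : ℝ × ℝ)))).continuousOn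
    · filter_upwards [hae] with t ht
      rw [norm_kf k ht]
  · have h3 : ∀ v : ℝ, ∫ t in Ioi (0 : ℝ), ‖(t : ℂ) ^ (s - 1) * (kf k t v : ℝ)‖ =
        Real.exp (-(k / 2 * v)) * ((1 / (Real.pi * ch v)) ^ (s.re + k / 2) *
        Real.Gamma (s.re + k / 2)) := by
      intro v
      rw [← integral_real k hs v]
      apply setIntegral_congr_fun measurableSet_Ioi
      intro t ht
      exact norm_kf k ht v s
    simp only
    simp_rw [h3]
    apply Integrable.mono' (integrable_ch_inv.const_mul (Real.Gamma (s.re + k / 2)))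
    · apply Continuous.aestronglyMeasurable
      apply Continuous.mul (by fun_prop)
      apply Continuous.mul _ continuous_const
      apply Continuous.rpow_const
      · apply Continuous.div continuous_const
        · unfold ch; fun_prop
        · intro v; have := ch_pos v; positivity
      · intro v; right; positivity
    · filter_upwards with v
      have hc := ch_pos v
      have hc1 := one_le_ch v
      have hG : 0 < Real.Gamma (s.re + k / 2) := Real.Gamma_pos_of_pos (by positivity)
      rw [Real.norm_eq_abs, abs_of_nonneg (by positivity)]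
      have h4 : Real.exp (-(k / 2 * v)) * (1 / (Real.pi * ch v)) ^ (s.re + k / 2) ≤ (ch v)⁻¹ := by
        have h5 : (1 / (Real.pi * ch v)) ≤ (ch v)⁻¹ := by
          rw [one_div]
          apply inv_anti₀ hc
          nlinarith [Real.pi_gt_three]
        have h6 : (1 / (Real.pi * ch v)) ^ (s.re + k / 2) ≤ ((ch v)⁻¹) ^ (s.re + k / 2) :=
          Real.rpow_le_rpow (by positivity) h5 (by positivity)
        have h7 : ((ch v)⁻¹) ^ (s.re + k / 2) = ((ch v)⁻¹) ^ s.re * ((ch v)⁻¹) ^ ((k : ℝ) / 2) :=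
          Real.rpow_add (inv_pos.2 hc) _ _
        have h8 : ((ch v)⁻¹) ^ s.re ≤ (ch v)⁻¹ := by
          calc ((ch v)⁻¹) ^ s.re ≤ ((ch v)⁻¹) ^ (1 : ℝ) :=
                Real.rpow_le_rpow_of_exponent_ge (inv_pos.2 hc)
                  (inv_le_one_of_one_le₀ hc1) hs.le
            _ = (ch v)⁻¹ := Real.rpow_one _
        have h9 : Real.exp (-(k / 2 * v)) * ((ch v)⁻¹) ^ ((k : ℝ) / 2) ≤ 1 := by
          have h10 : Real.exp (-(k / 2 * v)) = (Real.exp (-v)) ^ ((k : ℝ) / 2) := by
            rw [← Real.exp_mul]; congr 1; ring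
          rw [h10, ← Real.mul_rpow (Real.exp_pos _).le (inv_pos.2 hc).le]
          apply Real.rpow_le_one (by positivity) _ (by positivity)
          rw [← div_eq_mul_inv, div_le_one hc]
          exact exp_neg_le_ch v
        calc Real.exp (-(k / 2 * v)) * (1 / (Real.pi * ch v)) ^ (s.re + k / 2) ≤
            Real.exp (-(k / 2 * v)) * (((ch v)⁻¹) ^ s.re * ((ch v)⁻¹) ^ ((k : ℝ) / 2)) := by
              rw [← h7]; exact mul_le_mul_of_nonneg_left h6 (Real.exp_pos _).le
          _ = ((ch v)⁻¹) ^ s.re * (Real.exp (-(k / 2 * v)) * ((ch v)⁻¹) ^ ((k : ℝ) / 2)) := by ring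
          _ ≤ (ch v)⁻¹ * 1 := mul_le_mul h8 h9 (by positivity) (by positivity)
          _ = _ := mul_one _
      calc _ = Real.Gamma (s.re + k / 2) *
            (Real.exp (-(k / 2 * v)) * (1 / (Real.pi * ch v)) ^ (s.re + k / 2)) := by ring
        _ ≤ _ := mul_le_mul_of_nonneg_left h4 hG.le

theorem hasMellin_hk (k : ℕ) {s : ℂ} (hs : 1 < s.re) :
    HasMellin (fun t => (hk k t : ℂ)) s (gam k s) := by
  have hint := integrable_prod k hs
  have hinner : ∀ t : ℝ, ∫ v, (t : ℂ) ^ (s - 1) * (kf k t v : ℝ) =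
      (t : ℂ) ^ (s - 1) • (hk k t : ℂ) := by
    intro t
    rw [integral_const_mul, integral_complex_ofReal]
    rfl
  have hA : 0 < (s + k / 2).re := by
    simp only [Complex.add_re, Complex.div_ofNat_re, Complex.natCast_re]
    positivity
  constructor
  · unfold MellinConvergent IntegrableOn
    have := hint.integral_prod_left
    simp only at this
    simp_rw [hinner] at this
    exact this
  · unfold mellin
    simp_rw [← hinner]
    rw [integral_integral_swap hint]
    have h1 : ∀ v : ℝ, ∫ t in Ioi (0 : ℝ), (t : ℂ) ^ (s - 1) * (kf k t v : ℝ) =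
        (Real.exp (-(k / 2 * v)) : ℝ) * ((1 / ((Real.pi * ch v : ℝ) : ℂ)) ^ (s + k / 2) *
          Complex.Gamma (s + k / 2)) := by
      intro v
      have hc := ch_pos v
      rw [← Complex.integral_cpow_mul_exp_neg_mul_Ioi hA (by positivity : 0 < Real.pi * ch v),
        ← integral_const_mul]
      apply setIntegral_congr_fun measurableSet_Ioi
      intro t ht
      exact kf_complex k ht v s
    simp_rw [h1]
    have h2 : ∀ v : ℝ, ((Real.exp (-(k / 2 * v)) : ℝ) : ℂ) *
        ((1 / ((Real.pi * ch v : ℝ) : ℂ)) ^ (s + k / 2) * Complex.Gamma (s + k / 2)) =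
        (Complex.Gamma (s + k / 2) * (Real.pi : ℂ) ^ (-(s + k / 2))) *
        (Complex.exp ((s / 2 - (s + k) / 2) * v) *
          (ch v : ℂ) ^ (-(s / 2 + (s + k) / 2))) := by
      intro v
      have hc := ch_pos v
      have e1 : (1 / ((Real.pi * ch v : ℝ) : ℂ)) = ((1 / (Real.pi * ch v) : ℝ) : ℂ) := by
        push_cast; rfl
      have e2 : Real.log (1 / (Real.pi * ch v)) = -Real.log Real.pi - Real.log (ch v) := by
        rw [one_div, Real.log_inv, Real.log_mul Real.pi_pos.ne' hc.ne']; ring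
      rw [e1, cpow_pos (by positivity), cpow_pos Real.pi_pos, cpow_pos hc, e2, Complex.ofReal_exp]
      have e3 : ∀ a b c d e : ℂ, Complex.exp a * (Complex.exp b * c) = c * Complex.exp (a + b) := by
        intro a b c d e; rw [Complex.exp_add]; ring
      rw [e3 _ _ _ 0 0]
      rw [mul_assoc, ← Complex.exp_add, ← Complex.exp_add]
      congr 2
      push_cast
      ring
    simp_rw [h2]
    rw [integral_const_mul]
    have h3 := beta_eq (s / 2) ((s + k) / 2)
    have h4 := Complex.Gamma_mul_Gamma_eq_betaIntegral (s := s / 2) (t := (s + k) / 2)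
      (by simp only [Complex.div_ofNat_re]; linarith)
      (by
        simp only [Complex.div_ofNat_re, Complex.add_re, Complex.natCast_re]
        positivity)
    have h5 : s / 2 + (s + k) / 2 = s + k / 2 := by ring
    rw [h3, h5] at h4
    unfold gam
    rw [h4, h5]
    ring

end Pool.Agent.ST
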