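import Pool.Agent.Lib.MP_1ef7cf_nt.Contin
import Pool.Agent.Lib.MP_1ef7cf_nt.Kernel2

/-!
Analytic continuation of the zeta functions attached to orbits of lattice points: conclusion.
-/

open MeasureTheory Set Filter Topology

namespace Pool.Agent.ST

namespace Orb

variable {D : Type*} (O : Orb D)

lemma hasMellin_term (k : ℕ) {s : ℂ} (hs : 1 < s.re) (d : D) :
    HasMellin (fun t => ((Real.sign (O.p2 d) ^ k * hk k (O.nu d * t) : ℝ) : ℂ)) s
      ((Real.sign (O.p2 d) : ℂ) ^ k * ((O.nu d : ℂ) ^ (-s) * gam k s)) := by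
  have h1 := hasMellin_hk k hs
  have hn := O.nu_pos d
  have h2 : MellinConvergent (fun t => (fun u => (hk k u : ℂ)) (O.nu d * t)) s :=
    (MellinConvergent.comp_mul_left hn).2 h1.1
  have h3 := mellin_comp_mul_left (fun u => (hk k u : ℂ)) s hn
  have h4 := hasMellin_const_smul h2 ((Real.sign (O.p2 d) : ℂ) ^ k)
  have h5 : (fun t => ((Real.sign (O.p2 d) ^ k * hk k (O.nu d * t) : ℝ) : ℂ)) =
      fun t => ((Real.sign (O.p2 d) : ℂ) ^ k) • (fun u => (hk k u : ℂ)) (O.nu d * t) := by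
    funext t
    push_cast
    rfl
  rw [h5]
  refine ⟨h4.1, ?_⟩
  rw [h4.2, h3, h1.2]
  rfl

/-- absolute moment of the kernel -/
noncomputable def J (k : ℕ) (σ : ℝ) : ℝ := ∫ t in Ioi (0 : ℝ), t ^ (σ - 1) * hk k t

lemma integral_norm_term (k : ℕ) {s : ℂ} (_hs : 1 < s.re) (d : D) :
    ∫ t in Ioi (0 : ℝ), ‖(t : ℂ) ^ (s - 1) •
      ((Real.sign (O.p2 d) ^ k * hk k (O.nu d * t) : ℝ) : ℂ)‖ = O.nu d ^ (-s.re) * J k s.re := by
  have hn := O.nu_pos d
  have h1 : ∀ t ∈ Ioi (0 : ℝ), ‖(t : ℂ) ^ (s - 1) •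
      ((Real.sign (O.p2 d) ^ k * hk k (O.nu d * t) : ℝ) : ℂ)‖ =
      O.nu d ^ (1 - s.re) * ((O.nu d * t) ^ (s.re - 1) * hk k (O.nu d * t)) := by
    intro t ht
    have ht0 : (0 : ℝ) < t := ht
    rw [norm_smul, Complex.norm_cpow_eq_rpow_re_of_pos ht0, Complex.norm_real, norm_mul, norm_pow,
      Real.norm_eq_abs, abs_sign (O.p2_ne d), one_pow, one_mul, Real.norm_eq_abs,
      abs_of_nonneg (hk_nonneg _ _), Complex.sub_re, Complex.one_re,
      Real.mul_rpow hn.le ht0.le]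
    have h2 : O.nu d ^ (1 - s.re) * O.nu d ^ (s.re - 1) = 1 := by
      rw [← Real.rpow_add hn]; simp
    calc t ^ (s.re - 1) * hk k (O.nu d * t) =
        (O.nu d ^ (1 - s.re) * O.nu d ^ (s.re - 1)) * (t ^ (s.re - 1) * hk k (O.nu d * t)) := by
          rw [h2, one_mul]
      _ = _ := by ring
  rw [setIntegral_congr_fun measurableSet_Ioi h1, integral_const_mul,
    integral_comp_mul_left_Ioi (fun u => u ^ (s.re - 1) * hk k u) 0 hn, mul_zero, smul_eq_mul]
  unfold J
  rw [← mul_assoc]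
  congr 1
  rw [← Real.rpow_neg_one, ← Real.rpow_add hn]
  congr 1
  ring

lemma hasSum_mellin_I (k : ℕ) (hk1 : k ≤ 1) {s : ℂ} (hs : 1 < s.re) :
    HasSum (fun d => (Real.sign (O.p2 d) : ℂ) ^ k * ((O.nu d : ℂ) ^ (-s) * gam k s))
      (mellin (fun t => (O.I k t : ℂ)) s) := by
  have := O.countable
  have h1 := hasSum_integral_of_summable_integral_norm (μ := volume.restrict (Ioi (0 : ℝ)))
    (F := fun (d : D) (t : ℝ) => (t : ℂ) ^ (s - 1) •
      ((Real.sign (O.p2 d) ^ k * hk k (O.nu d * t) : ℝ) : ℂ))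
    (fun d => (O.hasMellin_term k hs d).1) (by
      simp_rw [O.integral_norm_term k hs]
      exact (O.summ s.re hs).mul_right _)
  have h2 : ∀ d, ∫ t in Ioi (0 : ℝ), (t : ℂ) ^ (s - 1) •
      ((Real.sign (O.p2 d) ^ k * hk k (O.nu d * t) : ℝ) : ℂ) =
      (Real.sign (O.p2 d) : ℂ) ^ k * ((O.nu d : ℂ) ^ (-s) * gam k s) :=
    fun d => (O.hasMellin_term k hs d).2
  simp_rw [h2] at h1
  convert! h1 using 1
  unfold mellin
  apply setIntegral_congr_fun measurableSet_Ioi
  intro t ht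
  have ht0 : (0 : ℝ) < t := ht
  simp only
  have h3 := O.hasSum_I k hk1 ht0
  have h4 := (Complex.hasSum_ofReal.2 h3).mul_left ((t : ℂ) ^ (s - 1))
  exact h4.tsum_eq.symm

/-- inverse gamma factor -/
noncomputable def ig (k : ℕ) (s : ℂ) : ℂ :=
  2 * (Real.pi : ℂ) ^ (s + k / 2) *
    ((Complex.Gamma (s / 2))⁻¹ * (Complex.Gamma ((s + k) / 2))⁻¹)

omit O in
lemma gam_mul_ig (k : ℕ) {s : ℂ} (hs : 1 < s.re) : gam k s * ig k s = 1 := by
  have h1 : Complex.Gamma (s / 2) ≠ 0 := by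
    apply Complex.Gamma_ne_zero_of_re_pos
    simp only [Complex.div_ofNat_re]; linarith
  have h2 : Complex.Gamma ((s + k) / 2) ≠ 0 := by
    apply Complex.Gamma_ne_zero_of_re_pos
    simp only [Complex.div_ofNat_re, Complex.add_re, Complex.natCast_re]
    positivity
  have hpi : (Real.pi : ℂ) ≠ 0 := by exact_mod_cast Real.pi_pos.ne'
  unfold gam ig
  rw [Complex.cpow_neg]
  have h3 : (Real.pi : ℂ) ^ (s + k / 2) ≠ 0 := by
    rw [Complex.cpow_def_of_ne_zero hpi]; exact Complex.exp_ne_zero _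
  field_simp

omit O in
lemma differentiable_iG (k : ℕ) : Differentiable ℂ (fun s : ℂ => (Complex.Gamma ((s + k) / 2))⁻¹) := by
  have h := Complex.differentiable_one_div_Gamma
  have h2 : Differentiable ℂ (fun s : ℂ => (s + k) / 2) := by fun_prop
  exact h.comp h2

omit O in
lemma differentiable_ig (k : ℕ) : Differentiable ℂ (ig k) := by
  have hpi : (Real.pi : ℂ) ≠ 0 := by exact_mod_cast Real.pi_pos.ne'
  unfold ig
  have h0 := differentiable_iG 0
  simp only [Nat.cast_zero, add_zero] at h0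
  apply Differentiable.mul
  · apply Differentiable.const_mul
    intro s
    apply DifferentiableAt.const_cpow (by fun_prop)
    left; exact hpi
  · exact h0.mul (differentiable_iG k)

omit O in
lemma ig_zero (k : ℕ) : ig k 0 = 0 := by
  unfold ig
  rw [zero_div, Complex.Gamma_zero]
  simp

omit O in
lemma deriv_ig_zero : deriv (ig 0) 0 = 0 := by
  have hpi : (Real.pi : ℂ) ≠ 0 := by exact_mod_cast Real.pi_pos.ne'
  have h0 := differentiable_iG 0
  simp only [Nat.cast_zero, add_zero] at h0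
  have h1 : HasDerivAt (fun s : ℂ => (Complex.Gamma (s / 2))⁻¹)
      (deriv (fun s : ℂ => (Complex.Gamma (s / 2))⁻¹) 0) 0 := (h0 0).hasDerivAt
  have h2 := h1.mul h1
  have h3 : DifferentiableAt ℂ (fun s : ℂ => 2 * (Real.pi : ℂ) ^ s) 0 := by
    apply DifferentiableAt.const_mul
    apply DifferentiableAt.const_cpow (by fun_prop)
    left; exact hpi
  have h4 := h3.hasDerivAt.mul h2
  have h5 : ig 0 = fun s : ℂ => 2 * (Real.pi : ℂ) ^ s *
      ((Complex.Gamma (s / 2))⁻¹ * (Complex.Gamma (s / 2))⁻¹) := by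
    funext s
    unfold ig
    simp
  rw [h5]
  have h6 := h4.deriv
  simp only [Pi.mul_apply, zero_div, Complex.Gamma_zero, inv_zero, mul_zero, zero_mul,
    add_zero] at h6
  exact h6

/-- **Analytic continuation.** -/
theorem exists_Z (k : ℕ) (hk1 : k ≤ 1) : ∃ Z : ℂ → ℂ, AnalyticOnNhd ℂ Z {1}ᶜ ∧
    (∀ s : ℂ, 1 < s.re → HasSum (fun d => (Real.sign (O.p2 d) : ℂ) ^ k * (O.nu d : ℂ) ^ (-s))
      (Z s)) ∧ Z 0 = 0 ∧ (k = 0 → deriv Z 0 = 0) := by
  set Λ : ℂ → ℂ := fun s => mellin (O.f k) s + O.c0 k / (s - 1) with hΛ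
  have hΛd : DifferentiableOn ℂ Λ {1}ᶜ := by
    intro s hs
    have hs1 : s - 1 ≠ 0 := sub_ne_zero.2 (by simpa using hs)
    apply DifferentiableAt.differentiableWithinAt
    apply (O.differentiable_mellin_f k hk1 s).add
    exact DifferentiableAt.fun_div (differentiableAt_const _)
      (differentiableAt_id.sub_const 1) hs1
  have hopen : IsOpen ({1}ᶜ : Set ℂ) := isOpen_compl_singleton
  have h0mem : (0 : ℂ) ∈ ({1}ᶜ : Set ℂ) := by simp
  refine ⟨fun s => Λ s * ig k s, ?_, ?_, ?_, ?_⟩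
  · apply DifferentiableOn.analyticOnNhd _ hopen
    exact hΛd.mul (differentiable_ig k).differentiableOn
  · intro s hs
    have h1 := (O.hasSum_mellin_I k hk1 hs).mul_right (ig k s)
    rw [(O.hasMellin_I k hk1 hs).2] at h1
    refine h1.congr_fun fun d => ?_
    rw [mul_assoc, mul_assoc, gam_mul_ig k hs, mul_one]
  · simp only [ig_zero, mul_zero]
  · intro hk0
    subst hk0
    have h1 : HasDerivAt Λ (deriv Λ 0) 0 :=
      ((hΛd 0 h0mem).differentiableAt (hopen.mem_nhds h0mem)).hasDerivAt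
    have h2 : HasDerivAt (ig 0) (deriv (ig 0) 0) 0 := (differentiable_ig 0 0).hasDerivAt
    have h3 := (h1.mul h2).deriv
    rw [deriv_ig_zero, ig_zero, mul_zero, mul_zero, add_zero] at h3
    exact h3

end Orb

end Pool.Agent.ST
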