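import Pool.Agent.Lib.MP_1ef7cf_nt.Norm

/-!
# Derivatives at zero of the partial zeta functions
-/

open NumberField IsDedekindDomain nonZeroDivisors Module ComplexConjugate

namespace Pool.Agent.ST

section zd

variable {K : Type*} [Field K] [NumberField K]

open Classical in
/-- the derivative at `0` of the partial zeta function -/
noncomputable def zd (σ₂ : K →+* ℝ) (m : Ideal (𝓞 K)) (A : RayClassGroup σ₂ m) : ℝ :=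
  if h : ∃ Z, IsPartialZeta σ₂ m A Z then (deriv h.choose 0).re else 0

variable {σ₂ : K →+* ℝ}

lemma zd_eq {m : Ideal (𝓞 K)} {A : RayClassGroup σ₂ m} {Z : ℂ → ℂ}
    (hZ : IsPartialZeta σ₂ m A Z) : (zd σ₂ m A : ℂ) = deriv Z 0 := by
  have h : ∃ Z, IsPartialZeta σ₂ m A Z := ⟨Z, hZ⟩
  unfold zd
  rw [dif_pos h, h.choose_spec.deriv_real]
  exact deriv_eq_of_eqOn (h.choose_spec.unique hZ)

lemma zd_eq_re {m : Ideal (𝓞 K)} {A : RayClassGroup σ₂ m} {Z : ℂ → ℂ}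
    (hZ : IsPartialZeta σ₂ m A Z) : zd σ₂ m A = (deriv Z 0).re := by
  rw [← zd_eq hZ, Complex.ofReal_re]

end zd

section rq

variable {K : Type*} [Field K] [NumberField K] [Algebra K ℝ] {σ₂ : K →+* ℝ}

lemma exists_pz (h2 : Module.finrank ℚ K = 2) (hσ : σ₂ ≠ sg1 K) {m : Ideal (𝓞 K)}
    (hm : m ≠ ⊥) (hm1 : m ≠ ⊤) (A : RayClassGroup σ₂ m) :
    ∃ Z, IsPartialZeta σ₂ m A Z ∧ Z 0 = 0 := by
  obtain ⟨c, hc⟩ := exists_isC (σ₂ := σ₂) hm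
  obtain ⟨Z, Z', h3, h4, h5, h6, h7⟩ := exists_partialZeta h2 hσ hm hm1 hc A
  exact ⟨Z, h3, h5⟩

/-- vanishing at `0` -/
lemma pz_zero (h2 : Module.finrank ℚ K = 2) (hσ : σ₂ ≠ sg1 K) {m : Ideal (𝓞 K)}
    (hm : m ≠ ⊥) (hm1 : m ≠ ⊤) {A : RayClassGroup σ₂ m} {Z : ℂ → ℂ}
    (hZ : IsPartialZeta σ₂ m A Z) : Z 0 = 0 := by
  obtain ⟨Z', h3, h4⟩ := exists_pz h2 hσ hm hm1 A
  rw [hZ.unique h3 (by simp), h4]

/-- antisymmetry -/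
lemma zd_mul_c (h2 : Module.finrank ℚ K = 2) (hσ : σ₂ ≠ sg1 K) {m : Ideal (𝓞 K)}
    (hm : m ≠ ⊥) (hm1 : m ≠ ⊤) {c : RayClassGroup σ₂ m} (hc : IsC σ₂ m c)
    (A : RayClassGroup σ₂ m) : zd σ₂ m A + zd σ₂ m (A * c) = 0 := by
  obtain ⟨Z, Z', h3, h4, h5, h6, h7⟩ := exists_partialZeta h2 hσ hm hm1 hc A
  rw [← zd_eq h3, ← zd_eq h4] at h7
  exact_mod_cast h7

/-- the sum over all classes is zero -/
lemma sum_zd (h2 : Module.finrank ℚ K = 2) (hσ : σ₂ ≠ sg1 K) {m : Ideal (𝓞 K)}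
    (hm : m ≠ ⊥) (hm1 : m ≠ ⊤) [Fintype (RayClassGroup σ₂ m)] :
    ∑ A : RayClassGroup σ₂ m, zd σ₂ m A = 0 := by
  obtain ⟨c, hc⟩ := exists_isC (σ₂ := σ₂) hm
  have h3 : ∑ A : RayClassGroup σ₂ m, zd σ₂ m (A * c) = ∑ A : RayClassGroup σ₂ m, zd σ₂ m A :=
    Equiv.sum_comp (Equiv.mulRight c) _
  have h4 : ∑ A : RayClassGroup σ₂ m, (zd σ₂ m A + zd σ₂ m (A * c)) = 0 :=
    Finset.sum_eq_zero fun A _ => zd_mul_c h2 hσ hm hm1 hc A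
  rw [Finset.sum_add_distrib, h3] at h4
  linarith

omit [NumberField K] [Algebra K ℝ] in
lemma ne_top_of_le {n' n : Ideal (𝓞 K)} (h : n' ≤ n) (hn : n ≠ ⊤) : n' ≠ ⊤ := by
  rintro rfl
  exact hn (top_le_iff.1 h)

/-- same prime divisors -/
theorem zd_relation_same (h2 : Module.finrank ℚ K = 2) (hσ : σ₂ ≠ sg1 K)
    {n' n : Ideal (𝓞 K)} (h : n' ≤ n) (hn' : n' ≠ ⊥) (hn : n ≠ ⊥) (hn1 : n ≠ ⊤)
    (hcop : ∀ I : Ideal (𝓞 K), IsCoprime I n → IsCoprime I n')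
    {A : RayClassGroup σ₂ n} {S : Finset (RayClassGroup σ₂ n')}
    (hS : ∀ A', A' ∈ S ↔ pr σ₂ h A' = A) : ∑ A' ∈ S, zd σ₂ n' A' = zd σ₂ n A := by
  obtain ⟨Z, hZ, -⟩ := exists_pz h2 hσ hn hn1 A
  choose Z' hZ' _ using exists_pz (σ₂ := σ₂) h2 hσ hn' (ne_top_of_le h hn1)
  have h3 : AnalyticOnNhd ℂ (fun s => ∑ A' ∈ S, Z' A' s) {1}ᶜ :=
    Finset.analyticOnNhd_fun_sum S fun A' _ => (hZ' A').1
  have h4 := deriv_eq_of_eqOn (eq_of_eq_right hZ.1 h3 fun s hs =>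
    zeta_relation_same h hcop hS hZ hZ' hs)
  rw [deriv_fun_sum] at h4
  · have h5 : ((∑ A' ∈ S, zd σ₂ n' A' : ℝ) : ℂ) = (zd σ₂ n A : ℂ) := by
      rw [zd_eq hZ, h4, Complex.ofReal_sum]
      exact Finset.sum_congr rfl fun A' _ => zd_eq (hZ' A')
    exact_mod_cast h5
  · intro A' _
    exact ((hZ' A').1 0 (by simp)).differentiableAt

/-- adding a prime -/
theorem zd_relation_prime_aux (h2 : Module.finrank ℚ K = 2) (hσ : σ₂ ≠ sg1 K)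
    {n : Ideal (𝓞 K)} {q : HeightOneSpectrum (𝓞 K)} (h : n * q.asIdeal ≤ n)
    (hn : n ≠ ⊥) (hn1 : n ≠ ⊤)
    {A : RayClassGroup σ₂ n} {S : Finset (RayClassGroup σ₂ (n * q.asIdeal))}
    (hS : ∀ A', A' ∈ S ↔ pr σ₂ h A' = A) {Q : primeTo (K := K) n}
    (hQ : ((Q : (FI K)ˣ) : FI K) = (q.asIdeal : FI K)) :
    ∑ A' ∈ S, zd σ₂ (n * q.asIdeal) A' = zd σ₂ n A - zd σ₂ n (A * (cls σ₂ n Q)⁻¹) := by
  have hn' : n * q.asIdeal ≠ ⊥ := mul_ne_bot' hn q.ne_bot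
  obtain ⟨Z, hZ, hZ0⟩ := exists_pz h2 hσ hn hn1 A
  obtain ⟨Z₁, hZ₁, hZ₁0⟩ := exists_pz h2 hσ hn hn1 (A * (cls σ₂ n Q)⁻¹)
  choose Z' hZ' _ using exists_pz (σ₂ := σ₂) h2 hσ hn' (ne_top_of_le h hn1)
  have h3 : AnalyticOnNhd ℂ (fun s => ∑ A' ∈ S, Z' A' s) {1}ᶜ :=
    Finset.analyticOnNhd_fun_sum S fun A' _ => (hZ' A').1
  set N : ℕ := Ideal.absNorm q.asIdeal with hN
  have hNpos : 0 < N := by
    rw [hN, Nat.pos_iff_ne_zero, Ne, Ideal.absNorm_eq_zero_iff]; exact q.ne_bot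
  have hNan : AnalyticOnNhd ℂ (fun s : ℂ => (N : ℂ) ^ (-s)) {1}ᶜ := by
    intro s _
    exact (analyticAt_const).cpow analyticAt_id.neg (by
      left
      rw [Complex.natCast_re]
      exact_mod_cast hNpos)
  have h5 : AnalyticOnNhd ℂ (fun s => ∑ A' ∈ S, Z' A' s + (N : ℂ) ^ (-s) * Z₁ s) {1}ᶜ :=
    h3.add (hNan.mul hZ₁.1)
  have h4 := deriv_eq_of_eqOn (eq_of_eq_right hZ.1 h5 fun s hs =>
    zeta_relation_prime h hS hQ hZ hZ₁ hZ' hs)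
  have h0mem : (0 : ℂ) ∈ ({1}ᶜ : Set ℂ) := by simp
  rw [deriv_fun_add (h3 0 h0mem).differentiableAt ((hNan.mul hZ₁.1) 0 h0mem).differentiableAt,
    deriv_fun_sum (fun A' _ => ((hZ' A').1 0 (by simp)).differentiableAt),
    deriv_fun_mul (hNan 0 h0mem).differentiableAt (hZ₁.1 0 h0mem).differentiableAt, hZ₁0] at h4
  simp only [mul_zero, neg_zero, Complex.cpow_zero, one_mul, zero_add] at h4
  have h6 : ((∑ A' ∈ S, zd σ₂ (n * q.asIdeal) A' : ℝ) : ℂ) =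
      ((zd σ₂ n A - zd σ₂ n (A * (cls σ₂ n Q)⁻¹) : ℝ) : ℂ) := by
    rw [Complex.ofReal_sum, Complex.ofReal_sub, zd_eq hZ, zd_eq hZ₁, h4]
    rw [add_sub_cancel_right]
    exact Finset.sum_congr rfl fun A' _ => zd_eq (hZ' A')
  exact_mod_cast h6

/-- adding a prime -/
theorem zd_relation_prime (h2 : Module.finrank ℚ K = 2) (hσ : σ₂ ≠ sg1 K)
    {n n' : Ideal (𝓞 K)} {q : HeightOneSpectrum (𝓞 K)} (h : n' ≤ n) (hnq : n' = n * q.asIdeal)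
    (hn : n ≠ ⊥) (hn1 : n ≠ ⊤)
    {A : RayClassGroup σ₂ n} {S : Finset (RayClassGroup σ₂ n')}
    (hS : ∀ A', A' ∈ S ↔ pr σ₂ h A' = A) {Q : primeTo (K := K) n}
    (hQ : ((Q : (FI K)ˣ) : FI K) = (q.asIdeal : FI K)) :
    ∑ A' ∈ S, zd σ₂ n' A' = zd σ₂ n A - zd σ₂ n (A * (cls σ₂ n Q)⁻¹) := by
  subst hnq
  exact zd_relation_prime_aux h2 hσ h hn hn1 hS hQ

end rq

end Pool.Agent.ST
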