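import Pool.Agent.Lib.MP_1ef7cf_nt.Desc
import Pool.Agent.Lib.MP_1ef7cf_nt.Norm2

/-!
# The Stark-Tate assertion in terms of a single unit
-/

open NumberField IsDedekindDomain nonZeroDivisors IntermediateField

namespace Pool.Agent.ST

variable {K : Type*} [Field K] [NumberField K] [Algebra K ℝ] {σ₂ : K →+* ℝ}

/-- The data of a ray class field with a Stark unit. -/
structure STData (σ₂ : K →+* ℝ) (m : Ideal (𝓞 K)) (H : IntermediateField K ℝ)
    (Art : RayClassGroup σ₂ m ≃* (H ≃ₐ[K] H)) (u : ℝ) : Prop where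
  rcf : IsRayClassField σ₂ m H Art
  stark : IsStarkUnit σ₂ H u
  act : ∀ A, act (Art A) u = Real.exp (-2 * zd σ₂ m A)

lemma StarkTate.data {m : Ideal (𝓞 K)} (hst : StarkTate σ₂ m) :
    ∃ (H : IntermediateField K ℝ) (Art : RayClassGroup σ₂ m ≃* (H ≃ₐ[K] H)) (u : ℝ),
      STData σ₂ m H Art u := by
  obtain ⟨H, Art, Z, ε, hr, hZ, hε, hact, habs, hab⟩ := hst
  set u : ℝ := (((ε 1 : 𝓞 H) : H) : ℝ) with hu
  have humem : u ∈ H := ((ε 1 : 𝓞 H) : H).2
  have hval : ∀ A, (((ε A : 𝓞 H) : H) : ℝ) = Real.exp (-2 * zd σ₂ m A) := by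
    intro A
    have h1 := hε A
    rw [← zd_eq (hZ A)] at h1
    have h2 : ((Real.exp (-2 * zd σ₂ m A) : ℝ) : ℂ) = Complex.exp (-2 * (zd σ₂ m A : ℂ)) := by
      rw [Complex.ofReal_exp]
      push_cast
      rfl
    rw [← h2] at h1
    exact_mod_cast h1
  have hactu : ∀ A, Pool.Agent.ST.act (Art A) u = Real.exp (-2 * zd σ₂ m A) := by
    intro A
    rw [← hval A, hu, act_coe, hact 1 A, one_mul]
  have hint : IsIntegral ℤ u := by
    have h1 : IsIntegral ℤ ((ε 1 : 𝓞 H) : H) := RingOfIntegers.isIntegral_coe _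
    exact h1.map (algebraMap H ℝ).toIntAlgHom
  have hint' : IsIntegral ℤ u⁻¹ := by
    have h1 : IsIntegral ℤ ((((ε 1)⁻¹ : (𝓞 H)ˣ) : 𝓞 H) : H) := RingOfIntegers.isIntegral_coe _
    have h2 : ((((((ε 1)⁻¹ : (𝓞 H)ˣ) : 𝓞 H) : H)) : ℝ) * u = 1 := by
      have h3 : (((ε 1)⁻¹ : (𝓞 H)ˣ) : 𝓞 H) * (ε 1 : 𝓞 H) = 1 := Units.inv_mul _
      have h4 : algebraMap (𝓞 H) H (((ε 1)⁻¹ : (𝓞 H)ˣ) : 𝓞 H) * algebraMap (𝓞 H) H (ε 1 : 𝓞 H) =
          1 := by rw [← map_mul, h3, map_one]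
      exact congrArg (fun x : H => (x : ℝ)) h4
    rw [← eq_inv_of_mul_eq_one_left h2]
    exact h1.map (algebraMap H ℝ).toIntAlgHom
  refine ⟨H, Art, u, hr, ⟨humem, ?_, hint, hint', ?_, ?_⟩, hactu⟩
  · intro σ
    obtain ⟨A, rfl⟩ := Art.surjective σ
    rw [hactu]; exact Real.exp_pos _
  · intro g hg
    exact habs 1 g hg
  · exact hab 1

omit [NumberField K] in
/-- a unit of the ring of integers from a real number -/
lemma exists_unit {H : IntermediateField K ℝ} {x : H} (hx0 : x ≠ 0) (hx : IsIntegral ℤ x)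
    (hx' : IsIntegral ℤ x⁻¹) : ∃ v : (𝓞 H)ˣ, ((v : 𝓞 H) : H) = x := by
  refine ⟨⟨⟨x, hx⟩, ⟨x⁻¹, hx'⟩, ?_, ?_⟩, rfl⟩
  · apply RingOfIntegers.coe_injective
    rw [map_mul, map_one]
    exact mul_inv_cancel₀ hx0
  · apply RingOfIntegers.coe_injective
    rw [map_mul, map_one]
    exact inv_mul_cancel₀ hx0

lemma STData.starkTate (h2 : Module.finrank ℚ K = 2) (hσ : σ₂ ≠ sg1 K) {m : Ideal (𝓞 K)}
    (hm : m ≠ ⊥) (hm1 : m ≠ ⊤) {H : IntermediateField K ℝ}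
    {Art : RayClassGroup σ₂ m ≃* (H ≃ₐ[K] H)} {u : ℝ} (h : STData σ₂ m H Art u) :
    StarkTate σ₂ m := by
  choose Z hZ _ using exists_pz (σ₂ := σ₂) h2 hσ hm hm1
  have hmem := h.stark.mem
  have hu0 : u ≠ 0 := h.stark.pos'.ne'
  have hfd := h.rcf.finite
  have hx : ∀ A, ∃ v : (𝓞 H)ˣ, ((v : 𝓞 H) : H) = Art A ⟨u, hmem⟩ := by
    intro A
    apply exists_unit
    · intro h0
      have : (⟨u, hmem⟩ : H) = 0 := (Art A).injective (by rw [h0, map_zero])
      exact hu0 (congrArg Subtype.val this)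
    · have h1 : IsIntegral ℤ (⟨u, hmem⟩ : H) :=
        (isIntegral_algebraMap_iff (algebraMap H ℝ).injective).1 h.stark.int
      exact h1.map ((Art A : H →+* H).toIntAlgHom)
    · have h1 : IsIntegral ℤ (⟨u⁻¹, inv_mem hmem⟩ : H) :=
        (isIntegral_algebraMap_iff (algebraMap H ℝ).injective).1 h.stark.int_inv
      have h3 : (Art A ⟨u, hmem⟩)⁻¹ = Art A ⟨u⁻¹, inv_mem hmem⟩ := by
        rw [← map_inv₀]; rfl
      rw [h3]
      exact h1.map ((Art A : H →+* H).toIntAlgHom)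
  choose ε hε using hx
  have hval : ∀ A, (((ε A : 𝓞 H) : H) : ℝ) = Real.exp (-2 * zd σ₂ m A) := by
    intro A
    rw [← h.act A, act_of_mem _ hmem, hε]
  refine ⟨H, Art, Z, ε, h.rcf, hZ, ?_, ?_, ?_, ?_⟩
  · intro A
    rw [hval, Complex.ofReal_exp, ← zd_eq (hZ A)]
    push_cast
    rfl
  · intro A B
    rw [hε, hε, mul_comm A B, map_mul]
    rfl
  · intro A g hg
    rw [hε]
    exact h.stark.abs (g.comp (Art A : H →+* H)) (by
      intro a
      simp only [RingHom.comp_apply]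
      have : (Art A : H →+* H) (algebraMap K H a) = algebraMap K H a := (Art A).commutes a
      rw [this, ← hg a])
  · intro A
    have := h.stark.ab
    have h4 : (((ε A : 𝓞 H) : H) : ℝ) = Pool.Agent.ST.act (Art A) u := by rw [hval, h.act]
    rw [h4]
    exact isAbelianGalois_of_le (M := sqrtExt H u)
      (sqrtExt_le (le_sqrtExt H u) (sqrt_act_mem hmem h.stark.pos (Art A)))

end Pool.Agent.ST
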