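import Pool.Agent.Lib.MP_1ef7cf_nt.Act

/-!
The algebraic core: removing a prime from the modulus (main theorem).
-/

set_option linter.style.haveILetI false

open IntermediateField Polynomial

namespace Pool.Agent.ST

variable {K : Type*} [Field K] [Algebra K ℝ] {H L M Ω : IntermediateField K ℝ}

section emb

/-- total version of an embedding of `H`. -/
noncomputable def emb (g : H →+* ℂ) (x : ℝ) : ℂ :=
  open Classical in if hx : x ∈ H then g ⟨x, hx⟩ else 0

variable (g : H →+* ℂ) {x y : ℝ}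

lemma emb_of_mem (hx : x ∈ H) : emb g x = g ⟨x, hx⟩ := dif_pos hx

lemma emb_coe (x : H) : emb g (x : ℝ) = g x := emb_of_mem g x.2

lemma emb_mul (hx : x ∈ H) (hy : y ∈ H) : emb g (x * y) = emb g x * emb g y := by
  lift x to H using hx
  lift y to H using hy
  rw [← MulMemClass.coe_mul, emb_coe, emb_coe, emb_coe, map_mul]

lemma emb_inv (hx : x ∈ H) : emb g (x⁻¹) = (emb g x)⁻¹ := by
  lift x to H using hx
  have : ((x⁻¹ : H) : ℝ) = (x : ℝ)⁻¹ := rfl
  rw [← this, emb_coe, emb_coe, map_inv₀]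

lemma emb_div (hx : x ∈ H) (hy : y ∈ H) : emb g (x / y) = emb g x / emb g y := by
  rw [div_eq_mul_inv, div_eq_mul_inv, emb_mul g hx (inv_mem hy), emb_inv g hy]

lemma emb_one : emb g 1 = 1 := by
  rw [show (1 : ℝ) = ((1 : H) : ℝ) from rfl, emb_coe, map_one]

lemma emb_prod {ι : Type*} (s : Finset ι) (f : ι → ℝ) (hf : ∀ i ∈ s, f i ∈ H) :
    emb g (∏ i ∈ s, f i) = ∏ i ∈ s, emb g (f i) := by
  classical
  induction s using Finset.induction_on with
  | empty => simp [emb_one]
  | insert a s ha ih =>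
    rw [Finset.prod_insert ha, Finset.prod_insert ha,
      emb_mul g (hf a (Finset.mem_insert_self _ _))
        (prod_mem fun i hi => hf i (Finset.mem_insert_of_mem hi)),
      ih fun i hi => hf i (Finset.mem_insert_of_mem hi)]

lemma emb_inj (hx : x ∈ H) (hy : y ∈ H) (h : emb g x = emb g y) : x = y := by
  rw [emb_of_mem g hx, emb_of_mem g hy] at h
  exact congrArg Subtype.val (g.injective h)

/-- `g` lies over the embedding `σ₂` of `K`. -/
def Over (σ₂ : K →+* ℝ) (g : H →+* ℂ) : Prop := ∀ a : K, g (algebraMap K H a) = (σ₂ a : ℂ)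

/-- extension of an embedding to a bigger field -/
lemma exists_extend (h : H ≤ L) [FiniteDimensional K L] :
    ∃ g' : L →+* ℂ, ∀ x ∈ H, emb g' x = emb g x := by
  letI : Algebra H L := (inclusion h).toAlgebra
  haveI : IsScalarTower K H L := IsScalarTower.of_algebraMap_eq' rfl
  letI : Algebra H ℂ := g.toAlgebra
  haveI : Module.Finite H L := Module.Finite.of_restrictScalars_finite K H L
  haveI : Algebra.IsAlgebraic H L := inferInstance
  let g' : L →ₐ[H] ℂ := IsAlgClosed.lift
  refine ⟨g'.toRingHom, ?_⟩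
  intro x hx
  rw [emb_of_mem _ hx, emb_of_mem _ (h hx)]
  exact g'.commutes ⟨x, hx⟩

lemma exists_over (σ₂ : K →+* ℝ) [FiniteDimensional K H] : ∃ g : H →+* ℂ, Over σ₂ g := by
  letI : Algebra K ℂ := ((algebraMap ℝ ℂ).comp σ₂).toAlgebra
  let g' : H →ₐ[K] ℂ := IsAlgClosed.lift
  exact ⟨g'.toRingHom, fun a => g'.commutes a⟩

variable {g}

/-- complex conjugation with respect to an embedding over `σ₂` (abstract version). -/
lemma exists_conj_aux {K F : Type*} [Field K] [Field F] [Algebra K F] [Normal K F]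
    {σ₂ : K →+* ℝ} {g : F →+* ℂ} (hg : ∀ a : K, g (algebraMap K F a) = (σ₂ a : ℂ)) :
    ∃ C : F ≃ₐ[K] F, ∀ x, g (C x) = (starRingEnd ℂ) (g x) := by
  letI : Algebra K ℂ := ((algebraMap ℝ ℂ).comp σ₂).toAlgebra
  letI : Algebra F ℂ := g.toAlgebra
  haveI : IsScalarTower K F ℂ := IsScalarTower.of_algebraMap_eq (fun a => (hg a).symm)
  let g₂ : F →ₐ[K] ℂ :=
    { (starRingEnd ℂ).comp g with
      commutes' := by
        intro a
        change (starRingEnd ℂ) (g (algebraMap K F a)) = _
        rw [hg a, Complex.conj_ofReal]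
        rfl }
  obtain ⟨C, hC⟩ := (Normal.algHomEquivAut K ℂ F).symm.surjective g₂
  refine ⟨C, ?_⟩
  intro x
  have := congrArg (fun f : F →ₐ[K] ℂ => f x) hC
  exact this

/-- complex conjugation on `H` with respect to an embedding over `σ₂`. -/
lemma exists_conj {σ₂ : K →+* ℝ} (hg : Over σ₂ g) [Normal K H] :
    ∃ C : H ≃ₐ[K] H, ∀ x ∈ H, emb g (act C x) = (starRingEnd ℂ) (emb g x) := by
  obtain ⟨C, hC⟩ := exists_conj_aux hg
  refine ⟨C, ?_⟩
  intro x hx
  rw [act_of_mem _ hx, emb_coe, emb_of_mem _ hx]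
  exact hC _

end emb

section rel

/-- induction principle for relations on a group. -/
lemma rel_all {G : Type*} [Group G] (Q : G → G → Prop) (hr : ∀ a, Q a a)
    (hs : ∀ a b, Q a b → Q b a) (ht : ∀ a b c, Q a b → Q b c → Q a c) (S : Set G)
    (hS : Subgroup.closure S = ⊤) (h : ∀ φ ∈ S, ∀ σ, Q σ (σ * φ⁻¹)) (σ τ : G) : Q σ τ := by
  let T : Subgroup G :=
    { carrier := {φ | ∀ σ, Q σ (σ * φ⁻¹)}
      mul_mem' := by
        intro a b ha hb σ
        have := ht _ _ _ (hb σ) (ha (σ * b⁻¹))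
        rw [mul_inv_rev, ← mul_assoc]; exact this
      one_mem' := by
        intro σ
        simpa using hr σ
      inv_mem' := by
        intro a ha σ
        have := hs _ _ (ha (σ * a))
        simpa using this }
  have hT : S ≤ T := h
  have hT' : Subgroup.closure S ≤ T := (Subgroup.closure_le T).2 hT
  rw [hS] at hT'
  have := hT' (Subgroup.mem_top (τ⁻¹ * σ)) σ
  simpa [mul_assoc] using this

end rel

end Pool.Agent.ST
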