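import Pool.Agent.Lib.MP_1ef7cf_nt.Mg.G002

/-!
The algebraic core: removing a prime from the modulus, with data only for some of the pairs.
-/

set_option linter.style.haveILetI false

open IntermediateField Polynomial

namespace Pool.Agent.ST

variable {K : Type*} [Field K] [Algebra K ℝ] {H L M Ω : IntermediateField K ℝ}

section pairing

variable [FiniteDimensional K H] [IsAbelianGalois K H]

omit [FiniteDimensional K H] in
/-- If the pairing with `τ` is trivial on a generating set then it is trivial. -/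
lemma pairing_sub (c : (H ≃ₐ[K] H) → ℝ) (hc : ∀ σ, c σ ∈ H) (h0 : ∀ σ, c σ ≠ 0)
    (hcoc : ∀ σ σ', ∃ s : ℝ, (s = 1 ∨ s = -1) ∧ c (σ * σ') = s * (c σ * act σ (c σ')))
    (h1 : c 1 = 1) (S : Set (H ≃ₐ[K] H)) (hS : Subgroup.closure S = ⊤) {τ : H ≃ₐ[K] H}
    (hτ : ∀ a ∈ S, pairing c a τ = 1) (σ : H ≃ₐ[K] H) : pairing c σ τ = 1 := by
  let T : Subgroup (H ≃ₐ[K] H) :=
    { carrier := {σ | pairing c σ τ = 1}
      mul_mem' := by
        intro a b ha hb
        change pairing c (a * b) τ = 1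
        rw [pairing_mul c hc h0 hcoc, show pairing c a τ = 1 from ha,
          show pairing c b τ = 1 from hb, act_one_right, one_mul]
      one_mem' := by
        change pairing c 1 τ = 1
        unfold pairing
        rw [h1, act_one_right, act_one_left (hc τ), one_mul, mul_one, div_self (h0 τ)]
      inv_mem' := by
        intro a ha
        change pairing c a⁻¹ τ = 1
        have e1 : pairing c (a⁻¹ * a) τ = pairing c a⁻¹ τ * act a⁻¹ (pairing c a τ) :=
          pairing_mul c hc h0 hcoc _ _ _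
        rw [show pairing c a τ = 1 from ha, act_one_right, mul_one, inv_mul_cancel] at e1
        rw [← e1]
        unfold pairing
        rw [h1, act_one_right, act_one_left (hc τ), one_mul, mul_one, div_self (h0 τ)] }
  have hT' : Subgroup.closure S ≤ T := (Subgroup.closure_le T).2 hτ
  rw [hS] at hT'
  exact hT' (Subgroup.mem_top σ)

end pairing

/-- **Algebraic core theorem**, with pair data only for some pairs. -/
theorem core' (σ₂ : K →+* ℝ) [FiniteDimensional K H] [IsAbelianGalois K H]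
    (e : (H ≃ₐ[K] H) → ℝ) (epos : ∀ σ, 0 < e σ) (eprod : ∏ σ, e σ = 1)
    {ι : Type*} (φ : ι → (H ≃ₐ[K] H)) (F : ι → IntermediateField K ℝ)
    [hfin : ∀ i, FiniteDimensional K (F i)] [hab : ∀ i, IsAbelianGalois K (F i)]
    (hF : ∀ i, H ≤ F i) (u : ι → ℝ)
    (hu : ∀ i, IsStarkUnit σ₂ (F i) (u i))
    (heven : ∀ i, Even (fib (hF i) (1 : H ≃ₐ[K] H)).card)
    (hnorm : ∀ i σ, fibProd (hF i) (u i) σ = e σ / e (σ * (φ i)⁻¹))
    (hinf : ∀ i j, i ≠ j → F i ⊓ F j ≤ H)
    (hgen : Subgroup.closure {σ | ∃ i j, i ≠ j ∧ φ i = σ ∧ φ j = σ} = ⊤)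
    (R : ι → ι → Prop) (hRne : ∀ i j, R i j → i ≠ j)
    (hgenR : ∀ i, Subgroup.closure {σ | ∃ j, R i j ∧ φ j = σ} = ⊤)
    (hpair : ∀ i j, R i j → ∃ U : ℝ, U ∈ (F i ⊔ F j : IntermediateField K ℝ) ∧ 0 ≤ U ∧
      IsAbelianGalois K (sqrtExt (F i ⊔ F j) U) ∧
      (∃ Φj : F i ≃ₐ[K] F i, res (hF i) Φj = φ j ∧
        fibProd (le_sup_left : F i ≤ F i ⊔ F j) U 1 = u i / act Φj⁻¹ (u i)) ∧
      (∃ Φi : F j ≃ₐ[K] F j, res (hF j) Φi = φ i ∧
        fibProd (le_sup_right : F j ≤ F i ⊔ F j) U 1 = u j / act Φi⁻¹ (u j))) :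
    IsStarkUnit σ₂ H (e 1) ∧ ∀ τ, act τ (e 1) = e τ := by
  classical
  set S : Set (H ≃ₐ[K] H) := {σ | ∃ i j, i ≠ j ∧ φ i = σ ∧ φ j = σ} with hS
  set r : (H ≃ₐ[K] H) → ℝ := fun σ => Real.sqrt (e σ) with hr
  have r0 : ∀ σ, r σ ≠ 0 := fun σ => (Real.sqrt_pos.2 (epos σ)).ne'
  have rpos : ∀ σ, 0 < r σ := fun σ => Real.sqrt_pos.2 (epos σ)
  have rsq : ∀ σ, r σ ^ 2 = e σ := fun σ => Real.sq_sqrt (epos σ).le
  have e0 : ∀ σ, e σ ≠ 0 := fun σ => (epos σ).ne'
  -- Step A, B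
  have stepA : ∀ i σ, r σ / r (σ * (φ i)⁻¹) ∈ F i := by
    intro i σ
    haveI := (hu i).ab
    have h1 : r σ / r (σ * (φ i)⁻¹) = ∏ γ ∈ fib (hF i) σ, Real.sqrt (act γ (u i)) := by
      rw [hr]
      simp only
      rw [← Real.sqrt_div (epos σ).le, ← hnorm i σ, fibProd,
        Real.sqrt_prod _ (fun γ _ => ((hu i).pos γ).le)]
    rw [h1]
    apply prod_sqrt_mem (hu i).mem (hu i).pos
    rw [card_fib]; exact heven i
  have stepB : ∀ φ₀ ∈ S, ∀ σ, r σ / r (σ * φ₀⁻¹) ∈ H := by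
    rintro φ₀ ⟨i, j, hij, hi, hj⟩ σ
    apply hinf i j hij
    constructor
    · have := stepA i σ; rwa [hi] at this
    · have := stepA j σ; rwa [hj] at this
  have Q1 : ∀ σ τ, r σ / r τ ∈ H := by
    apply rel_all (fun σ τ => r σ / r τ ∈ H) _ _ _ S hgen stepB
    · intro a; rw [div_self (r0 a)]; exact one_mem _
    · intro a b hab
      have := inv_mem hab
      rwa [inv_div] at this
    · intro a b c h1 h2
      have := mul_mem h1 h2
      rwa [div_mul_div_cancel₀ (r0 b)] at this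
  -- Step D
  have Q2 : ∀ σ τ, (e σ / e τ ∈ H ∧ ∀ ρ : H ≃ₐ[K] H, act ρ (e σ / e τ) = e (ρ * σ) / e (ρ * τ)) := by
    apply rel_all (fun σ τ => (e σ / e τ ∈ H ∧
      ∀ ρ : H ≃ₐ[K] H, act ρ (e σ / e τ) = e (ρ * σ) / e (ρ * τ))) _ _ _ S hgen
    · rintro φ₀ ⟨i, j, hij, hi, hj⟩ σ
      have hmem : e σ / e (σ * φ₀⁻¹) ∈ H := by
        rw [← hi, ← hnorm i σ]
        exact fibProd_mem_base (hF i) (hu i).mem σ
      refine ⟨hmem, ?_⟩
      intro ρ
      obtain ⟨ρ', hρ'⟩ := res_surjective (hF i) ρ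
      rw [← hρ', act_res (hF i) ρ' hmem, ← hi, ← hnorm i σ, act_fibProd (hF i) (hu i).mem,
        hnorm i, mul_assoc]
    · intro a
      refine ⟨by rw [div_self (e0 a)]; exact one_mem _, fun ρ => ?_⟩
      rw [div_self (e0 a), act_one_right, div_self (e0 _)]
    · intro a b ⟨h1, h2⟩
      refine ⟨by have := inv_mem h1; rwa [inv_div] at this, fun ρ => ?_⟩
      rw [← inv_div (e a) (e b), act_inv _ h1, h2 ρ, inv_div]
    · intro a b c ⟨h1, h2⟩ ⟨h3, h4⟩
      refine ⟨by have := mul_mem h1 h3; rwa [div_mul_div_cancel₀ (e0 b)] at this, fun ρ => ?_⟩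
      rw [← div_mul_div_cancel₀ (c := e c) (e0 b), act_mul _ h1 h3, h2 ρ, h4 ρ,
        div_mul_div_cancel₀ (e0 _)]
  -- absolute values
  have Q3 : ∀ g : H →+* ℂ, Over σ₂ g → ∀ σ τ, ‖emb g (e σ / e τ)‖ = 1 := by
    intro g hg
    apply rel_all (fun σ τ => ‖emb g (e σ / e τ)‖ = 1) _ _ _ S hgen
    · rintro φ₀ ⟨i, j, hij, hi, hj⟩ σ
      obtain ⟨g', hg'⟩ := exists_extend g (hF i)
      have hmem : e σ / e (σ * φ₀⁻¹) ∈ H := (Q2 _ _).1
      rw [← hg' _ hmem, ← hi, ← hnorm i σ, fibProd, emb_prod g' _ _ fun γ _ => act_mem γ (hu i).mem,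
        norm_prod]
      apply Finset.prod_eq_one
      intro γ _
      have h1 := (hu i).abs (g'.comp (γ : F i →+* F i)) (by
        intro a
        simp only [RingHom.comp_apply]
        have : (γ : F i →+* F i) (algebraMap K (F i) a) = algebraMap K (F i) a := γ.commutes a
        rw [this, ← hg a]
        have h3 := hg' (algebraMap K ℝ a) (H.algebraMap_mem a)
        rw [emb_of_mem _ (H.algebraMap_mem a), emb_of_mem _ ((F i).algebraMap_mem a)] at h3
        exact h3)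
      rw [act_of_mem γ (hu i).mem, emb_coe]
      exact h1
    · intro a
      rw [div_self (e0 a), emb_one, norm_one]
    · intro a b h
      rw [← inv_div (e a) (e b), emb_inv _ (Q2 a b).1, norm_inv, h, inv_one]
    · intro a b c h1 h2
      rw [← div_mul_div_cancel₀ (c := e c) (e0 b), emb_mul _ (Q2 a b).1 (Q2 b c).1, norm_mul, h1, h2,
        one_mul]
  -- integrality
  have Q4 : ∀ σ τ, (IsIntegral ℤ (e σ / e τ) ∧ IsIntegral ℤ (e τ / e σ)) := by
    apply rel_all (fun σ τ => (IsIntegral ℤ (e σ / e τ) ∧ IsIntegral ℤ (e τ / e σ))) _ _ _ S hgen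
    · rintro φ₀ ⟨i, j, hij, hi, hj⟩ σ
      constructor
      · rw [← hi, ← hnorm i σ]
        apply IsIntegral.prod
        intro γ _
        rw [act_of_mem γ (hu i).mem]
        have h1 : IsIntegral ℤ (⟨u i, (hu i).mem⟩ : F i) := by
          have := (hu i).int
          exact (isIntegral_algebraMap_iff (algebraMap (F i) ℝ).injective).1 this
        have h2 := h1.map ((γ : F i →+* F i).toIntAlgHom)
        exact h2.map (algebraMap (F i) ℝ).toIntAlgHom
      · rw [← hi, ← inv_div, ← hnorm i σ, fibProd, ← Finset.prod_inv_distrib]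
        apply IsIntegral.prod
        intro γ _
        rw [← act_inv _ (hu i).mem, act_of_mem γ (inv_mem (hu i).mem)]
        have h1 : IsIntegral ℤ (⟨(u i)⁻¹, inv_mem (hu i).mem⟩ : F i) := by
          have := (hu i).int_inv
          exact (isIntegral_algebraMap_iff (algebraMap (F i) ℝ).injective).1 this
        have h2 := h1.map ((γ : F i →+* F i).toIntAlgHom)
        exact h2.map (algebraMap (F i) ℝ).toIntAlgHom
    · intro a
      rw [div_self (e0 a)]; exact ⟨isIntegral_one, isIntegral_one⟩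
    · intro a b h; exact ⟨h.2, h.1⟩
    · intro a b c h1 h2
      constructor
      · rw [← div_mul_div_cancel₀ (c := e c) (e0 b)]; exact h1.1.mul h2.1
      · rw [← div_mul_div_cancel₀ (c := e a) (e0 b)]; exact h2.2.mul h1.2
  -- the cocycle c
  set c : (H ≃ₐ[K] H) → ℝ := fun σ => r σ / r 1 with hc
  have cH : ∀ σ, c σ ∈ H := fun σ => Q1 σ 1
  have cpos : ∀ σ, 0 < c σ := fun σ => div_pos (rpos σ) (rpos 1)
  have c0 : ∀ σ, c σ ≠ 0 := fun σ => (cpos σ).ne'
  have c1 : c 1 = 1 := div_self (r0 1)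
  have csq : ∀ σ, c σ ^ 2 = e σ / e 1 := by
    intro σ
    rw [hc]; simp only
    rw [div_pow, rsq, rsq]
  have ccoc : ∀ σ σ', ∃ s : ℝ, (s = 1 ∨ s = -1) ∧ c (σ * σ') = s * (c σ * act σ (c σ')) := by
    intro σ σ'
    apply exists_sign
    rw [mul_pow, ← act_pow _ (cH σ'), csq, csq, csq, (Q2 σ' 1).2 σ, mul_one, mul_comm,
      div_mul_div_cancel₀ (e0 σ)]
  -- the pairing is trivial on the pairs in `R`
  have hpairing : ∀ i k, R i k → pairing c (φ i)⁻¹ (φ k)⁻¹ = 1 := by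
    intro i k hRik
    have hik := hRne i k hRik
    obtain ⟨U, hUm, hU0, hUab, ⟨Φj, hΦj, hΦj'⟩, ⟨Φi, hΦi, hΦi'⟩⟩ := hpair i k hRik
    haveI := (hu i).ab
    haveI := (hu k).ab
    have hξ : ∀ l, fibProd (hF l) (u l) 1 = (r 1 / r (φ l)⁻¹) ^ 2 := by
      intro l
      rw [hnorm l 1, one_mul, div_pow, rsq, rsq]
    have key := pair_relation (hF i) (hF k) (le_sup_left : F i ≤ F i ⊔ F k)
      (le_sup_right : F k ≤ F i ⊔ F k) le_rfl (hinf i k hik) (hu i).mem (hu k).mem hUm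
      (hu i).pos'.le (hu k).pos'.le hU0 (Q1 1 (φ i)⁻¹) (Q1 1 (φ k)⁻¹) (hξ i) (hξ k)
      (heven i) (heven k) Φj Φi hΦj' hΦi'
    rw [hΦj, hΦi] at key
    set a : H ≃ₐ[K] H := (φ i)⁻¹ with ha
    set b : H ≃ₐ[K] H := (φ k)⁻¹ with hb
    have hca : r 1 / r a = (c a)⁻¹ := by rw [hc]; simp only; rw [inv_div]
    have hcb : r 1 / r b = (c b)⁻¹ := by rw [hc]; simp only; rw [inv_div]
    rw [hca, hcb, act_inv _ (cH a), act_inv _ (cH b)] at key
    have na := act_ne_zero b (cH a) (c0 a)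
    have nb := act_ne_zero a (cH b) (c0 b)
    unfold pairing
    have ca := c0 a
    have cb := c0 b
    rw [div_eq_one_iff_eq (mul_ne_zero nb ca)]
    field_simp at key
    linarith
  have hinvgen : ∀ S₀ : Set (H ≃ₐ[K] H), Subgroup.closure S₀ = ⊤ →
      Subgroup.closure {a | a⁻¹ ∈ S₀} = ⊤ := by
    intro S₀ hS₀
    rw [eq_top_iff, ← hS₀, Subgroup.closure_le]
    intro a ha
    have : a⁻¹ ∈ Subgroup.closure {a | a⁻¹ ∈ S₀} := Subgroup.subset_closure (by simpa using ha)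
    simpa using inv_mem this
  have hP1 : ∀ i τ, pairing c τ (φ i)⁻¹ = 1 := by
    intro i τ
    apply pairing_sub c cH c0 ccoc c1 _ (hinvgen _ (hgenR i))
    rintro a ⟨k, hk, hk2⟩
    have h4 := hpairing i k hk
    rw [hk2, inv_inv] at h4
    rw [pairing_swap, h4, inv_one]
  have hP : ∀ σ τ, pairing c σ τ = 1 := by
    intro σ τ
    apply pairing_sub c cH c0 ccoc c1 _ (hinvgen _ hgen)
    rintro a ⟨i, -, -, hi, -⟩
    have h4 := hP1 i τ
    rw [hi, inv_inv] at h4
    rw [pairing_swap, h4, inv_one]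
  have hcomm : ∀ σ τ, act τ (c σ) * c τ = act σ (c τ) * c σ := by
    intro σ τ
    have := hP σ τ
    unfold pairing at this
    rwa [div_eq_one_iff_eq (mul_ne_zero (act_ne_zero σ (cH τ) (c0 τ)) (c0 σ))] at this
  -- complex conjugation
  obtain ⟨g, hg⟩ := exists_over (H := H) σ₂
  obtain ⟨C, hC⟩ := exists_conj hg
  have habs : ∀ x ∈ H, ‖emb g x‖ = 1 → x * act C x = 1 := by
    intro x hx h
    apply emb_inj g (mul_mem hx (act_mem C hx)) (one_mem _)
    rw [emb_mul g hx (act_mem C hx), hC x hx, Complex.mul_conj, Complex.normSq_eq_norm_sq, h,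
      emb_one]
    simp
  have hκ : ∀ σ, e σ * e (C * σ) = e 1 * e C := by
    intro σ
    have h1 := habs _ (Q2 σ 1).1 (Q3 g hg σ 1)
    rw [(Q2 σ 1).2 C, mul_one] at h1
    have h2 := e0 1
    have h3 := e0 C
    field_simp at h1
    linarith
  have hκ1 : e 1 * e C = 1 := by
    have h1 : ∏ σ : H ≃ₐ[K] H, (e σ * e (C * σ)) = 1 := by
      rw [Finset.prod_mul_distrib, eprod, one_mul]
      rw [← eprod]
      exact Fintype.prod_equiv (Equiv.mulLeft C) _ _ (fun σ => rfl)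
    rw [Finset.prod_congr rfl fun σ _ => hκ σ, Finset.prod_const] at h1
    have h2 : (0 : ℝ) ≤ e 1 * e C := (mul_pos (epos 1) (epos C)).le
    exact (pow_eq_one_iff_of_nonneg h2 (by
      rw [Finset.card_univ]; exact Fintype.card_ne_zero)).1 h1
  have heC : e C = (e 1)⁻¹ := eq_inv_of_mul_eq_one_right hκ1
  have hcC : c C = (e 1)⁻¹ := by
    have h1 : c C ^ 2 = ((e 1)⁻¹) ^ 2 := by
      rw [csq, heC]; field_simp
    exact (sq_eq_sq₀ (cpos C).le (inv_pos.2 (epos 1)).le).1 h1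
  have he1 : e 1 = (c C)⁻¹ := by rw [hcC, inv_inv]
  have he1H : e 1 ∈ H := by rw [he1]; exact inv_mem (cH C)
  have hact : ∀ τ, act τ (e 1) = e τ := by
    intro τ
    have h1 := hcomm C τ
    have h2 : c τ * act C (c τ) = 1 := by
      apply habs _ (cH τ)
      have h3 : ‖emb g (c τ)‖ ^ 2 = 1 := by
        rw [← norm_pow, sq, ← emb_mul g (cH τ) (cH τ), ← sq, csq]
        exact Q3 g hg τ 1
      exact (pow_eq_one_iff_of_nonneg (norm_nonneg _) two_ne_zero).1 h3
    have h5 : act C (c τ) = (c τ)⁻¹ := eq_inv_of_mul_eq_one_right h2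
    have h4 : act τ (c C) = (e τ)⁻¹ := by
      rw [h5] at h1
      have h6 : act τ (c C) = (c τ)⁻¹ * c C / c τ := eq_div_of_mul_eq (c0 τ) h1
      have h7 : (c τ)⁻¹ * c C / c τ = c C / c τ ^ 2 := by
        have := c0 τ
        field_simp
      rw [h6, h7, csq, hcC]
      have h8 := e0 1
      have h9 := e0 τ
      field_simp
    rw [he1, act_inv _ (cH C), h4, inv_inv]
  refine ⟨⟨he1H, fun σ => by rw [hact]; exact epos σ, ?_, ?_, ?_, ?_⟩, hact⟩
  · apply IsIntegral.of_pow (n := 2) (by norm_num)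
    have : e 1 ^ 2 = e 1 / e C := by rw [heC]; field_simp
    rw [this]; exact (Q4 1 C).1
  · apply IsIntegral.of_pow (n := 2) (by norm_num)
    have : (e 1)⁻¹ ^ 2 = e C / e 1 := by rw [heC]; field_simp
    rw [this]; exact (Q4 1 C).2
  · intro g' hg'
    have h1 := Q3 g' hg' 1 C
    have h2 : e 1 / e C = e 1 * e 1 := by rw [heC]; field_simp
    rw [h2, emb_mul g' he1H he1H, norm_mul, ← sq] at h1
    have h3 := (pow_eq_one_iff_of_nonneg (norm_nonneg _) two_ne_zero).1 h1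
    rwa [emb_of_mem _ he1H] at h3
  · apply isAbelianGalois_sqrtExt he1H
    · intro σ; rw [hact]; exact epos σ
    · intro σ; rw [hact]; exact cH σ
    · intro σ τ
      rw [hact, hact]; exact hcomm σ τ

end Pool.Agent.ST
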