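import Pool.Agent.Lib.MP_1ef7cf_nt.Mg.G002
import Pool.Agent.Lib.MP_1ef7cf_nt.Core2

/-!
# Transitivity of fibre products, norms of Stark units
-/

open IntermediateField Polynomial

namespace Pool.Agent.ST

variable {K : Type*} [Field K] [Algebra K ℝ] {H L M Ω : IntermediateField K ℝ}

lemma fibProd_trans (h1 : H ≤ L) (h2 : L ≤ M) [Normal K H] [FiniteDimensional K L]
    [FiniteDimensional K M] [IsGalois K L] [IsGalois K M] {u : ℝ} (hu : u ∈ M)
    (σ : H ≃ₐ[K] H) :
    fibProd h1 (fibProd h2 u 1) σ = fibProd (h1.trans h2) u σ := by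
  classical
  have key : ∀ γ : L ≃ₐ[K] L, act γ (fibProd h2 u 1) = fibProd h2 u γ := by
    intro γ
    obtain ⟨δ, rfl⟩ := res_surjective h2 γ
    rw [act_res h2 δ (fibProd_mem_base h2 hu 1), act_fibProd h2 hu, mul_one]
  have h3 : fibProd h1 (fibProd h2 u 1) σ = ∏ γ ∈ fib h1 σ, ∏ δ ∈ fib h2 γ, act δ u := by
    unfold fibProd at key ⊢
    exact Finset.prod_congr rfl fun γ _ => key γ
  rw [h3, fibProd]
  rw [← Finset.prod_fiberwise_of_maps_to (s := fib (h1.trans h2) σ) (t := fib h1 σ)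
    (g := fun δ => res h2 δ)]
  · refine Finset.prod_congr rfl fun γ hγ => ?_
    rw [mem_fib] at hγ
    refine Finset.prod_congr ?_ fun _ _ => rfl
    ext δ
    rw [Finset.mem_filter, mem_fib, mem_fib]
    constructor
    · intro h; exact ⟨by rw [← res_res h1 h2, h, hγ], h⟩
    · intro h; exact h.2
  · intro δ hδ
    rw [mem_fib] at hδ ⊢
    rw [res_res, hδ]

/-- square roots of conjugates of `u` lie in `L(√u)` if this is Galois. -/
lemma sqrt_act_mem [FiniteDimensional K L] {u : ℝ} (hu : u ∈ L)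
    (hpos : ∀ γ : L ≃ₐ[K] L, 0 < act γ u) [IsAbelianGalois K (sqrtExt L u)] (γ : L ≃ₐ[K] L) :
    Real.sqrt (act γ u) ∈ sqrtExt L u := by
  have hu0 : 0 < u := by have := hpos 1; rwa [act_one_left hu] at this
  have hLΩ := le_sqrtExt L u
  have : FiniteDimensional K (sqrtExt L u) := finiteDimensional_sqrtExt hu hu0.le
  have : IsAbelianGalois K L := isAbelianGalois_of_le hLΩ
  have hs := sqrt_mem_sqrtExt L u
  obtain ⟨g, hg⟩ := res_surjective hLΩ γ
  obtain ⟨t, ht, ht'⟩ := act_sqrt hs hu0.le g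
  have h1 : Real.sqrt (act γ u) = t * act g (Real.sqrt u) := by
    rw [ht', ← act_res hLΩ g hu, hg, ← mul_assoc]
    have : t * t = 1 := by rcases ht with rfl | rfl <;> norm_num
    rw [this, one_mul]
  rw [h1]
  exact mul_mem (const_mem ht _) (act_mem _ hs)

/-- the square root of a partial norm -/
lemma sqrt_fibProd_mem (h : H ≤ L) [Normal K H] [FiniteDimensional K L] {u : ℝ} (hu : u ∈ L)
    (hpos : ∀ γ : L ≃ₐ[K] L, 0 < act γ u) [IsAbelianGalois K (sqrtExt L u)] (σ : H ≃ₐ[K] H) :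
    Real.sqrt (fibProd h u σ) ∈ sqrtExt L u := by
  rw [fibProd, Real.sqrt_prod _ fun γ _ => (hpos γ).le]
  exact prod_mem fun γ _ => sqrt_act_mem hu hpos γ

lemma isIntegral_act (γ : L ≃ₐ[K] L) {u : ℝ} (hu : u ∈ L) (hint : IsIntegral ℤ u) :
    IsIntegral ℤ (act γ u) := by
  rw [act_of_mem γ hu]
  have h1 : IsIntegral ℤ (⟨u, hu⟩ : L) :=
    (isIntegral_algebraMap_iff (algebraMap L ℝ).injective).1 hint
  have h2 := h1.map ((γ : L →+* L).toIntAlgHom)
  exact h2.map (algebraMap L ℝ).toIntAlgHom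

/-- The norm of a Stark unit is a Stark unit. -/
lemma IsStarkUnit.fibProd {σ₂ : K →+* ℝ} (h : H ≤ L) [FiniteDimensional K H] [IsGalois K H]
    [FiniteDimensional K L] {u : ℝ} (hu : IsStarkUnit σ₂ L u) :
    IsStarkUnit σ₂ H (fibProd h u 1) := by
  have := hu.ab
  have hG : IsAbelianGalois K L := isAbelianGalois_of_le (le_sqrtExt L u)
  have hmem : Pool.Agent.ST.fibProd h u 1 ∈ H := fibProd_mem_base h hu.mem 1
  refine ⟨hmem, ?_, ?_, ?_, ?_, ?_⟩
  · intro σ
    obtain ⟨δ, rfl⟩ := res_surjective h σ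
    rw [act_res h δ hmem, act_fibProd h hu.mem]
    exact Finset.prod_pos fun γ _ => hu.pos γ
  · apply IsIntegral.prod
    intro γ _
    exact isIntegral_act γ hu.mem hu.int
  · unfold Pool.Agent.ST.fibProd
    rw [← Finset.prod_inv_distrib]
    apply IsIntegral.prod
    intro γ _
    rw [← act_inv _ hu.mem]
    exact isIntegral_act γ (inv_mem hu.mem) hu.int_inv
  · intro g hg
    obtain ⟨g', hg'⟩ := exists_extend g h
    rw [← emb_of_mem g hmem, ← hg' _ hmem, Pool.Agent.ST.fibProd,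
      emb_prod g' _ _ fun γ _ => act_mem γ hu.mem, norm_prod]
    apply Finset.prod_eq_one
    intro γ _
    have h1 := hu.abs (g'.comp (γ : L →+* L)) (by
      intro a
      simp only [RingHom.comp_apply]
      have : (γ : L →+* L) (algebraMap K L a) = algebraMap K L a := γ.commutes a
      rw [this, ← hg a]
      have h3 := hg' (algebraMap K ℝ a) (H.algebraMap_mem a)
      rw [emb_of_mem _ (H.algebraMap_mem a), emb_of_mem _ (L.algebraMap_mem a)] at h3
      exact h3)
    rw [act_of_mem γ hu.mem, emb_coe]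
    exact h1
  · exact isAbelianGalois_of_le (M := sqrtExt L u)
      (sqrtExt_le (h.trans (le_sqrtExt L u)) (sqrt_fibProd_mem h hu.mem hu.pos 1))

end Pool.Agent.ST
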