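import Pool.Agent.Lib.MP_1ef7cf_nt.Step

/-!
# The condition on units: moduli divisible by a prime above 2
-/

open NumberField IsDedekindDomain nonZeroDivisors IntermediateField

namespace Pool.Agent.ST

variable {K : Type*} [Field K] [NumberField K] [Algebra K ℝ] {σ₂ : K →+* ℝ}

/-- If all units in `E_n` are squares then the condition on units holds. -/
lemma EN_of_isSquare {n : Ideal (𝓞 K)}
    (h : ∀ u : (𝓞 K)ˣ, EU σ₂ n u → 0 < sg1 K ((u : 𝓞 K) : K) → IsSquare u) : EN σ₂ n := by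
  intro H Art _ u hu y _ hy2
  have hpos : 0 < sg1 K ((u : 𝓞 K) : K) := by
    have h1 : sg1 K ((u : 𝓞 K) : K) = y ^ 2 := hy2.symm
    have h3 : sg1 K ((u : 𝓞 K) : K) ≠ 0 := (map_ne_zero _).2 (coe_ne_zero' u.ne_zero)
    have h4 : 0 ≤ sg1 K ((u : 𝓞 K) : K) := by rw [h1]; positivity
    exact lt_of_le_of_ne h4 h3.symm
  obtain ⟨v, hv⟩ := h u hu hpos
  have h5 : y ^ 2 = (sg1 K ((v : 𝓞 K) : K)) ^ 2 := by
    rw [hy2, hv, Units.val_mul]
    change sg1 K (algebraMap (𝓞 K) K ((v : 𝓞 K) * (v : 𝓞 K))) = _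
    rw [map_mul, map_mul, sq]
  rcases sq_eq_sq_iff_eq_or_eq_neg.1 h5 with h6 | h6
  · exact ⟨((v : 𝓞 K) : K), h6.symm⟩
  · exact ⟨-((v : 𝓞 K) : K), by rw [map_neg]; exact h6.symm⟩

omit [Algebra K ℝ] in
/-- if `x ≡ 1 mod 𝔭`, `𝔭` above `2`, and `x ^ (2 k + 1) ≡ 1 mod 𝔭 ^ j` then `x ≡ 1 mod 𝔭 ^ j`. -/
lemma sub_one_mem_of_odd {p : HeightOneSpectrum (𝓞 K)} (h2 : (2 : 𝓞 K) ∈ p.asIdeal) {x : 𝓞 K}
    (hx : x - 1 ∈ p.asIdeal) {j k : ℕ} (h : x ^ (2 * k + 1) - 1 ∈ p.asIdeal ^ j) :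
    x - 1 ∈ p.asIdeal ^ j := by
  have h3 : x ^ (2 * k + 1) - 1 = (∑ i ∈ Finset.range (2 * k + 1), x ^ i) * (x - 1) :=
    (geom_sum_mul x (2 * k + 1)).symm
  rw [h3] at h
  have := p.isPrime
  rcases Ideal.IsPrime.mul_mem_pow p.asIdeal h with h4 | h4
  · exfalso
    have h5 : Ideal.Quotient.mk p.asIdeal (∑ i ∈ Finset.range (2 * k + 1), x ^ i) = 0 :=
      Ideal.Quotient.eq_zero_iff_mem.2 h4
    have h6 : Ideal.Quotient.mk p.asIdeal x = 1 := by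
      rw [← sub_eq_zero, ← map_one (Ideal.Quotient.mk p.asIdeal), ← map_sub]
      exact Ideal.Quotient.eq_zero_iff_mem.2 hx
    rw [map_sum] at h5
    simp only [map_pow, h6, one_pow, Finset.sum_const, Finset.card_range, nsmul_eq_mul,
      mul_one] at h5
    push_cast at h5
    have h7 : (2 : 𝓞 K ⧸ p.asIdeal) = 0 := by
      have h9 := Ideal.Quotient.eq_zero_iff_mem.2 h2
      rw [map_ofNat] at h9
      exact h9
    rw [h7, zero_mul, zero_add] at h5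
    have h8 : (1 : 𝓞 K) ∈ p.asIdeal := by
      rw [← Ideal.Quotient.eq_zero_iff_mem, map_one]; exact h5
    exact p.isPrime.ne_top ((Ideal.eq_top_iff_one _).2 h8)
  · exact h4

/-- For `n` divisible by a prime `𝔭` above `2` the condition on units holds for `n 𝔭 ^ j`, `j`
large. -/
theorem exists_EN (h2 : Module.finrank ℚ K = 2) {n : Ideal (𝓞 K)} (hn : n ≠ ⊥)
    {p : HeightOneSpectrum (𝓞 K)} (hp2 : (2 : 𝓞 K) ∈ p.asIdeal) (hpn : p.asIdeal ∣ n) :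
    ∃ j : ℕ, EN σ₂ (n * p.asIdeal ^ j) := by
  obtain ⟨η, hη, hη1, hη2⟩ := exists_gen σ₂ h2 hn
  have hne : (η : 𝓞 K) - 1 ≠ 0 := by
    intro h
    have h3 : (η : 𝓞 K) = 1 := sub_eq_zero.1 h
    have h4 : sg1 K ((η : 𝓞 K) : K) = 1 := by rw [h3]; simp
    rw [h4, abs_one] at hη1
    exact lt_irrefl _ hη1
  have hηp : (η : 𝓞 K) - 1 ∈ p.asIdeal := Ideal.dvd_iff_le.1 hpn hη.1
  obtain ⟨j, hj⟩ : ∃ j : ℕ, (η : 𝓞 K) - 1 ∉ p.asIdeal ^ j := by
    by_contra hcon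
    push Not at hcon
    have h5 : (η : 𝓞 K) - 1 ∈ (⨅ i : ℕ, p.asIdeal ^ i) := by
      rw [Ideal.mem_iInf]; exact hcon
    rw [Ideal.iInf_pow_eq_bot_of_isDomain p.asIdeal p.isPrime.ne_top] at h5
    exact hne h5
  refine ⟨j, EN_of_isSquare ?_⟩
  intro u hu _
  have hle : n * p.asIdeal ^ j ≤ n := Ideal.mul_le_left
  have hle' : n * p.asIdeal ^ j ≤ p.asIdeal ^ j := Ideal.mul_le_right
  obtain ⟨k, rfl⟩ := hη2 u ⟨hle hu.1, hu.2⟩
  rcases Int.even_or_odd k with hk | hk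
  · exact hk.isSquare_zpow η
  · exfalso
    apply hj
    -- reduce to a positive odd exponent
    obtain ⟨i, hi⟩ : ∃ i : ℕ, k = 2 * i + 1 ∨ -k = 2 * i + 1 := by
      obtain ⟨l, hl⟩ := hk
      rcases le_or_gt 0 l with h6 | h6
      · exact ⟨l.toNat, Or.inl (by omega)⟩
      · exact ⟨(-l - 1).toNat, Or.inr (by omega)⟩
    rcases hi with hi | hi
    · have h7 := hle' hu.1
      have h8 : ((η ^ k : (𝓞 K)ˣ) : 𝓞 K) = (η : 𝓞 K) ^ (2 * i + 1) := by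
        rw [hi]
        have : ((2 : ℤ) * (i : ℤ) + 1) = ((2 * i + 1 : ℕ) : ℤ) := by push_cast; ring
        rw [this, zpow_natCast, Units.val_pow_eq_pow_val]
      rw [h8] at h7
      exact sub_one_mem_of_odd hp2 hηp h7
    · have h7 := hle' (hu.inv).1
      have h8 : (((η ^ k)⁻¹ : (𝓞 K)ˣ) : 𝓞 K) = (η : 𝓞 K) ^ (2 * i + 1) := by
        rw [← zpow_neg, hi]
        have : ((2 : ℤ) * (i : ℤ) + 1) = ((2 * i + 1 : ℕ) : ℤ) := by push_cast; ring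
        rw [this, zpow_natCast, Units.val_pow_eq_pow_val]
      rw [h8] at h7
      exact sub_one_mem_of_odd hp2 hηp h7

end Pool.Agent.ST
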