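import Pool.Agent.Lib.MP_1ef7cf_nt.Desc

/-!
# Algebraic core for the descent along an extension of even degree
-/

set_option linter.style.haveILetI false

open IntermediateField Polynomial

namespace Pool.Agent.ST

variable {K : Type*} [Field K] [Algebra K ℝ] {H L M Ω : IntermediateField K ℝ}

/-- As `IsStarkUnit`, without the condition on the square root. -/
structure IsSU (σ₂ : K →+* ℝ) (H : IntermediateField K ℝ) (u : ℝ) : Prop where
  mem : u ∈ H
  pos : ∀ σ : H ≃ₐ[K] H, 0 < act σ u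
  int : IsIntegral ℤ u
  int_inv : IsIntegral ℤ u⁻¹
  abs : ∀ g : H →+* ℂ, (∀ a : K, g (algebraMap K H a) = (σ₂ a : ℂ)) → ‖g ⟨u, mem⟩‖ = 1

lemma IsSU.pos' {σ₂ : K →+* ℝ} {u : ℝ} (h : IsSU σ₂ H u) : 0 < u := by
  have := h.pos 1; rwa [act_one_left h.mem] at this

lemma IsStarkUnit.isSU {σ₂ : K →+* ℝ} {u : ℝ} (h : IsStarkUnit σ₂ H u) : IsSU σ₂ H u :=
  ⟨h.mem, h.pos, h.int, h.int_inv, h.abs⟩

/-- The ratios of the positive numbers `e σ` are units of `H`, on which the Galois group acts by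
translation, of absolute value one over `σ₂`. -/
structure Ratio (σ₂ : K →+* ℝ) (H : IntermediateField K ℝ) (e : (H ≃ₐ[K] H) → ℝ) : Prop where
  pos : ∀ σ, 0 < e σ
  mem : ∀ σ τ, e σ / e τ ∈ H
  act : ∀ ρ σ τ, act ρ (e σ / e τ) = e (ρ * σ) / e (ρ * τ)
  int : ∀ σ τ, IsIntegral ℤ (e σ / e τ)
  abs : ∀ g : H →+* ℂ, Over σ₂ g → ∀ σ τ, ‖emb g (e σ / e τ)‖ = 1

/-- The ratios, from the norm relations for a generating set of primes. -/
theorem ratio_core (σ₂ : K →+* ℝ) [FiniteDimensional K H] [IsAbelianGalois K H]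
    (e : (H ≃ₐ[K] H) → ℝ) (epos : ∀ σ, 0 < e σ)
    {ι : Type*} (φ : ι → (H ≃ₐ[K] H)) (F : ι → IntermediateField K ℝ)
    [hfin : ∀ i, FiniteDimensional K (F i)] [hab : ∀ i, IsAbelianGalois K (F i)]
    (hF : ∀ i, H ≤ F i) (u : ι → ℝ)
    (hu : ∀ i, IsSU σ₂ (F i) (u i))
    (hnorm : ∀ i σ, fibProd (hF i) (u i) σ = e σ / e (σ * (φ i)⁻¹))
    (hgen : Subgroup.closure (Set.range φ) = ⊤) : Ratio σ₂ H e := by
  classical
  have e0 : ∀ σ, e σ ≠ 0 := fun σ => (epos σ).ne'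
  have Q2 : ∀ σ τ, (e σ / e τ ∈ H ∧
      ∀ ρ : H ≃ₐ[K] H, Pool.Agent.ST.act ρ (e σ / e τ) = e (ρ * σ) / e (ρ * τ)) := by
    apply rel_all (fun σ τ => (e σ / e τ ∈ H ∧
      ∀ ρ : H ≃ₐ[K] H, Pool.Agent.ST.act ρ (e σ / e τ) = e (ρ * σ) / e (ρ * τ))) _ _ _ _ hgen
    · rintro φ₀ ⟨i, hi⟩ σ
      have hmem : e σ / e (σ * φ₀⁻¹) ∈ H := by
        rw [← hi, ← hnorm i σ]
        exact fibProd_mem_base (hF i) (hu i).mem σ
      refine ⟨hmem, ?_⟩
      intro ρ
      obtain ⟨ρ', hρ'⟩ := res_surjective (hF i) ρ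
      rw [← hρ', act_res (hF i) ρ' hmem, ← hi, ← hnorm i σ, act_fibProd (hF i) (hu i).mem,
        hnorm i, mul_assoc]
    · intro a
      refine ⟨by rw [div_self (e0 a)]; exact one_mem _, fun ρ => ?_⟩
      rw [div_self (e0 a), act_one_right, div_self (e0 _)]
    · intro a b ⟨h1, h2⟩
      refine ⟨by have := inv_mem h1; rwa [inv_div] at this, fun ρ => ?_⟩
      rw [← inv_div (e a) (e b), act_inv _ h1, h2 ρ, inv_div]
    · intro a b c ⟨h1, h2⟩ ⟨h3, h4⟩
      refine ⟨by have := mul_mem h1 h3; rwa [div_mul_div_cancel₀ (e0 b)] at this, fun ρ => ?_⟩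
      rw [← div_mul_div_cancel₀ (c := e c) (e0 b), act_mul _ h1 h3, h2 ρ, h4 ρ,
        div_mul_div_cancel₀ (e0 _)]
  have Q3 : ∀ g : H →+* ℂ, Over σ₂ g → ∀ σ τ, ‖emb g (e σ / e τ)‖ = 1 := by
    intro g hg
    apply rel_all (fun σ τ => ‖emb g (e σ / e τ)‖ = 1) _ _ _ _ hgen
    · rintro φ₀ ⟨i, hi⟩ σ
      obtain ⟨g', hg'⟩ := exists_extend g (hF i)
      have hmem : e σ / e (σ * φ₀⁻¹) ∈ H := (Q2 _ _).1
      rw [← hg' _ hmem, ← hi, ← hnorm i σ, fibProd, emb_prod g' _ _ fun γ _ => act_mem γ (hu i).mem,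
        norm_prod]
      apply Finset.prod_eq_one
      intro γ _
      have h1 := (hu i).abs (g'.comp (γ : F i →+* F i)) (by
        intro a
        simp only [RingHom.comp_apply]
        have : (γ : F i →+* F i) (algebraMap K (F i) a) = algebraMap K (F i) a := γ.commutes a
        rw [this, ← hg a]
        have h3 := hg' (algebraMap K ℝ a) (H.algebraMap_mem a)
        rw [emb_of_mem _ (H.algebraMap_mem a), emb_of_mem _ ((F i).algebraMap_mem a)] at h3
        exact h3)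
      rw [act_of_mem γ (hu i).mem, emb_coe]
      exact h1
    · intro a
      rw [div_self (e0 a), emb_one, norm_one]
    · intro a b h
      rw [← inv_div (e a) (e b), emb_inv _ (Q2 a b).1, norm_inv, h, inv_one]
    · intro a b c h1 h2
      rw [← div_mul_div_cancel₀ (c := e c) (e0 b), emb_mul _ (Q2 a b).1 (Q2 b c).1, norm_mul, h1, h2,
        one_mul]
  have Q4 : ∀ σ τ, (IsIntegral ℤ (e σ / e τ) ∧ IsIntegral ℤ (e τ / e σ)) := by
    apply rel_all (fun σ τ => (IsIntegral ℤ (e σ / e τ) ∧ IsIntegral ℤ (e τ / e σ))) _ _ _ _ hgen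
    · rintro φ₀ ⟨i, hi⟩ σ
      constructor
      · rw [← hi, ← hnorm i σ]
        apply IsIntegral.prod
        intro γ _
        exact isIntegral_act γ (hu i).mem (hu i).int
      · rw [← hi, ← inv_div, ← hnorm i σ, fibProd, ← Finset.prod_inv_distrib]
        apply IsIntegral.prod
        intro γ _
        rw [← act_inv _ (hu i).mem]
        exact isIntegral_act γ (inv_mem (hu i).mem) (hu i).int_inv
    · intro a
      rw [div_self (e0 a)]; exact ⟨isIntegral_one, isIntegral_one⟩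
    · intro a b h; exact ⟨h.2, h.1⟩
    · intro a b c h1 h2
      constructor
      · rw [← div_mul_div_cancel₀ (c := e c) (e0 b)]; exact h1.1.mul h2.1
      · rw [← div_mul_div_cancel₀ (c := e a) (e0 b)]; exact h2.2.mul h1.2
  exact ⟨epos, fun σ τ => (Q2 σ τ).1, fun ρ σ τ => (Q2 σ τ).2 ρ, fun σ τ => (Q4 σ τ).1, Q3⟩

/-- The square roots of the ratios, from pairs of primes with the same Frobenius. -/
theorem sqrt_core (σ₂ : K →+* ℝ) [FiniteDimensional K H] [IsAbelianGalois K H]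
    (e : (H ≃ₐ[K] H) → ℝ) (epos : ∀ σ, 0 < e σ)
    {ι : Type*} (φ : ι → (H ≃ₐ[K] H)) (F : ι → IntermediateField K ℝ)
    [hfin : ∀ i, FiniteDimensional K (F i)] [hab : ∀ i, IsAbelianGalois K (F i)]
    (hF : ∀ i, H ≤ F i) (u : ι → ℝ)
    (hu : ∀ i, IsStarkUnit σ₂ (F i) (u i))
    (heven : ∀ i, Even (fib (hF i) (1 : H ≃ₐ[K] H)).card)
    (hnorm : ∀ i σ, fibProd (hF i) (u i) σ = e σ / e (σ * (φ i)⁻¹))
    (hinf : ∀ i j, i ≠ j → F i ⊓ F j ≤ H)
    (hgen : Subgroup.closure {σ | ∃ i j, i ≠ j ∧ φ i = σ ∧ φ j = σ} = ⊤) (σ τ : H ≃ₐ[K] H) :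
    Real.sqrt (e σ) / Real.sqrt (e τ) ∈ H := by
  classical
  set r : (H ≃ₐ[K] H) → ℝ := fun σ => Real.sqrt (e σ) with hr
  have r0 : ∀ σ, r σ ≠ 0 := fun σ => (Real.sqrt_pos.2 (epos σ)).ne'
  have stepA : ∀ i σ, r σ / r (σ * (φ i)⁻¹) ∈ F i := by
    intro i σ
    haveI := (hu i).ab
    have h1 : r σ / r (σ * (φ i)⁻¹) = ∏ γ ∈ fib (hF i) σ, Real.sqrt (act γ (u i)) := by
      rw [hr]
      simp only
      rw [← Real.sqrt_div (epos σ).le, ← hnorm i σ, fibProd,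
        Real.sqrt_prod _ (fun γ _ => ((hu i).pos γ).le)]
    rw [h1]
    apply prod_sqrt_mem (hu i).mem (hu i).pos
    rw [card_fib]; exact heven i
  refine rel_all (fun σ τ => r σ / r τ ∈ H) ?_ ?_ ?_ _ hgen ?_ σ τ
  · intro a; rw [div_self (r0 a)]; exact one_mem _
  · intro a b hab
    have := inv_mem hab
    rwa [inv_div] at this
  · intro a b c h1 h2
    have := mul_mem h1 h2
    rwa [div_mul_div_cancel₀ (r0 b)] at this
  · rintro φ₀ ⟨i, j, hij, hi, hj⟩ σ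
    apply hinf i j hij
    constructor
    · have := stepA i σ; rwa [hi] at this
    · have := stepA j σ; rwa [hj] at this

/-- complex conjugation and antisymmetry -/
lemma Ratio.exists_C {σ₂ : K →+* ℝ} [FiniteDimensional K H] [IsAbelianGalois K H]
    {e : (H ≃ₐ[K] H) → ℝ} (h : Ratio σ₂ H e) (eprod : ∏ σ, e σ = 1) :
    ∃ C : H ≃ₐ[K] H, ∀ σ, e σ * e (C * σ) = 1 := by
  obtain ⟨g, hg⟩ := exists_over (H := H) σ₂
  obtain ⟨C, hC⟩ := exists_conj hg
  have e0 : ∀ σ, e σ ≠ 0 := fun σ => (h.pos σ).ne'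
  have habs : ∀ x ∈ H, ‖emb g x‖ = 1 → x * Pool.Agent.ST.act C x = 1 := by
    intro x hx h
    apply emb_inj g (mul_mem hx (act_mem C hx)) (one_mem _)
    rw [emb_mul g hx (act_mem C hx), hC x hx, Complex.mul_conj, Complex.normSq_eq_norm_sq, h,
      emb_one]
    simp
  have hκ : ∀ σ, e σ * e (C * σ) = e 1 * e C := by
    intro σ
    have h1 := habs _ (h.mem σ 1) (h.abs g hg σ 1)
    rw [h.act C σ 1, mul_one] at h1
    have h2 := e0 1
    have h3 := e0 C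
    field_simp at h1
    linarith
  have hκ1 : e 1 * e C = 1 := by
    have h1 : ∏ σ : H ≃ₐ[K] H, (e σ * e (C * σ)) = 1 := by
      rw [Finset.prod_mul_distrib, eprod, one_mul]
      rw [← eprod]
      exact Fintype.prod_equiv (Equiv.mulLeft C) _ _ (fun σ => rfl)
    rw [Finset.prod_congr rfl fun σ _ => hκ σ, Finset.prod_const] at h1
    have h2 : (0 : ℝ) ≤ e 1 * e C := (mul_pos (h.pos 1) (h.pos C)).le
    exact (pow_eq_one_iff_of_nonneg h2 (by
      rw [Finset.card_univ]; exact Fintype.card_ne_zero)).1 h1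
  exact ⟨C, fun σ => by rw [hκ, hκ1]⟩

/-- the product over a fibre, reindexed -/
lemma prod_fib_mul (h : H ≤ L) [Normal K H] [FiniteDimensional K L] (f : (L ≃ₐ[K] L) → ℝ)
    (δ : L ≃ₐ[K] L) : ∏ γ ∈ fib h (res h δ), f γ = ∏ γ ∈ fib h (1 : H ≃ₐ[K] H), f (δ * γ) := by
  symm
  refine Finset.prod_bij (fun γ _ => δ * γ) ?_ ?_ ?_ ?_
  · intro γ hγ
    rw [mem_fib] at hγ ⊢
    rw [map_mul, hγ, mul_one]
  · intro a _ b _ hab
    exact mul_left_cancel hab
  · intro γ hγ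
    rw [mem_fib] at hγ
    refine ⟨δ⁻¹ * γ, ?_, by rw [mul_inv_cancel_left]⟩
    rw [mem_fib, map_mul, map_inv, hγ, inv_mul_cancel]
  · intro γ _; rfl

/-- **Descent along an extension of even degree.** -/
theorem even_core (σ₂ : K →+* ℝ) {H H' : IntermediateField K ℝ} [FiniteDimensional K H]
    [IsGalois K H] [FiniteDimensional K H'] [IsAbelianGalois K H'] (hle : H ≤ H')
    {e' : (H' ≃ₐ[K] H') → ℝ} (hR : Ratio σ₂ H' e') (eprod : ∏ σ, e' σ = 1)
    {e : (H ≃ₐ[K] H) → ℝ} (he : ∀ σ, e σ = ∏ γ ∈ fib hle σ, e' γ)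
    (heven : Even (fib hle (1 : H ≃ₐ[K] H)).card) :
    IsSU σ₂ H (e 1) ∧ ∀ τ, act τ (e 1) = e τ := by
  classical
  obtain ⟨C, hC⟩ := hR.exists_C eprod
  have e0 : ∀ σ, e' σ ≠ 0 := fun σ => (hR.pos σ).ne'
  have hsq : ∀ σ, e' σ ^ 2 = e' σ / e' (C * σ) := by
    intro σ
    have h1 := hC σ
    have h2 := e0 (C * σ)
    rw [eq_div_iff h2, sq, mul_assoc, h1, mul_one]
  have hsq' : ∀ σ, ((e' σ)⁻¹) ^ 2 = e' (C * σ) / e' σ := by
    intro σ
    rw [inv_pow, hsq, inv_div]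
  obtain ⟨t, ht⟩ := heven
  have hE : ∀ δ : H' ≃ₐ[K] H', e (res hle δ) = (e' δ ^ 2) ^ t *
      ∏ γ ∈ fib hle (1 : H ≃ₐ[K] H), (e' (δ * γ) / e' δ) := by
    intro δ
    rw [he, prod_fib_mul hle e' δ, Finset.prod_div_distrib, Finset.prod_const, ht, ← pow_mul,
      two_mul]
    field_simp [e0 δ]
  have hsqmem : ∀ δ : H' ≃ₐ[K] H', e' δ ^ 2 ∈ H' := by
    intro δ
    rw [hsq]; exact hR.mem _ _
  have hprodmem : ∀ δ : H' ≃ₐ[K] H', ∏ γ ∈ fib hle (1 : H ≃ₐ[K] H), (e' (δ * γ) / e' δ) ∈ H' :=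
    fun δ => prod_mem fun γ _ => hR.mem _ _
  have hEmem : ∀ δ : H' ≃ₐ[K] H', e (res hle δ) ∈ H' := by
    intro δ
    rw [hE]
    exact mul_mem (pow_mem (hsqmem δ) _) (hprodmem δ)
  have hEact : ∀ ρ δ : H' ≃ₐ[K] H', act ρ (e (res hle δ)) = e (res hle (ρ * δ)) := by
    intro ρ δ
    rw [hE, hE, act_mul _ (pow_mem (hsqmem δ) _) (hprodmem δ), act_pow _ (hsqmem δ),
      act_prod _ _ _ fun γ _ => hR.mem _ _]
    congr 1
    · congr 1
      rw [hsq, hR.act, hsq, ← mul_assoc ρ C δ, mul_comm' ρ C, mul_assoc]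
    · refine Finset.prod_congr rfl fun γ _ => ?_
      rw [hR.act, mul_assoc]
  have e1 : e 1 = e (res hle (1 : H' ≃ₐ[K] H')) := by rw [map_one]
  have hact' : ∀ δ : H' ≃ₐ[K] H', act δ (e 1) = e (res hle δ) := by
    intro δ
    rw [e1, hEact, mul_one]
  have hmem : e 1 ∈ H := by
    apply mem_of_fixed hle (by rw [e1]; exact hEmem 1)
    intro γ hγ
    rw [hact', (res_eq_one_iff hle γ).2 hγ]
  have hact : ∀ τ, act τ (e 1) = e τ := by
    intro τ
    obtain ⟨δ, rfl⟩ := res_surjective hle τ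
    rw [act_res hle δ hmem, hact']
  have hepos : ∀ τ, 0 < e τ := fun τ => by
    rw [he]; exact Finset.prod_pos fun γ _ => hR.pos γ
  refine ⟨⟨hmem, fun σ => by rw [hact]; exact hepos σ, ?_, ?_, ?_⟩, hact⟩
  · rw [he]
    apply IsIntegral.prod
    intro γ _
    apply IsIntegral.of_pow (n := 2) (by norm_num)
    rw [hsq]; exact hR.int _ _
  · rw [he, ← Finset.prod_inv_distrib]
    apply IsIntegral.prod
    intro γ _
    apply IsIntegral.of_pow (n := 2) (by norm_num)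
    rw [hsq']; exact hR.int _ _
  · intro g hg
    obtain ⟨g', hg'⟩ := exists_extend g hle
    have hov : Over σ₂ g' := by
      intro a
      rw [← hg a]
      have h3 := hg' (algebraMap K ℝ a) (H.algebraMap_mem a)
      rw [emb_of_mem _ (H.algebraMap_mem a), emb_of_mem _ (H'.algebraMap_mem a)] at h3
      exact h3
    have h1 : ‖g ⟨e 1, hmem⟩‖ ^ 2 = 1 := by
      rw [← emb_of_mem g hmem, ← hg' _ hmem, ← norm_pow]
      have hm' : e 1 ∈ H' := hle hmem
      have h4 : emb g' (e 1) ^ 2 = emb g' (e 1 ^ 2) := by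
        rw [sq, sq, emb_mul g' hm' hm']
      have h5 : e 1 ^ 2 = ∏ γ ∈ fib hle (1 : H ≃ₐ[K] H), (e' γ / e' (C * γ)) := by
        rw [he, ← Finset.prod_pow]
        exact Finset.prod_congr rfl fun γ _ => hsq γ
      rw [h4, h5, emb_prod g' _ _ fun γ _ => hR.mem _ _, norm_prod]
      exact Finset.prod_eq_one fun γ _ => hR.abs g' hov _ _
    exact (pow_eq_one_iff_of_nonneg (norm_nonneg _) two_ne_zero).1 h1

/-- **Descent along an extension of even degree: the square root.** -/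
theorem even_core_sqrt (σ₂ : K →+* ℝ) {H H' : IntermediateField K ℝ} [FiniteDimensional K H]
    [IsAbelianGalois K H] [FiniteDimensional K H'] [IsAbelianGalois K H'] (hle : H ≤ H')
    {e' : (H' ≃ₐ[K] H') → ℝ} (hR : Ratio σ₂ H' e') (eprod : ∏ σ, e' σ = 1)
    (hsqrt : ∀ σ τ, Real.sqrt (e' σ) / Real.sqrt (e' τ) ∈ H')
    {e : (H ≃ₐ[K] H) → ℝ} (he : ∀ σ, e σ = ∏ γ ∈ fib hle σ, e' γ)
    (heven : Even (fib hle (1 : H ≃ₐ[K] H)).card) :
    IsStarkUnit σ₂ H (e 1) ∧ ∀ τ, act τ (e 1) = e τ := by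
  classical
  obtain ⟨hsu, hact⟩ := even_core σ₂ hle hR eprod he heven
  refine ⟨⟨hsu.mem, hsu.pos, hsu.int, hsu.int_inv, hsu.abs, ?_⟩, hact⟩
  set r' : (H' ≃ₐ[K] H') → ℝ := fun σ => Real.sqrt (e' σ) with hr'
  have r'pos : ∀ σ, 0 < r' σ := fun σ => Real.sqrt_pos.2 (hR.pos σ)
  have r'0 : ∀ σ, r' σ ≠ 0 := fun σ => (r'pos σ).ne'
  have r'sq : ∀ σ, r' σ ^ 2 = e' σ := fun σ => Real.sq_sqrt (hR.pos σ).le
  set c' : (H' ≃ₐ[K] H') → ℝ := fun σ => r' σ / r' 1 with hc'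
  have c'mem : ∀ σ, c' σ ∈ H' := fun σ => hsqrt σ 1
  have c'sq : ∀ σ, c' σ ^ 2 = e' σ / e' 1 := by
    intro σ
    rw [hc']; simp only
    rw [div_pow, r'sq, r'sq]
  -- the square roots of the ratios of the `e σ`
  have key : ∀ δ : H' ≃ₐ[K] H', ∃ s : ℝ, (s = 1 ∨ s = -1) ∧
      Real.sqrt (e (res hle δ)) / Real.sqrt (e 1) = s * fibProd hle (c' δ) 1 := by
    intro δ
    have h1 : Real.sqrt (e (res hle δ)) = ∏ γ ∈ fib hle (1 : H ≃ₐ[K] H), r' (δ * γ) := by
      rw [he, prod_fib_mul hle e' δ, Real.sqrt_prod _ fun γ _ => (hR.pos _).le]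
    have h2 : Real.sqrt (e 1) = ∏ γ ∈ fib hle (1 : H ≃ₐ[K] H), r' γ := by
      rw [he, Real.sqrt_prod _ fun γ _ => (hR.pos _).le]
    have h3 : ∀ γ : H' ≃ₐ[K] H', ∃ s : ℝ, (s = 1 ∨ s = -1) ∧
        r' (δ * γ) / r' γ = s * act γ (c' δ) := by
      intro γ
      apply exists_sign
      rw [div_pow, r'sq, r'sq, ← act_pow _ (c'mem δ), c'sq, hR.act, mul_one, mul_comm' γ δ]
    choose s hs hs' using h3
    refine ⟨∏ γ ∈ fib hle (1 : H ≃ₐ[K] H), s γ, ?_, ?_⟩
    · have h4 : (∏ γ ∈ fib hle (1 : H ≃ₐ[K] H), s γ) ^ 2 = 1 := by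
        rw [← Finset.prod_pow]
        apply Finset.prod_eq_one
        intro γ _
        rcases hs γ with h | h <;> rw [h] <;> norm_num
      exact sq_eq_sq_iff_eq_or_eq_neg.1 (h4.trans (one_pow 2).symm)
    · rw [h1, h2, ← Finset.prod_div_distrib, fibProd, ← Finset.prod_mul_distrib]
      exact Finset.prod_congr rfl fun γ _ => hs' γ
  have hfact : ∀ (δ : H' ≃ₐ[K] H') {x : ℝ}, x ∈ H' →
      act δ (fibProd hle x 1) = fibProd hle (act δ x) 1 := by
    intro δ x hx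
    unfold fibProd
    rw [act_prod _ _ _ fun γ _ => act_mem _ hx]
    exact Finset.prod_congr rfl fun γ _ => act_act_comm _ _ hx
  have hfmul : ∀ {x y : ℝ}, x ∈ H' → y ∈ H' →
      fibProd hle (x * y) 1 = fibProd hle x 1 * fibProd hle y 1 := by
    intro x y hx hy
    unfold fibProd
    rw [← Finset.prod_mul_distrib]
    exact Finset.prod_congr rfl fun γ _ => act_mul _ hx hy
  have hfconst : ∀ {s : ℝ}, (s = 1 ∨ s = -1) → fibProd hle s 1 = 1 := by
    intro s hs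
    unfold fibProd
    rw [Finset.prod_congr rfl fun γ _ => act_const hs γ, Finset.prod_const]
    rcases hs with rfl | rfl
    · simp
    · exact heven.neg_one_pow
  have he1 := hsu.mem
  apply isAbelianGalois_sqrtExt he1 hsu.pos
  · intro σ
    rw [hact]
    obtain ⟨δ, rfl⟩ := res_surjective hle σ
    obtain ⟨s, hs, hs'⟩ := key δ
    rw [hs']
    exact mul_mem (const_mem hs _) (fibProd_mem_base hle (c'mem δ) 1)
  · intro σ τ
    rw [hact, hact]
    obtain ⟨a, rfl⟩ := res_surjective hle σ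
    obtain ⟨b, rfl⟩ := res_surjective hle τ
    obtain ⟨s, hs, hs'⟩ := key a
    obtain ⟨t, ht, ht'⟩ := key b
    rw [hs', ht']
    have m1 := fibProd_mem_base hle (c'mem a) 1
    have m2 := fibProd_mem_base hle (c'mem b) 1
    rw [act_mul _ (const_mem hs _) m1, act_const hs, act_mul _ (const_mem ht _) m2, act_const ht,
      act_res hle b m1, act_res hle a m2, hfact b (c'mem a), hfact a (c'mem b)]
    -- compare the two products
    have h5 : ∃ p : ℝ, (p = 1 ∨ p = -1) ∧ act b (c' a) * c' b = p * (act a (c' b) * c' a) := by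
      apply exists_sign
      rw [mul_pow, mul_pow, ← act_pow _ (c'mem a), ← act_pow _ (c'mem b), c'sq, c'sq, hR.act,
        hR.act, mul_one, mul_one, div_mul_div_cancel₀ (hR.pos b).ne',
        div_mul_div_cancel₀ (hR.pos a).ne', mul_comm' a b]
    obtain ⟨p, hp, hp'⟩ := h5
    have h6 : fibProd hle (act b (c' a)) 1 * fibProd hle (c' b) 1 =
        fibProd hle (act a (c' b)) 1 * fibProd hle (c' a) 1 := by
      rw [← hfmul (act_mem _ (c'mem a)) (c'mem b), ← hfmul (act_mem _ (c'mem b)) (c'mem a), hp',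
        hfmul (const_mem hp _) (mul_mem (act_mem _ (c'mem b)) (c'mem a)), hfconst hp, one_mul]
    calc s * fibProd hle (act b (c' a)) 1 * (t * fibProd hle (c' b) 1)
        = s * t * (fibProd hle (act b (c' a)) 1 * fibProd hle (c' b) 1) := by ring
      _ = s * t * (fibProd hle (act a (c' b)) 1 * fibProd hle (c' a) 1) := by rw [h6]
      _ = _ := by ring

end Pool.Agent.ST
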