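import Pool.Agent.Lib.MP_1ef7cf_nt.Mg.G001

/-!
Products over fibres of restriction maps, lifting of pairs of automorphisms.
-/

set_option linter.style.haveILetI false

open IntermediateField Polynomial

namespace Pool.Agent.ST

variable {K : Type*} [Field K] [Algebra K ℝ] {H L M Ω : IntermediateField K ℝ}

open Classical in
/-- the set of automorphisms of `L` restricting to `σ` on `H`. -/
noncomputable def fib (h : H ≤ L) [Normal K H] [FiniteDimensional K L] (σ : H ≃ₐ[K] H) :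
    Finset (L ≃ₐ[K] L) :=
  Finset.univ.filter (fun γ => res h γ = σ)

lemma mem_fib (h : H ≤ L) [Normal K H] [FiniteDimensional K L] {σ : H ≃ₐ[K] H}
    {γ : L ≃ₐ[K] L} : γ ∈ fib h σ ↔ res h γ = σ := by
  simp [fib]

/-- the product of the conjugates `γ u`, `γ` restricting to `σ`. -/
noncomputable def fibProd (h : H ≤ L) [Normal K H] [FiniteDimensional K L] (u : ℝ)
    (σ : H ≃ₐ[K] H) : ℝ :=
  ∏ γ ∈ fib h σ, act γ u

lemma fibProd_mem (h : H ≤ L) [Normal K H] [FiniteDimensional K L] {u : ℝ} (hu : u ∈ L)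
    (σ : H ≃ₐ[K] H) : fibProd h u σ ∈ L :=
  prod_mem fun γ _ => act_mem γ hu

lemma act_fibProd (h : H ≤ L) [Normal K H] [FiniteDimensional K L] {u : ℝ} (hu : u ∈ L)
    (σ : H ≃ₐ[K] H) (δ : L ≃ₐ[K] L) :
    act δ (fibProd h u σ) = fibProd h u (res h δ * σ) := by
  unfold fibProd
  rw [act_prod δ _ _ (fun γ _ => act_mem γ hu)]
  refine Finset.prod_bij (fun γ _ => δ * γ) ?_ ?_ ?_ ?_
  · intro γ hγ
    rw [mem_fib] at hγ ⊢
    rw [map_mul, hγ]
  · intro a _ b _ hab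
    exact mul_left_cancel hab
  · intro b hb
    refine ⟨δ⁻¹ * b, ?_, by group⟩
    rw [mem_fib] at hb ⊢
    rw [map_mul, hb, map_inv]
    group
  · intro γ _
    rw [act_comp _ _ hu]

lemma card_fib (h : H ≤ L) [Normal K H] [Normal K L] [FiniteDimensional K L] (σ : H ≃ₐ[K] H) :
    (fib h σ).card = (fib h (1 : H ≃ₐ[K] H)).card := by
  obtain ⟨δ, hδ⟩ := res_surjective h σ
  symm
  refine Finset.card_bij (fun γ _ => δ * γ) ?_ ?_ ?_
  · intro γ hγ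
    rw [mem_fib] at hγ ⊢
    rw [map_mul, hγ, hδ, mul_one]
  · intro a _ b _ hab
    exact mul_left_cancel hab
  · intro b hb
    refine ⟨δ⁻¹ * b, ?_, by group⟩
    rw [mem_fib] at hb ⊢
    rw [map_mul, hb, map_inv, hδ]
    group

/-- Lifting a pair `(α, 1)` to the compositum. -/
lemma exists_lift_pair {L₁ L₂ : IntermediateField K ℝ} (h1 : L₁ ≤ M) (h2 : L₂ ≤ M)
    [FiniteDimensional K M] [IsAbelianGalois K M] [Normal K L₁] [Normal K L₂] [Normal K H]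
    (hH : H ≤ L₁) (hinf : L₁ ⊓ L₂ ≤ H) (α : L₁ ≃ₐ[K] L₁) (hα : res hH α = 1) :
    ∃ γ : M ≃ₐ[K] M, res h1 γ = α ∧ res h2 γ = 1 := by
  obtain ⟨γ₀, hγ₀⟩ := res_surjective h1 α
  set S₁ := (res h1).ker with hS₁
  set S₂ := (res h2).ker with hS₂
  have hmem : γ₀ ∈ S₁ ⊔ S₂ := by
    rw [← IntermediateField.fixingSubgroup_fixedField (S₁ ⊔ S₂),
      IntermediateField.mem_fixingSubgroup_iff]
    intro x hx
    rw [IntermediateField.mem_fixedField_iff] at hx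
    have hx1 : (x : ℝ) ∈ L₁ := by
      apply mem_of_fixed h1 x.2
      intro γ hγ
      have : γ ∈ S₁ := by
        rw [hS₁, MonoidHom.mem_ker, res_eq_one_iff]; exact hγ
      rw [act_coe, hx γ ((le_sup_left : S₁ ≤ S₁ ⊔ S₂) this)]
    have hx2 : (x : ℝ) ∈ L₂ := by
      apply mem_of_fixed h2 x.2
      intro γ hγ
      have : γ ∈ S₂ := by
        rw [hS₂, MonoidHom.mem_ker, res_eq_one_iff]; exact hγ
      rw [act_coe, hx γ ((le_sup_right : S₂ ≤ S₁ ⊔ S₂) this)]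
    have hxH : (x : ℝ) ∈ H := hinf ⟨hx1, hx2⟩
    have h3 : act γ₀ (x : ℝ) = (x : ℝ) := by
      rw [← act_res h1 γ₀ hx1, hγ₀]
      exact (res_eq_one_iff hH α).1 hα _ hxH
    rw [act_coe] at h3
    exact Subtype.ext h3
  have hmem' : γ₀ ∈ (↑(S₁ ⊔ S₂) : Set (M ≃ₐ[K] M)) := hmem
  haveI hN : S₂.Normal := by rw [hS₂]; infer_instance
  rw [Subgroup.mul_normal S₁ S₂, Set.mem_mul] at hmem'
  obtain ⟨a, ha, b, hb, hab⟩ := hmem'
  refine ⟨b, ?_, hb⟩
  rw [← hγ₀, ← hab, map_mul, show res h1 a = 1 from ha, one_mul]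

/-- Restriction to `L₁` gives a bijection from the automorphisms of `M = L₁ ⊔ L₂` that are trivial on
`L₂` to the automorphisms of `L₁` that are trivial on `H = L₁ ⊓ L₂`. -/
lemma prod_fib_pair {L₁ L₂ : IntermediateField K ℝ} (h1 : L₁ ≤ M) (h2 : L₂ ≤ M)
    (hM : M ≤ L₁ ⊔ L₂)
    [FiniteDimensional K L₁] [FiniteDimensional K M] [IsAbelianGalois K M] [Normal K L₁]
    [Normal K L₂] [Normal K H]
    (hH : H ≤ L₁) (hH2 : H ≤ L₂) (hinf : L₁ ⊓ L₂ ≤ H) (f : (L₁ ≃ₐ[K] L₁) → ℝ) :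
    ∏ γ ∈ fib h2 (1 : L₂ ≃ₐ[K] L₂), f (res h1 γ) = ∏ α ∈ fib hH (1 : H ≃ₐ[K] H), f α := by
  refine Finset.prod_bij (fun γ _ => res h1 γ) ?_ ?_ ?_ ?_
  · intro γ hγ
    rw [mem_fib] at hγ ⊢
    rw [res_res, ← res_res hH2 h2, hγ, map_one]
  · intro a ha b hb hab
    rw [mem_fib] at ha hb
    apply eq_of_eq_on_sup hM h1 h2
    · intro x hx
      rw [← act_res h1 a hx, ← act_res h1 b hx, hab]
    · intro x hx
      rw [← act_res h2 a hx, ← act_res h2 b hx, ha, hb]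
  · intro α hα
    rw [mem_fib] at hα
    obtain ⟨γ, hγ1, hγ2⟩ := exists_lift_pair h1 h2 hH hinf α hα
    exact ⟨γ, (mem_fib h2).2 hγ2, hγ1⟩
  · intro γ _; rfl

lemma card_fib_pair {L₁ L₂ : IntermediateField K ℝ} (h1 : L₁ ≤ M) (h2 : L₂ ≤ M)
    (hM : M ≤ L₁ ⊔ L₂)
    [FiniteDimensional K L₁] [FiniteDimensional K M] [IsAbelianGalois K M] [Normal K L₁]
    [Normal K L₂] [Normal K H]
    (hH : H ≤ L₁) (hH2 : H ≤ L₂) (hinf : L₁ ⊓ L₂ ≤ H) :
    (fib h2 (1 : L₂ ≃ₐ[K] L₂)).card = (fib hH (1 : H ≃ₐ[K] H)).card := by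
  refine Finset.card_bij (fun γ _ => res h1 γ) ?_ ?_ ?_
  · intro γ hγ
    rw [mem_fib] at hγ ⊢
    rw [res_res, ← res_res hH2 h2, hγ, map_one]
  · intro a ha b hb hab
    rw [mem_fib] at ha hb
    apply eq_of_eq_on_sup hM h1 h2
    · intro x hx
      rw [← act_res h1 a hx, ← act_res h1 b hx, hab]
    · intro x hx
      rw [← act_res h2 a hx, ← act_res h2 b hx, ha, hb]
  · intro α hα
    rw [mem_fib] at hα
    obtain ⟨γ, hγ1, hγ2⟩ := exists_lift_pair h1 h2 hH hinf α hα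
    exact ⟨γ, (mem_fib h2).2 hγ2, hγ1⟩

end Pool.Agent.ST
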