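import Mathlib

/-!
Sums over nonzero ideals of a number field, and the pole at `s = 1`.
-/

set_option linter.style.haveILetI false

open NumberField Filter Topology Ideal nonZeroDivisors

namespace Pool.Agent.ST

section zeta

variable (F : Type*) [Field F] [NumberField F]

/-- number of ideals of norm `n` -/
noncomputable def cnt (n : ℕ) : ℝ := Nat.card {I : Ideal (𝓞 F) // absNorm I = n}

lemma cnt_nonneg (n : ℕ) : 0 ≤ cnt F n := Nat.cast_nonneg _

lemma tendsto_cnt : Tendsto (fun n : ℕ => (∑ k ∈ Finset.Icc 1 n, cnt F k) / (n : ℝ)) atTop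
    (𝓝 (dedekindZeta_residue F)) := by
  refine ((NumberField.Ideal.tendsto_norm_le_div_atTop₀ F).comp tendsto_natCast_atTop_atTop).congr
    fun n ↦ ?_
  simp only [Function.comp_apply, Nat.cast_le, ← Nat.cast_sum, cnt]
  congr
  rw [← add_left_inj 1, ← card_norm_le_eq_card_norm_le_add_one,
    show Finset.Icc 1 n = Finset.Ioc 0 n from Finset.Icc_succ_left_eq_Ioc _ _,
    show 1 = Nat.card {I : Ideal (𝓞 F) // absNorm I = 0} by simp [Ideal.absNorm_eq_zero_iff],
    Finset.sum_Ioc_add_eq_sum_Icc (n.zero_le),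
    ← Finset.card_preimage_eq_sum_card_image_eq (fun k _ ↦ finite_setOfPred_absNorm_eq k)]
  simp [Set.coe_eq_subtype]

lemma LSeriesSummable_cnt {s : ℂ} (hs : 1 < s.re) : LSeriesSummable (fun n => (cnt F n : ℂ)) s := by
  refine LSeriesSummable_of_sum_norm_bigO_and_nonneg ?_ (cnt_nonneg F) zero_le_one hs
  have := tendsto_cnt F
  exact Asymptotics.isBigO_atTop_natCast_rpow_of_tendsto_div_rpow (by simpa using this)

lemma summable_cnt {s : ℝ} (hs : 1 < s) :
    Summable (fun n : ℕ => if n = 0 then 0 else cnt F n * (n : ℝ) ^ (-s)) := by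
  have h1 := LSeriesSummable_cnt F (s := (s : ℂ)) (by simpa using hs)
  unfold LSeriesSummable at h1
  rw [← Complex.summable_ofReal]
  refine h1.congr fun n => ?_
  rw [LSeries.term_def]
  split_ifs with h
  · simp
  · push_cast
    rw [div_eq_mul_inv, Complex.ofReal_cpow (Nat.cast_nonneg n), Complex.ofReal_neg,
      Complex.cpow_neg]
    simp

/-- nonzero ideals -/
abbrev NzI := {I : Ideal (𝓞 F) // I ≠ ⊥}

lemma absNorm_pos (I : NzI F) : 0 < absNorm I.1 := by
  rw [Nat.pos_iff_ne_zero, Ne, Ideal.absNorm_eq_zero_iff]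
  exact I.2

lemma fib_card (n : ℕ) (hn : n ≠ 0) :
    Nat.card {I : NzI F // absNorm I.1 = n} = Nat.card {I : Ideal (𝓞 F) // absNorm I = n} := by
  refine Nat.card_congr
    { toFun := fun I => ⟨I.1.1, I.2⟩
      invFun := fun I => ⟨⟨I.1, ?_⟩, I.2⟩
      left_inv := fun I => rfl
      right_inv := fun I => rfl }
  rintro h
  have := I.2
  rw [h, Ideal.absNorm_bot] at this
  exact hn this.symm

lemma fib_finite (n : ℕ) : Finite {I : NzI F // absNorm I.1 = n} := by
  have h1 : Finite {I : Ideal (𝓞 F) // absNorm I = n} := (finite_setOfPred_absNorm_eq n).to_subtype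
  refine Finite.of_injective (fun I : {I : NzI F // absNorm I.1 = n} =>
    (⟨I.1.1, I.2⟩ : {I : Ideal (𝓞 F) // absNorm I = n})) ?_
  intro a b hab
  simp only [Subtype.mk.injEq] at hab
  exact Subtype.ext (Subtype.ext hab)

lemma tsum_fib (s : ℝ) (n : ℕ) :
    ∑' I : {I : NzI F // absNorm I.1 = n}, (absNorm I.1.1 : ℝ) ^ (-s) =
      if n = 0 then 0 else cnt F n * (n : ℝ) ^ (-s) := by
  haveI := fib_finite F n
  haveI : Fintype {I : NzI F // absNorm I.1 = n} := Fintype.ofFinite _
  rw [tsum_fintype]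
  have h1 : ∀ I : {I : NzI F // absNorm I.1 = n}, (absNorm I.1.1 : ℝ) ^ (-s) = (n : ℝ) ^ (-s) := by
    intro I; rw [I.2]
  rw [Finset.sum_congr rfl fun I _ => h1 I, Finset.sum_const, nsmul_eq_mul, Finset.card_univ,
    ← Nat.card_eq_fintype_card]
  split_ifs with h
  · subst h
    have : IsEmpty {I : NzI F // absNorm I.1 = 0} := by
      constructor
      rintro ⟨I, hI⟩
      exact (absNorm_pos F I).ne' hI
    simp
  · rw [fib_card F n h, cnt]

lemma summable_ideal {s : ℝ} (hs : 1 < s) : Summable (fun I : NzI F => (absNorm I.1 : ℝ) ^ (-s)) := by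
  have e := Equiv.sigmaFiberEquiv (fun I : NzI F => absNorm I.1)
  rw [← (Equiv.sigmaFiberEquiv (fun I : NzI F => absNorm I.1)).summable_iff]
  rw [summable_sigma_of_nonneg (fun x => by
    simp only [Function.comp_apply]
    positivity)]
  constructor
  · intro n
    haveI := fib_finite F n
    exact Summable.of_finite
  · refine (summable_cnt F hs).congr fun n => ?_
    exact (tsum_fib F s n).symm

/-- the Dedekind zeta function at a real point -/
noncomputable def zetaR (s : ℝ) : ℝ := ∑' I : NzI F, (absNorm I.1 : ℝ) ^ (-s)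

lemma zetaR_eq {s : ℝ} (hs : 1 < s) :
    zetaR F s = ∑' n : ℕ, (if n = 0 then 0 else cnt F n * (n : ℝ) ^ (-s)) := by
  unfold zetaR
  rw [← (Equiv.sigmaFiberEquiv (fun I : NzI F => absNorm I.1)).tsum_eq]
  rw [Summable.tsum_sigma' ?_ ?_]
  · refine tsum_congr fun n => ?_
    exact tsum_fib F s n
  · intro n
    haveI := fib_finite F n
    exact Summable.of_finite
  · exact (Equiv.sigmaFiberEquiv (fun I : NzI F => absNorm I.1)).summable_iff.2 (summable_ideal F hs)

lemma tendsto_zetaR : Tendsto (fun s : ℝ => (s - 1) * zetaR F s) (𝓝[>] 1)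
    (𝓝 (dedekindZeta_residue F)) := by
  have h := tendsto_sub_one_mul_dedekindZeta_nhdsGT F
  have h2 : Tendsto (fun s : ℝ => (((s - 1) * zetaR F s : ℝ) : ℂ)) (𝓝[>] 1)
      (𝓝 ((dedekindZeta_residue F : ℝ) : ℂ)) := by
    refine h.congr' ?_
    filter_upwards [self_mem_nhdsWithin] with s hs
    rw [zetaR_eq F hs, Complex.ofReal_mul, Complex.ofReal_tsum]
    congr 1
    · push_cast; ring
    · unfold dedekindZeta LSeries
      refine tsum_congr fun n => ?_
      rw [LSeries.term_def]
      split_ifs with h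
      · simp
      · rw [cnt]
        push_cast
        rw [div_eq_mul_inv, Complex.ofReal_cpow (Nat.cast_nonneg n), Complex.ofReal_neg,
          Complex.cpow_neg]
        simp
  exact (Complex.continuous_re.tendsto _).comp h2 |>.congr fun s => by simp

end zeta

end Pool.Agent.ST
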