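import Pool.Agent.Lib.MP_1ef7cf_nt.RCF3
import Pool.Agent.Lib.MP_1ef7cf_nt.Norm2
import Pool.Agent.Lib.MP_1ef7cf_nt.Fiber

/-!
# Fibres of the restriction map between ray class fields
-/

open NumberField IsDedekindDomain nonZeroDivisors IntermediateField

namespace Pool.Agent.ST

section

variable {K : Type*} [Field K] [NumberField K] [Algebra K ℝ] {σ₂ : K →+* ℝ}

omit [Algebra K ℝ] in
lemma exists_not_isSquare {q : HeightOneSpectrum (𝓞 K)} (hq2 : (2 : 𝓞 K) ∉ q.asIdeal) :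
    ∃ x : 𝓞 K ⧸ q.asIdeal, ¬ IsSquare x := by
  have := q.isMaximal
  have : Finite (𝓞 K ⧸ q.asIdeal) := Ideal.finiteQuotientOfFreeOfNeBot q.asIdeal q.ne_bot
  let _ : Field (𝓞 K ⧸ q.asIdeal) := Ideal.Quotient.field q.asIdeal
  have h2 : ringChar (𝓞 K ⧸ q.asIdeal) ≠ 2 := by
    intro h
    have h3 : ((2 : ℕ) : 𝓞 K ⧸ q.asIdeal) = 0 := by
      rw [← h]; exact CharP.cast_eq_zero _ _
    apply hq2
    rw [← Ideal.Quotient.eq_zero_iff_mem, map_ofNat]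
    exact_mod_cast h3
  exact FiniteField.exists_nonsquare h2

/-- The degree `[H_{nq} : H_n]` is even for suitable `q`. -/
theorem even_fib {n n' : Ideal (𝓞 K)} (hn : n ≠ ⊥) {q : HeightOneSpectrum (𝓞 K)}
    (hq : ¬ q.asIdeal ∣ n) (hn' : n' = n * q.asIdeal) (hq2 : (2 : 𝓞 K) ∉ q.asIdeal)
    (hu : ∀ u : (𝓞 K)ˣ, (u : 𝓞 K) - 1 ∈ n → 0 < σ₂ ((u : 𝓞 K) : K) →
      IsSquare (Ideal.Quotient.mk q.asIdeal (u : 𝓞 K)))
    {H H' : IntermediateField K ℝ} {Art : RayClassGroup σ₂ n ≃* (H ≃ₐ[K] H)}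
    {Art' : RayClassGroup σ₂ n' ≃* (H' ≃ₐ[K] H')}
    (h : IsRayClassField σ₂ n H Art) (h' : IsRayClassField σ₂ n' H' Art')
    [Normal K H] [FiniteDimensional K H'] (hle : H ≤ H') :
    Even (fib hle (1 : H ≃ₐ[K] H)).card := by
  have hle' : n' ≤ n := by rw [hn']; exact Ideal.mul_le_left
  have hne' : n' ≠ ⊥ := by rw [hn']; exact mul_ne_bot' hn q.ne_bot
  by_contra hodd
  rw [Nat.not_even_iff_odd] at hodd
  obtain ⟨x, hx⟩ := exists_not_isSquare hq2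
  apply hx
  subst hn'
  refine isSquare_of_odd hn q hq hu hodd ?_ x
  intro J hJ hray
  have h1 : cls σ₂ n (inc hle' ⟨J, hJ⟩) = 1 := (cls_eq_one_iff _).2 (by rw [coe_inc]; exact hray)
  have h2 : res hle (Art' (cls σ₂ _ ⟨J, hJ⟩)) = 1 := by
    rw [IsRCF.res_art hle' hne' Set.finite_empty Set.finite_empty h'.isRCF h.isRCF, pr_cls, h1,
      map_one]
  have h3 : (fib hle (1 : H ≃ₐ[K] H)).card = Nat.card (res hle).ker := by
    rw [← Nat.card_eq_finsetCard]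
    refine Nat.card_congr (Equiv.subtypeEquivRight fun γ => ?_)
    rw [mem_fib, MonoidHom.mem_ker]
  have h4 : (Art' (cls σ₂ _ ⟨J, hJ⟩)) ^ (fib hle (1 : H ≃ₐ[K] H)).card = 1 := by
    rw [h3]
    have h5 := pow_card_eq_one' (x := (⟨Art' (cls σ₂ _ ⟨J, hJ⟩), h2⟩ : (res hle).ker))
    exact congrArg Subtype.val h5
  rw [← map_pow, ← map_pow] at h4
  have h6 : cls σ₂ (n * q.asIdeal) (⟨J, hJ⟩ ^ (fib hle (1 : H ≃ₐ[K] H)).card) = 1 := by
    apply Art'.injective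
    rw [h4, map_one]
  rw [cls_eq_one_iff] at h6
  exact h6

open Classical in
/-- the classes over a class -/
noncomputable def ovCls {n n' : Ideal (𝓞 K)} {H H' : IntermediateField K ℝ}
    (Art : RayClassGroup σ₂ n ≃* (H ≃ₐ[K] H))
    (Art' : RayClassGroup σ₂ n' ≃* (H' ≃ₐ[K] H')) [Normal K H] [FiniteDimensional K H']
    (hle : H ≤ H') (A : RayClassGroup σ₂ n) : Finset (RayClassGroup σ₂ n') :=
  (fib hle (Art A)).map Art'.symm.toEquiv.toEmbedding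

lemma mem_ovCls {n n' : Ideal (𝓞 K)} (hle' : n' ≤ n) (hne' : n' ≠ ⊥)
    {H H' : IntermediateField K ℝ} {Art : RayClassGroup σ₂ n ≃* (H ≃ₐ[K] H)}
    {Art' : RayClassGroup σ₂ n' ≃* (H' ≃ₐ[K] H')}
    (h : IsRayClassField σ₂ n H Art) (h' : IsRayClassField σ₂ n' H' Art')
    [Normal K H] [FiniteDimensional K H'] (hle : H ≤ H') (A : RayClassGroup σ₂ n)
    (A' : RayClassGroup σ₂ n') : A' ∈ ovCls Art Art' hle A ↔ pr σ₂ hle' A' = A := by
  unfold ovCls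
  rw [Finset.mem_map]
  constructor
  · rintro ⟨γ, hγ, rfl⟩
    rw [mem_fib] at hγ
    apply Art.injective
    have h1 := IsRCF.res_art hle' hne' Set.finite_empty Set.finite_empty h'.isRCF h.isRCF hle
      (Art'.symm γ)
    rw [MulEquiv.apply_symm_apply, hγ] at h1
    exact h1.symm
  · rintro rfl
    refine ⟨Art' A', ?_, Art'.symm_apply_apply A'⟩
    rw [mem_fib]
    exact IsRCF.res_art hle' hne' Set.finite_empty Set.finite_empty h'.isRCF h.isRCF hle A'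

/-- The product over a fibre as a product over classes. -/
lemma fibProd_eq {n n' : Ideal (𝓞 K)} 
    {H H' : IntermediateField K ℝ} (Art : RayClassGroup σ₂ n ≃* (H ≃ₐ[K] H))
    (Art' : RayClassGroup σ₂ n' ≃* (H' ≃ₐ[K] H'))
    [Normal K H] [FiniteDimensional K H'] (hle : H ≤ H') (A : RayClassGroup σ₂ n) {u : ℝ}
    (hu : ∀ A', act (Art' A') u = Real.exp (-2 * zd σ₂ n' A')) :
    fibProd hle u (Art A) = Real.exp (-2 * ∑ A' ∈ ovCls Art Art' hle A, zd σ₂ n' A') := by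
  unfold ovCls fibProd
  rw [Finset.sum_map, Finset.mul_sum, Real.exp_sum]
  refine Finset.prod_congr rfl fun γ _ => ?_
  have h1 := hu (Art'.symm γ)
  rw [MulEquiv.apply_symm_apply] at h1
  exact h1

/-- Norm relation for the numbers `exp (-2 ζ'(0, A))`. -/
theorem fibProd_prime (h2 : Module.finrank ℚ K = 2) (hσ : σ₂ ≠ sg1 K)
    {n n' : Ideal (𝓞 K)} (hn : n ≠ ⊥) (hn1 : n ≠ ⊤) {q : HeightOneSpectrum (𝓞 K)}
    (hn' : n' = n * q.asIdeal)
    {H H' : IntermediateField K ℝ} {Art : RayClassGroup σ₂ n ≃* (H ≃ₐ[K] H)}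
    {Art' : RayClassGroup σ₂ n' ≃* (H' ≃ₐ[K] H')}
    (h : IsRayClassField σ₂ n H Art) (h' : IsRayClassField σ₂ n' H' Art')
    [Normal K H] [FiniteDimensional K H'] (hle : H ≤ H') (A : RayClassGroup σ₂ n) {u : ℝ}
    (hu : ∀ A', act (Art' A') u = Real.exp (-2 * zd σ₂ n' A')) {Q : primeTo (K := K) n}
    (hQ : ((Q : (FI K)ˣ) : FI K) = (q.asIdeal : FI K)) :
    fibProd hle u (Art A) = Real.exp (-2 * zd σ₂ n A) /
      Real.exp (-2 * zd σ₂ n (A * (cls σ₂ n Q)⁻¹)) := by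
  have hle' : n' ≤ n := by rw [hn']; exact Ideal.mul_le_left
  have hne' : n' ≠ ⊥ := by rw [hn']; exact mul_ne_bot' hn q.ne_bot
  rw [fibProd_eq Art Art' hle A hu, ← Real.exp_sub,
    zd_relation_prime h2 hσ hle' hn' hn hn1 (mem_ovCls hle' hne' h h' hle A) hQ]
  congr 1
  ring

end

end Pool.Agent.ST
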