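import Pool.Agent.Lib.MP_1ef7cf_nt.Conv
import Pool.Agent.Lib.MP_1ef7cf_nt.RCF4

/-!
# Descent of the Stark-Tate assertion to a modulus with the same prime divisors
-/

open NumberField IsDedekindDomain nonZeroDivisors IntermediateField

namespace Pool.Agent.ST

variable {K : Type*} [Field K] [NumberField K] [Algebra K ℝ] {σ₂ : K →+* ℝ}

omit [NumberField K] in
lemma act_fibProd_one {H L : IntermediateField K ℝ} (h : H ≤ L) [FiniteDimensional K L]
    [Normal K H] [IsGalois K L] {u : ℝ} (hu : u ∈ L) (σ : H ≃ₐ[K] H) :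
    act σ (fibProd h u 1) = fibProd h u σ := by
  obtain ⟨δ, rfl⟩ := res_surjective h σ
  rw [act_res h δ (fibProd_mem_base h hu 1), act_fibProd h hu, mul_one]

/-- Descent to a modulus with the same prime divisors. -/
theorem starkTate_same (h2 : Module.finrank ℚ K = 2) (hσ : σ₂ ≠ sg1 K) {n' n : Ideal (𝓞 K)}
    (hle : n' ≤ n) (hn' : n' ≠ ⊥) (hn : n ≠ ⊥) (hn1 : n ≠ ⊤)
    (hdvd : ∀ v : HeightOneSpectrum (𝓞 K), v.asIdeal ∣ n' → v.asIdeal ∣ n)
    (hst : StarkTate σ₂ n') : StarkTate σ₂ n := by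
  obtain ⟨H', Art', u', hd'⟩ := hst.data
  have hprime : ∀ J : (FI K)ˣ, J ∈ primeTo n → J ∈ primeTo n' := fun J hJ v hv => hJ v (hdvd v hv)
  have hsurj : Function.Surjective (pr σ₂ hle) := by
    intro A
    obtain ⟨J, rfl⟩ := cls_surjective n A
    exact ⟨cls σ₂ n' ⟨J, hprime J J.2⟩, rfl⟩
  obtain ⟨H, Art, hr, hHH⟩ := exists_down hle hsurj hd'.rcf.isRCF
  have hrcf : IsRayClassField σ₂ n H Art := by
    refine ⟨hr.finite, hr.galois, ?_⟩
    intro v J hJ P hP hPv
    refine hr.frob v J ?_ hJ P hPv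
    rintro (hb | hb)
    · exact hb
    · have h3 := coprime_of_mem_primeTo hJ J.2
      exact coprime_prime_iff.1 h3 (hdvd v hb)
  have hcop : ∀ I : Ideal (𝓞 K), IsCoprime I n → IsCoprime I n' := by
    intro I hI
    have hI0 : I ≠ ⊥ := ne_bot_of_coprime_ne hI hn1
    exact coprime_of_mem_primeTo (J := uI I hI0) (coe_uI I hI0)
      (hprime _ (coe_mem_primeTo (coe_uI I hI0) hI))
  have := hrcf.finite
  have := hrcf.galois
  have := hd'.rcf.finite
  have := hd'.rcf.galois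
  have hd : STData σ₂ n H Art (fibProd hHH u' 1) := by
    refine ⟨hrcf, hd'.stark.fibProd hHH, fun A => ?_⟩
    rw [act_fibProd_one hHH hd'.stark.mem, fibProd_eq Art Art' hHH A hd'.act,
      zd_relation_same h2 hσ hle hn' hn hn1 hcop (mem_ovCls hle hn' hrcf hd'.rcf hHH A)]
  exact hd.starkTate h2 hσ hn hn1

end Pool.Agent.ST
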