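import Pool.Agent.Lib.MP_1ef7cf_nt.Even
import Pool.Agent.Lib.MP_1ef7cf_nt.Mg.G003
import Pool.Agent.Lib.MP_1ef7cf_nt.Same

/-!
# Removing primes from the modulus in the Stark-Tate conjecture: final form
-/

open NumberField IsDedekindDomain nonZeroDivisors IntermediateField

namespace Pool.Agent.ST

variable {K : Type*} [Field K] [NumberField K] [Algebra K ℝ] {σ₂ : K →+* ℝ}

/-- Every totally positive unit which is congruent to `1` modulo `n` and to a square modulo `4`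
is a square. -/
def UnitCond (σ₂ : K →+* ℝ) (n : Ideal (𝓞 K)) : Prop :=
  ∀ u : (𝓞 K)ˣ, (u : 𝓞 K) - 1 ∈ n → 0 < algebraMap K ℝ ((u : 𝓞 K) : K) →
    0 < σ₂ ((u : 𝓞 K) : K) → (∃ a : 𝓞 K, (4 : 𝓞 K) ∣ (u : 𝓞 K) - a ^ 2) → IsSquare u

omit [NumberField K] in
lemma UnitCond.mono {n' n : Ideal (𝓞 K)} (h : n' ≤ n) (hU : UnitCond σ₂ n) : UnitCond σ₂ n' :=
  fun u hu h1 h2 h3 => hU u (h hu) h1 h2 h3

/-- For `n` prime to `2` the condition on units follows from `UnitCond`. -/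
theorem EN_of_unitCond {n : Ideal (𝓞 K)} (hU : UnitCond σ₂ n)
    (hodd : ∀ v : HeightOneSpectrum (𝓞 K), (2 : 𝓞 K) ∈ v.asIdeal → ¬ v.asIdeal ∣ n) :
    EN σ₂ n := by
  intro H Art hr u hu y hyH hy2
  by_contra hcon
  push Not at hcon
  have hfd := hr.finite
  have hG := hr.galois
  have hab := hr.isRCF.abelian
  have hLH : K⟮y⟯ ≤ H := by rw [adjoin_simple_le_iff]; exact hyH
  have hyL : y ∈ K⟮y⟯ := mem_adjoin_simple_self K y
  have hn : Normal K K⟮y⟯ := normal_adjoin_sqrt hy2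
  have hLG : IsGalois K K⟮y⟯ := isGalois_of_normal _
  have hLfd : FiniteDimensional K K⟮y⟯ := adjoin.finiteDimensional (isIntegral_of_mem hyH)
  have hLnf := numberField_of_fd K⟮y⟯
  have hsq : ∃ a : 𝓞 K, (4 : 𝓞 K) ∣ (u : 𝓞 K) - a ^ 2 := by
    apply exists_sq_mod_four (K := K) (L := K⟮y⟯) (finrank_adjoin_sqrt_le hy2)
      (y := (⟨y, hyL⟩ : K⟮y⟯)) (u := u)
    · exact Subtype.ext hy2
    · intro a ha
      exact hcon a (congrArg Subtype.val ha)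
    · intro P hP2
      obtain ⟨P', hP'1, hP'2, -⟩ := isFrob_res' hLH P
      have h3 : ¬ (und K P).asIdeal ∣ n := hodd _ hP2
      exact hP'2 (hr.isRCF.frobP P' (by simp) (prJ n (und K P) h3) (by rw [coe_prJ, hP'1])).1
  have hpos : 0 < algebraMap K ℝ ((u : 𝓞 K) : K) := by
    rw [← hy2]
    have h3 : y ≠ 0 := by
      rintro rfl
      exact hcon 0 (map_zero _)
    positivity
  obtain ⟨v, hv⟩ := hU u hu.1 hpos hu.2 hsq
  have h5 : y ^ 2 = (algebraMap K ℝ ((v : 𝓞 K) : K)) ^ 2 := by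
    rw [hy2, hv, Units.val_mul]
    change algebraMap K ℝ (algebraMap (𝓞 K) K ((v : 𝓞 K) * (v : 𝓞 K))) = _
    rw [map_mul, map_mul, sq]
  rcases sq_eq_sq_iff_eq_or_eq_neg.1 h5 with h6 | h6
  · exact hcon _ h6.symm
  · exact hcon (-((v : 𝓞 K) : K)) (by rw [map_neg]; exact h6.symm)

/-- A unit of norm `-1` implies `UnitCond`. -/
theorem unitCond_of_norm (h2 : Module.finrank ℚ K = 2) {ε : (𝓞 K)ˣ}
    (hε : algebraMap K ℝ ((ε : 𝓞 K) : K) * σ₂ ((ε : 𝓞 K) : K) < 0) (n : Ideal (𝓞 K)) :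
    UnitCond σ₂ n := by
  intro u _ hu1 hu2 _
  obtain ⟨ε₀, h3, -⟩ := exists_fund (K := K) h2
  -- the sign character
  have hsgn : ∀ k : ℤ, algebraMap K ℝ (((ε₀ ^ k : (𝓞 K)ˣ) : 𝓞 K) : K) *
      σ₂ (((ε₀ ^ k : (𝓞 K)ˣ) : 𝓞 K) : K) =
      (algebraMap K ℝ ((ε₀ : 𝓞 K) : K) * σ₂ ((ε₀ : 𝓞 K) : K)) ^ k := by
    intro k
    rw [unit_val_zpow_coe (algebraMap K ℝ) ε₀ k, unit_val_zpow_coe σ₂ ε₀ k, mul_zpow]
  have hneg : ∀ v : (𝓞 K)ˣ, ∀ k : ℤ, (v = ε₀ ^ k ∨ v = -ε₀ ^ k) →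
      algebraMap K ℝ ((v : 𝓞 K) : K) * σ₂ ((v : 𝓞 K) : K) =
      (algebraMap K ℝ ((ε₀ : 𝓞 K) : K) * σ₂ ((ε₀ : 𝓞 K) : K)) ^ k := by
    rintro v k (rfl | rfl)
    · exact hsgn k
    · rw [← hsgn k, Units.val_neg]
      change algebraMap K ℝ (algebraMap (𝓞 K) K (-((ε₀ ^ k : (𝓞 K)ˣ) : 𝓞 K))) *
        σ₂ (algebraMap (𝓞 K) K (-((ε₀ ^ k : (𝓞 K)ˣ) : 𝓞 K))) = _
      rw [map_neg, map_neg, map_neg, neg_mul_neg]
  have h4 : algebraMap K ℝ ((ε₀ : 𝓞 K) : K) * σ₂ ((ε₀ : 𝓞 K) : K) < 0 := by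
    obtain ⟨k, hk⟩ := h3 ε
    rw [hneg ε k hk] at hε
    by_contra hcon
    push Not at hcon
    exact absurd hε (not_lt.2 (zpow_nonneg hcon k))
  obtain ⟨k, hk⟩ := h3 u
  have h5 := hneg u k hk
  have h6 : Even k := by
    rw [← Int.not_odd_iff_even]
    intro hodd
    have h7 := hodd.zpow_neg h4
    rw [← h5] at h7
    exact absurd (mul_pos hu1 hu2) (not_lt.2 h7.le)
  obtain ⟨l, rfl⟩ := h6
  rcases hk with hk | hk
  · exact ⟨ε₀ ^ l, by rw [hk, zpow_add]⟩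
  · exfalso
    rw [hk, Units.val_neg] at hu1
    change 0 < algebraMap K ℝ (algebraMap (𝓞 K) K (-((ε₀ ^ (l + l) : (𝓞 K)ˣ) : 𝓞 K))) at hu1
    rw [map_neg, map_neg] at hu1
    have h8 := unit_val_zpow_coe (algebraMap K ℝ) ε₀ (l + l)
    have h9 : 0 ≤ (algebraMap K ℝ ((ε₀ : 𝓞 K) : K)) ^ (l + l) :=
      (Even.add_self l).zpow_nonneg _
    rw [← h8] at h9
    change 0 ≤ algebraMap K ℝ (algebraMap (𝓞 K) K ((ε₀ ^ (l + l) : (𝓞 K)ˣ) : 𝓞 K)) at h9
    linarith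

/-- the number of prime divisors -/
noncomputable def numPrimes (m : Ideal (𝓞 K)) : ℕ :=
  {v : HeightOneSpectrum (𝓞 K) | v.asIdeal ∣ m}.ncard

omit [Algebra K ℝ] in
lemma numPrimes_mul {m : Ideal (𝓞 K)} (hm : m ≠ ⊥) {q : HeightOneSpectrum (𝓞 K)}
    (hq : ¬ q.asIdeal ∣ m) : numPrimes (m * q.asIdeal) = numPrimes m + 1 := by
  have h : {v : HeightOneSpectrum (𝓞 K) | v.asIdeal ∣ m * q.asIdeal} =
      insert q {v : HeightOneSpectrum (𝓞 K) | v.asIdeal ∣ m} := by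
    ext v
    rw [Set.mem_insert_iff]
    constructor
    · intro hv
      rcases dvd_mul_prime hv with h | h
      · exact Or.inr h
      · exact Or.inl h
    · rintro (rfl | h)
      · exact dvd_mul_left _ _
      · exact dvd_mul_of_dvd_left h _
  unfold numPrimes
  rw [h]
  exact Set.ncard_insert_of_notMem (s := {v : HeightOneSpectrum (𝓞 K) | v.asIdeal ∣ m}) hq
    (finite_dvd hm)

omit [Algebra K ℝ] in
lemma dvd_mul_pow_iff {m : Ideal (𝓞 K)} {p v : HeightOneSpectrum (𝓞 K)} (hp : p.asIdeal ∣ m)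
    {j : ℕ} : v.asIdeal ∣ m * p.asIdeal ^ j ↔ v.asIdeal ∣ m := by
  constructor
  · intro h
    rcases v.prime.dvd_or_dvd h with h | h
    · exact h
    · have h3 := v.prime.dvd_of_dvd_pow h
      rw [eq_of_dvd_prime h3]; exact hp
  · intro h; exact dvd_mul_of_dvd_left h _

/-- **Main theorem.** -/
theorem main (h2 : Module.finrank ℚ K = 2) (hσ : σ₂ ≠ sg1 K) {n : Ideal (𝓞 K)} (hn1 : n ≠ ⊤)
    (hU : (∃ v : HeightOneSpectrum (𝓞 K), (2 : 𝓞 K) ∈ v.asIdeal ∧ v.asIdeal ∣ n) ∨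
      UnitCond σ₂ n)
    (k : ℕ)
    (hst : ∀ m : Ideal (𝓞 K), m ≠ ⊥ → n ∣ m → k ≤ numPrimes m →
      (∀ v : HeightOneSpectrum (𝓞 K), v.asIdeal ∣ m → v.asIdeal ^ k ∣ m) → StarkTate σ₂ m) :
    ∀ m : Ideal (𝓞 K), m ≠ ⊥ → n ∣ m → StarkTate σ₂ m := by
  have hdown : ∀ j : ℕ, (∀ m : Ideal (𝓞 K), m ≠ ⊥ → n ∣ m → j + 1 ≤ numPrimes m →
      StarkTate σ₂ m) → (∀ m : Ideal (𝓞 K), m ≠ ⊥ → n ∣ m → j ≤ numPrimes m →
      StarkTate σ₂ m) := by
    intro j ih m hm hnm hj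
    rcases hj.lt_or_eq with h | h
    · exact ih m hm hnm h
    have hm1 : m ≠ ⊤ := by
      rintro rfl
      apply hn1
      exact top_le_iff.1 (Ideal.dvd_iff_le.1 hnm)
    -- Step at a modulus `m'` with the same primes
    have key : ∀ m' : Ideal (𝓞 K), m' ≠ ⊥ → m ∣ m' → m' ≠ ⊤ → numPrimes m' = j → EN σ₂ m' →
        StarkTate σ₂ m' := by
      intro m' hm' hmm' hm'1 hj' hE
      apply step h2 hσ hm' hm'1 hE
      · intro q hq
        apply ih _ (mul_ne_bot' hm' q.ne_bot) (dvd_mul_of_dvd_left (hnm.trans hmm') _)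
        rw [numPrimes_mul hm' hq, hj']
      · intro q q' hq hq' hqq'
        have h5 : ¬ q'.asIdeal ∣ m' * q.asIdeal := not_dvd_mul_prime hq' (Ne.symm hqq')
        apply ih _ (mul_ne_bot' (mul_ne_bot' hm' q.ne_bot) q'.ne_bot)
          (dvd_mul_of_dvd_left (dvd_mul_of_dvd_left (hnm.trans hmm') _) _)
        rw [numPrimes_mul (mul_ne_bot' hm' q.ne_bot) h5, numPrimes_mul hm' hq, hj']
        omega
    by_cases heven : ∃ v : HeightOneSpectrum (𝓞 K), (2 : 𝓞 K) ∈ v.asIdeal ∧ v.asIdeal ∣ m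
    · obtain ⟨p, hp2, hpm⟩ := heven
      obtain ⟨i, hi⟩ := exists_EN (σ₂ := σ₂) h2 hm hp2 hpm
      have hm' : m * p.asIdeal ^ i ≠ ⊥ := by
        rw [← Ideal.zero_eq_bot] at hm ⊢
        have hp0 : p.asIdeal ≠ 0 := by rw [Ideal.zero_eq_bot]; exact p.ne_bot
        exact mul_ne_zero hm (pow_ne_zero _ hp0)
      have hle : m * p.asIdeal ^ i ≤ m := Ideal.mul_le_left
      have h6 : StarkTate σ₂ (m * p.asIdeal ^ i) := by
        apply key _ hm' (dvd_mul_right _ _) (ne_top_of_le hle hm1) _ hi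
        rw [h]
        unfold numPrimes
        congr 1
        ext v
        exact dvd_mul_pow_iff hpm
      exact starkTate_same h2 hσ hle hm' hm hm1 (fun v hv => (dvd_mul_pow_iff hpm).1 hv) h6
    · have hU' : UnitCond σ₂ m := by
        rcases hU with ⟨v, hv1, hv2⟩ | hU
        · exact absurd ⟨v, hv1, hv2.trans hnm⟩ heven
        · exact hU.mono (Ideal.dvd_iff_le.1 hnm)
      push Not at heven
      exact key m hm dvd_rfl hm1 h.symm (EN_of_unitCond hU' heven)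
  -- start of the induction
  have hstart : ∀ m : Ideal (𝓞 K), m ≠ ⊥ → n ∣ m → k ≤ numPrimes m → StarkTate σ₂ m := by
    intro m hm hnm hk
    have hm1 : m ≠ ⊤ := by
      rintro rfl
      apply hn1
      exact top_le_iff.1 (Ideal.dvd_iff_le.1 hnm)
    rcases Nat.eq_zero_or_pos k with rfl | hkpos
    · exact hst m hm hnm hk (fun v _ => by rw [pow_zero]; exact one_dvd _)
    · have hm' : m ^ k ≠ ⊥ := by
        rw [← Ideal.zero_eq_bot] at hm ⊢
        exact pow_ne_zero _ hm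
      have hle : m ^ k ≤ m := Ideal.pow_le_self hkpos.ne'
      have hdvd : ∀ v : HeightOneSpectrum (𝓞 K), v.asIdeal ∣ m ^ k → v.asIdeal ∣ m :=
        fun v hv => v.prime.dvd_of_dvd_pow hv
      have h7 : StarkTate σ₂ (m ^ k) := by
        apply hst _ hm' (hnm.trans (dvd_pow_self _ hkpos.ne'))
        · refine hk.trans (le_of_eq ?_)
          unfold numPrimes
          congr 1
          ext v
          exact ⟨fun hv => hv.trans (dvd_pow_self _ hkpos.ne'), hdvd v⟩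
        · intro v hv
          exact pow_dvd_pow_of_dvd (hdvd v hv) k
      exact starkTate_same h2 hσ hle hm' hm hm1 hdvd h7
  have hall : ∀ j : ℕ, j ≤ k → ∀ m : Ideal (𝓞 K), m ≠ ⊥ → n ∣ m → k - j ≤ numPrimes m →
      StarkTate σ₂ m := by
    intro j
    induction j with
    | zero => intro _; simpa using hstart
    | succ j ih =>
      intro hjk
      apply hdown (k - (j + 1))
      have h8 : k - (j + 1) + 1 = k - j := by omega
      rw [h8]
      exact ih (by omega)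
  intro m hm hnm
  exact hall k le_rfl m hm hnm (by omega)

end Pool.Agent.ST
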