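import Pool.Agent.Lib.MP_1ef7cf_nt.RCF3

/-!
# Intersections of ray class fields, without the ray class field of the product modulus
-/

open NumberField IsDedekindDomain nonZeroDivisors IntermediateField

namespace Pool.Agent.ST

section grp

variable {K : Type*} [Field K] [NumberField K]

/-- The group of fractional ideals prime to `m` is generated by the primes not dividing `m`. -/
lemma eq_top_of_primes {m : Ideal (𝓞 K)} (S : Subgroup (primeTo (K := K) m))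
    (hS : ∀ (v : HeightOneSpectrum (𝓞 K)) (J : primeTo (K := K) m),
      ((J : (FI K)ˣ) : FI K) = v.asIdeal → J ∈ S) : S = ⊤ := by
  classical
  have key : ∀ I : Ideal (𝓞 K), ∀ hI : I ≠ ⊥, ∀ hc : IsCoprime I m,
      (⟨uI I hI, coe_mem_primeTo (coe_uI I hI) hc⟩ : primeTo (K := K) m) ∈ S := by
    intro I
    refine UniqueFactorizationMonoid.induction_on_prime I (fun h => absurd rfl h) ?_ ?_
    · intro U hU hU0 hc
      have h1 : U = ⊤ := Ideal.isUnit_iff.1 hU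
      subst h1
      have h2 : (⟨uI ⊤ hU0, coe_mem_primeTo (coe_uI ⊤ hU0) hc⟩ : primeTo (K := K) m) = 1 := by
        apply Subtype.ext
        apply Units.ext
        rw [coe_uI, FractionalIdeal.coeIdeal_top]
        rfl
      rw [h2]; exact S.one_mem
    · intro a p ha hp ih hpa hc
      have ha' : a ≠ ⊥ := ha
      have hp' : p ≠ ⊥ := hp.ne_zero
      have hca : IsCoprime a m := IsCoprime.of_mul_left_right hc
      have hcp : IsCoprime p m := IsCoprime.of_mul_left_left hc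
      have hpp : p.IsPrime := Ideal.isPrime_of_prime hp
      have h1 : (⟨uI (p * a) hpa, coe_mem_primeTo (coe_uI _ hpa) hc⟩ : primeTo (K := K) m) =
          ⟨uI p hp', coe_mem_primeTo (coe_uI p hp') hcp⟩ *
            ⟨uI a ha', coe_mem_primeTo (coe_uI a ha') hca⟩ := by
        apply Subtype.ext
        apply Units.ext
        change ((uI (p * a) hpa : (FI K)ˣ) : FI K) =
          ((uI p hp' : (FI K)ˣ) : FI K) * ((uI a ha' : (FI K)ˣ) : FI K)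
        rw [coe_uI, coe_uI, coe_uI, FractionalIdeal.coeIdeal_mul]
      rw [h1]
      exact S.mul_mem (hS ⟨p, hpp, hp'⟩ _ rfl) (ih ha' hca)
  rw [eq_top_iff]
  rintro ⟨J, hJ⟩ -
  obtain ⟨I₁, I₂, h1, h2, c1, c2, he⟩ := exists_integral hJ
  have h3 : (⟨J, hJ⟩ : primeTo (K := K) m) =
      ⟨uI I₁ h1, coe_mem_primeTo (coe_uI I₁ h1) c1⟩ *
        (⟨uI I₂ h2, coe_mem_primeTo (coe_uI I₂ h2) c2⟩)⁻¹ := by
    rw [eq_mul_inv_iff_mul_eq]
    apply Subtype.ext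
    apply Units.ext
    change (J : FI K) * ((uI I₂ h2 : (FI K)ˣ) : FI K) = ((uI I₁ h1 : (FI K)ˣ) : FI K)
    rw [coe_uI, coe_uI]
    exact he
  rw [h3]
  exact S.mul_mem (key I₁ h1 c1) (S.inv_mem (key I₂ h2 c2))

end grp

section

variable {K : Type*} [Field K] [NumberField K] [Algebra K ℝ] {σ₂ : K →+* ℝ}

/-- Compatibility of the Artin maps of two ray class fields on a common subfield. -/
theorem art_compat {n₀ n₁ m : Ideal (𝓞 K)} (l0 : m ≤ n₀) (l1 : m ≤ n₁)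
    {H₀ H₁ M : IntermediateField K ℝ} {Art₀ : RayClassGroup σ₂ n₀ ≃* (H₀ ≃ₐ[K] H₀)}
    {Art₁ : RayClassGroup σ₂ n₁ ≃* (H₁ ≃ₐ[K] H₁)} (h₀ : IsRayClassField σ₂ n₀ H₀ Art₀)
    (h₁ : IsRayClassField σ₂ n₁ H₁ Art₁) (hM0 : M ≤ H₀) (hM1 : M ≤ H₁) [Normal K M]
    [FiniteDimensional K M] (J : primeTo (K := K) m) :
    res hM0 (Art₀ (cls σ₂ n₀ (inc l0 J))) = res hM1 (Art₁ (cls σ₂ n₁ (inc l1 J))) := by
  have := h₀.finite
  have := h₁.finite
  have := numberField_of_fd M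
  let f0 : primeTo (K := K) m →* (M ≃ₐ[K] M) :=
    (res hM0).comp ((Art₀ : _ →* (H₀ ≃ₐ[K] H₀)).comp ((cls σ₂ n₀).comp (inc l0)))
  let f1 : primeTo (K := K) m →* (M ≃ₐ[K] M) :=
    (res hM1).comp ((Art₁ : _ →* (H₁ ≃ₐ[K] H₁)).comp ((cls σ₂ n₁).comp (inc l1)))
  have htop : MonoidHom.eqLocus f0 f1 = ⊤ := by
    apply eq_top_of_primes
    intro v J hJ
    obtain ⟨P₁, hP₁⟩ := exists_ovr (K := K) (L := M) v
    obtain ⟨P, hP1, hP2, hP3⟩ := isFrob_res' hM0 P₁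
    obtain ⟨P', hP'1, hP'2, hP'3⟩ := isFrob_res' hM1 P₁
    have g0 := h₀.isRCF.frobP P (by simp) (inc l0 J) (by rw [hP1, hP₁, coe_inc, hJ])
    have g1 := h₁.isRCF.frobP P' (by simp) (inc l1 J) (by rw [hP'1, hP₁, coe_inc, hJ])
    have := hP2 g0.1
    exact isFrob_unique (hP3 _ g0.2) (hP'3 _ g1.2)
  have h3 : J ∈ MonoidHom.eqLocus f0 f1 := by rw [htop]; exact Subgroup.mem_top J
  exact h3

/-- Intersection of ray class fields. -/
theorem inf_le' {n n₀ n₁ : Ideal (𝓞 K)} (hn : n ≠ ⊥) {q₀ q₁ : HeightOneSpectrum (𝓞 K)}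
    (hq : q₀ ≠ q₁) (hq₁ : ¬ q₁.asIdeal ∣ n)
    (hn₀ : n₀ = n * q₀.asIdeal) (hn₁ : n₁ = n * q₁.asIdeal)
    {H H₀ H₁ : IntermediateField K ℝ} {Art : RayClassGroup σ₂ n ≃* (H ≃ₐ[K] H)}
    {Art₀ : RayClassGroup σ₂ n₀ ≃* (H₀ ≃ₐ[K] H₀)}
    {Art₁ : RayClassGroup σ₂ n₁ ≃* (H₁ ≃ₐ[K] H₁)}
    (h : IsRayClassField σ₂ n H Art) (h₀ : IsRayClassField σ₂ n₀ H₀ Art₀)
    (h₁ : IsRayClassField σ₂ n₁ H₁ Art₁) :
    H₀ ⊓ H₁ ≤ H := by
  subst hn₀ hn₁
  have hne₀ : n * q₀.asIdeal ≠ ⊥ := mul_ne_bot' hn q₀.ne_bot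
  have hl : n * q₀.asIdeal ≤ n := Ideal.mul_le_left
  have l0 : n * q₀.asIdeal * q₁.asIdeal ≤ n * q₀.asIdeal := Ideal.mul_le_left
  have l1 : n * q₀.asIdeal * q₁.asIdeal ≤ n * q₁.asIdeal := by
    rw [mul_right_comm]; exact Ideal.mul_le_left
  have := h.galois
  have := h₀.galois
  have := h₁.galois
  have := h₀.finite
  have hab0 := h₀.isRCF.abelian
  have hM0 : H₀ ⊓ H₁ ≤ H₀ := inf_le_left
  have hM1 : H₀ ⊓ H₁ ≤ H₁ := inf_le_right
  have hMab : IsAbelianGalois K (H₀ ⊓ H₁ : IntermediateField K ℝ) := isAbelianGalois_of_le hM0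
  have hMfd : FiniteDimensional K (H₀ ⊓ H₁ : IntermediateField K ℝ) :=
    Module.Finite.of_injective (inclusion hM0).toLinearMap (inclusion hM0).injective
  have e : H ≤ H₀ := IsRCF.le hl hne₀ Set.finite_empty Set.finite_empty h₀.isRCF h.isRCF
  intro x hx
  apply mem_of_fixed e (hM0 hx)
  intro γ hγ
  have h3 : res e γ = 1 := (res_eq_one_iff e γ).2 hγ
  obtain ⟨A, rfl⟩ := Art₀.surjective γ
  rw [IsRCF.res_art hl hne₀ Set.finite_empty Set.finite_empty h₀.isRCF h.isRCF] at h3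
  have h4 : pr σ₂ hl A = 1 := by
    apply Art.injective
    rw [h3, map_one]
  obtain ⟨J₀, rfl⟩ := cls_surjective (σ₂ := σ₂) (n * q₀.asIdeal) A
  have hq₁' : ¬ q₁.asIdeal ∣ n * q₀.asIdeal := by
    intro hd
    rcases dvd_mul_prime hd with h5 | h5
    · exact hq₁ h5
    · exact hq h5.symm
  obtain ⟨J', hJ', hray⟩ := exists_moved (σ₂ := σ₂) hne₀ q₁ hq₁' J₀.2
  have hJ'0 : J' ∈ primeTo (K := K) (n * q₀.asIdeal) := primeTo_mono l0 hJ'
  have hcls : cls σ₂ (n * q₀.asIdeal) J₀ = cls σ₂ _ (inc l0 ⟨J', hJ'⟩) :=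
    (cls_eq_iff _ _).2 hray
  rw [hcls] at h4 ⊢
  rw [pr_cls, cls_eq_one_iff, coe_inc] at h4
  obtain ⟨J₁, hJ₁, J₂, hJ₂, hJJ, hr1, hr2⟩ := exists_split hn q₀ q₁ hq₁ hq hJ' h4
  have hcls2 : cls σ₂ (n * q₀.asIdeal) (inc l0 ⟨J', hJ'⟩) =
      cls σ₂ _ (inc l0 ⟨J₂, hJ₂⟩) := by
    have h5 : (⟨J', hJ'⟩ : primeTo (K := K) (n * q₀.asIdeal * q₁.asIdeal)) =
        ⟨J₁, hJ₁⟩ * ⟨J₂, hJ₂⟩ := Subtype.ext hJJ
    rw [h5, map_mul, map_mul, (cls_eq_one_iff (inc l0 ⟨J₁, hJ₁⟩)).2 hr1, one_mul]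
  rw [hcls2, ← act_res hM0 _ hx, art_compat l0 l1 h₀ h₁ hM0 hM1,
    (cls_eq_one_iff (inc l1 ⟨J₂, hJ₂⟩)).2 hr2, map_one, map_one, act_one_left hx]

end

end Pool.Agent.ST
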