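import Pool.Agent.Lib.MP_1ef7cf_nt.Step
import Pool.Agent.Lib.MP_1ef7cf_nt.Core4
import Pool.Agent.Lib.MP_1ef7cf_nt.Inf
import Pool.Agent.Lib.MP_1ef7cf_nt.Gen3

/-!
# Removing a prime from the modulus, with hypotheses only for a large proportion of the primes
-/

open NumberField IsDedekindDomain nonZeroDivisors IntermediateField Filter Topology

namespace Pool.Agent.ST

/-- a set of primes of upper density less than `1` is not everything -/
lemma exists_notMem_dens {K : Type*} [Field K] [NumberField K] {B : Set (PrI K)} {c : ℝ}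
    (hc : c < 1) (hB : DensLe B c) : ∃ q : PrI K, q ∉ B := by
  by_contra hcon
  push Not at hcon
  obtain ⟨C, hC⟩ := hB.tsum_le
  obtain ⟨CK, hCK⟩ := primeSum_asymp K
  have hlog : Tendsto (fun s : ℝ => -Real.log (s - 1)) (𝓝[>] 1) atTop := by
    have h1 : Tendsto (fun s : ℝ => s - 1) (𝓝[>] 1) (𝓝[>] 0) := by
      have h2 : Tendsto (fun s : ℝ => s - 1) (𝓝 1) (𝓝 0) := by
        have h3 : Continuous fun s : ℝ => s - 1 := by fun_prop
        have h4 := h3.tendsto 1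
        rwa [sub_self] at h4
      refine tendsto_nhdsWithin_iff.2 ⟨h2.mono_left nhdsWithin_le_nhds, ?_⟩
      filter_upwards [self_mem_nhdsWithin] with s hs
      have : (1 : ℝ) < s := hs
      simpa using this
    exact tendsto_neg_atBot_atTop.comp (Real.tendsto_log_nhdsGT_zero.comp h1)
  have hs2 : ∀ᶠ s in 𝓝[>] (1 : ℝ), s < 2 :=
    mem_nhdsWithin_of_mem_nhds (Iio_mem_nhds (by norm_num))
  have hev := ((hlog.eventually_gt_atTop ((C + CK) / (1 - c))).and hs2).and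
    (hCK.and self_mem_nhdsWithin)
  obtain ⟨s, ⟨hs1, hs2'⟩, hs3, hs4⟩ := hev.exists
  have hs5 : (1 : ℝ) < s := hs4
  have e4 := hC s hs5 hs2'
  have e5 : Real.log (1 / (s - 1)) = -Real.log (s - 1) := by
    rw [one_div, Real.log_inv]
  have e6 : ∑' q, B.indicator (px s) q = primeSum K s := by
    unfold primeSum
    apply tsum_congr
    intro q
    exact Set.indicator_of_mem (hcon q) _
  rw [e5, e6] at e4
  rw [abs_le] at hs3
  rw [div_lt_iff₀ (by linarith)] at hs1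
  nlinarith [hs3.1]

variable {K : Type*} [Field K] [NumberField K] [Algebra K ℝ] {σ₂ : K →+* ℝ}

/-- **Removing a prime from the modulus**, with hypotheses for a large proportion of primes. -/
theorem step' (h2 : Module.finrank ℚ K = 2) (hσ : σ₂ ≠ sg1 K) {n : Ideal (𝓞 K)} (hn : n ≠ ⊥)
    (hn1 : n ≠ ⊤) (hE : EN σ₂ n) {c₁ : ℝ} (hc₁ : c₁ < 1 / 4)
    (hst1 : DensLe {q : HeightOneSpectrum (𝓞 K) | ¬ q.asIdeal ∣ n ∧
      ¬ StarkTate σ₂ (n * q.asIdeal)} c₁)
    (hst2 : ∀ q : HeightOneSpectrum (𝓞 K), ¬ q.asIdeal ∣ n → StarkTate σ₂ (n * q.asIdeal) →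
      ∃ c₂ : ℝ, c₁ + c₂ < 1 / 4 ∧
        DensLe {q' : HeightOneSpectrum (𝓞 K) | ¬ q'.asIdeal ∣ n * q.asIdeal ∧
          ¬ StarkTate σ₂ (n * q.asIdeal * q'.asIdeal)} c₂) : StarkTate σ₂ n := by
  classical
  set A₀ : Set (HeightOneSpectrum (𝓞 K)) := {q | ¬ q.asIdeal ∣ n ∧
      ¬ StarkTate σ₂ (n * q.asIdeal)} with hA₀
  -- the ray class field
  obtain ⟨q₀, hq₀'⟩ := exists_notMem_dens (by linarith) (hst1.union_finite (finite_dvd hn))
  have hq₀ : ¬ q₀.asIdeal ∣ n := fun h => hq₀' (Or.inr h)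
  have hs₀ : StarkTate σ₂ (n * q₀.asIdeal) := by
    by_contra h
    exact hq₀' (Or.inl ⟨hq₀, h⟩)
  obtain ⟨q₁, hq₁'⟩ := exists_notMem_dens (by linarith)
    ((hst1.union_finite (finite_dvd hn)).union_finite (Set.finite_singleton q₀))
  have hq₁ : ¬ q₁.asIdeal ∣ n := fun h => hq₁' (Or.inl (Or.inr h))
  have hs₁ : StarkTate σ₂ (n * q₁.asIdeal) := by
    by_contra h
    exact hq₁' (Or.inl (Or.inl ⟨hq₁, h⟩))
  have hq₁₀ : q₀ ≠ q₁ := fun h => hq₁' (Or.inr h.symm)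
  obtain ⟨_, _, _, d₀⟩ := hs₀.data
  obtain ⟨_, _, _, d₁⟩ := hs₁.data
  obtain ⟨H, Art, hr⟩ := exists_rcf hn hq₁₀ hq₀ hq₁ rfl rfl d₀.rcf d₁.rcf
  have hfdH := hr.finite
  have habH := hr.isRCF.abelian
  obtain ⟨η, hη, hη1, hη2⟩ := exists_gen σ₂ h2 hn
  -- data for the good primes
  let ι := {q : HeightOneSpectrum (𝓞 K) // Good n η q ∧ StarkTate σ₂ (n * q.asIdeal)}
  choose F Art1 u hd using fun i : ι => (i.2.2).data
  have hne : ∀ i : ι, n * i.1.asIdeal ≠ ⊥ := fun i => mul_ne_bot' hn i.1.ne_bot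
  have hle : ∀ i : ι, n * i.1.asIdeal ≤ n := fun i => Ideal.mul_le_left
  have hfd : ∀ i, FiniteDimensional K (F i) := fun i => (hd i).rcf.finite
  have hab : ∀ i, IsAbelianGalois K (F i) := fun i => (hd i).rcf.isRCF.abelian
  have hF : ∀ i, H ≤ F i := fun i => IsRCF.le (hle i) (hne i) Set.finite_empty Set.finite_empty
    (hd i).rcf.isRCF hr.isRCF
  let φ : ι → (H ≃ₐ[K] H) := fun i => Art (cls σ₂ n (prJ n i.1 i.2.1.1))
  let e : (H ≃ₐ[K] H) → ℝ := fun σ => Real.exp (-2 * zd σ₂ n (Art.symm σ))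
  have epos : ∀ σ, 0 < e σ := fun σ => Real.exp_pos _
  let _ : Fintype (RayClassGroup σ₂ n) := Fintype.ofEquiv _ Art.symm.toEquiv
  have eprod : ∏ σ, e σ = 1 := by
    rw [← Real.exp_sum, ← Finset.mul_sum]
    have h3 : ∑ σ, zd σ₂ n (Art.symm σ) = ∑ A, zd σ₂ n A :=
      Equiv.sum_comp Art.symm.toEquiv _
    rw [h3, sum_zd h2 hσ hn hn1, mul_zero, Real.exp_zero]
  have heven : ∀ i, Even (fib (hF i) (1 : H ≃ₐ[K] H)).card := by
    intro i
    refine even_fib hn i.2.1.1 rfl i.2.1.2.1 ?_ hr (hd i).rcf (hF i)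
    intro w hw1 hw2
    obtain ⟨k, rfl⟩ := hη2 w ⟨hw1, hw2⟩
    exact isSquare_zpow_mod i.2.1.2.2 k
  have hnorm : ∀ i σ, fibProd (hF i) (u i) σ = e σ / e (σ * (φ i)⁻¹) := by
    intro i σ
    obtain ⟨A, rfl⟩ := Art.surjective σ
    rw [fibProd_prime h2 hσ hn hn1 rfl hr (hd i).rcf (hF i) A (hd i).act (coe_prJ n i.1 i.2.1.1)]
    have h3 : Art.symm (Art A * (φ i)⁻¹) = A * (cls σ₂ n (prJ n i.1 i.2.1.1))⁻¹ := by
      rw [MulEquiv.symm_apply_eq, map_mul, map_inv]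
    simp only [e]
    rw [h3, MulEquiv.symm_apply_apply]
  have hinf : ∀ i j, i ≠ j → F i ⊓ F j ≤ H := by
    intro i j hij
    have hij' : i.1 ≠ j.1 := fun h => hij (Subtype.ext h)
    exact inf_le' hn hij' j.2.1.1 rfl rfl hr (hd i).rcf (hd j).rcf
  have hEη : ∀ y : ℝ, y ∈ H → y ^ 2 = algebraMap K ℝ ((η : 𝓞 K) : K) →
      ∃ a : K, algebraMap K ℝ a = y := fun y hy hy2 => hE H Art hr η hη y hy hy2
  have hgn : Subgroup.closure {σ | ∃ i j, i ≠ j ∧ φ i = σ ∧ φ j = σ} = ⊤ := by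
    set S : Set (H ≃ₐ[K] H) := {σ | ∃ i j, i ≠ j ∧ φ i = σ ∧ φ j = σ} with hS
    by_contra hne
    set B₁ : Set (HeightOneSpectrum (𝓞 K)) := Subtype.val '' {i | φ i ∉ S} with hB₁
    have hB₁fin : B₁.Finite := by
      apply Set.Finite.image
      apply Set.Finite.of_finite_image (f := φ) (Set.toFinite _)
      intro i hi j hj hij
      by_contra hne
      exact hi ⟨i, j, hne, rfl, hij.symm⟩
    obtain ⟨q, hq, hqB, hqT⟩ := exists_good hn η hr hEη _ hne _ hc₁ (hst1.union_finite hB₁fin)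
    have hsq : StarkTate σ₂ (n * q.asIdeal) := by
      by_contra h
      exact hqB (Or.inl ⟨hq.1, h⟩)
    let i₀ : ι := ⟨q, hq, hsq⟩
    have hi₀ : φ i₀ ∉ S := fun h => hqT (Subgroup.subset_closure h)
    exact hqB (Or.inr ⟨i₀, hi₀, rfl⟩)
  let R : ι → ι → Prop := fun i j => i ≠ j ∧ StarkTate σ₂ (n * i.1.asIdeal * j.1.asIdeal)
  have hgenR : ∀ i, Subgroup.closure {σ | ∃ j, R i j ∧ φ j = σ} = ⊤ := by
    intro i
    by_contra hne
    obtain ⟨c₂, hc₂, hd₂⟩ := hst2 i.1 i.2.1.1 i.2.2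
    have hdens := (hst1.union hd₂).union_finite (Set.finite_singleton i.1)
    obtain ⟨q, hq, hqB, hqT⟩ := exists_good hn η hr hEη _ hne _ hc₂ hdens
    have hsq : StarkTate σ₂ (n * q.asIdeal) := by
      by_contra h
      exact hqB (Or.inl (Or.inl ⟨hq.1, h⟩))
    have hne' : q ≠ i.1 := fun h => hqB (Or.inr h)
    have hsq2 : StarkTate σ₂ (n * i.1.asIdeal * q.asIdeal) := by
      by_contra h
      exact hqB (Or.inl (Or.inr ⟨not_dvd_mul_prime hq.1 hne', h⟩))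
    let j₀ : ι := ⟨q, hq, hsq⟩
    have hR : R i j₀ := ⟨fun h => hne' (congrArg Subtype.val h).symm, hsq2⟩
    exact hqT (Subgroup.subset_closure ⟨j₀, hR, rfl⟩)
  -- the data for pairs
  have hpair : ∀ i j, R i j → ∃ U : ℝ, U ∈ (F i ⊔ F j : IntermediateField K ℝ) ∧ 0 ≤ U ∧
      IsAbelianGalois K (sqrtExt (F i ⊔ F j) U) ∧
      (∃ Φj : F i ≃ₐ[K] F i, res (hF i) Φj = φ j ∧
        fibProd (le_sup_left : F i ≤ F i ⊔ F j) U 1 = u i / act Φj⁻¹ (u i)) ∧
      (∃ Φi : F j ≃ₐ[K] F j, res (hF j) Φi = φ i ∧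
        fibProd (le_sup_right : F j ≤ F i ⊔ F j) U 1 = u j / act Φi⁻¹ (u j)) := by
    rintro i j ⟨hij, hsij⟩
    have hij' : i.1 ≠ j.1 := fun h => hij (Subtype.ext h)
    obtain ⟨M, ArtM, w, dM⟩ := hsij.data
    have hneM : n * i.1.asIdeal * j.1.asIdeal ≠ ⊥ := mul_ne_bot' (hne i) j.1.ne_bot
    have hMi : n * i.1.asIdeal * j.1.asIdeal ≤ n * i.1.asIdeal := Ideal.mul_le_left
    have hMj : n * i.1.asIdeal * j.1.asIdeal ≤ n * j.1.asIdeal := by
      rw [mul_right_comm]; exact Ideal.mul_le_left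
    have hFiM : F i ≤ M := IsRCF.le hMi hneM Set.finite_empty Set.finite_empty dM.rcf.isRCF
      (hd i).rcf.isRCF
    have hFjM : F j ≤ M := IsRCF.le hMj hneM Set.finite_empty Set.finite_empty dM.rcf.isRCF
      (hd j).rcf.isRCF
    have hsup : F i ⊔ F j ≤ M := sup_le hFiM hFjM
    have hMfd := dM.rcf.finite
    have hMab := dM.rcf.isRCF.abelian
    have hsab : IsAbelianGalois K (F i ⊔ F j : IntermediateField K ℝ) := isAbelianGalois_sup
    have hMsq := dM.stark.ab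
    have hUst := dM.stark.fibProd hsup
    have hti : n * i.1.asIdeal ≠ ⊤ := ne_top_of_le (hle i) hn1
    have htj : n * j.1.asIdeal ≠ ⊤ := ne_top_of_le (hle j) hn1
    have ndj : ¬ j.1.asIdeal ∣ n * i.1.asIdeal := not_dvd_mul_prime j.2.1.1 (Ne.symm hij')
    have ndi : ¬ i.1.asIdeal ∣ n * j.1.asIdeal := not_dvd_mul_prime i.2.1.1 hij'
    refine ⟨fibProd hsup w 1, hUst.mem, hUst.pos'.le, hUst.ab, ?_, ?_⟩
    · refine ⟨Art1 i (cls σ₂ _ (prJ _ j.1 ndj)), ?_, ?_⟩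
      · rw [IsRCF.res_art (hle i) (hne i) Set.finite_empty Set.finite_empty (hd i).rcf.isRCF
          hr.isRCF]
        rfl
      · rw [fibProd_trans le_sup_left hsup dM.stark.mem]
        have h3 := fibProd_prime h2 hσ (hne i) hti rfl (hd i).rcf dM.rcf hFiM 1 dM.act
          (coe_prJ _ j.1 ndj)
        rw [map_one] at h3
        rw [h3, ← map_inv (Art1 i), (hd i).act, one_mul]
        congr 1
        have h4 := (hd i).act 1
        rw [map_one, act_one_left (hd i).stark.mem] at h4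
        exact h4.symm
    · refine ⟨Art1 j (cls σ₂ _ (prJ _ i.1 ndi)), ?_, ?_⟩
      · rw [IsRCF.res_art (hle j) (hne j) Set.finite_empty Set.finite_empty (hd j).rcf.isRCF
          hr.isRCF]
        rfl
      · rw [fibProd_trans le_sup_right hsup dM.stark.mem]
        have h3 := fibProd_prime h2 hσ (hne j) htj (mul_right_comm _ _ _) (hd j).rcf dM.rcf hFjM 1
          dM.act (coe_prJ _ i.1 ndi)
        rw [map_one] at h3
        rw [h3, ← map_inv (Art1 j), (hd j).act, one_mul]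
        congr 1
        have h4 := (hd j).act 1
        rw [map_one, act_one_left (hd j).stark.mem] at h4
        exact h4.symm
  obtain ⟨hs, hact⟩ := core' σ₂ e epos eprod φ F hF u (fun i => (hd i).stark) heven hnorm hinf hgn
    R (fun i j h => h.1) hgenR hpair
  have hdn : STData σ₂ n H Art (e 1) := by
    refine ⟨hr, hs, fun A => ?_⟩
    rw [hact]
    simp only [e]
    rw [MulEquiv.symm_apply_apply]
  exact hdn.starkTate h2 hσ hn hn1

end Pool.Agent.ST
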