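import Pool.Agent.Lib.MP_1ef7cf_nt.Final
import Pool.Agent.Lib.MP_1ef7cf_nt.Step2

/-!
# The Stark-Tate conjecture for a large proportion of the primes
-/

open NumberField IsDedekindDomain nonZeroDivisors IntermediateField

namespace Pool.Agent.ST

variable {K : Type*} [Field K] [NumberField K] [Algebra K ℝ] {σ₂ : K →+* ℝ}

/-- **Main theorem**, density version. -/
theorem main2 (h2 : Module.finrank ℚ K = 2) (hσ : σ₂ ≠ sg1 K) {n : Ideal (𝓞 K)} (hn1 : n ≠ ⊤)
    (hU : (∃ v : HeightOneSpectrum (𝓞 K), (2 : 𝓞 K) ∈ v.asIdeal ∧ v.asIdeal ∣ n) ∨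
      UnitCond σ₂ n)
    (k : ℕ)
    (hst : ∀ m : Ideal (𝓞 K), m ≠ ⊥ → n ∣ m → k ≤ numPrimes m →
      (∀ v : HeightOneSpectrum (𝓞 K), v.asIdeal ∣ m → v.asIdeal ^ k ∣ m) →
      ∃ c : ℝ, c < 1 / 8 ∧ DensLe {q : HeightOneSpectrum (𝓞 K) | ¬ q.asIdeal ∣ m ∧
        ¬ StarkTate σ₂ (m * q.asIdeal ^ k)} c) :
    ∀ m : Ideal (𝓞 K), m ≠ ⊥ → n ∣ m → StarkTate σ₂ m := by
  apply main h2 hσ hn1 hU k
  intro m hm hnm hk hmv
  have hm1 : m ≠ ⊤ := by
    rintro rfl
    apply hn1
    exact top_le_iff.1 (Ideal.dvd_iff_le.1 hnm)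
  rcases Nat.eq_zero_or_pos k with rfl | hkpos
  · -- the trivial case
    by_contra hcon
    obtain ⟨c, hc, hd⟩ := hst m hm hnm hk hmv
    obtain ⟨q, hq⟩ := exists_notMem_dens (by linarith) (hd.union_finite (finite_dvd hm))
    apply hq
    by_cases hqm : q.asIdeal ∣ m
    · exact Or.inr hqm
    · refine Or.inl ⟨hqm, ?_⟩
      rw [pow_zero, mul_one]; exact hcon
  -- the key step at a modulus with the same prime divisors
  have hpowne : ∀ q : HeightOneSpectrum (𝓞 K), q.asIdeal ^ k ≠ ⊥ := by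
    intro q
    have hq0 : q.asIdeal ≠ 0 := by rw [Ideal.zero_eq_bot]; exact q.ne_bot
    rw [← Ideal.zero_eq_bot]
    exact pow_ne_zero _ hq0
  have key : ∀ m' : Ideal (𝓞 K), m' ≠ ⊥ → n ∣ m' → m' ≠ ⊤ → k ≤ numPrimes m' →
      (∀ v : HeightOneSpectrum (𝓞 K), v.asIdeal ∣ m' → v.asIdeal ^ k ∣ m') → EN σ₂ m' →
      StarkTate σ₂ m' := by
    intro m' hm' hnm' hm'1 hk' hv' hE
    obtain ⟨c₁, hc₁, hd₁⟩ := hst m' hm' hnm' hk' hv'
    apply step' h2 hσ hm' hm'1 hE (c₁ := c₁) (by linarith)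
    · apply hd₁.mono
      rintro q ⟨hq1, hq2⟩
      refine ⟨hq1, fun hs => hq2 ?_⟩
      have hle : m' * q.asIdeal ^ k ≤ m' * q.asIdeal :=
        Ideal.mul_mono_right (Ideal.pow_le_self hkpos.ne')
      apply starkTate_same h2 hσ hle (mul_ne_bot' hm' (hpowne q)) (mul_ne_bot' hm' q.ne_bot)
        (ne_top_of_le Ideal.mul_le_left hm'1) _ hs
      intro v hv
      rcases v.prime.dvd_or_dvd hv with h | h
      · exact dvd_mul_of_dvd_left h _
      · exact dvd_mul_of_dvd_right (v.prime.dvd_of_dvd_pow h) _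
    · intro q hq _
      have hmq : m' * q.asIdeal ^ k ≠ ⊥ := mul_ne_bot' hm' (hpowne q)
      have hdv : ∀ v : HeightOneSpectrum (𝓞 K), v.asIdeal ∣ m' * q.asIdeal ^ k →
          v.asIdeal ∣ m' ∨ v = q := by
        intro v hv
        rcases v.prime.dvd_or_dvd hv with h | h
        · exact Or.inl h
        · exact Or.inr (eq_of_dvd_prime (v.prime.dvd_of_dvd_pow h))
      obtain ⟨c₂, hc₂, hd₂⟩ := hst (m' * q.asIdeal ^ k) hmq (dvd_mul_of_dvd_left hnm' _)
        (by
          refine hk'.trans ?_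
          unfold numPrimes
          apply Set.ncard_le_ncard
          · intro v hv
            exact dvd_mul_of_dvd_left hv _
          · exact finite_dvd hmq)
        (by
          intro v hv
          rcases hdv v hv with h | h
          · exact dvd_mul_of_dvd_left (hv' v h) _
          · rw [h]; exact dvd_mul_left _ _)
      refine ⟨c₂, by linarith, hd₂.mono ?_⟩
      rintro q' ⟨hq1, hq2⟩
      refine ⟨fun hd => hq1 ?_, fun hs => hq2 ?_⟩
      · rcases hdv q' hd with h | h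
        · exact dvd_mul_of_dvd_left h _
        · rw [h]; exact dvd_mul_left _ _
      · have hle : m' * q.asIdeal ^ k * q'.asIdeal ^ k ≤ m' * q.asIdeal * q'.asIdeal := by
          apply Ideal.mul_mono _ (Ideal.pow_le_self hkpos.ne')
          exact Ideal.mul_mono_right (Ideal.pow_le_self hkpos.ne')
        apply starkTate_same h2 hσ hle (mul_ne_bot' hmq (hpowne q'))
          (mul_ne_bot' (mul_ne_bot' hm' q.ne_bot) q'.ne_bot)
          (ne_top_of_le Ideal.mul_le_left (ne_top_of_le Ideal.mul_le_left hm'1)) _ hs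
        intro v hv
        rcases v.prime.dvd_or_dvd hv with h | h
        · rcases hdv v h with h | h
          · exact dvd_mul_of_dvd_left (dvd_mul_of_dvd_left h _) _
          · rw [h]; exact dvd_mul_of_dvd_left (dvd_mul_left _ _) _
        · exact dvd_mul_of_dvd_right (v.prime.dvd_of_dvd_pow h) _
  by_cases heven : ∃ v : HeightOneSpectrum (𝓞 K), (2 : 𝓞 K) ∈ v.asIdeal ∧ v.asIdeal ∣ m
  · obtain ⟨p, hp2, hpm⟩ := heven
    obtain ⟨i, hi⟩ := exists_EN (σ₂ := σ₂) h2 hm hp2 hpm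
    have hm' : m * p.asIdeal ^ i ≠ ⊥ := by
      rw [← Ideal.zero_eq_bot] at hm ⊢
      have hp0 : p.asIdeal ≠ 0 := by rw [Ideal.zero_eq_bot]; exact p.ne_bot
      exact mul_ne_zero hm (pow_ne_zero _ hp0)
    have hle : m * p.asIdeal ^ i ≤ m := Ideal.mul_le_left
    have h6 : StarkTate σ₂ (m * p.asIdeal ^ i) := by
      apply key _ hm' (hnm.trans (dvd_mul_right _ _)) (ne_top_of_le hle hm1) _ _ hi
      · refine hk.trans (le_of_eq ?_)
        unfold numPrimes
        congr 1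
        ext v
        exact (dvd_mul_pow_iff hpm).symm
      · intro v hv
        exact dvd_mul_of_dvd_left (hmv v ((dvd_mul_pow_iff hpm).1 hv)) _
    exact starkTate_same h2 hσ hle hm' hm hm1 (fun v hv => (dvd_mul_pow_iff hpm).1 hv) h6
  · have hU' : UnitCond σ₂ m := by
      rcases hU with ⟨v, hv1, hv2⟩ | hU
      · exact absurd ⟨v, hv1, hv2.trans hnm⟩ heven
      · exact hU.mono (Ideal.dvd_iff_le.1 hnm)
    push Not at heven
    exact key m hm hnm hm1 hk hmv (EN_of_unitCond hU' heven)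

end Pool.Agent.ST
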