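import Pool.Agent.Lib.MP_1ef7cf_nt.PrimeSum

/-!
Primes of a number field over primes of a subfield, and Frobenius elements.
-/

set_option linter.style.haveILetI false

open NumberField Filter Topology Ideal nonZeroDivisors IsDedekindDomain

namespace Pool.Agent.ST

section ovr

variable (K : Type*) {E : Type*} [Field K] [NumberField K] [Field E] [NumberField E] [Algebra K E]

/-- the prime below -/
noncomputable abbrev und (P : PrI E) : PrI K := HeightOneSpectrum.under (𝓞 K) P

lemma pn_eq_pow (P : PrI E) : pn P = pn (und K P) ^ (P.asIdeal.inertiaDeg (𝓞 K)) := by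
  haveI : P.asIdeal.LiesOver (und K P).asIdeal := ⟨rfl⟩
  haveI : (und K P).asIdeal.IsMaximal := (und K P).isMaximal
  haveI : P.asIdeal.IsMaximal := P.isMaximal
  unfold pn
  rw [absNorm_eq_pow_inertiaDeg'_of_liesOver P.asIdeal (und K P).asIdeal (und K P).isPrime
    (und K P).ne_bot, inertiaDeg'_eq_inertiaDeg]

lemma inertiaDeg_pos' (P : PrI E) : 0 < P.asIdeal.inertiaDeg (𝓞 K) :=
  Ideal.inertiaDeg_pos _ _

lemma pn_und_le (P : PrI E) : pn (und K P) ≤ pn P := by
  rw [pn_eq_pow K P]
  exact Nat.le_self_pow (inertiaDeg_pos' K P).ne' _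

lemma pn_sq_le {P : PrI E} (h : pn P ≠ pn (und K P)) : pn (und K P) ^ 2 ≤ pn P := by
  have h1 := pn_eq_pow K P
  have h2 := inertiaDeg_pos' K P
  have h3 := two_le_pn (und K P)
  have h4 : P.asIdeal.inertiaDeg (𝓞 K) ≠ 1 := by
    intro h5
    rw [h5, pow_one] at h1
    exact h h1
  rw [h1]
  exact Nat.pow_le_pow_right (by omega) (by omega)

lemma inertiaDeg_eq_one {P : PrI E} (h : pn P = pn (und K P)) :
    P.asIdeal.inertiaDeg (𝓞 K) = 1 := by
  have h1 := pn_eq_pow K P
  have h3 := two_le_pn (und K P)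
  have h4 : pn (und K P) ^ (P.asIdeal.inertiaDeg (𝓞 K)) = pn (und K P) ^ 1 := by
    rw [← h1, pow_one, h]
  exact Nat.pow_right_injective h3 h4

/-- the primes over `p` -/
def ovr (p : PrI K) : Set (PrI E) := {P | und K P = p}

omit [NumberField K] [NumberField E] in
lemma image_ovr (p : PrI K) :
    HeightOneSpectrum.asIdeal '' (ovr K (E := E) p) = p.asIdeal.primesOver (𝓞 E) := by
  ext Q
  constructor
  · rintro ⟨P, hP, rfl⟩
    refine ⟨P.isPrime, ⟨?_⟩⟩
    have : und K P = p := hP
    rw [← this]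
    rfl
  · rintro ⟨h1, h2⟩
    have h3 : Q ≠ ⊥ := by
      rintro rfl
      apply p.ne_bot
      rw [h2.over, Ideal.under, Ideal.comap_bot_of_injective]
      exact FaithfulSMul.algebraMap_injective _ _
    refine ⟨⟨Q, h1, h3⟩, ?_, rfl⟩
    apply HeightOneSpectrum.ext
    exact h2.over.symm

lemma finite_ovr (p : PrI K) : (ovr K (E := E) p).Finite := by
  have h : (p.asIdeal.primesOver (𝓞 E)).Finite := by
    haveI := p.isMaximal
    exact IsDedekindDomain.primesOver_finite p.asIdeal (𝓞 E)
  rw [← image_ovr] at h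
  exact h.of_finite_image (fun P _ Q _ h => HeightOneSpectrum.ext h)

omit [NumberField K] [NumberField E] in
lemma ncard_ovr (p : PrI K) :
    (ovr K (E := E) p).ncard = (p.asIdeal.primesOver (𝓞 E)).ncard := by
  rw [← image_ovr, Set.ncard_image_of_injective _ (fun P Q h => HeightOneSpectrum.ext h)]

variable [IsGalois K E]

lemma ncard_ovr_mul (P : PrI E) :
    (ovr K (E := E) (und K P)).ncard *
      (P.asIdeal.ramificationIdx (𝓞 K) * P.asIdeal.inertiaDeg (𝓞 K)) = Module.finrank K E := by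
  haveI : P.asIdeal.LiesOver (und K P).asIdeal := ⟨rfl⟩
  rw [ncard_ovr, ← ramificationIdxIn_eq_ramificationIdx (und K P).asIdeal P.asIdeal (E ≃ₐ[K] E),
    ← inertiaDegIn_eq_inertiaDeg (und K P).asIdeal P.asIdeal (E ≃ₐ[K] E),
    ncard_primesOver_mul_ramificationIdxIn_mul_inertiaDegIn (und K P).asIdeal (𝓞 E) (E ≃ₐ[K] E)]
  exact IsGalois.card_aut_eq_finrank K E

lemma ncard_ovr_le (p : PrI K) : (ovr K (E := E) p).ncard ≤ Module.finrank K E := by
  by_cases h : (ovr K (E := E) p).Nonempty
  · obtain ⟨P, hP⟩ := h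
    have h1 := ncard_ovr_mul K P
    have h2 : und K P = p := hP
    rw [h2] at h1
    have h3 : 0 < P.asIdeal.ramificationIdx (𝓞 K) := Ideal.ramificationIdx_pos _ _
    have h4 := inertiaDeg_pos' K P
    rw [← h1]
    exact Nat.le_mul_of_pos_right _ (Nat.mul_pos h3 h4)
  · rw [Set.not_nonempty_iff_eq_empty] at h
    rw [h]; simp

lemma pn_eq_of_und_eq {P Q : PrI E} (h : und K P = und K Q) : pn P = pn Q := by
  haveI : P.asIdeal.LiesOver (und K P).asIdeal := ⟨rfl⟩
  haveI : Q.asIdeal.LiesOver (und K P).asIdeal := ⟨by rw [h]; rfl⟩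
  rw [pn_eq_pow K P, pn_eq_pow K Q, h,
    inertiaDeg_eq_of_isGaloisGroup (und K P).asIdeal P.asIdeal Q.asIdeal (E ≃ₐ[K] E)]

lemma ncard_ovr_eq {P : PrI E} (h : pn P = pn (und K P)) [Algebra.IsUnramifiedAt (𝓞 K) P.asIdeal] :
    (ovr K (E := E) (und K P)).ncard = Module.finrank K E := by
  have h1 := ncard_ovr_mul K P
  rwa [inertiaDeg_eq_one K h, Ideal.ramificationIdx_eq_one_of_isUnramifiedAt, mul_one, mul_one] at h1

end ovr

section sums

variable (K : Type*) {E : Type*} [Field K] [NumberField K] [Field E] [NumberField E] [Algebra K E]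
  [IsGalois K E]

lemma sum_und_le (g : PrI K → ℝ) (hg : ∀ p, 0 ≤ g p) (hs : Summable g) (A : Finset (PrI E)) :
    ∑ P ∈ A, g (und K P) ≤ Module.finrank K E * ∑' p, g p := by
  classical
  rw [Finset.sum_comp g (und K)]
  have h1 : ∀ p ∈ A.image (und K), (A.filter fun P => und K P = p).card • g p ≤
      Module.finrank K E * g p := by
    intro p _
    rw [nsmul_eq_mul]
    apply mul_le_mul_of_nonneg_right _ (hg p)
    have h2 : (A.filter fun P => und K P = p).card ≤ (ovr K (E := E) p).ncard := by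
      rw [← Set.ncard_coe_finset]
      apply Set.ncard_le_ncard _ (finite_ovr K p)
      intro P hP
      simp only [Finset.coe_filter, Set.mem_ofPred_eq] at hP
      exact hP.2
    exact_mod_cast h2.trans (ncard_ovr_le K p)
  refine (Finset.sum_le_sum h1).trans ?_
  rw [← Finset.mul_sum]
  apply mul_le_mul_of_nonneg_left _ (Nat.cast_nonneg _)
  exact hs.sum_le_tsum _ fun p _ => hg p

lemma primeSum_le_of (g : PrI K → ℝ) (hg : ∀ p, 0 ≤ g p) (hs : Summable g) {s : ℝ}
    (h : ∀ P : PrI E, px s P ≤ g (und K P)) :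
    primeSum E s ≤ Module.finrank K E * ∑' p, g p := by
  have hs' : ∀ A : Finset (PrI E), ∑ P ∈ A, px s P ≤ Module.finrank K E * ∑' p, g p := by
    intro A
    exact (Finset.sum_le_sum fun P _ => h P).trans (sum_und_le K g hg hs A)
  unfold primeSum
  by_cases hsum : Summable (fun P : PrI E => px s P)
  · exact hsum.tsum_le_of_sum_le hs'
  · rw [tsum_eq_zero_of_not_summable hsum]
    have := hs' ∅
    simpa using this

omit [IsGalois K E] in
lemma le_primeSum_of {s : ℝ} (hs : 1 < s) (T : Set (PrI K))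
    (hT : ∀ p ∈ T, (ovr K (E := E) p).ncard = Module.finrank K E ∧
      ∀ P : PrI E, und K P = p → pn P = pn p) :
    Module.finrank K E * ∑' p, T.indicator (px s) p ≤ primeSum E s := by
  classical
  rw [← tsum_mul_left]
  have hsum : Summable (T.indicator (px s) : PrI K → ℝ) := (summable_px hs).indicator T
  apply (hsum.mul_left _).tsum_le_of_sum_le
  intro A
  have h1 : ∑ p ∈ A, (Module.finrank K E : ℝ) * T.indicator (px s) p =
      ∑ p ∈ A.filter (· ∈ T), (Module.finrank K E : ℝ) * px s p := by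
    rw [Finset.sum_filter]
    apply Finset.sum_congr rfl
    intro p _
    by_cases h : p ∈ T
    · rw [Set.indicator_of_mem h, if_pos h]
    · rw [Set.indicator_of_notMem h, if_neg h, mul_zero]
  rw [h1]
  have h2 : ∀ p ∈ A.filter (· ∈ T), (Module.finrank K E : ℝ) * px s p =
      ∑ P ∈ (finite_ovr K (E := E) p).toFinset, px s P := by
    intro p hp
    rw [Finset.mem_filter] at hp
    obtain ⟨h3, h4⟩ := hT p hp.2
    have h5 : ∀ P ∈ (finite_ovr K (E := E) p).toFinset, px s P = px s p := by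
      intro P hP
      rw [Set.Finite.mem_toFinset] at hP
      rw [px, px, h4 P hP]
    rw [Finset.sum_congr rfl h5, Finset.sum_const, nsmul_eq_mul, ← h3,
      Set.ncard_eq_toFinset_card _ (finite_ovr K (E := E) p)]
  rw [Finset.sum_congr rfl h2, ← Finset.sum_biUnion]
  · exact (summable_px hs).sum_le_tsum _ fun P _ => (px_pos s P).le
  · intro p _ q _ hpq
    rw [Function.onFun, Finset.disjoint_left]
    intro P hP hQ
    rw [Set.Finite.mem_toFinset] at hP hQ
    exact hpq (hP.symm.trans hQ)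

end sums

end Pool.Agent.ST
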