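import Pool.Agent.Lib.MP_1ef7cf_nt.Frob2
import Pool.Agent.Lib.MP_1ef7cf_nt.Abelian

/-!
# Frobenius elements generate, and subfields of `ℝ`
-/

open NumberField IsDedekindDomain nonZeroDivisors IntermediateField

namespace Pool.Agent.ST

section gen

variable {K L : Type*} [Field K] [NumberField K] [Field L] [NumberField L] [Algebra K L]
  [IsGalois K L]

/-- Frobenius elements outside of a finite set generate the Galois group (abelian case). -/
theorem frob_gen (hcomm : ∀ σ τ : L ≃ₐ[K] L, σ * τ = τ * σ) (T : Subgroup (L ≃ₐ[K] L))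
    (B : Set (PrI K)) (hB : B.Finite)
    (hT : ∀ P : PrI L, und K P ∉ B → Algebra.IsUnramifiedAt (𝓞 K) P.asIdeal →
      ∀ σ : L ≃ₐ[K] L, IsFrob K P σ → σ ∈ T) : T = ⊤ := by
  by_contra hne
  set F : IntermediateField K L := IntermediateField.fixedField T with hF
  have hTn : T.Normal := ⟨fun n hn g => by rwa [hcomm g n, mul_inv_cancel_right]⟩
  have hfix : IntermediateField.fixingSubgroup F = T :=
    IntermediateField.fixingSubgroup_fixedField T
  have hFG : IsGalois K F := by
    have : (IntermediateField.fixingSubgroup F).Normal := by rw [hfix]; exact hTn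
    exact IsGalois.of_fixedField_normal_subgroup T
  have hne2 : (⊥ : IntermediateField K F) ≠ ⊤ := by
    intro h
    apply hne
    have h1 : Module.finrank K F = 1 := by
      rw [← IntermediateField.finrank_top', ← h, IntermediateField.finrank_bot]
    have h2 : F = ⊥ := IntermediateField.finrank_eq_one_iff.1 h1
    rw [← hfix, h2, IntermediateField.fixingSubgroup_bot]
  set R : Set (PrI L) := {P : PrI L | ¬ Algebra.IsUnramifiedAt (𝓞 K) P.asIdeal} with hR
  have hB' : (B ∪ und K '' R).Finite := hB.union ((finite_ramified K).image _)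
  obtain ⟨P₁, hP₁, hu₁, σ₁, hσ₁, -, hσ₁'⟩ := exists_frob (K := K) (L := F) ⊥ hne2 _ hB'
  obtain ⟨P, hP⟩ := exists_ovr (K := F) (L := L) P₁
  have hPK : und K P = und K P₁ := by rw [← hP, und_und]
  have hun : Algebra.IsUnramifiedAt (𝓞 K) P.asIdeal := by
    by_contra hn
    exact hP₁ (Or.inr ⟨P, hn, hPK⟩)
  obtain ⟨σ, hσ⟩ := exists_isFrob (K := K) P
  have hσT : σ ∈ T := hT P (fun h => hP₁ (Or.inl (hPK ▸ h))) hun σ hσ
  have h3 : IsFrob K (und F P) (σ.restrictNormal F) :=
    isFrob_und (fun x => σ.restrictNormal_commutes F x) hσ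
  rw [hP] at h3
  have h4 := isFrob_unique h3 hσ₁
  apply hσ₁'
  rw [← h4]
  ext x
  have h5 := σ.restrictNormal_commutes F x
  have h6 : σ (algebraMap F L x) = algebraMap F L x := by
    exact (IntermediateField.mem_fixedField_iff T (x : L)).1 x.2 σ hσT
  rw [h6] at h5
  rw [AlgEquiv.one_apply]
  exact h5

end gen

section sub

variable {K : Type*} [Field K] [NumberField K] [Algebra K ℝ]

lemma numberField_of_fd (H : IntermediateField K ℝ) [FiniteDimensional K H] : NumberField H :=
  NumberField.of_module_finite K H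

/-- Restriction of Frobenius elements between subfields of `ℝ`. -/
lemma isFrob_res {H L : IntermediateField K ℝ} [FiniteDimensional K L]
    [FiniteDimensional K H] [Normal K H] (h : H ≤ L) (P : PrI L) :
    ∃ P₁ : PrI H, und K P₁ = und K P ∧
      (Algebra.IsUnramifiedAt (𝓞 K) P.asIdeal → Algebra.IsUnramifiedAt (𝓞 K) P₁.asIdeal) ∧
      ∀ σ : L ≃ₐ[K] L, IsFrob K P σ → IsFrob K P₁ (res h σ) := by
  have := numberField_of_fd H
  have := numberField_of_fd L
  let _ : Algebra H L := (inclusion h).toAlgebra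
  have : IsScalarTower K H L := IsScalarTower.of_algebraMap_eq' rfl
  refine ⟨und H P, und_und P, fun hun => unramified_und P, fun σ hσ => ?_⟩
  refine isFrob_und (fun x => ?_) hσ
  exact AlgEquiv.restrictNormal_commutes σ H x

/-- Existence of primes with Frobenius trivial on `F` and nontrivial on `L`. -/
lemma exists_frob_sub {F L : IntermediateField K ℝ} (h : F ≤ L) (hne : F ≠ L)
    [FiniteDimensional K L] [IsGalois K L] [IsGalois K F] (B : Set (PrI K)) (hB : B.Finite) :
    ∃ P : PrI L, und K P ∉ B ∧ Algebra.IsUnramifiedAt (𝓞 K) P.asIdeal ∧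
      ∃ σ : L ≃ₐ[K] L, IsFrob K P σ ∧ res h σ = 1 ∧ σ ≠ 1 := by
  have := numberField_of_fd L
  set F' : IntermediateField K L := IntermediateField.restrict h with hF'
  have hG : IsGalois K F' := IsGalois.of_algEquiv (IntermediateField.restrictAlgEquiv h)
  have hne' : F' ≠ ⊤ := by
    intro htop
    apply hne
    apply le_antisymm h
    intro x hx
    have : (⟨x, hx⟩ : L) ∈ F' := by rw [htop]; exact IntermediateField.mem_top
    rwa [hF', IntermediateField.mem_restrict] at this
  obtain ⟨P, hP1, hP2, σ, hσ1, hσ2, hσ3⟩ := exists_frob (K := K) (L := L) F' hne' B hB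
  refine ⟨P, hP1, hP2, σ, hσ1, ?_, hσ3⟩
  rw [res_eq_one_iff]
  intro x hx
  have h3 := hσ2 ⟨x, h hx⟩ (by rw [hF', IntermediateField.mem_restrict]; exact hx)
  rw [act_of_mem _ (h hx), h3]

end sub

end Pool.Agent.ST
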