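import Pool.Agent.Lib.MP_1ef7cf_nt.RCF2

/-!
# Frobenius elements and squares
-/

open NumberField IsDedekindDomain nonZeroDivisors IntermediateField

namespace Pool.Agent.ST

section sq

variable {K L : Type*} [Field K] [NumberField K] [Field L] [NumberField L] [Algebra K L]

omit [NumberField L] in
lemma isSquare_of_frob {P : PrI L} (h2 : (2 : 𝓞 K) ∉ (und K P).asIdeal) {σ : L ≃ₐ[K] L}
    (hσ : IsFrob K P σ) {η : (𝓞 K)ˣ} {y : L} (hy : y ^ 2 = algebraMap K L ((η : 𝓞 K) : K))
    (hσy : σ y = y) : IsSquare (Ideal.Quotient.mk (und K P).asIdeal (η : 𝓞 K)) := by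
  set p := und K P with hp
  have := p.isMaximal
  have : Finite (𝓞 K ⧸ p.asIdeal) := Ideal.finiteQuotientOfFreeOfNeBot p.asIdeal p.ne_bot
  let _ : Field (𝓞 K ⧸ p.asIdeal) := Ideal.Quotient.field p.asIdeal
  let _ : Fintype (𝓞 K ⧸ p.asIdeal) := Fintype.ofFinite _
  have hchar : ringChar (𝓞 K ⧸ p.asIdeal) ≠ 2 := by
    intro h
    have h3 : ((2 : ℕ) : 𝓞 K ⧸ p.asIdeal) = 0 := by
      rw [← h]; exact CharP.cast_eq_zero _ _
    apply h2
    rw [← Ideal.Quotient.eq_zero_iff_mem, map_ofNat]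
    exact_mod_cast h3
  have hcard : Fintype.card (𝓞 K ⧸ p.asIdeal) = pn p := by
    unfold pn
    rw [Ideal.absNorm_apply, Submodule.cardQuot_apply, Nat.card_eq_fintype_card]
  -- the integer y
  have hint : IsIntegral ℤ y := by
    apply IsIntegral.of_pow (n := 2) (by norm_num)
    rw [hy]
    have h3 : IsIntegral ℤ ((η : 𝓞 K) : K) := RingOfIntegers.isIntegral_coe _
    exact h3.map (algebraMap K L).toIntAlgHom
  let y' : 𝓞 L := ⟨y, hint⟩
  have hy' : y' ^ 2 = algebraMap (𝓞 K) (𝓞 L) (η : 𝓞 K) := by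
    apply RingOfIntegers.coe_injective
    rw [map_pow]
    exact hy
  have hσy' : σ • y' = y' := by
    apply RingOfIntegers.coe_injective
    rw [coe_smul']
    exact hσy
  have h3 := hσ y'
  rw [hσy', ← hp, ← hcard] at h3
  have hodd : Fintype.card (𝓞 K ⧸ p.asIdeal) % 2 = 1 := FiniteField.odd_card_of_char_ne_two hchar
  set c := Fintype.card (𝓞 K ⧸ p.asIdeal) with hc
  have hc2 : c = 2 * (c / 2) + 1 := by omega
  have h4 : y' * (1 - algebraMap (𝓞 K) (𝓞 L) ((η : 𝓞 K) ^ (c / 2))) ∈ P.asIdeal := by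
    have : y' * (1 - algebraMap (𝓞 K) (𝓞 L) ((η : 𝓞 K) ^ (c / 2))) = y' - y' ^ c := by
      conv_rhs => rw [hc2, pow_succ, pow_mul, hy']
      rw [map_pow]
      ring
    rw [this]; exact h3
  have hyP : y' ∉ P.asIdeal := by
    intro h5
    have h6 : y' ^ 2 ∈ P.asIdeal := P.asIdeal.pow_mem_of_mem h5 2 (by norm_num)
    rw [hy'] at h6
    have h7 : IsUnit (algebraMap (𝓞 K) (𝓞 L) (η : 𝓞 K)) := η.isUnit.map _
    exact P.isPrime.ne_top (Ideal.eq_top_of_isUnit_mem _ h6 h7)
  have h5 : 1 - algebraMap (𝓞 K) (𝓞 L) ((η : 𝓞 K) ^ (c / 2)) ∈ P.asIdeal :=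
    (P.isPrime.mem_or_mem h4).resolve_left hyP
  have h6 : 1 - (η : 𝓞 K) ^ (c / 2) ∈ p.asIdeal := by
    change algebraMap (𝓞 K) (𝓞 L) _ ∈ P.asIdeal
    rw [map_sub, map_one]; exact h5
  have h7 : (Ideal.Quotient.mk p.asIdeal (η : 𝓞 K)) ^ (c / 2) = 1 := by
    rw [← Ideal.Quotient.eq_zero_iff_mem, map_sub, map_one, map_pow, sub_eq_zero] at h6
    exact h6.symm
  have h8 : Ideal.Quotient.mk p.asIdeal (η : 𝓞 K) ≠ 0 := by
    intro h9
    rw [Ideal.Quotient.eq_zero_iff_mem] at h9
    exact p.isPrime.ne_top (Ideal.eq_top_of_isUnit_mem _ h9 η.isUnit)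
  exact (FiniteField.isSquare_iff hchar h8).2 h7

end sq

section normal

open Polynomial

variable {K Ω : Type*} [Field K] [Field Ω] [Algebra K Ω]

lemma normal_adjoin_sqrt {y : Ω} {a : K} (hy : y ^ 2 = algebraMap K Ω a) : Normal K K⟮y⟯ := by
  have hyint : IsIntegral K y := by
    apply IsIntegral.of_pow (n := 2) (by norm_num)
    rw [hy]; exact isIntegral_algebraMap
  have hyF : y ∈ K⟮y⟯ := mem_adjoin_simple_self K y
  have key : ∀ x ∈ ({y} : Set Ω), IsIntegral K x ∧
      ((minpoly K x).map (algebraMap K K⟮y⟯)).Splits := by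
    intro x hx
    rw [Set.mem_singleton_iff] at hx
    subst hx
    refine ⟨hyint, ?_⟩
    have hroot : aeval x (X ^ 2 - C a : K[X]) = 0 := by
      simp [hy]
    have hdvd : minpoly K x ∣ (X ^ 2 - C a : K[X]) := minpoly.dvd K _ hroot
    have hne : (X ^ 2 - C a : K[X]) ≠ 0 := X_pow_sub_C_ne_zero (by norm_num) a
    have h2 : (X ^ 2 - C a : K[X]).map (algebraMap K K⟮x⟯) =
        (X - C (⟨x, hyF⟩ : K⟮x⟯)) * (X + C (⟨x, hyF⟩ : K⟮x⟯)) := by
      have h3 : (⟨x, hyF⟩ : K⟮x⟯) ^ 2 = algebraMap K K⟮x⟯ a := Subtype.ext hy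
      rw [Polynomial.map_sub, Polynomial.map_pow, map_X, map_C, ← h3, map_pow]
      ring
    have h4 : ((X ^ 2 - C a : K[X]).map (algebraMap K K⟮x⟯)).Splits := by
      rw [h2]
      exact (Splits.X_sub_C _).mul (Splits.X_add_C _)
    refine h4.of_dvd ?_ (Polynomial.map_dvd _ hdvd)
    exact Polynomial.map_ne_zero hne
  rw [normal_iff]
  intro x
  have h1 : minpoly K (x : Ω) = minpoly K x :=
    minpoly.algebraMap_eq (algebraMap K⟮y⟯ Ω).injective x
  have h2 := IntermediateField.splits_of_mem_adjoin K Ω key x.2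
  rw [h1] at h2
  have : FiniteDimensional K K⟮y⟯ := adjoin.finiteDimensional hyint
  exact ⟨IsIntegral.of_finite K x, h2⟩

lemma finrank_adjoin_sqrt_le {y : Ω} {a : K} (hy : y ^ 2 = algebraMap K Ω a) :
    Module.finrank K K⟮y⟯ ≤ 2 := by
  have hyint : IsIntegral K y := by
    apply IsIntegral.of_pow (n := 2) (by norm_num)
    rw [hy]; exact isIntegral_algebraMap
  rw [adjoin.finrank hyint]
  have hroot : aeval y (X ^ 2 - C a : K[X]) = 0 := by
    simp [hy]
  have hne : (X ^ 2 - C a : K[X]) ≠ 0 := X_pow_sub_C_ne_zero (by norm_num) a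
  have h3 := natDegree_le_of_dvd (minpoly.dvd K _ hroot) hne
  rwa [natDegree_X_pow_sub_C] at h3

end normal

section main

variable {K : Type*} [Field K] [NumberField K] [Algebra K ℝ] {σ₂ : K →+* ℝ}

/-- good primes -/
def Good (n : Ideal (𝓞 K)) (η : (𝓞 K)ˣ) (q : HeightOneSpectrum (𝓞 K)) : Prop :=
  ¬ q.asIdeal ∣ n ∧ (2 : 𝓞 K) ∉ q.asIdeal ∧
    IsSquare (Ideal.Quotient.mk q.asIdeal (η : 𝓞 K))

/-- The Frobenius elements of good primes which occur twice generate the Galois group. -/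
theorem hgen {n : Ideal (𝓞 K)} (hn : n ≠ ⊥) (η : (𝓞 K)ˣ) {H : IntermediateField K ℝ}
    {Art : RayClassGroup σ₂ n ≃* (H ≃ₐ[K] H)} (h : IsRayClassField σ₂ n H Art)
    (hE : ∀ y : ℝ, y ∈ H → y ^ 2 = algebraMap K ℝ ((η : 𝓞 K) : K) →
      ∃ a : K, algebraMap K ℝ a = y)
    (φ : {q : HeightOneSpectrum (𝓞 K) // Good n η q} → (H ≃ₐ[K] H))
    (hφ : ∀ q, φ q = Art (cls σ₂ n (prJ n q.1 q.2.1))) :
    Subgroup.closure {σ | ∃ i j, i ≠ j ∧ φ i = σ ∧ φ j = σ} = ⊤ := by
  have hfd := h.finite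
  have hab := h.isRCF.abelian
  have := numberField_of_fd H
  set S : Set (H ≃ₐ[K] H) := {σ | ∃ i j, i ≠ j ∧ φ i = σ ∧ φ j = σ} with hS
  set T := Subgroup.closure S with hT
  by_contra hne
  -- the exceptional set
  set B₁ : Set (HeightOneSpectrum (𝓞 K)) := Subtype.val '' {i | φ i ∉ S} with hB₁
  have hB₁fin : B₁.Finite := by
    apply Set.Finite.image
    apply Set.Finite.of_finite_image (f := φ) (Set.toFinite _)
    intro i hi j hj hij
    by_contra hne
    exact hi ⟨i, j, hne, rfl, hij.symm⟩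
  have hB₂fin : {v : HeightOneSpectrum (𝓞 K) | v.asIdeal ∣ Ideal.span {(2 : 𝓞 K)}}.Finite :=
    finite_dvd (by rw [Ne, Ideal.span_singleton_eq_bot]; exact two_ne_zero)
  set B : Set (HeightOneSpectrum (𝓞 K)) := (B₁ ∪ {v | v.asIdeal ∣ Ideal.span {(2 : 𝓞 K)}}) ∪
    {v | v.asIdeal ∣ n} with hB
  have hBfin : B.Finite := (hB₁fin.union hB₂fin).union (finite_dvd hn)
  -- the field M
  set F : IntermediateField K H := IntermediateField.fixedField T with hF
  have hfix : IntermediateField.fixingSubgroup F = T := IntermediateField.fixingSubgroup_fixedField T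
  set M : IntermediateField K ℝ := IntermediateField.lift F with hM
  have hMH : M ≤ H := IntermediateField.lift_le F
  have hTn : T.Normal := ⟨fun n hn g => by rwa [h.isRCF.comm g n, mul_inv_cancel_right]⟩
  have hFG : IsGalois K F := by
    have : (IntermediateField.fixingSubgroup F).Normal := by rw [hfix]; exact hTn
    exact IsGalois.of_fixedField_normal_subgroup T
  have hMG : IsGalois K M := IsGalois.of_algEquiv (IntermediateField.liftAlgEquiv F)
  have hMfd : FiniteDimensional K M :=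
    Module.Finite.equiv (IntermediateField.liftAlgEquiv F).toLinearEquiv
  have hMne : M ≠ ⊥ := by
    intro hbot
    apply hne
    rw [← hfix]
    have : F = ⊥ := by
      rw [eq_bot_iff]
      intro x hx
      have h1 : (x : ℝ) ∈ M := (IntermediateField.mem_lift x).2 hx
      rw [hbot, IntermediateField.mem_bot] at h1
      obtain ⟨a, ha⟩ := h1
      rw [IntermediateField.mem_bot]
      exact ⟨a, Subtype.ext ha⟩
    rw [this, IntermediateField.fixingSubgroup_bot]
  -- the complex square root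
  obtain ⟨y, hy⟩ : ∃ y : ℂ, y ^ 2 = algebraMap K ℂ ((η : 𝓞 K) : K) :=
    IsAlgClosed.exists_pow_nat_eq _ (by norm_num)
  have hyint : IsIntegral K y := by
    apply IsIntegral.of_pow (n := 2) (by norm_num)
    rw [hy]; exact isIntegral_algebraMap
  set MC : IntermediateField K ℂ := M.map (IsScalarTower.toAlgHom K ℝ ℂ) with hMC
  set F' : IntermediateField K ℂ := K⟮y⟯ with hF'
  have hMCG : IsGalois K MC :=
    IsGalois.of_algEquiv (IntermediateField.equivMap M (IsScalarTower.toAlgHom K ℝ ℂ))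
  have hMCfd : FiniteDimensional K MC :=
    Module.Finite.equiv (IntermediateField.equivMap M (IsScalarTower.toAlgHom K ℝ ℂ)).toLinearEquiv
  have hF'fd : FiniteDimensional K F' := adjoin.finiteDimensional hyint
  have hF'n : Normal K F' := normal_adjoin_sqrt hy
  have hF'G : IsGalois K F' := ⟨⟩
  have hdeg : Module.finrank K F' ≤ 2 := finrank_adjoin_sqrt_le hy
  set L : IntermediateField K ℂ := MC ⊔ F' with hL
  have hLn : Normal K L := IntermediateField.normal_sup K ℂ MC F'
  have hLfd : FiniteDimensional K L := IntermediateField.finiteDimensional_sup MC F'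
  have hLG : IsGalois K L := ⟨⟩
  have hLnf : NumberField L := NumberField.of_module_finite K L
  have hFL : F' ≤ L := le_sup_right
  have hML : MC ≤ L := le_sup_left
  set F₂ : IntermediateField K L := IntermediateField.restrict hFL with hF₂
  have hF₂G : IsGalois K F₂ := IsGalois.of_algEquiv (IntermediateField.restrictAlgEquiv hFL)
  have hMCne : MC ≠ ⊥ := by
    intro hbot
    apply hMne
    rw [eq_bot_iff]
    intro x hx
    have h1 : (x : ℂ) ∈ MC := ⟨x, hx, rfl⟩
    rw [hbot, IntermediateField.mem_bot] at h1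
    obtain ⟨a, ha⟩ := h1
    rw [IntermediateField.mem_bot]
    refine ⟨a, ?_⟩
    have h2 : ((algebraMap K ℝ a : ℝ) : ℂ) = (x : ℂ) := ha
    exact_mod_cast h2
  have hF₂ne : F₂ ≠ ⊤ := by
    intro htop
    have h1 : L ≤ F' := by
      intro x hx
      have : (⟨x, hx⟩ : L) ∈ F₂ := by rw [htop]; exact IntermediateField.mem_top
      rwa [hF₂, IntermediateField.mem_restrict] at this
    have h2 : MC ≤ F' := hML.trans h1
    have h3 : MC = F' := by
      apply IntermediateField.eq_of_le_of_finrank_le h2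
      have h4 : Module.finrank K MC ≠ 1 := fun h5 => hMCne (finrank_eq_one_iff.1 h5)
      have h6 : 0 < Module.finrank K MC := Module.finrank_pos
      omega
    have h4 : y ∈ MC := by rw [h3]; exact mem_adjoin_simple_self K y
    obtain ⟨r, hr, hry⟩ := h4
    have hry' : (r : ℂ) = y := hry
    have h5 : r ^ 2 = algebraMap K ℝ ((η : 𝓞 K) : K) := by
      have h6 : ((r ^ 2 : ℝ) : ℂ) = ((algebraMap K ℝ ((η : 𝓞 K) : K) : ℝ) : ℂ) := by
        rw [Complex.ofReal_pow, hry', hy]; rfl
      exact_mod_cast h6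
    obtain ⟨a, ha⟩ := hE r (hMH hr) h5
    apply hMCne
    rw [h3, hF', IntermediateField.adjoin_simple_eq_bot_iff, IntermediateField.mem_bot]
    refine ⟨a, ?_⟩
    rw [← hry', ← ha]; rfl
  obtain ⟨P, hP1, hP2, σ, hσ1, hσ2, hσ3⟩ := exists_frob (K := K) (L := L) F₂ hF₂ne B hBfin
  set p := und K P with hp
  have hpn : ¬ p.asIdeal ∣ n := fun hd => hP1 (Or.inr hd)
  have hp2 : (2 : 𝓞 K) ∉ p.asIdeal := by
    intro h2
    apply hP1
    refine Or.inl (Or.inr ?_)
    change p.asIdeal ∣ _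
    rw [Ideal.dvd_span_singleton]; exact h2
  have hyL : y ∈ L := hFL (mem_adjoin_simple_self K y)
  have hsq : IsSquare (Ideal.Quotient.mk p.asIdeal (η : 𝓞 K)) := by
    apply isSquare_of_frob hp2 hσ1 (y := (⟨y, hyL⟩ : L))
    · exact Subtype.ext hy
    · apply hσ2
      rw [hF₂, IntermediateField.mem_restrict]
      exact mem_adjoin_simple_self K y
  -- `p` is good
  let i₀ : {q : HeightOneSpectrum (𝓞 K) // Good n η q} := ⟨p, hpn, hp2, hsq⟩
  have hi₀ : φ i₀ ∈ S := by
    by_contra hcon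
    exact hP1 (Or.inl (Or.inl ⟨i₀, hcon, rfl⟩))
  have hi₀T : φ i₀ ∈ T := Subgroup.subset_closure hi₀
  -- algebra structure
  let g : M →ₐ[K] L :=
    { toFun := fun x => ⟨((x : ℝ) : ℂ), hML ⟨x, x.2, rfl⟩⟩
      map_one' := by apply Subtype.ext; simp
      map_mul' := by intro a b; apply Subtype.ext; simp
      map_zero' := by apply Subtype.ext; simp
      map_add' := by intro a b; apply Subtype.ext; simp
      commutes' := by intro r; apply Subtype.ext; rfl }
  let _ : Algebra M L := g.toRingHom.toAlgebra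
  have : IsScalarTower K M L := IsScalarTower.of_algebraMap_eq' (by
    ext x
    exact congrArg Subtype.val (g.commutes x).symm)
  have hMnf := numberField_of_fd M
  have f1 : IsFrob K (und M P) (σ.restrictNormal M) :=
    isFrob_und (fun x => σ.restrictNormal_commutes M x) hσ1
  have f1u : Algebra.IsUnramifiedAt (𝓞 K) (und M P).asIdeal := unramified_und P
  have f1p : und K (und M P) = p := und_und P
  obtain ⟨P', hP'1, -, hP'3⟩ := isFrob_res' hMH (und M P)
  have f2 := h.isRCF.frobP P' (by simp) (prJ n p hpn) (by rw [coe_prJ, hP'1, f1p])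
  have f3 := isFrob_unique f1 (hP'3 _ f2.2)
  have f4 : res hMH (Art (cls σ₂ n (prJ n p hpn))) = 1 := by
    rw [← hφ i₀, res_eq_one_iff]
    intro x hx
    have hx' : x ∈ H := hMH hx
    have h1 : (⟨x, hx'⟩ : H) ∈ F := (IntermediateField.mem_lift (⟨x, hx'⟩ : H)).1 hx
    rw [act_of_mem _ hx', (IntermediateField.mem_fixedField_iff T _).1 h1 _ hi₀T]
  rw [f4] at f3
  apply hσ3
  -- `σ` is trivial on `MC` and `F'`
  have t1 : ∀ x ∈ MC, ∀ hx : x ∈ L, σ ⟨x, hx⟩ = ⟨x, hx⟩ := by
    rintro x ⟨r, hr, rfl⟩ hx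
    have h1 := σ.restrictNormal_commutes M ⟨r, hr⟩
    rw [f3] at h1
    exact h1.symm
  have t2 : ∀ x ∈ F', ∀ hx : x ∈ L, σ ⟨x, hx⟩ = ⟨x, hx⟩ := by
    intro x hxF hx
    apply hσ2
    rw [hF₂, IntermediateField.mem_restrict]
    exact hxF
  have t3 : σ ∈ IntermediateField.fixingSubgroup (IntermediateField.restrict hML) := by
    rw [IntermediateField.mem_fixingSubgroup_iff]
    rintro ⟨x, hx⟩ hxM
    rw [IntermediateField.mem_restrict] at hxM
    exact t1 x hxM hx
  have t4 : σ ∈ IntermediateField.fixingSubgroup F₂ := by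
    rw [IntermediateField.mem_fixingSubgroup_iff]
    exact hσ2
  have t5 : σ ∈ IntermediateField.fixingSubgroup (IntermediateField.restrict hML ⊔ F₂) := by
    rw [IntermediateField.fixingSubgroup_sup]
    exact ⟨t3, t4⟩
  have t6 : IntermediateField.restrict hML ⊔ F₂ = ⊤ := by
    rw [eq_top_iff]
    have h1 : L ≤ IntermediateField.lift (IntermediateField.restrict hML ⊔ F₂) := by
      apply sup_le
      · intro z hz
        apply (IntermediateField.mem_lift (⟨z, hML hz⟩ : L)).2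
        apply (le_sup_left : IntermediateField.restrict hML ≤ _)
        rw [IntermediateField.mem_restrict]; exact hz
      · intro z hz
        apply (IntermediateField.mem_lift (⟨z, hFL hz⟩ : L)).2
        apply (le_sup_right : F₂ ≤ _)
        rw [hF₂, IntermediateField.mem_restrict]; exact hz
    intro x _
    exact (IntermediateField.mem_lift x).1 (h1 x.2)
  rw [t6, IntermediateField.fixingSubgroup_top] at t5
  exact t5

end main

end Pool.Agent.ST
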