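import Pool.Agent.Lib.MP_1ef7cf_nt.Inf

/-!
# Intersections of ray class fields, second form
-/

open NumberField IsDedekindDomain nonZeroDivisors IntermediateField

namespace Pool.Agent.ST

section maps

variable {K : Type*} [Field K] [NumberField K] {σ₂ : K →+* ℝ}

/-- splitting an element of the ray, second form -/
lemma exists_split' {n N : Ideal (𝓞 K)} (hle : N ≤ n) (hN0 : N ≠ ⊥)
    (q' : HeightOneSpectrum (𝓞 K)) (hq' : ¬ q'.asIdeal ∣ N) {J : (FI K)ˣ}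
    (hJ : J ∈ primeTo (N * q'.asIdeal)) (hray : InRay σ₂ n J) :
    ∃ J₁ ∈ primeTo (K := K) (N * q'.asIdeal),
      ∃ J₂ ∈ primeTo (K := K) (N * q'.asIdeal),
      J = J₁ * J₂ ∧ InRay σ₂ N J₁ ∧ InRay σ₂ (n * q'.asIdeal) J₂ := by
  have hN : N * q'.asIdeal ≠ ⊥ := mul_ne_bot' hN0 q'.ne_bot
  obtain ⟨a, b, ha, hb, hab, ha0, hb0, hpos, hJe⟩ := rep hN hJ hray
  have hle' : N * q'.asIdeal ≤ q'.asIdeal := Ideal.mul_le_right
  have hbq' : IsCoprime (Ideal.span {b}) q'.asIdeal := isCoprime_of_le hb hle'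
  have haq' : IsCoprime (Ideal.span {a}) q'.asIdeal := isCoprime_of_le ha hle'
  obtain ⟨x, hx, y, hy, hxy⟩ := Ideal.isCoprime_iff_exists.1 hbq'
  obtain ⟨b', rfl⟩ := Ideal.mem_span_singleton'.1 hx
  have hqn : IsCoprime N q'.asIdeal := by
    rw [isCoprime_comm]; exact coprime_prime_iff.2 hq'
  have hqn' : IsCoprime n q'.asIdeal := by
    rw [isCoprime_comm] at hqn ⊢
    exact isCoprime_of_le hqn hle
  obtain ⟨β₀, h1, h2⟩ := exists_crt hqn 1 (b' * a)
  obtain ⟨β, h3, h4⟩ := exists_pos σ₂ hN β₀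
  have h5 : β - 1 ∈ N := by
    have : β - 1 = (β - β₀) + (β₀ - 1) := by ring
    rw [this]
    exact N.add_mem (Ideal.mul_le_left h3) h1
  have h6 : a - b * β ∈ q'.asIdeal := by
    have : a - b * β = -(b * (β - β₀)) - b * (β₀ - b' * a) + y * a := by
      linear_combination (-a) * hxy
    rw [this]
    apply q'.asIdeal.add_mem
    · apply q'.asIdeal.sub_mem
      · exact q'.asIdeal.neg_mem (q'.asIdeal.mul_mem_left _ (hle' h3))
      · exact q'.asIdeal.mul_mem_left _ h2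
    · exact q'.asIdeal.mul_mem_right _ hy
  have hβ0 : β ≠ 0 := ne_zero_of_pos h4
  have hβ0' : (β : K) ≠ 0 := coe_ne_zero' hβ0
  have hb0' : (b : K) ≠ 0 := coe_ne_zero' hb0
  have ha0' : (a : K) ≠ 0 := coe_ne_zero' ha0
  have hβnq : IsCoprime (Ideal.span {β}) N := coprime_span_of_sub_one_mem h5
  have hβq' : IsCoprime (Ideal.span {β}) q'.asIdeal := by
    have h7 : IsCoprime (Ideal.span {b * β}) q'.asIdeal := by
      apply coprime_of_sub_mem haq'
      have : b * β - a = -(a - b * β) := by ring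
      rw [this]; exact q'.asIdeal.neg_mem h6
    rw [← Ideal.span_singleton_mul_span_singleton] at h7
    exact h7.of_mul_left_right
  have hβN : IsCoprime (Ideal.span {β}) (N * q'.asIdeal) := hβnq.mul_right hβq'
  have hJ₁ : uP (β : K) hβ0' ∈ primeTo (K := K) (N * q'.asIdeal) :=
    coe_mem_primeTo (I := Ideal.span {β}) (by rw [coe_uP, coe_span_singleton]) hβN
  refine ⟨uP (β : K) hβ0', hJ₁, J * (uP (β : K) hβ0')⁻¹,
    (primeTo _).mul_mem hJ ((primeTo _).inv_mem hJ₁), ?_, ?_, ?_⟩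
  · rw [mul_comm J, mul_inv_cancel_left]
  · exact ⟨β, oneMod_of_sub_one_mem h5, h4, coe_uP _ _⟩
  · refine ⟨(a : K) / ((b * β : 𝓞 K) : K), ⟨a, b * β, ?_, ?_, rfl⟩, ?_, ?_⟩
    · rw [← Ideal.span_singleton_mul_span_singleton]
      apply IsCoprime.mul_left
      · exact isCoprime_of_le hb (Ideal.mul_mono_left hle)
      · exact (isCoprime_of_le hβnq hle).mul_right hβq'
    · rw [Ideal.mul_eq_inf_of_isCoprime hqn']
      refine ⟨?_, h6⟩
      have : a - b * β = (a - b) - b * (β - 1) := by ring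
      rw [this]
      exact n.sub_mem hab (n.mul_mem_left _ (hle h5))
    · have : (a : K) / ((b * β : 𝓞 K) : K) = ((a : K) / (b : K)) / (β : K) := by
        simp only [RingOfIntegers.coe_eq_algebraMap, map_mul]
        rw [div_div]
      rw [this, map_div₀]
      exact div_pos hpos h4
    · rw [Units.val_mul, Units.val_inv_eq_inv_val, coe_uP, hJe, FractionalIdeal.spanSingleton_inv,
        FractionalIdeal.spanSingleton_mul_spanSingleton]
      congr 1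
      simp only [RingOfIntegers.coe_eq_algebraMap, map_mul]
      rw [← div_eq_mul_inv, div_div]

end maps

section

variable {K : Type*} [Field K] [NumberField K] [Algebra K ℝ] {σ₂ : K →+* ℝ}

/-- Intersection of ray class fields: modulus `N ≤ n` and modulus `n q`. -/
theorem inf_same {n N n₁ : Ideal (𝓞 K)} (hle : N ≤ n) (hN : N ≠ ⊥)
    {q : HeightOneSpectrum (𝓞 K)} (hq : ¬ q.asIdeal ∣ N) (hn₁ : n₁ = n * q.asIdeal)
    {H H₀ H₁ : IntermediateField K ℝ} {Art : RayClassGroup σ₂ n ≃* (H ≃ₐ[K] H)}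
    {Art₀ : RayClassGroup σ₂ N ≃* (H₀ ≃ₐ[K] H₀)}
    {Art₁ : RayClassGroup σ₂ n₁ ≃* (H₁ ≃ₐ[K] H₁)}
    (h : IsRayClassField σ₂ n H Art) (h₀ : IsRayClassField σ₂ N H₀ Art₀)
    (h₁ : IsRayClassField σ₂ n₁ H₁ Art₁) :
    H₀ ⊓ H₁ ≤ H := by
  subst hn₁
  have l0 : N * q.asIdeal ≤ N := Ideal.mul_le_left
  have l1 : N * q.asIdeal ≤ n * q.asIdeal := Ideal.mul_mono_left hle
  have := h.galois
  have := h₀.galois
  have := h₁.galois
  have := h₀.finite
  have hab0 := h₀.isRCF.abelian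
  have hM0 : H₀ ⊓ H₁ ≤ H₀ := inf_le_left
  have hM1 : H₀ ⊓ H₁ ≤ H₁ := inf_le_right
  have hMab : IsAbelianGalois K (H₀ ⊓ H₁ : IntermediateField K ℝ) := isAbelianGalois_of_le hM0
  have hMfd : FiniteDimensional K (H₀ ⊓ H₁ : IntermediateField K ℝ) :=
    Module.Finite.of_injective (inclusion hM0).toLinearMap (inclusion hM0).injective
  have e : H ≤ H₀ := IsRCF.le hle hN Set.finite_empty Set.finite_empty h₀.isRCF h.isRCF
  intro x hx
  apply mem_of_fixed e (hM0 hx)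
  intro γ hγ
  have h3 : res e γ = 1 := (res_eq_one_iff e γ).2 hγ
  obtain ⟨A, rfl⟩ := Art₀.surjective γ
  rw [IsRCF.res_art hle hN Set.finite_empty Set.finite_empty h₀.isRCF h.isRCF] at h3
  have h4 : pr σ₂ hle A = 1 := by
    apply Art.injective
    rw [h3, map_one]
  obtain ⟨J₀, rfl⟩ := cls_surjective (σ₂ := σ₂) N A
  obtain ⟨J', hJ', hray⟩ := exists_moved (σ₂ := σ₂) hN q hq J₀.2
  have hJ'0 : J' ∈ primeTo (K := K) N := primeTo_mono l0 hJ'
  have hcls : cls σ₂ N J₀ = cls σ₂ _ (inc l0 ⟨J', hJ'⟩) :=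
    (cls_eq_iff _ _).2 hray
  rw [hcls] at h4 ⊢
  rw [pr_cls, cls_eq_one_iff, coe_inc] at h4
  obtain ⟨J₁, hJ₁, J₂, hJ₂, hJJ, hr1, hr2⟩ := exists_split' hle hN q hq hJ' h4
  have hcls2 : cls σ₂ N (inc l0 ⟨J', hJ'⟩) = cls σ₂ _ (inc l0 ⟨J₂, hJ₂⟩) := by
    have h5 : (⟨J', hJ'⟩ : primeTo (K := K) (N * q.asIdeal)) =
        ⟨J₁, hJ₁⟩ * ⟨J₂, hJ₂⟩ := Subtype.ext hJJ
    rw [h5, map_mul, map_mul, (cls_eq_one_iff (inc l0 ⟨J₁, hJ₁⟩)).2 hr1, one_mul]
  rw [hcls2, ← act_res hM0 _ hx, art_compat l0 l1 h₀ h₁ hM0 hM1,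
    (cls_eq_one_iff (inc l1 ⟨J₂, hJ₂⟩)).2 hr2, map_one, map_one, act_one_left hx]

end

end Pool.Agent.ST
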