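import Pool.Agent.Lib.MP_1ef7cf_nt.Theta1

/-!
Bessel type kernels.
-/

open MeasureTheory Set Filter Topology

namespace Pool.Agent.ST

/-- `2 cosh v` -/
noncomputable def ch (v : ℝ) : ℝ := Real.exp v + Real.exp (-v)

lemma ch_pos (v : ℝ) : 0 < ch v := by unfold ch; positivity

lemma exp_neg_le_ch (v : ℝ) : Real.exp (-v) ≤ ch v := by
  unfold ch; linarith [Real.exp_pos v]

lemma ch_ge (v : ℝ) : 2 + v ^ 2 / 2 ≤ ch v := by
  have h : ∀ x : ℝ, 0 ≤ x → 2 + x ^ 2 / 2 ≤ ch x := by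
    intro x hx
    have h1 := Real.quadratic_le_exp_of_nonneg hx
    have h2 := Real.add_one_le_exp (-x)
    unfold ch
    linarith
  have h3 : ch v = ch |v| := by
    rcases abs_choice v with h | h <;> rw [h]
    unfold ch; rw [neg_neg]; ring
  rw [h3, ← sq_abs]
  exact h _ (abs_nonneg v)

lemma one_le_ch (v : ℝ) : 1 ≤ ch v := by
  have := ch_ge v
  nlinarith [sq_nonneg v]

lemma ch_inv_le (v : ℝ) : (ch v)⁻¹ ≤ 2 * (1 + v ^ 2)⁻¹ := by
  have h1 := ch_ge v
  have h2 : (1 + v ^ 2) / 2 ≤ ch v := by nlinarith [sq_nonneg v]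
  have h3 : 0 < (1 + v ^ 2) / 2 := by positivity
  calc (ch v)⁻¹ ≤ ((1 + v ^ 2) / 2)⁻¹ := inv_anti₀ h3 h2
    _ = 2 * (1 + v ^ 2)⁻¹ := by rw [inv_div]; ring

lemma integrable_ch_inv : Integrable (fun v : ℝ => (ch v)⁻¹) := by
  apply Integrable.mono' (integrable_inv_one_add_sq.const_mul 2)
  · apply Continuous.aestronglyMeasurable
    unfold ch
    apply Continuous.inv₀ (by fun_prop)
    intro v
    positivity
  · filter_upwards with v
    rw [Real.norm_eq_abs, abs_of_pos (inv_pos.2 (ch_pos v))]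
    exact ch_inv_le v

/-- the integrand of the kernel -/
noncomputable def kf (k : ℕ) (y v : ℝ) : ℝ :=
  (√y * Real.exp (-v / 2)) ^ k * Real.exp (-(Real.pi * y * ch v))

/-- the kernel -/
noncomputable def hk (k : ℕ) (y : ℝ) : ℝ := ∫ v, kf k y v

lemma kf_nonneg (k : ℕ) (y v : ℝ) : 0 ≤ kf k y v := by
  unfold kf; positivity

lemma hk_nonneg (k : ℕ) (y : ℝ) : 0 ≤ hk k y := integral_nonneg fun v => kf_nonneg k y v

/-- the constant -/
noncomputable def KK (k a : ℕ) : ℝ := a.factorial + (a + k).factorial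

lemma KK_nonneg (k a : ℕ) : 0 ≤ KK k a := by unfold KK; positivity

lemma kf_le (k a : ℕ) {y : ℝ} (hy : 0 < y) (v : ℝ) :
    y ^ a * kf k y v ≤ KK k a * ((ch v)⁻¹) ^ a := by
  have hc := ch_pos v
  have hpi : 1 ≤ Real.pi := by linarith [Real.pi_gt_three]
  set x : ℝ := Real.pi * y * ch v with hx
  have hx0 : 0 < x := by positivity
  have h1 : y ≤ x * (ch v)⁻¹ := by
    rw [hx, mul_assoc, mul_inv_cancel₀ hc.ne', mul_one]
    nlinarith
  have h2 : y ^ a ≤ x ^ a * ((ch v)⁻¹) ^ a := by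
    rw [← mul_pow]; exact pow_le_pow_left₀ hy.le h1 a
  have h3 : √y * Real.exp (-v / 2) ≤ √x := by
    have h4 : Real.exp (-v / 2) = √(Real.exp (-v)) := (Real.exp_half (-v))
    rw [h4, ← Real.sqrt_mul hy.le]
    apply Real.sqrt_le_sqrt
    calc y * Real.exp (-v) ≤ y * ch v := mul_le_mul_of_nonneg_left (exp_neg_le_ch v) hy.le
      _ ≤ Real.pi * y * ch v := by
        have : 0 ≤ y * ch v := by positivity
        nlinarith
  have h5 : (√y * Real.exp (-v / 2)) ^ k ≤ 1 + x ^ k := by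
    have h6 : (√y * Real.exp (-v / 2)) ^ k ≤ (√x) ^ k := pow_le_pow_left₀ (by positivity) h3 k
    refine h6.trans ?_
    by_cases h7 : x ≤ 1
    · have : (√x) ^ k ≤ 1 := pow_le_one₀ (Real.sqrt_nonneg _) (by rwa [Real.sqrt_le_one])
      have h8 : 0 < x ^ k := by positivity
      linarith
    · push Not at h7
      have h9 : √x ≤ x := by
        rw [Real.sqrt_le_left hx0.le]; nlinarith
      have := pow_le_pow_left₀ (Real.sqrt_nonneg _) h9 k
      linarith
  unfold kf KK
  calc y ^ a * ((√y * Real.exp (-v / 2)) ^ k * Real.exp (-x)) ≤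
      (x ^ a * ((ch v)⁻¹) ^ a) * ((1 + x ^ k) * Real.exp (-x)) := by
        apply mul_le_mul h2 _ (by positivity) (by positivity)
        exact mul_le_mul_of_nonneg_right h5 (Real.exp_pos _).le
    _ = (x ^ a * Real.exp (-x) + x ^ (a + k) * Real.exp (-x)) * ((ch v)⁻¹) ^ a := by
        rw [pow_add]; ring
    _ ≤ (a.factorial + (a + k).factorial) * ((ch v)⁻¹) ^ a := by
        apply mul_le_mul_of_nonneg_right _ (by positivity)
        exact add_le_add (pow_mul_exp_neg_le a hx0.le) (pow_mul_exp_neg_le (a + k) hx0.le)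

lemma kf_le' (k : ℕ) {y : ℝ} (hy : 0 < y) (v : ℝ) :
    kf k y v ≤ KK k 1 * y⁻¹ * (ch v)⁻¹ := by
  have h := kf_le k 1 hy v
  rw [pow_one, pow_one] at h
  calc kf k y v = y⁻¹ * (y * kf k y v) := by field_simp
    _ ≤ y⁻¹ * (KK k 1 * (ch v)⁻¹) := mul_le_mul_of_nonneg_left h (by positivity)
    _ = _ := by ring

lemma continuous_kf (k : ℕ) : Continuous (fun p : ℝ × ℝ => kf k p.1 p.2) := by
  unfold kf ch
  fun_prop

lemma integrable_kf (k : ℕ) {y : ℝ} (hy : 0 < y) : Integrable (fun v => kf k y v) := by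
  apply Integrable.mono' (integrable_ch_inv.const_mul (KK k 1 * y⁻¹))
  · apply Continuous.aestronglyMeasurable
    exact (continuous_kf k).comp (by fun_prop : Continuous fun v : ℝ => ((y, v) : ℝ × ℝ))
  · filter_upwards with v
    rw [Real.norm_eq_abs, abs_of_nonneg (kf_nonneg k y v)]
    exact kf_le' k hy v

/-- the constant integral -/
noncomputable def CI : ℝ := ∫ v, (ch v)⁻¹

lemma CI_nonneg : 0 ≤ CI := integral_nonneg fun v => (inv_pos.2 (ch_pos v)).le

lemma hk_le (k a : ℕ) (ha : 1 ≤ a) {y : ℝ} (hy : 0 < y) : hk k y ≤ KK k a * CI * (y ^ a)⁻¹ := by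
  have h1 : y ^ a * hk k y ≤ KK k a * CI := by
    unfold hk CI
    rw [← integral_const_mul, ← integral_const_mul]
    apply integral_mono ((integrable_kf k hy).const_mul _) (integrable_ch_inv.const_mul _)
    intro v
    refine (kf_le k a hy v).trans ?_
    apply mul_le_mul_of_nonneg_left _ (KK_nonneg k a)
    have h2 : (ch v)⁻¹ ≤ 1 := inv_le_one_of_one_le₀ (one_le_ch v)
    have h3 : 0 ≤ (ch v)⁻¹ := (inv_pos.2 (ch_pos v)).le
    calc ((ch v)⁻¹) ^ a ≤ ((ch v)⁻¹) ^ 1 := pow_le_pow_of_le_one h3 h2 ha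
      _ = (ch v)⁻¹ := pow_one _
  have h4 : 0 < y ^ a := by positivity
  rw [← div_eq_mul_inv, le_div_iff₀ h4]
  linarith

lemma continuousOn_hk (k : ℕ) : ContinuousOn (hk k) (Ioi 0) := by
  intro y hy
  have hy0 : (0 : ℝ) < y := hy
  apply ContinuousAt.continuousWithinAt
  unfold hk
  apply continuousAt_of_dominated (bound := fun v => KK k 1 * (y / 2)⁻¹ * (ch v)⁻¹)
  · filter_upwards with x
    apply Continuous.aestronglyMeasurable
    exact (continuous_kf k).comp (by fun_prop : Continuous fun v : ℝ => ((x, v) : ℝ × ℝ))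
  · filter_upwards [lt_mem_nhds (half_lt_self hy0)] with x hx
    filter_upwards with v
    have hx0 : 0 < x := (half_pos hy0).trans hx
    rw [Real.norm_eq_abs, abs_of_nonneg (kf_nonneg k x v)]
    refine (kf_le' k hx0 v).trans ?_
    apply mul_le_mul_of_nonneg_right _ (inv_pos.2 (ch_pos v)).le
    apply mul_le_mul_of_nonneg_left _ (KK_nonneg k 1)
    exact inv_anti₀ (half_pos hy0) hx.le
  · exact integrable_ch_inv.const_mul _
  · filter_upwards with v
    apply Continuous.continuousAt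
    exact (continuous_kf k).comp (by fun_prop : Continuous fun x : ℝ => ((x, v) : ℝ × ℝ))

end Pool.Agent.ST
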