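import Pool.Agent.Lib.MP_1ef7cf_nt.Bridge2

/-!
# The local criterion
-/

open NumberField IsDedekindDomain nonZeroDivisors IntermediateField

namespace Pool.Agent.ST

variable {K : Type*} [Field K] [NumberField K] [Algebra K ℝ] {σ₂ : K →+* ℝ}

/-- **The local criterion.** -/
theorem local_criterion (h2 : Module.finrank ℚ K = 2) (hσ : σ₂ ≠ sg1 K) {n : Ideal (𝓞 K)}
    (hn : n ≠ ⊥) (hn1 : n ≠ ⊤)
    (htwo : ∀ v : HeightOneSpectrum (𝓞 K), (2 : 𝓞 K) ∈ v.asIdeal → v.asIdeal ∣ n) :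
    ∃ j₀ : ℕ, ∀ 𝔞 : Ideal (𝓞 K), 𝔞 ≠ ⊥ → IsCoprime n 𝔞 →
      ∀ G : Set (HeightOneSpectrum (𝓞 K)), G.Nontrivial →
      (∀ q ∈ G, ¬ q.asIdeal ∣ n * 𝔞 ∧ ∃ j ≥ j₀, ∃ k ≥ 1,
        SqrtP σ₂ (n * 𝔞 * Ideal.span {(2 : 𝓞 K)} ^ j * q.asIdeal ^ k)) →
      Subgroup.closure {A : RayClassGroup σ₂ (n * 𝔞 * Ideal.span {(2 : 𝓞 K)} ^ j₀) |
        ∃ (q : HeightOneSpectrum (𝓞 K))
        (h : ¬ q.asIdeal ∣ n * 𝔞 * Ideal.span {(2 : 𝓞 K)} ^ j₀),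
        cls σ₂ _ (prJ _ q h) = A ∧ q ∈ G} = ⊤ →
      StarkTate σ₂ (n * 𝔞) := by
  obtain ⟨a, ha⟩ := exists_lev (σ₂ := σ₂) h2 hn htwo
  have hNb : n * Ideal.span {(2 : 𝓞 K)} ^ a ≠ ⊥ := mul_ne_bot' hn (pow_ne_bot' span_two_ne_bot _)
  have htwoN : ∀ v : HeightOneSpectrum (𝓞 K), (2 : 𝓞 K) ∈ v.asIdeal →
      v.asIdeal ∣ n * Ideal.span {(2 : 𝓞 K)} ^ a :=
    fun v hv => dvd_mul_of_dvd_left (htwo v hv) _
  obtain ⟨b, hb⟩ := exists_lev (σ₂ := σ₂) h2 hNb htwoN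
  have hNb' : n * Ideal.span {(2 : 𝓞 K)} ^ (a + b) ≠ ⊥ :=
    mul_ne_bot' hn (pow_ne_bot' span_two_ne_bot _)
  have htwoN' : ∀ v : HeightOneSpectrum (𝓞 K), (2 : 𝓞 K) ∈ v.asIdeal →
      v.asIdeal ∣ n * Ideal.span {(2 : 𝓞 K)} ^ (a + b) :=
    fun v hv => dvd_mul_of_dvd_left (htwo v hv) _
  obtain ⟨c, hc⟩ := exists_lev (σ₂ := σ₂) h2 hNb' htwoN'
  refine ⟨a + b + c, fun 𝔞 h𝔞 hcop G hG2 hG hgen => ?_⟩
  have hm : n * 𝔞 ≠ ⊥ := mul_ne_bot' hn h𝔞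
  have hm1 : n * 𝔞 ≠ ⊤ := ne_top_of_le Ideal.mul_le_left hn1
  have htwom : ∀ v : HeightOneSpectrum (𝓞 K), (2 : 𝓞 K) ∈ v.asIdeal → v.asIdeal ∣ n * 𝔞 :=
    fun v hv => dvd_mul_of_dvd_left (htwo v hv) _
  have e : ∀ i : ℕ, n * 𝔞 * Ideal.span {(2 : 𝓞 K)} ^ i = n * Ideal.span {(2 : 𝓞 K)} ^ i * 𝔞 :=
    fun i => mul_right_comm _ _ _
  have ha' : Lev σ₂ (n * 𝔞) a := ha.mul hn htwo h𝔞 hcop
  have hb' : Lev σ₂ (n * 𝔞 * Ideal.span {(2 : 𝓞 K)} ^ a) b := by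
    rw [e]
    exact hb.mul hNb htwoN h𝔞 (isCoprime_two htwo hcop a)
  have hc' : Lev σ₂ (n * 𝔞 * Ideal.span {(2 : 𝓞 K)} ^ (a + b)) c := by
    rw [e]
    exact hc.mul hNb' htwoN' h𝔞 (isCoprime_two htwo hcop (a + b))
  set M : Ideal (𝓞 K) := n * 𝔞 * Ideal.span {(2 : 𝓞 K)} ^ (a + b) with hM
  have hMb : M ≠ ⊥ := mul_ne_bot' hm (pow_ne_bot' span_two_ne_bot _)
  have hM1 : M ≠ ⊤ := ne_top_of_le Ideal.mul_le_left hm1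
  have htwoM : ∀ v : HeightOneSpectrum (𝓞 K), (2 : 𝓞 K) ∈ v.asIdeal → v.asIdeal ∣ M :=
    fun v hv => dvd_mul_of_dvd_left (htwom v hv) _
  have hMi : ∀ i, n * 𝔞 * Ideal.span {(2 : 𝓞 K)} ^ (a + b + c + i) =
      M * Ideal.span {(2 : 𝓞 K)} ^ (c + i) := by
    intro i
    rw [hM, mul_assoc (n * 𝔞), ← pow_add, add_assoc (a + b)]
  -- the assertion at the levels `M q`
  have hst : ∀ q ∈ G, StarkTate σ₂ (M * q.asIdeal ^ 1) := by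
    intro q hq
    obtain ⟨hqn, j, hj, k, hk, hP⟩ := hG q hq
    obtain ⟨i, rfl⟩ := Nat.exists_eq_add_of_le hj
    obtain ⟨k', rfl⟩ := Nat.exists_eq_add_of_le' hk
    obtain ⟨-, f2, -, -⟩ := gap_of_lev h2 hσ hMb hM1 htwoM hc' (j := c + i) (by omega)
    rw [pow_one]
    refine f2 k' q ?_ ?_
    · intro hd
      exact hqn (dvd_level htwom hd)
    · rw [← hMi]
      exact hP
  apply local_sharp_of_lev h2 hσ hm hm1 htwom ha' hb' (j := a + b) le_rfl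
  have e0 : n * 𝔞 * Ideal.span {(2 : 𝓞 K)} ^ (a + b + c) = M * Ideal.span {(2 : 𝓞 K)} ^ c := by
    have := hMi 0
    rwa [add_zero, add_zero] at this
  set N' : Ideal (𝓞 K) := n * 𝔞 * Ideal.span {(2 : 𝓞 K)} ^ (a + b + c) with hN'
  have hN'b : N' ≠ ⊥ := mul_ne_bot' hm (pow_ne_bot' span_two_ne_bot _)
  have hle' : N' ≤ M := by rw [e0]; exact Ideal.mul_le_left
  have hdv' : ∀ v : HeightOneSpectrum (𝓞 K), v.asIdeal ∣ N' → v.asIdeal ∣ n * 𝔞 :=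
    fun v hv => dvd_level htwom hv
  have hcan : ∀ q q' : HeightOneSpectrum (𝓞 K),
      N' * q.asIdeal ^ 1 = N' * q'.asIdeal ^ 1 → q = q' := by
    intro q q' h
    rw [pow_one, pow_one] at h
    have h3 := mul_left_cancel₀ (a := N') (by rw [Ne, Ideal.zero_eq_bot]; exact hN'b) h
    exact HeightOneSpectrum.ext h3
  have hGP : GenP σ₂ (fun I => ∃ q ∈ G, I = N' * q.asIdeal ^ 1) N' 1 := by
    obtain ⟨q₁, hq₁, q₂, hq₂, hne⟩ := hG2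
    refine ⟨⟨q₁, q₂, hne, fun h => (hG q₁ hq₁).1 (hdv' _ h), fun h => (hG q₂ hq₂).1 (hdv' _ h),
      ⟨q₁, hq₁, rfl⟩, ⟨q₂, hq₂, rfl⟩⟩, ?_⟩
    rw [← hgen]
    congr 1
    ext A
    constructor
    · rintro ⟨q, h, hA, q', hq', he⟩
      refine ⟨q, h, hA, ?_⟩
      rw [hcan q q' he]
      exact hq'
    · rintro ⟨q, h, hA, hq⟩
      exact ⟨q, h, hA, q, hq, rfl⟩
  refine hGP.down hle' (fun v hv => dvd_mul_of_dvd_left (hdv' v hv) _) ?_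
  rintro q hq ⟨q', hq', he⟩
  rw [hcan q q' he]
  exact hst q' hq'

end Pool.Agent.ST
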