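import Pool.Agent.Lib.MP_1ef7cf_nt.Mg.G004

/-!
# The Stark-Tate conjecture for moduli divisible by all primes above two: generating sets of primes
-/

open NumberField IsDedekindDomain nonZeroDivisors IntermediateField

namespace Pool.Agent.ST

variable {K : Type*} [Field K] [NumberField K] [Algebra K ℝ] {σ₂ : K →+* ℝ}

/-- At least two primes `q` satisfy `StarkTate σ₂ (m * q ^ k)` and the classes of these primes
generate the ray class group. -/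
def GenP (σ₂ : K →+* ℝ) (P : Ideal (𝓞 K) → Prop) (m : Ideal (𝓞 K)) (k : ℕ) : Prop :=
  (∃ q₁ q₂ : HeightOneSpectrum (𝓞 K), q₁ ≠ q₂ ∧ ¬ q₁.asIdeal ∣ m ∧ ¬ q₂.asIdeal ∣ m ∧
    P (m * q₁.asIdeal ^ k) ∧ P (m * q₂.asIdeal ^ k)) ∧
  Subgroup.closure {A : RayClassGroup σ₂ m | ∃ (q : HeightOneSpectrum (𝓞 K))
    (h : ¬ q.asIdeal ∣ m), cls σ₂ m (prJ m q h) = A ∧ P (m * q.asIdeal ^ k)} = ⊤

/-- A modulus `N' = m 2 ^ j` with all the properties. -/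
lemma exists_level (h2 : Module.finrank ℚ K = 2) {m : Ideal (𝓞 K)} (hm : m ≠ ⊥)
    (htwo : ∀ v : HeightOneSpectrum (𝓞 K), (2 : 𝓞 K) ∈ v.asIdeal → v.asIdeal ∣ m) :
    ∃ j₀ : ℕ, ∀ j ≥ j₀,
      (∀ u : (𝓞 K)ˣ, EU σ₂ (m * Ideal.span {(2 : 𝓞 K)} ^ j) u → IsSquare u) ∧
      ∃ J : (FI K)ˣ, J ∈ primeTo (K := K) (m * Ideal.span {(2 : 𝓞 K)} ^ j) ∧ InRay σ₂ m J ∧
        ∀ f : ℕ, Odd f → ¬ InRay σ₂ (m * Ideal.span {(2 : 𝓞 K)} ^ j) (J ^ f) := by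
  obtain ⟨p, hp2⟩ := exists_prime_two K
  obtain ⟨j₀, hj₀⟩ := exists_ray_elt (σ₂ := σ₂) h2 hm
  obtain ⟨j₁, hj₁⟩ := exists_sq_level (σ₂ := σ₂) h2 hm hp2 (htwo p hp2)
  refine ⟨max j₀ j₁, fun j hj => ⟨?_, hj₀ j ((le_max_left _ _).trans hj)⟩⟩
  intro u hu
  apply hj₁ u
  refine ⟨?_, hu.2⟩
  have h3 : m * Ideal.span {(2 : 𝓞 K)} ^ j ≤ m * p.asIdeal ^ j₁ := by
    apply Ideal.mul_mono_right
    have h4 : Ideal.span {(2 : 𝓞 K)} ≤ p.asIdeal := by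
      rw [Ideal.span_singleton_le_iff_mem]; exact hp2
    exact (Ideal.pow_right_mono h4 j).trans (Ideal.pow_le_pow_right ((le_max_right _ _).trans hj))
  exact h3 hu.1

/-- **Local theorem.** -/
theorem local_sharp (h2 : Module.finrank ℚ K = 2) (hσ : σ₂ ≠ sg1 K) {n : Ideal (𝓞 K)}
    (hn : n ≠ ⊥) (hn1 : n ≠ ⊤)
    (htwo : ∀ v : HeightOneSpectrum (𝓞 K), (2 : 𝓞 K) ∈ v.asIdeal → v.asIdeal ∣ n) :
    ∃ j₀ : ℕ, ∀ j ≥ j₀, GenP σ₂ (StarkTate σ₂) (n * Ideal.span {(2 : 𝓞 K)} ^ j) 1 →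
      StarkTate σ₂ n := by
  obtain ⟨a₀, ha₀⟩ := exists_level (σ₂ := σ₂) h2 hn htwo
  set N : Ideal (𝓞 K) := n * Ideal.span {(2 : 𝓞 K)} ^ a₀ with hN
  obtain ⟨hsq, J, hJ, hray, hodd⟩ := ha₀ a₀ le_rfl
  have hNb : N ≠ ⊥ := mul_ne_bot' hn (pow_ne_bot' span_two_ne_bot _)
  have htwoN : ∀ v : HeightOneSpectrum (𝓞 K), (2 : 𝓞 K) ∈ v.asIdeal → v.asIdeal ∣ N :=
    fun v hv => dvd_mul_of_dvd_left (htwo v hv) _
  obtain ⟨b₀, hb₀⟩ := exists_level (σ₂ := σ₂) h2 hNb htwoN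
  refine ⟨a₀ + b₀, fun j hj hG => ?_⟩
  obtain ⟨b, rfl⟩ := Nat.exists_eq_add_of_le hj
  obtain ⟨-, J', hJ', hray', hodd'⟩ := hb₀ (b₀ + b) (by omega)
  have hN' : n * Ideal.span {(2 : 𝓞 K)} ^ (a₀ + b₀ + b) =
      N * Ideal.span {(2 : 𝓞 K)} ^ (b₀ + b) := by
    rw [hN, mul_assoc, ← pow_add, add_assoc]
  rw [hN'] at hG
  have hN'b : N * Ideal.span {(2 : 𝓞 K)} ^ (b₀ + b) ≠ ⊥ :=
    mul_ne_bot' hNb (pow_ne_bot' span_two_ne_bot _)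
  obtain ⟨⟨q₀, q₁, hq, hq₀, hq₁, hs₀, hs₁⟩, hgen⟩ := hG
  rw [pow_one] at hs₀ hs₁
  have hset : {A : RayClassGroup σ₂ (N * Ideal.span {(2 : 𝓞 K)} ^ (b₀ + b)) |
      ∃ (q : HeightOneSpectrum (𝓞 K)) (h : ¬ q.asIdeal ∣ N * Ideal.span {(2 : 𝓞 K)} ^ (b₀ + b)),
        cls σ₂ _ (prJ _ q h) = A ∧
        StarkTate σ₂ (N * Ideal.span {(2 : 𝓞 K)} ^ (b₀ + b) * q.asIdeal ^ 1)} =
      {A | ∃ (q : HeightOneSpectrum (𝓞 K))
        (h : ¬ q.asIdeal ∣ N * Ideal.span {(2 : 𝓞 K)} ^ (b₀ + b)),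
        cls σ₂ _ (prJ _ q h) = A ∧
        StarkTate σ₂ (N * Ideal.span {(2 : 𝓞 K)} ^ (b₀ + b) * q.asIdeal)} := by
    simp only [pow_one]
  rw [hset] at hgen
  exact step_even2 h2 hσ Ideal.mul_le_left Ideal.mul_le_left hN'b hNb hn hn1
    (fun v hv => dvd_level htwoN hv) (fun v hv => dvd_level htwo hv)
    (fun v hv => dvd_mul_of_dvd_left (htwoN v hv) _) hsq hJ' hray' hodd' hJ hray hodd
    hq₀ hq₁ hq hs₀ hs₁ hgen

/-- **Main theorem**, sharp version for moduli divisible by all primes above `2`. -/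
theorem main_sharp2 (h2 : Module.finrank ℚ K = 2) (hσ : σ₂ ≠ sg1 K) {n : Ideal (𝓞 K)}
    (hn1 : n ≠ ⊤)
    (htwo : ∀ v : HeightOneSpectrum (𝓞 K), (2 : 𝓞 K) ∈ v.asIdeal → v.asIdeal ∣ n) (k : ℕ)
    (hst : ∀ m : Ideal (𝓞 K), m ≠ ⊥ → n ∣ m → k ≤ numPrimes m →
      (∀ v : HeightOneSpectrum (𝓞 K), v.asIdeal ∣ m → v.asIdeal ^ k ∣ m) →
      GenP σ₂ (StarkTate σ₂) m k) :
    ∀ m : Ideal (𝓞 K), m ≠ ⊥ → n ∣ m → StarkTate σ₂ m := by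
  obtain ⟨p, hp2⟩ := exists_prime_two K
  apply main h2 hσ hn1 (Or.inl ⟨p, hp2, htwo p hp2⟩) k
  intro m hm hnm hk hmv
  have hm1 : m ≠ ⊤ := by
    rintro rfl
    apply hn1
    exact top_le_iff.1 (Ideal.dvd_iff_le.1 hnm)
  have htwom : ∀ v : HeightOneSpectrum (𝓞 K), (2 : 𝓞 K) ∈ v.asIdeal → v.asIdeal ∣ m :=
    fun v hv => (htwo v hv).trans hnm
  obtain ⟨j, hj⟩ := local_sharp h2 hσ hm hm1 htwom
  have hG := hj j le_rfl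
  set N : Ideal (𝓞 K) := m * Ideal.span {(2 : 𝓞 K)} ^ j with hN
  have hNb : N ≠ ⊥ := mul_ne_bot' hm (pow_ne_bot' span_two_ne_bot _)
  have hle : N ≤ m := Ideal.mul_le_left
  have hdvd : ∀ v : HeightOneSpectrum (𝓞 K), v.asIdeal ∣ N → v.asIdeal ∣ m :=
    fun v hv => dvd_level htwom hv
  have hkN : k ≤ numPrimes N := by
    refine hk.trans (le_of_eq ?_)
    unfold numPrimes
    congr 1
    ext v
    exact ⟨fun h => dvd_mul_of_dvd_left h _, hdvd v⟩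
  have hvN : ∀ v : HeightOneSpectrum (𝓞 K), v.asIdeal ∣ N → v.asIdeal ^ k ∣ N :=
    fun v hv => dvd_mul_of_dvd_left (hmv v (hdvd v hv)) _
  obtain ⟨⟨q₀, q₁, hq, hq₀, hq₁, hs₀, hs₁⟩, hgen⟩ :=
    hst N hNb (hnm.trans (dvd_mul_right _ _)) hkN hvN
  rcases Nat.eq_zero_or_pos k with rfl | hkpos
  · rw [pow_zero, mul_one] at hs₀
    exact starkTate_same h2 hσ hle hNb hm hm1 hdvd hs₀
  · have hsame : ∀ q : HeightOneSpectrum (𝓞 K), StarkTate σ₂ (N * q.asIdeal ^ k) →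
        StarkTate σ₂ (N * q.asIdeal ^ 1) := by
      intro q hs
      rw [pow_one]
      have hle' : N * q.asIdeal ^ k ≤ N * q.asIdeal :=
        Ideal.mul_mono_right (Ideal.pow_le_self hkpos.ne')
      apply starkTate_same h2 hσ hle' (mul_ne_bot' hNb (pow_ne_bot' q.ne_bot _))
        (mul_ne_bot' hNb q.ne_bot) (ne_top_of_le Ideal.mul_le_left (ne_top_of_le hle hm1)) _ hs
      intro v hv
      rcases v.prime.dvd_or_dvd hv with h | h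
      · exact dvd_mul_of_dvd_left h _
      · exact dvd_mul_of_dvd_right (v.prime.dvd_of_dvd_pow h) _
    apply hG
    refine ⟨⟨q₀, q₁, hq, hq₀, hq₁, hsame q₀ hs₀, hsame q₁ hs₁⟩, ?_⟩
    rw [eq_top_iff, ← hgen]
    apply Subgroup.closure_mono
    rintro A ⟨q, h, hA, hs⟩
    exact ⟨q, h, hA, hsame q hs⟩

end Pool.Agent.ST
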