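import Pool.Agent.Lib.MP_1ef7cf_nt_b.Mg.G001
import Pool.Agent.Lib.MP_1ef7cf_nt.SharpMain2

/-!
# Lower Dirichlet density of the set of bad primes
-/

open NumberField Filter Topology Ideal IsDedekindDomain nonZeroDivisors IntermediateField

namespace Pool.Agent.ST

section dens

variable {K : Type*} [Field K] [NumberField K]

/-- `∑ N q ^ (-s)` over `q ∈ B` is at least `c log (1 / (s - 1))` up to a bounded error, for `s`
near `1`. -/
def DensGe (B : Set (PrI K)) (c : ℝ) : Prop :=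
  ∃ C : ℝ, ∀ᶠ s in 𝓝[>] (1 : ℝ),
    c * Real.log (1 / (s - 1)) - C ≤ ∑' q, B.indicator (px s) q

lemma log_one_div_sub (s : ℝ) : Real.log (1 / (s - 1)) = -Real.log (s - 1) := by
  rw [one_div, Real.log_inv]

/-- Upper bound for the primes with trivial Frobenius. -/
lemma split_upper {L : Type*} [Field L] [NumberField L] [Algebra K L] [IsGalois K L]
    (G : Set (PrI K))
    (hG : ∀ q ∈ G, ∀ P : PrI L, und K P = q → Algebra.IsUnramifiedAt (𝓞 K) P.asIdeal ∧
      IsFrob K P (1 : L ≃ₐ[K] L)) :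
    ∃ C : ℝ, ∀ᶠ s in 𝓝[>] (1 : ℝ),
      Module.finrank K L * ∑' q, G.indicator (px s) q ≤ Real.log (1 / (s - 1)) + C := by
  have claim1 : ∀ p ∈ G, (ovr K (E := L) p).ncard = Module.finrank K L ∧
      ∀ P : PrI L, und K P = p → pn P = pn p := by
    intro p hp
    have key : ∀ P : PrI L, und K P = p → pn P = pn p := by
      intro P hP
      rw [pn_eq_of_isFrob_one (hG p hp P hP).2, hP]
    refine ⟨?_, key⟩
    obtain ⟨P, hP⟩ := exists_ovr (L := L) p
    have := (hG p hp P hP).1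
    have := ncard_ovr_eq K (P := P) (by rw [key P hP, hP])
    rwa [hP] at this
  obtain ⟨C, hC⟩ := primeSum_asymp L
  refine ⟨C, ?_⟩
  filter_upwards [hC, self_mem_nhdsWithin] with s hs hs1
  have h1 := le_primeSum_of K (E := L) (show (1 : ℝ) < s from hs1) G claim1
  rw [abs_le] at hs
  rw [log_one_div_sub]
  linarith [hs.2]

lemma densGe_compl {G B : Set (PrI K)} {c : ℝ} (hGB : (G ∪ B)ᶜ.Finite)
    (hG : ∃ C : ℝ, ∀ᶠ s in 𝓝[>] (1 : ℝ),
      ∑' q, G.indicator (px s) q ≤ c * Real.log (1 / (s - 1)) + C) : DensGe B (1 - c) := by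
  obtain ⟨C, hC⟩ := hG
  obtain ⟨CK, hCK⟩ := primeSum_asymp K
  obtain ⟨D, hD⟩ := (DensLe.of_finite hGB).tsum_le
  refine ⟨C + CK + D, ?_⟩
  have hs2 : ∀ᶠ s in 𝓝[>] (1 : ℝ), s < 2 :=
    mem_nhdsWithin_of_mem_nhds (Iio_mem_nhds (by norm_num))
  filter_upwards [hC, hCK, self_mem_nhdsWithin, hs2] with s h1 h2 h3 h4
  have hs1 : (1 : ℝ) < s := h3
  have e1 : primeSum K s ≤ ∑' q, G.indicator (px s) q + ∑' q, B.indicator (px s) q +
      ∑' q, (G ∪ B)ᶜ.indicator (px s) q := by
    have s1 : Summable (G.indicator (px s) : PrI K → ℝ) := (summable_px hs1).indicator _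
    have s2 : Summable (B.indicator (px s) : PrI K → ℝ) := (summable_px hs1).indicator _
    have s3 : Summable ((G ∪ B)ᶜ.indicator (px s) : PrI K → ℝ) := (summable_px hs1).indicator _
    rw [← s1.tsum_add s2, ← (s1.add s2).tsum_add s3]
    apply (summable_px hs1).tsum_le_tsum _ ((s1.add s2).add s3)
    intro q
    have p1 : 0 ≤ G.indicator (px s) q := Set.indicator_nonneg (fun x _ => (px_pos s x).le) q
    have p2 : 0 ≤ B.indicator (px s) q := Set.indicator_nonneg (fun x _ => (px_pos s x).le) q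
    have p3 : 0 ≤ (G ∪ B)ᶜ.indicator (px s) q :=
      Set.indicator_nonneg (fun x _ => (px_pos s x).le) q
    by_cases hq : q ∈ G
    · rw [Set.indicator_of_mem hq]; linarith
    · by_cases hq' : q ∈ B
      · rw [Set.indicator_of_mem hq' (f := px s)]; linarith
      · have hq3 : q ∈ (G ∪ B)ᶜ := by
          rintro (h | h)
          · exact hq h
          · exact hq' h
        rw [Set.indicator_of_mem hq3 (f := px s)]; linarith
  have e2 := hD s hs1 h4
  rw [zero_mul, zero_add] at e2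
  rw [abs_le] at h2
  rw [log_one_div_sub] at h1 ⊢
  linarith [h2.1]

end dens

section sub

variable {K : Type*} [Field K] [NumberField K] [Algebra K ℝ] {σ₂ : K →+* ℝ}

/-- The primes with class in a proper subgroup have upper density at most `1 / 2`. -/
theorem sub_upper {N : Ideal (𝓞 K)} {H : IntermediateField K ℝ}
    {Art : RayClassGroup σ₂ N ≃* (H ≃ₐ[K] H)} (hr : IsRayClassField σ₂ N H Art)
    {T : Subgroup (RayClassGroup σ₂ N)} (hT : T ≠ ⊤) :
    ∃ C : ℝ, ∀ᶠ s in 𝓝[>] (1 : ℝ),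
      ∑' q, {q : PrI K | ∃ h : ¬ q.asIdeal ∣ N, cls σ₂ N (prJ N q h) ∈ T}.indicator (px s) q ≤
        (1 / 2) * Real.log (1 / (s - 1)) + C := by
  classical
  have hfd := hr.finite
  have hgal := hr.galois
  have hnf := numberField_of_fd H
  set T' : Subgroup (H ≃ₐ[K] H) := T.map (Art : RayClassGroup σ₂ N →* (H ≃ₐ[K] H)) with hT'
  have hT'ne : T' ≠ ⊤ := by
    intro h
    apply hT
    rw [eq_top_iff]
    intro A _
    have h1 : Art A ∈ T' := by rw [h]; exact Subgroup.mem_top _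
    obtain ⟨B, hB, hBA⟩ := Subgroup.mem_map.1 h1
    have : B = A := Art.injective hBA
    rwa [← this]
  set F : IntermediateField K H := IntermediateField.fixedField T' with hF
  have hTn : T'.Normal := ⟨fun n hn g => by
    rwa [hr.isRCF.comm g n, mul_inv_cancel_right]⟩
  have hfix : IntermediateField.fixingSubgroup F = T' :=
    IntermediateField.fixingSubgroup_fixedField T'
  have hFG : IsGalois K F := IsGalois.of_fixedField_normal_subgroup T'
  have hdeg : 2 ≤ Module.finrank K F := by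
    have h1 : Module.finrank K F ≠ 1 := by
      intro h1
      apply hT'ne
      have h2 : F = ⊥ := IntermediateField.finrank_eq_one_iff.1 h1
      rw [← hfix, h2, IntermediateField.fixingSubgroup_bot]
    have h2 : 0 < Module.finrank K F := Module.finrank_pos
    omega
  set G : Set (PrI K) := {q : PrI K | ∃ h : ¬ q.asIdeal ∣ N, cls σ₂ N (prJ N q h) ∈ T} with hG
  have hup := split_upper (K := K) (L := F) G (by
    rintro q ⟨hq, hqT⟩ P₁ hP₁
    obtain ⟨P, hP⟩ := exists_ovr (K := F) (L := H) P₁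
    have hPK : und K P = q := by rw [← hP₁, ← hP, und_und]
    obtain ⟨hun, hfr⟩ := hr.isRCF.frobP P (by simp) (prJ N q hq) (by rw [coe_prJ, hPK])
    set σ := Art (cls σ₂ N (prJ N q hq)) with hσ
    have hσT : σ ∈ T' := Subgroup.mem_map.2 ⟨_, hqT, rfl⟩
    have h3 : IsFrob K (und F P) (σ.restrictNormal F) :=
      isFrob_und (fun x => σ.restrictNormal_commutes F x) hfr
    have h4 : σ.restrictNormal F = 1 := by
      ext x
      have h5 := σ.restrictNormal_commutes F x
      have h6 : σ (algebraMap F H x) = algebraMap F H x :=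
        (IntermediateField.mem_fixedField_iff T' (x : H)).1 x.2 σ hσT
      rw [h6] at h5
      have h7 : σ.restrictNormal F x = x := (algebraMap F H).injective h5
      rw [h7]; rfl
    rw [hP, h4] at h3
    refine ⟨?_, h3⟩
    rw [← hP]
    exact unramified_und P)
  obtain ⟨C, hC⟩ := hup
  refine ⟨C / 2, ?_⟩
  filter_upwards [hC] with s hs
  have h0 : 0 ≤ ∑' q, G.indicator (px s) q :=
    tsum_nonneg fun q => Set.indicator_nonneg (fun x _ => (px_pos s x).le) q
  have h1 : (2 : ℝ) ≤ Module.finrank K F := by exact_mod_cast hdeg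
  have h2 := mul_le_mul_of_nonneg_right h1 h0
  linarith

/-- If `GenP` fails then the assertion fails for a set of primes of lower density at least
`1 / 2`. -/
theorem densGe_of_not_genP {P : Ideal (𝓞 K) → Prop}
    (hP : ∀ m, P m → ∃ (H : IntermediateField K ℝ) (Art : RayClassGroup σ₂ m ≃* (H ≃ₐ[K] H)),
      IsRayClassField σ₂ m H Art) {N : Ideal (𝓞 K)} (hN : N ≠ ⊥) {k : ℕ}
    (hG : ¬ GenP σ₂ P N k) :
    DensGe {q : PrI K | ¬ q.asIdeal ∣ N ∧ ¬ P (N * q.asIdeal ^ k)} (1 / 2) := by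
  classical
  set B : Set (PrI K) := {q : PrI K | ¬ q.asIdeal ∣ N ∧ ¬ P (N * q.asIdeal ^ k)} with hB
  by_cases h2 : ∃ q₁ q₂ : HeightOneSpectrum (𝓞 K), q₁ ≠ q₂ ∧ ¬ q₁.asIdeal ∣ N ∧
      ¬ q₂.asIdeal ∣ N ∧ P (N * q₁.asIdeal ^ k) ∧ P (N * q₂.asIdeal ^ k)
  · obtain ⟨q₁, q₂, hq, hq₁, hq₂, h₁, h₂⟩ := h2
    -- the ray class field
    have hex : ∃ (H : IntermediateField K ℝ) (Art : RayClassGroup σ₂ N ≃* (H ≃ₐ[K] H)),
        IsRayClassField σ₂ N H Art := by
      rcases Nat.eq_zero_or_pos k with rfl | hk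
      · rw [pow_zero, mul_one] at h₁
        exact hP _ h₁
      · have aux : ∀ q : HeightOneSpectrum (𝓞 K), P (N * q.asIdeal ^ k) →
            ∃ (H : IntermediateField K ℝ)
              (Art : RayClassGroup σ₂ (N * q.asIdeal) ≃* (H ≃ₐ[K] H)),
              IsRayClassField σ₂ (N * q.asIdeal) H Art := by
          intro q hs
          obtain ⟨H, Art, hr⟩ := hP _ hs
          obtain ⟨H', Art', hr', -⟩ := rcf_same (n := N * q.asIdeal)
            (Ideal.mul_mono_right (Ideal.pow_le_self hk.ne')) (fun v hv => by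
              rcases v.prime.dvd_or_dvd hv with h | h
              · exact dvd_mul_of_dvd_left h _
              · exact dvd_mul_of_dvd_right (v.prime.dvd_of_dvd_pow h) _) hr
          exact ⟨H', Art', hr'⟩
        obtain ⟨_, _, r₁⟩ := aux q₁ h₁
        obtain ⟨_, _, r₂⟩ := aux q₂ h₂
        exact exists_rcf hN hq hq₁ hq₂ rfl rfl r₁ r₂
    obtain ⟨H, Art, hr⟩ := hex
    set T : Subgroup (RayClassGroup σ₂ N) := Subgroup.closure {A : RayClassGroup σ₂ N |
      ∃ (q : HeightOneSpectrum (𝓞 K)) (h : ¬ q.asIdeal ∣ N), cls σ₂ N (prJ N q h) = A ∧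
        P (N * q.asIdeal ^ k)} with hT
    have hTne : T ≠ ⊤ := fun h => hG ⟨⟨q₁, q₂, hq, hq₁, hq₂, h₁, h₂⟩, h⟩
    have hup := sub_upper hr hTne
    have := densGe_compl (G := {q : PrI K | ∃ h : ¬ q.asIdeal ∣ N, cls σ₂ N (prJ N q h) ∈ T})
      (B := B) (c := 1 / 2) (by
        refine (finite_dvd hN).subset ?_
        intro q hq
        by_contra hqN
        apply hq
        by_cases hs : P (N * q.asIdeal ^ k)
        · exact Or.inl ⟨hqN, Subgroup.subset_closure ⟨q, hqN, rfl, hs⟩⟩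
        · exact Or.inr ⟨hqN, hs⟩) hup
    norm_num at this ⊢
    exact this
  · push Not at h2
    -- at most one good prime
    have hfin : (∅ ∪ B)ᶜ.Finite := by
      have hsub : (∅ ∪ B)ᶜ ⊆ {v : PrI K | v.asIdeal ∣ N} ∪
          {q : PrI K | ¬ q.asIdeal ∣ N ∧ P (N * q.asIdeal ^ k)} := by
        intro q hq
        by_cases hqN : q.asIdeal ∣ N
        · exact Or.inl hqN
        · right
          refine ⟨hqN, ?_⟩
          by_contra hs
          exact hq (Or.inr ⟨hqN, hs⟩)
      refine ((finite_dvd hN).union ?_).subset hsub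
      apply Set.Subsingleton.finite
      rintro q₁ ⟨hq₁, h₁⟩ q₂ ⟨hq₂, h₂⟩
      by_contra hne
      exact h2 q₁ q₂ hne hq₁ hq₂ h₁ h₂
    have h3 := densGe_compl (G := (∅ : Set (PrI K))) (B := B) (c := 0) hfin ⟨0, by
      filter_upwards with s
      simp⟩
    obtain ⟨C, hC⟩ := h3
    refine ⟨C, ?_⟩
    have hs2 : ∀ᶠ s in 𝓝[>] (1 : ℝ), s < 2 :=
      mem_nhdsWithin_of_mem_nhds (Iio_mem_nhds (by norm_num))
    filter_upwards [hC, hs2, self_mem_nhdsWithin] with s h4 h5 h6
    have := log_inv_nonneg (show (1 : ℝ) < s from h6) h5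
    linarith

end sub

end Pool.Agent.ST
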