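import Pool.Agent.Lib.MP_1ef7cf_nt.RCG2

/-!
# Ray class groups: adding primes to the modulus
-/

open NumberField IsDedekindDomain nonZeroDivisors

namespace Pool.Agent.ST

section adding

variable {K : Type*} [Field K] [NumberField K] {σ₂ : K →+* ℝ}

omit [NumberField K] in
lemma mul_ne_bot' {a b : Ideal (𝓞 K)} (ha : a ≠ ⊥) (hb : b ≠ ⊥) : a * b ≠ ⊥ := by
  rw [← Ideal.zero_eq_bot] at ha hb ⊢
  exact mul_ne_zero ha hb

omit [NumberField K] in
lemma span_ne_bot {a : 𝓞 K} (ha : a ≠ 0) : Ideal.span {a} ≠ ⊥ := by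
  rwa [Ne, Ideal.span_singleton_eq_bot]

omit [NumberField K] in
lemma ne_zero_of_pos {a : 𝓞 K} (h : 0 < σ₂ (a : K)) : a ≠ 0 := by
  rintro rfl
  simp at h

omit [NumberField K] in
lemma coe_ne_zero' {a : 𝓞 K} (h : a ≠ 0) : (a : K) ≠ 0 := by exact_mod_cast h

/-- every class of modulus `n` contains a fractional ideal prime to a given further prime. -/
lemma exists_moved {n : Ideal (𝓞 K)} (hn : n ≠ ⊥) (q : HeightOneSpectrum (𝓞 K))
    (hq : ¬ q.asIdeal ∣ n) {J : (FI K)ˣ} (hJ : J ∈ primeTo n) :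
    ∃ J' ∈ primeTo (K := K) (n * q.asIdeal), InRay σ₂ n (J⁻¹ * J') := by
  obtain ⟨b, c, hb1, hb2, hc, hbc⟩ := exists_mul_integral (σ₂ := σ₂) hn ((primeTo n).inv_mem hJ)
  have hb0 : b ≠ 0 := ne_zero_of_pos hb2
  have hb0' : (b : K) ≠ 0 := coe_ne_zero' hb0
  have hcn : IsCoprime c n := by
    apply coprime_of_mem_primeTo (J := uP (b : K) hb0' * J⁻¹)
    · rw [Units.val_mul, coe_uP, hbc]
    · apply (primeTo n).mul_mem _ ((primeTo n).inv_mem hJ)
      apply coe_mem_primeTo (I := Ideal.span {b}) _ (coprime_span_of_sub_one_mem hb1)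
      rw [coe_uP, coe_span_singleton]
  have hqn : IsCoprime q.asIdeal n := coprime_prime_iff.2 hq
  have hlt : c * q.asIdeal < c := by
    apply lt_of_le_of_ne Ideal.mul_le_left
    intro h
    have h1 : c * q.asIdeal = c * 1 := by rw [h, mul_one]
    rw [← Ideal.zero_eq_bot] at hc
    have h2 := mul_left_cancel₀ hc h1
    exact q.isPrime.ne_top (by rw [h2, Ideal.one_eq_top])
  obtain ⟨x₀, hx2, hx1⟩ := SetLike.exists_of_lt hlt
  obtain ⟨y, hy1, hy2⟩ := exists_crt (hcn.mul_left hqn) x₀ 1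
  obtain ⟨z, hz1, hz2⟩ := exists_pos σ₂ (mul_ne_bot' (mul_ne_bot' hc q.ne_bot) hn) y
  have hz3 : z - x₀ ∈ c * q.asIdeal := by
    have : z - x₀ = (z - y) + (y - x₀) := by ring
    rw [this]
    exact (c * q.asIdeal).add_mem (Ideal.mul_le_left hz1) hy1
  have hz4 : z - 1 ∈ n := by
    have : z - 1 = (z - y) + (y - 1) := by ring
    rw [this]
    exact n.add_mem (Ideal.mul_le_right hz1) hy2
  have hz5 : z ∈ c := by
    have : z = (z - x₀) + x₀ := by ring
    rw [this]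
    exact c.add_mem (Ideal.mul_le_left hz3) hx2
  have hz6 : z ∉ c * q.asIdeal := by
    intro h
    apply hx1
    have : x₀ = z - (z - x₀) := by ring
    rw [this]
    exact (c * q.asIdeal).sub_mem h hz3
  have hz0 : z ≠ 0 := ne_zero_of_pos hz2
  have hz0' : (z : K) ≠ 0 := coe_ne_zero' hz0
  obtain ⟨d, hd⟩ := Ideal.dvd_iff_le.2 ((Ideal.span_singleton_le_iff_mem c).2 hz5)
  have hd0 : d ≠ ⊥ := by
    rintro rfl
    rw [Ideal.mul_bot] at hd
    exact span_ne_bot hz0 hd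
  have hdn : IsCoprime d n :=
    (coprime_span_of_sub_one_mem hz4).of_isCoprime_of_dvd_left ⟨c, by rw [hd, mul_comm]⟩
  have hdq : ¬ q.asIdeal ∣ d := by
    rintro ⟨e, rfl⟩
    apply hz6
    rw [← Ideal.span_singleton_le_iff_mem, hd, ← mul_assoc]
    exact Ideal.mul_le_left
  have hdnq : IsCoprime d (n * q.asIdeal) := by
    apply hdn.mul_right
    rw [isCoprime_comm]
    exact coprime_prime_iff.2 hdq
  refine ⟨uI d hd0, coe_mem_primeTo (coe_uI d hd0) hdnq, ?_⟩
  refine ⟨(z : K) / (b : K), ⟨z, b, coprime_span_of_sub_one_mem hb1, ?_, rfl⟩, ?_, ?_⟩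
  · have : z - b = (z - 1) - (b - 1) := by ring
    rw [this]; exact n.sub_mem hz4 hb1
  · rw [map_div₀]; exact div_pos hz2 hb2
  · have hsb : FractionalIdeal.spanSingleton (𝓞 K)⁰ (b : K) ≠ 0 := by
      rwa [Ne, FractionalIdeal.spanSingleton_eq_zero_iff]
    apply mul_left_cancel₀ hsb
    rw [FractionalIdeal.spanSingleton_mul_spanSingleton, mul_div_cancel₀ _ hb0', Units.val_mul,
      coe_uI, ← mul_assoc, hbc, ← FractionalIdeal.coeIdeal_mul, ← hd, coe_span_singleton]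

/-- splitting an element of the ray -/
lemma exists_split {n : Ideal (𝓞 K)} (hn : n ≠ ⊥) (q q' : HeightOneSpectrum (𝓞 K))
    (hq' : ¬ q'.asIdeal ∣ n) (hqq' : q ≠ q') {J : (FI K)ˣ}
    (hJ : J ∈ primeTo (n * q.asIdeal * q'.asIdeal)) (hray : InRay σ₂ n J) :
    ∃ J₁ ∈ primeTo (K := K) (n * q.asIdeal * q'.asIdeal),
      ∃ J₂ ∈ primeTo (K := K) (n * q.asIdeal * q'.asIdeal),
      J = J₁ * J₂ ∧ InRay σ₂ (n * q.asIdeal) J₁ ∧ InRay σ₂ (n * q'.asIdeal) J₂ := by
  have hN : n * q.asIdeal * q'.asIdeal ≠ ⊥ := mul_ne_bot' (mul_ne_bot' hn q.ne_bot) q'.ne_bot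
  obtain ⟨a, b, ha, hb, hab, ha0, hb0, hpos, hJe⟩ := rep hN hJ hray
  have hle : n * q.asIdeal * q'.asIdeal ≤ q'.asIdeal := Ideal.mul_le_right
  have hbq' : IsCoprime (Ideal.span {b}) q'.asIdeal := isCoprime_of_le hb hle
  have haq' : IsCoprime (Ideal.span {a}) q'.asIdeal := isCoprime_of_le ha hle
  obtain ⟨x, hx, y, hy, hxy⟩ := Ideal.isCoprime_iff_exists.1 hbq'
  obtain ⟨b', rfl⟩ := Ideal.mem_span_singleton'.1 hx
  have hqn : IsCoprime (n * q.asIdeal) q'.asIdeal := by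
    apply IsCoprime.mul_left
    · rw [isCoprime_comm]; exact coprime_prime_iff.2 hq'
    · rw [coprime_prime_iff]
      intro hd
      apply hqq'
      apply HeightOneSpectrum.ext
      exact (q'.isMaximal.eq_of_le q.isPrime.ne_top (Ideal.dvd_iff_le.1 hd)).symm
  obtain ⟨β₀, h1, h2⟩ := exists_crt hqn 1 (b' * a)
  obtain ⟨β, h3, h4⟩ := exists_pos σ₂ hN β₀
  have h5 : β - 1 ∈ n * q.asIdeal := by
    have : β - 1 = (β - β₀) + (β₀ - 1) := by ring
    rw [this]
    exact (n * q.asIdeal).add_mem (Ideal.mul_le_left h3) h1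
  have h6 : a - b * β ∈ q'.asIdeal := by
    have : a - b * β = -(b * (β - β₀)) - b * (β₀ - b' * a) + y * a := by
      linear_combination (-a) * hxy
    rw [this]
    apply q'.asIdeal.add_mem
    · apply q'.asIdeal.sub_mem
      · exact q'.asIdeal.neg_mem (q'.asIdeal.mul_mem_left _ (hle h3))
      · exact q'.asIdeal.mul_mem_left _ h2
    · exact q'.asIdeal.mul_mem_right _ hy
  have hβ0 : β ≠ 0 := ne_zero_of_pos h4
  have hβ0' : (β : K) ≠ 0 := coe_ne_zero' hβ0
  have hb0' : (b : K) ≠ 0 := coe_ne_zero' hb0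
  have ha0' : (a : K) ≠ 0 := coe_ne_zero' ha0
  have hβnq : IsCoprime (Ideal.span {β}) (n * q.asIdeal) := coprime_span_of_sub_one_mem h5
  have hβq' : IsCoprime (Ideal.span {β}) q'.asIdeal := by
    have h7 : IsCoprime (Ideal.span {b * β}) q'.asIdeal := by
      apply coprime_of_sub_mem haq'
      have : b * β - a = -(a - b * β) := by ring
      rw [this]; exact q'.asIdeal.neg_mem h6
    rw [← Ideal.span_singleton_mul_span_singleton] at h7
    exact h7.of_mul_left_right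
  have hβN : IsCoprime (Ideal.span {β}) (n * q.asIdeal * q'.asIdeal) := hβnq.mul_right hβq'
  have hJ₁ : uP (β : K) hβ0' ∈ primeTo (K := K) (n * q.asIdeal * q'.asIdeal) :=
    coe_mem_primeTo (I := Ideal.span {β}) (by rw [coe_uP, coe_span_singleton]) hβN
  refine ⟨uP (β : K) hβ0', hJ₁, J * (uP (β : K) hβ0')⁻¹,
    (primeTo _).mul_mem hJ ((primeTo _).inv_mem hJ₁), ?_, ?_, ?_⟩
  · rw [mul_comm J, mul_inv_cancel_left]
  · exact ⟨β, oneMod_of_sub_one_mem h5, h4, coe_uP _ _⟩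
  · refine ⟨(a : K) / ((b * β : 𝓞 K) : K), ⟨a, b * β, ?_, ?_, rfl⟩, ?_, ?_⟩
    · rw [← Ideal.span_singleton_mul_span_singleton]
      apply IsCoprime.mul_left
      · apply isCoprime_of_le hb
        rw [mul_assoc, mul_comm q.asIdeal, ← mul_assoc]
        exact Ideal.mul_le_left
      · exact (isCoprime_of_le hβnq Ideal.mul_le_left).mul_right hβq'
    · have hcop : IsCoprime n q'.asIdeal := by
        rw [isCoprime_comm]; exact coprime_prime_iff.2 hq'
      rw [Ideal.mul_eq_inf_of_isCoprime hcop]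
      refine ⟨?_, h6⟩
      have : a - b * β = (a - b) - b * (β - 1) := by ring
      rw [this]
      exact n.sub_mem hab (n.mul_mem_left _ (Ideal.mul_le_left h5))
    · have : (a : K) / ((b * β : 𝓞 K) : K) = ((a : K) / (b : K)) / (β : K) := by
        simp only [RingOfIntegers.coe_eq_algebraMap, map_mul]
        rw [div_div]
      rw [this, map_div₀]
      exact div_pos hpos h4
    · rw [Units.val_mul, Units.val_inv_eq_inv_val, coe_uP, hJe, FractionalIdeal.spanSingleton_inv,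
        FractionalIdeal.spanSingleton_mul_spanSingleton]
      congr 1
      simp only [RingOfIntegers.coe_eq_algebraMap, map_mul]
      rw [← div_eq_mul_inv, div_div]

/-- a group theoretic consequence of units being squares -/
lemma isSquare_of_odd {n : Ideal (𝓞 K)} (hn : n ≠ ⊥) (q : HeightOneSpectrum (𝓞 K))
    (hq : ¬ q.asIdeal ∣ n)
    (hu : ∀ u : (𝓞 K)ˣ, (u : 𝓞 K) - 1 ∈ n → 0 < σ₂ ((u : 𝓞 K) : K) →
      IsSquare (Ideal.Quotient.mk q.asIdeal (u : 𝓞 K)))
    {N : ℕ} (hN : Odd N)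
    (h : ∀ J ∈ primeTo (K := K) (n * q.asIdeal), InRay σ₂ n J → InRay σ₂ (n * q.asIdeal) (J ^ N)) :
    ∀ x : 𝓞 K ⧸ q.asIdeal, IsSquare x := by
  have := q.isMaximal
  let : Field (𝓞 K ⧸ q.asIdeal) := Ideal.Quotient.field q.asIdeal
  intro x
  obtain ⟨a, rfl⟩ := Ideal.Quotient.mk_surjective x
  by_cases ha : Ideal.Quotient.mk q.asIdeal a = 0
  · rw [ha]; exact ⟨0, by simp⟩
  have hqn : IsCoprime q.asIdeal n := coprime_prime_iff.2 hq
  obtain ⟨y, hy1, hy2⟩ := exists_crt hqn a 1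
  obtain ⟨z, hz1, hz2⟩ := exists_pos σ₂ (mul_ne_bot' q.ne_bot hn) y
  have hz3 : z - a ∈ q.asIdeal := by
    have : z - a = (z - y) + (y - a) := by ring
    rw [this]
    exact q.asIdeal.add_mem (Ideal.mul_le_left hz1) hy1
  have hz4 : z - 1 ∈ n := by
    have : z - 1 = (z - y) + (y - 1) := by ring
    rw [this]
    exact n.add_mem (Ideal.mul_le_right hz1) hy2
  have hza : Ideal.Quotient.mk q.asIdeal z = Ideal.Quotient.mk q.asIdeal a := Ideal.Quotient.eq.2 hz3
  have hz0 : z ≠ 0 := ne_zero_of_pos hz2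
  have hz0' : (z : K) ≠ 0 := coe_ne_zero' hz0
  have hzq : IsCoprime (Ideal.span {z}) q.asIdeal := by
    rw [isCoprime_comm, coprime_prime_iff, Ideal.dvd_iff_le, Ideal.span_singleton_le_iff_mem]
    intro hmem
    apply ha
    rw [← hza]
    exact Ideal.Quotient.eq_zero_iff_mem.2 hmem
  have hzn : IsCoprime (Ideal.span {z}) (n * q.asIdeal) :=
    (coprime_span_of_sub_one_mem hz4).mul_right hzq
  have hJ : uP (z : K) hz0' ∈ primeTo (K := K) (n * q.asIdeal) :=
    coe_mem_primeTo (I := Ideal.span {z}) (by rw [coe_uP, coe_span_singleton]) hzn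
  obtain ⟨γ, ⟨c, d, hd, hcd, rfl⟩, hγ, hJγ⟩ := h _ hJ
    ⟨z, oneMod_of_sub_one_mem hz4, hz2, coe_uP _ _⟩
  have hγ0 : (c : K) / (d : K) ≠ 0 := by
    intro h0
    rw [h0, map_zero] at hγ
    exact lt_irrefl _ hγ
  have hd0' : (d : K) ≠ 0 := fun h0 => hγ0 (by rw [h0, div_zero])
  have hc0' : (c : K) ≠ 0 := fun h0 => hγ0 (by rw [h0, zero_div])
  -- compare generators
  rw [Units.val_pow_eq_pow_val, coe_uP, FractionalIdeal.spanSingleton_pow] at hJγ
  have hspan : Ideal.span {d * z ^ N} = Ideal.span {c} := by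
    apply FractionalIdeal.coeIdeal_injective (R := 𝓞 K) (K := K)
    simp only
    rw [coe_span_singleton, coe_span_singleton]
    have e1 : ((d * z ^ N : 𝓞 K) : K) = (d : K) * (z : K) ^ N := by
      simp only [RingOfIntegers.coe_eq_algebraMap, map_mul, map_pow]
    rw [e1, ← FractionalIdeal.spanSingleton_mul_spanSingleton, hJγ,
      FractionalIdeal.spanSingleton_mul_spanSingleton]
    congr 1
    field_simp
  obtain ⟨u, hu'⟩ := Ideal.span_singleton_eq_span_singleton.1 hspan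
  -- `c = d z ^ N u`
  have hnd : IsCoprime (Ideal.span {d}) n := isCoprime_of_le hd Ideal.mul_le_left
  have hzN : z ^ N - 1 ∈ n := by
    have h1 : z - 1 ∣ z ^ N - 1 := by simpa using sub_dvd_pow_sub_pow z 1 N
    exact n.mem_of_dvd h1 hz4
  have hu1 : (u : 𝓞 K) - 1 ∈ n := by
    have e1 : d * ((u : 𝓞 K) - 1) = (c - d) - d * u * (z ^ N - 1) := by
      rw [← hu']; ring
    have e2 : d * ((u : 𝓞 K) - 1) ∈ n := by
      rw [e1]
      exact n.sub_mem (Ideal.mul_le_left hcd) (n.mul_mem_left _ hzN)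
    obtain ⟨x, hx, y, hy, hxy⟩ := Ideal.isCoprime_iff_exists.1 hnd
    obtain ⟨w, rfl⟩ := Ideal.mem_span_singleton'.1 hx
    have e3 : (u : 𝓞 K) - 1 = w * (d * ((u : 𝓞 K) - 1)) + ((u : 𝓞 K) - 1) * y := by
      linear_combination (-((u : 𝓞 K) - 1)) * hxy
    rw [e3]
    exact n.add_mem (n.mul_mem_left _ e2) (n.mul_mem_left _ hy)
  have hupos : 0 < σ₂ ((u : 𝓞 K) : K) := by
    have e1 : (c : K) / (d : K) = (z : K) ^ N * ((u : 𝓞 K) : K) := by
      rw [div_eq_iff hd0', ← hu']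
      simp only [RingOfIntegers.coe_eq_algebraMap, map_mul, map_pow]
      ring
    rw [e1, map_mul, map_pow] at hγ
    exact (pos_iff_pos_of_mul_pos hγ).1 (pow_pos hz2 N)
  obtain ⟨w, hw⟩ := hu u hu1 hupos
  -- work in the residue field
  set π := Ideal.Quotient.mk q.asIdeal with hπ
  have hdπ : π d ≠ 0 := by
    intro h0
    rw [hπ, Ideal.Quotient.eq_zero_iff_mem] at h0
    have h1 : IsCoprime (Ideal.span {d}) q.asIdeal := isCoprime_of_le hd Ideal.mul_le_right
    rw [isCoprime_comm, coprime_prime_iff, Ideal.dvd_iff_le, Ideal.span_singleton_le_iff_mem] at h1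
    exact h1 h0
  have hcd' : π c = π d := Ideal.Quotient.eq.2 (Ideal.mul_le_right hcd)
  have e1 : π d * π z ^ N * π u = π c := by
    rw [← hu', map_mul, map_mul, map_pow]
  have e2 : π z ^ N * π u = 1 := by
    rw [hcd', mul_assoc] at e1
    exact mul_left_cancel₀ hdπ (by rw [e1, mul_one])
  obtain ⟨k, hk⟩ := hN
  have hz0π : π z ≠ 0 := by rw [hza]; exact ha
  have hw0 : w ≠ 0 := by
    rintro rfl
    rw [mul_zero] at hw
    rw [hw, mul_zero] at e2
    exact zero_ne_one e2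
  rw [← hza]
  refine ⟨(π z ^ k)⁻¹ * w⁻¹, ?_⟩
  have e3 : π z * (π z ^ k * π z ^ k) * (w * w) = 1 := by
    rw [← hw, ← e2, hk]
    ring
  have hzk : π z ^ k ≠ 0 := pow_ne_zero _ hz0π
  field_simp
  field_simp at e3
  linear_combination e3

end adding

end Pool.Agent.ST
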