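import Pool.Agent.Lib.MP_1ef7cf_nt.RCG3

/-!
# Real quadratic fields
-/

open NumberField IsDedekindDomain nonZeroDivisors

namespace Pool.Agent.ST

section rq

variable {K : Type*} [Field K] [NumberField K] [Algebra K ℝ] {σ₂ : K →+* ℝ}

/-- the first embedding -/
abbrev sg1 (K : Type*) [Field K] [Algebra K ℝ] : K →+* ℝ := algebraMap K ℝ

lemma exists_rat_of_eq (h2 : Module.finrank ℚ K = 2) (hσ : σ₂ ≠ sg1 K) {x : K}
    (hx : sg1 K x = σ₂ x) : ∃ r : ℚ, x = algebraMap ℚ K r := by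
  have := IntermediateField.isSimpleOrder_of_finrank_prime ℚ K (by rw [h2]; exact Nat.prime_two)
  let E : IntermediateField ℚ K :=
    Subfield.toIntermediateField (RingHom.eqLocusField (sg1 K) σ₂) (by
      intro r
      rw [RingHom.mem_eqLocusField]
      simp)
  rcases eq_bot_or_eq_top E with h | h
  · have h1 : x ∈ E := hx
    rw [h, IntermediateField.mem_bot] at h1
    obtain ⟨r, hr⟩ := h1
    exact ⟨r, hr.symm⟩
  · exfalso
    apply hσ
    ext y
    have h1 : y ∈ E := by rw [h]; exact IntermediateField.mem_top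
    exact h1.symm

/-- embeddings into the complex numbers -/
noncomputable def cemb (φ : K →+* ℝ) : K →ₐ[ℚ] ℂ := (Complex.ofRealHom.comp φ).toRatAlgHom

omit [NumberField K] [Algebra K ℝ] in
lemma cemb_apply [CharZero K] (φ : K →+* ℝ) (x : K) :
    (Complex.ofRealHom.comp φ).toRatAlgHom x = (φ x : ℂ) := rfl

lemma norm_eq (h2 : Module.finrank ℚ K = 2) (hσ : σ₂ ≠ sg1 K) (x : K) :
    ((Algebra.norm ℚ x : ℚ) : ℝ) = sg1 K x * σ₂ x := by
  classical
  have h1 := Algebra.norm_eq_prod_embeddings ℚ ℂ x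
  have hne : cemb (sg1 K) ≠ cemb σ₂ := by
    intro h
    apply hσ
    ext y
    have := DFunLike.congr_fun h y
    have h3 : ((sg1 K y : ℝ) : ℂ) = (σ₂ y : ℂ) := this
    exact_mod_cast h3.symm
  have huniv : (Finset.univ : Finset (K →ₐ[ℚ] ℂ)) = {cemb (sg1 K), cemb σ₂} := by
    symm
    apply Finset.eq_of_subset_of_card_le (Finset.subset_univ _)
    rw [Finset.card_univ, AlgHom.card, h2, Finset.card_pair hne]
  rw [huniv, Finset.prod_pair hne] at h1
  have h3 : ((Algebra.norm ℚ x : ℚ) : ℂ) = ((sg1 K x * σ₂ x : ℝ) : ℂ) := by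
    rw [Complex.ofReal_mul]
    exact h1
  exact_mod_cast h3

lemma absNorm_eq (h2 : Module.finrank ℚ K = 2) (hσ : σ₂ ≠ sg1 K) (x : 𝓞 K) :
    (Ideal.absNorm (Ideal.span {x}) : ℝ) = |sg1 K (x : K) * σ₂ (x : K)| := by
  rw [Ideal.absNorm_span_singleton, ← norm_eq h2 hσ, Nat.cast_natAbs, Int.cast_abs]
  congr 1
  have := Algebra.coe_norm_int (K := K) x
  rw [← this]
  push_cast
  rfl

lemma one_le_abs (h2 : Module.finrank ℚ K = 2) (hσ : σ₂ ≠ sg1 K) {x : 𝓞 K} (hx : x ≠ 0) :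
    1 ≤ |sg1 K (x : K) * σ₂ (x : K)| := by
  rw [← absNorm_eq h2 hσ]
  have : Ideal.absNorm (Ideal.span {x}) ≠ 0 := by
    rw [Ne, Ideal.absNorm_eq_zero_iff, Ideal.span_singleton_eq_bot]; exact hx
  exact_mod_cast Nat.one_le_iff_ne_zero.2 this

lemma unit_abs (h2 : Module.finrank ℚ K = 2) (hσ : σ₂ ≠ sg1 K) (u : (𝓞 K)ˣ) :
    |sg1 K ((u : 𝓞 K) : K) * σ₂ ((u : 𝓞 K) : K)| = 1 := by
  rw [← absNorm_eq h2 hσ]
  have : Ideal.span {(u : 𝓞 K)} = ⊤ := Ideal.span_singleton_eq_top.2 u.isUnit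
  rw [this, ← Ideal.one_eq_top, map_one, Nat.cast_one]

/-- the determinant of two independent elements is nonzero -/
lemma det_ne_zero (h2 : Module.finrank ℚ K = 2) (hσ : σ₂ ≠ sg1 K) {x y : K}
    (h : ∀ a b : ℚ, algebraMap ℚ K a * x + algebraMap ℚ K b * y = 0 → a = 0 ∧ b = 0) :
    sg1 K x * σ₂ y - σ₂ x * sg1 K y ≠ 0 := by
  intro h0
  have hx : x ≠ 0 := by
    rintro rfl
    have := h 1 0 (by simp)
    exact one_ne_zero this.1
  have h3 : sg1 K (y / x) = σ₂ (y / x) := by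
    have hx1 : sg1 K x ≠ 0 := (map_ne_zero _).2 hx
    have hx2 : σ₂ x ≠ 0 := (map_ne_zero _).2 hx
    rw [map_div₀, map_div₀, div_eq_div_iff hx1 hx2]
    linarith
  obtain ⟨r, hr⟩ := exists_rat_of_eq h2 hσ h3
  rw [div_eq_iff hx] at hr
  have := h (-r) 1 (by rw [hr, map_neg, map_one]; ring)
  exact one_ne_zero this.2

end rq

section units

variable {K : Type*} [Field K] [NumberField K] [Algebra K ℝ] {σ₂ : K →+* ℝ}

lemma unit_eq_of_isOfFinOrder {u : (𝓞 K)ˣ} (hu : IsOfFinOrder u) : u = 1 ∨ u = -1 := by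
  obtain ⟨n, hn, hun⟩ := isOfFinOrder_iff_pow_eq_one.1 hu
  have h1 : (sg1 K ((u : 𝓞 K) : K)) ^ n = 1 := by
    rw [← map_pow]
    have : (((u : 𝓞 K) : K)) ^ n = 1 := by
      have h3 : ((u ^ n : (𝓞 K)ˣ) : 𝓞 K) = 1 := by rw [hun, Units.val_one]
      rw [Units.val_pow_eq_pow_val] at h3
      have h4 := congrArg (algebraMap (𝓞 K) K) h3
      rw [map_pow, map_one] at h4
      exact h4
    rw [this, map_one]
  have h2 : |sg1 K ((u : 𝓞 K) : K)| = 1 := by
    have := congrArg abs h1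
    rw [abs_pow, abs_one] at this
    exact (pow_eq_one_iff_of_nonneg (abs_nonneg _) hn.ne').1 this
  rcases (abs_eq zero_le_one).1 h2 with h | h
  · left
    apply Units.ext
    apply RingOfIntegers.coe_injective
    apply (sg1 K).injective
    rw [Units.val_one, map_one, map_one]
    exact h
  · right
    apply Units.ext
    apply RingOfIntegers.coe_injective
    apply (sg1 K).injective
    rw [Units.val_neg, Units.val_one, map_neg, map_neg, map_one, map_one]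
    exact h

lemma rank_eq_one (h2 : Module.finrank ℚ K = 2) : Units.rank K = 1 := by
  have h1 := InfinitePlace.card_add_two_mul_card_eq_rank K
  have h3 := InfinitePlace.card_eq_nrRealPlaces_add_nrComplexPlaces K
  have h4 : 0 < InfinitePlace.nrRealPlaces K := by
    classical
    have hne : Nonempty {w : InfinitePlace K // w.IsReal} := by
      refine ⟨⟨InfinitePlace.mk (Complex.ofRealHom.comp (sg1 K)), ?_⟩⟩
      rw [InfinitePlace.isReal_mk_iff]
      ext x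
      simp
    unfold InfinitePlace.nrRealPlaces
    exact Fintype.card_pos_iff.2 hne
  unfold Units.rank
  rw [h3]
  omega

lemma exists_fund (h2 : Module.finrank ℚ K = 2) : ∃ ε₀ : (𝓞 K)ˣ,
    (∀ u : (𝓞 K)ˣ, ∃ k : ℤ, u = ε₀ ^ k ∨ u = -ε₀ ^ k) ∧
    (∀ k : ℤ, (ε₀ ^ k = 1 ∨ ε₀ ^ k = -1) → k = 0) := by
  have hr := rank_eq_one h2
  have : Unique (Fin (Units.rank K)) := by rw [hr]; infer_instance
  refine ⟨Units.fundSystem K default, ?_, ?_⟩
  · intro u
    obtain ⟨⟨ζ, e⟩, he, -⟩ := Units.exist_unique_eq_mul_prod K u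
    simp only [Fintype.prod_unique] at he
    refine ⟨e default, ?_⟩
    rcases unit_eq_of_isOfFinOrder (K := K) ((CommGroup.mem_torsion _).1 ζ.2) with h | h
    · left; rw [he, h, one_mul]
    · right; rw [he, h, neg_one_mul]
  · intro k hk
    have hk2 : (Units.fundSystem K default) ^ (2 * k) = 1 := by
      rw [mul_comm, zpow_mul]
      rcases hk with h | h <;> rw [h] <;> norm_num
    obtain ⟨⟨ζ, e⟩, -, huniq⟩ := Units.exist_unique_eq_mul_prod K 1
    have e1 := huniq (1, fun _ => 2 * k) (by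
      simp only [Fintype.prod_unique, OneMemClass.coe_one, one_mul]
      exact hk2.symm)
    have e2 := huniq (1, fun _ => 0) (by simp)
    have e3 := e1.trans e2.symm
    have e4 := congrFun (congrArg Prod.snd e3) default
    simp only at e4
    omega

/-- The unit group `E_n`. -/
def EU (σ₂ : K →+* ℝ) (n : Ideal (𝓞 K)) (u : (𝓞 K)ˣ) : Prop :=
  (u : 𝓞 K) - 1 ∈ n ∧ 0 < σ₂ ((u : 𝓞 K) : K)

omit [NumberField K] [Algebra K ℝ] in
lemma EU.mul {n : Ideal (𝓞 K)} {u v : (𝓞 K)ˣ} (hu : EU σ₂ n u) (hv : EU σ₂ n v) :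
    EU σ₂ n (u * v) := by
  refine ⟨?_, ?_⟩
  · have : ((u * v : (𝓞 K)ˣ) : 𝓞 K) - 1 = (u : 𝓞 K) * ((v : 𝓞 K) - 1) + ((u : 𝓞 K) - 1) := by
      rw [Units.val_mul]; ring
    rw [this]
    exact n.add_mem (n.mul_mem_left _ hv.1) hu.1
  · rw [Units.val_mul]
    simp only [map_mul]
    exact mul_pos hu.2 hv.2

omit [NumberField K] [Algebra K ℝ] in
lemma EU.inv {n : Ideal (𝓞 K)} {u : (𝓞 K)ˣ} (hu : EU σ₂ n u) : EU σ₂ n u⁻¹ := by
  refine ⟨?_, ?_⟩
  · have : ((u⁻¹ : (𝓞 K)ˣ) : 𝓞 K) - 1 = -(((u⁻¹ : (𝓞 K)ˣ) : 𝓞 K) * ((u : 𝓞 K) - 1)) := by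
      rw [mul_sub, Units.inv_mul]; ring
    rw [this]
    exact n.neg_mem (n.mul_mem_left _ hu.1)
  · have h1 : ((u⁻¹ : (𝓞 K)ˣ) : 𝓞 K) * (u : 𝓞 K) = 1 := Units.inv_mul u
    have h2 := congrArg (fun x : 𝓞 K => σ₂ (algebraMap (𝓞 K) K x)) h1
    simp only [map_mul, map_one] at h2
    have h3 : 0 < σ₂ (algebraMap (𝓞 K) K ((u⁻¹ : (𝓞 K)ˣ) : 𝓞 K)) *
      σ₂ (algebraMap (𝓞 K) K (u : 𝓞 K)) := by rw [h2]; norm_num
    exact (pos_iff_pos_of_mul_pos h3).2 hu.2

omit [NumberField K] [Algebra K ℝ] in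
lemma EU.one {n : Ideal (𝓞 K)} : EU σ₂ n (1 : (𝓞 K)ˣ) := by
  refine ⟨by simp, by simp⟩

omit [NumberField K] [Algebra K ℝ] in
lemma EU.zpow {n : Ideal (𝓞 K)} {u : (𝓞 K)ˣ} (hu : EU σ₂ n u) (k : ℤ) : EU σ₂ n (u ^ k) := by
  have hnat : ∀ j : ℕ, EU σ₂ n (u ^ j) := by
    intro j
    induction j with
    | zero => rw [pow_zero]; exact EU.one
    | succ j ih => rw [pow_succ]; exact ih.mul hu
  rcases Int.eq_nat_or_neg k with ⟨j, rfl | rfl⟩
  · rw [zpow_natCast]; exact hnat j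
  · rw [zpow_neg, zpow_natCast]; exact (hnat j).inv

omit [NumberField K] [Algebra K ℝ] in
lemma EU.eq_one {n : Ideal (𝓞 K)} {u : (𝓞 K)ˣ} (hu : EU σ₂ n u) (h : u = 1 ∨ u = -1) : u = 1 := by
  rcases h with h | h
  · exact h
  · exfalso
    have := hu.2
    rw [h, Units.val_neg, Units.val_one] at this
    simp only [map_neg, map_one] at this
    linarith

/-- Structure of the unit group `E_n`: it is infinite cyclic. -/
theorem exists_gen (σ₂ : K →+* ℝ) (h2 : Module.finrank ℚ K = 2) {n : Ideal (𝓞 K)}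
    (hn : n ≠ ⊥) : ∃ η : (𝓞 K)ˣ, EU σ₂ n η ∧ 1 < |sg1 K ((η : 𝓞 K) : K)| ∧
      (∀ u : (𝓞 K)ˣ, EU σ₂ n u → ∃ k : ℤ, u = η ^ k) := by
  obtain ⟨ε₀, hε1, hε2⟩ := exists_fund (K := K) h2
  let S : AddSubgroup ℤ :=
    { carrier := {k | EU σ₂ n (ε₀ ^ k) ∨ EU σ₂ n (-ε₀ ^ k)}
      zero_mem' := by
        left; rw [zpow_zero]; exact EU.one
      add_mem' := by
        rintro a b (ha | ha) (hb | hb)
        · left; rw [zpow_add]; exact ha.mul hb
        · right; rw [zpow_add, ← mul_neg]; exact ha.mul hb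
        · right; rw [zpow_add, ← neg_mul]; exact ha.mul hb
        · left; rw [zpow_add, ← neg_mul_neg]; exact ha.mul hb
      neg_mem' := by
        rintro a (ha | ha)
        · left; rw [zpow_neg]; exact ha.inv
        · right; rw [zpow_neg, ← inv_neg]; exact ha.inv }
  obtain ⟨d, hd⟩ := Int.subgroup_cyclic S
  have hmemS : ∀ k : ℤ, k ∈ S ↔ ∃ j : ℤ, j * d = k := by
    intro k
    rw [hd, AddSubgroup.mem_closure_singleton]
    simp only [smul_eq_mul]
  have hdS : d ∈ S := (hmemS d).2 ⟨1, one_mul d⟩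
  -- `S` is nontrivial
  have hd0 : d ≠ 0 := by
    rintro rfl
    have : Finite (𝓞 K ⧸ n) := Ideal.finiteQuotientOfFreeOfNeBot n hn
    have : Finite (𝓞 K ⧸ n)ˣ := inferInstance
    obtain ⟨N, hN, hN1⟩ := isOfFinOrder_iff_pow_eq_one.1
      (isOfFinOrder_of_finite (Units.map (Ideal.Quotient.mk n).toMonoidHom ε₀))
    have h3 : ((ε₀ : 𝓞 K)) ^ N - 1 ∈ n := by
      rw [← Ideal.Quotient.eq_zero_iff_mem, map_sub, map_pow, map_one, sub_eq_zero]
      have := congrArg Units.val hN1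
      rw [Units.val_pow_eq_pow_val, Units.val_one] at this
      exact this
    have h4 : EU σ₂ n (ε₀ ^ ((2 * N : ℕ) : ℤ)) := by
      rw [zpow_natCast]
      refine ⟨?_, ?_⟩
      · rw [Units.val_pow_eq_pow_val]
        have : (ε₀ : 𝓞 K) ^ (2 * N) - 1 = ((ε₀ : 𝓞 K) ^ N + 1) * ((ε₀ : 𝓞 K) ^ N - 1) := by ring
        rw [this]; exact n.mul_mem_left _ h3
      · rw [Units.val_pow_eq_pow_val, pow_mul']
        simp only [map_pow]
        apply sq_pos_of_ne_zero
        apply pow_ne_zero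
        exact (map_ne_zero σ₂).2 (coe_ne_zero' ε₀.ne_zero)
    have h5 : ((2 * N : ℕ) : ℤ) ∈ S := Or.inl h4
    obtain ⟨j, hj⟩ := (hmemS _).1 h5
    rw [mul_zero] at hj
    have : (2 * N : ℕ) = 0 := by exact_mod_cast hj.symm
    omega
  -- the generator
  obtain ⟨η, hη, hηd⟩ : ∃ η : (𝓞 K)ˣ, EU σ₂ n η ∧ (η = ε₀ ^ d ∨ η = -ε₀ ^ d) := by
    rcases hdS with h | h
    · exact ⟨_, h, Or.inl rfl⟩
    · exact ⟨_, h, Or.inr rfl⟩
  have hgen : ∀ u : (𝓞 K)ˣ, EU σ₂ n u → ∃ k : ℤ, u = η ^ k := by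
    intro u hu
    obtain ⟨k, hk⟩ := hε1 u
    have hkS : k ∈ S := by
      rcases hk with h | h
      · left; rw [← h]; exact hu
      · right; rw [← h]; exact hu
    obtain ⟨j, hj⟩ := (hmemS k).1 hkS
    refine ⟨j, ?_⟩
    have h3 : EU σ₂ n (u * (η ^ j)⁻¹) := hu.mul (hη.zpow j).inv
    have h4 : u * (η ^ j)⁻¹ = 1 ∨ u * (η ^ j)⁻¹ = -1 := by
      have h5 : η ^ j = ε₀ ^ k ∨ η ^ j = -ε₀ ^ k := by
        rcases hηd with h | h
        · left; rw [h, ← zpow_mul, mul_comm, hj]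
        · rw [h]
          rcases Int.even_or_odd j with hj2 | hj2
          · left; rw [hj2.neg_zpow, ← zpow_mul, mul_comm, hj]
          · right; rw [hj2.neg_zpow, ← zpow_mul, mul_comm, hj]
      rcases hk with h | h <;> rcases h5 with h6 | h6 <;> rw [h, h6]
      · left; rw [mul_inv_cancel]
      · right; rw [inv_neg, mul_neg, mul_inv_cancel]
      · right; rw [neg_mul, mul_inv_cancel]
      · left; rw [inv_neg, neg_mul_neg, mul_inv_cancel]
    have := h3.eq_one h4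
    rwa [mul_inv_eq_one] at this
  have habs : |sg1 K ((η : 𝓞 K) : K)| ≠ 1 := by
    intro h
    have h3 : η = 1 ∨ η = -1 := by
      rcases (abs_eq zero_le_one).1 h with h4 | h4
      · left
        apply Units.ext
        apply RingOfIntegers.coe_injective
        apply (sg1 K).injective
        rw [Units.val_one, map_one, map_one]
        exact h4
      · right
        apply Units.ext
        apply RingOfIntegers.coe_injective
        apply (sg1 K).injective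
        rw [Units.val_neg, Units.val_one, map_neg, map_neg, map_one, map_one]
        exact h4
    apply hd0
    apply hε2
    rcases hηd with h4 | h4 <;> rcases h3 with h5 | h5 <;> rw [h5] at h4
    · left; exact h4.symm
    · right; exact h4.symm
    · right; rw [h4, neg_neg]
    · left; rw [neg_inj] at h4; exact h4.symm
  rcases lt_or_gt_of_ne habs with h | h
  · refine ⟨η⁻¹, hη.inv, ?_, ?_⟩
    · have h1 : ((η⁻¹ : (𝓞 K)ˣ) : 𝓞 K) * (η : 𝓞 K) = 1 := Units.inv_mul η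
      have h3 := congrArg (fun x : 𝓞 K => |sg1 K (algebraMap (𝓞 K) K x)|) h1
      simp only [map_mul, map_one, abs_mul, abs_one] at h3
      have h4 : 0 < |sg1 K ((η : 𝓞 K) : K)| := by
        rw [abs_pos, Ne, map_eq_zero]
        exact coe_ne_zero' η.ne_zero
      have h5 : |sg1 K (((η⁻¹ : (𝓞 K)ˣ) : 𝓞 K) : K)| = |sg1 K ((η : 𝓞 K) : K)|⁻¹ :=
        eq_inv_of_mul_eq_one_left h3
      rw [h5]
      exact (one_lt_inv₀ h4).2 h
    · intro u hu
      obtain ⟨k, hk⟩ := hgen u hu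
      exact ⟨-k, by rw [hk, inv_zpow, zpow_neg, inv_inv]⟩
  · exact ⟨η, hη, h, hgen⟩

end units

end Pool.Agent.ST
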