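import Mathlib

/-!
Two-dimensional theta series attached to a coset of a planar lattice.
-/

open HurwitzZeta

namespace Pool.Agent.ST

/-- a coset of a lattice in the plane, with a basis -/
structure Lat where
  a1 : ℝ
  a2 : ℝ
  b1 : ℝ
  b2 : ℝ
  c1 : ℝ
  c2 : ℝ
  det_ne : a1 * b2 - a2 * b1 ≠ 0

namespace Lat

variable (L : Lat)

/-- the determinant -/
def det : ℝ := L.a1 * L.b2 - L.a2 * L.b1

lemma det_ne' : L.det ≠ 0 := L.det_ne

/-- first coordinate -/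
def x1 (n : ℤ × ℤ) : ℝ := L.c1 + n.1 * L.b1 + n.2 * L.a1

/-- second coordinate -/
def x2 (n : ℤ × ℤ) : ℝ := L.c2 + n.1 * L.b2 + n.2 * L.a2

/-- leading coefficient -/
noncomputable def A (E : ℝ) : ℝ := E * L.a1 ^ 2 + E⁻¹ * L.a2 ^ 2

/-- the quadratic form -/
noncomputable def Q (E : ℝ) (n : ℤ × ℤ) : ℝ := E * L.x1 n ^ 2 + E⁻¹ * L.x2 n ^ 2

lemma A_pos {E : ℝ} (hE : 0 < E) : 0 < L.A E := by
  unfold A
  have hE' : 0 < E⁻¹ := by positivity
  by_cases h1 : L.a1 = 0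
  · have h2 : L.a2 ≠ 0 := by
      intro h2
      apply L.det_ne
      rw [h1, h2]; ring
    have : 0 < L.a2 ^ 2 := by positivity
    positivity
  · have : 0 < L.a1 ^ 2 := by positivity
    positivity

/-- centre -/
noncomputable def mu (E : ℝ) (b : ℤ) : ℝ :=
  (E * L.a1 * (L.c1 + b * L.b1) + E⁻¹ * L.a2 * (L.c2 + b * L.b2)) / L.A E

/-- shift of the second variable -/
noncomputable def nu : ℝ := (L.a1 * L.c2 - L.a2 * L.c1) / L.det

lemma Q_eq {E : ℝ} (hE : 0 < E) (b a : ℤ) :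
    L.Q E (b, a) = L.A E * (a + L.mu E b) ^ 2 + (b + L.nu) ^ 2 * (L.det ^ 2 / L.A E) := by
  have hA := (L.A_pos hE).ne'
  have hd := L.det_ne'
  unfold Q mu nu x1 x2
  simp only
  have e1 : (b + (L.a1 * L.c2 - L.a2 * L.c1) / L.det) ^ 2 * (L.det ^ 2 / L.A E) =
      (b * L.det + (L.a1 * L.c2 - L.a2 * L.c1)) ^ 2 / L.A E := by
    field_simp
  rw [e1]
  field_simp
  unfold A det
  field_simp
  ring

lemma x2_eq {E : ℝ} (hE : 0 < E) (b a : ℤ) :
    L.x2 (b, a) = L.a2 * (a + L.mu E b) + (b + L.nu) * (E * L.a1 * L.det / L.A E) := by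
  have hA := (L.A_pos hE).ne'
  have hd := L.det_ne'
  unfold mu nu x2
  simp only
  have e1 : (b + (L.a1 * L.c2 - L.a2 * L.c1) / L.det) * (E * L.a1 * L.det / L.A E) =
      (b * L.det + (L.a1 * L.c2 - L.a2 * L.c1)) * (E * L.a1) / L.A E := by
    field_simp
  rw [e1]
  field_simp
  unfold A det
  field_simp
  ring

/-- Gaussian in the second variable -/
noncomputable def R (E t : ℝ) (b : ℤ) : ℝ :=
  Real.exp (-Real.pi * (b + L.nu) ^ 2 * (t * (L.det ^ 2 / L.A E)))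

lemma R_pos (E t : ℝ) (b : ℤ) : 0 < L.R E t b := Real.exp_pos _

lemma exp_Q {E : ℝ} (hE : 0 < E) (t : ℝ) (b a : ℤ) :
    Real.exp (-Real.pi * t * L.Q E (b, a)) =
      L.R E t b * Real.exp (-Real.pi * (a + L.mu E b) ^ 2 * (t * L.A E)) := by
  rw [R, ← Real.exp_add, L.Q_eq hE]
  congr 1
  ring

lemma hasSum_even {E : ℝ} (hE : 0 < E) {t : ℝ} (ht : 0 < t) (b : ℤ) :
    HasSum (fun a : ℤ => Real.exp (-Real.pi * t * L.Q E (b, a)))
      (L.R E t b * evenKernel (L.mu E b) (t * L.A E)) := by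
  have h := (hasSum_int_evenKernel (L.mu E b) (mul_pos ht (L.A_pos hE))).mul_left (L.R E t b)
  refine h.congr_fun fun a => ?_
  rw [L.exp_Q hE]

lemma hasSum_odd {E : ℝ} (hE : 0 < E) {t : ℝ} (ht : 0 < t) (b : ℤ) :
    HasSum (fun a : ℤ => L.x2 (b, a) * Real.exp (-Real.pi * t * L.Q E (b, a)))
      (L.R E t b * (L.a2 * oddKernel (L.mu E b) (t * L.A E) +
        (b + L.nu) * (E * L.a1 * L.det / L.A E) * evenKernel (L.mu E b) (t * L.A E))) := by
  have hp := mul_pos ht (L.A_pos hE)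
  have h := (((hasSum_int_oddKernel (L.mu E b) hp).mul_left L.a2).add
    ((hasSum_int_evenKernel (L.mu E b) hp).mul_left
      ((b + L.nu) * (E * L.a1 * L.det / L.A E)))).mul_left (L.R E t b)
  refine h.congr_fun fun a => ?_
  rw [L.exp_Q hE, L.x2_eq hE]
  ring

end Lat

end Pool.Agent.ST
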