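import Pool.Agent.Lib.MP_1ef7cf_nt.Theta1
import Pool.Agent.Lib.MP_1ef7cf_nt.Theta2

/-!
Two-dimensional theta series attached to a coset of a planar lattice: asymptotics.
-/

open HurwitzZeta

namespace Pool.Agent.ST

lemma evenKernel_le : ∃ C : ℝ, 0 ≤ C ∧ ∀ (μ τ : ℝ), 0 < τ → evenKernel μ τ ≤ 1 / √τ + C * √τ := by
  obtain ⟨C, hC, h⟩ := evenKernel_bound 0
  refine ⟨C, hC, fun μ τ hτ => ?_⟩
  have := (abs_le.1 (h μ τ hτ)).2
  rw [pow_zero, mul_one] at this
  linarith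

lemma evenKernel_nonneg' (μ : ℝ) {τ : ℝ} (hτ : 0 < τ) : 0 ≤ evenKernel μ τ :=
  (hasSum_int_evenKernel μ hτ).nonneg fun _ => (Real.exp_pos _).le

/-- the elementary inequality used to absorb polynomial factors -/
lemma abs_mul_exp_le {τ : ℝ} (hτ : 0 < τ) (y : ℝ) :
    |y| * Real.exp (-Real.pi * y ^ 2 * τ) ≤ 1 / √τ * Real.exp (-Real.pi * y ^ 2 * (τ / 2)) := by
  have hs : 0 < √τ := Real.sqrt_pos.2 hτ
  have h1 : |y| * √τ * Real.exp (-Real.pi * y ^ 2 * (τ / 2)) ≤ 1 := by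
    have h2 : |y| * √τ ≤ Real.exp (Real.pi * y ^ 2 * (τ / 2)) := by
      have h3 : (|y| * √τ) ^ 2 = y ^ 2 * τ := by
        rw [mul_pow, sq_abs, Real.sq_sqrt hτ.le]
      have h4 : |y| * √τ ≤ 1 / 2 * (1 + (|y| * √τ) ^ 2) := by nlinarith [sq_nonneg (|y| * √τ - 1)]
      have h5 : Real.pi * y ^ 2 * (τ / 2) + 1 ≤ Real.exp (Real.pi * y ^ 2 * (τ / 2)) :=
        Real.add_one_le_exp _
      have h6 : y ^ 2 * τ ≤ Real.pi * y ^ 2 * τ := by
        have : 0 ≤ y ^ 2 * τ := by positivity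
        nlinarith [Real.pi_gt_three]
      rw [h3] at h4
      nlinarith
    have h7 : -Real.pi * y ^ 2 * (τ / 2) = -(Real.pi * y ^ 2 * (τ / 2)) := by ring
    rw [h7, Real.exp_neg, ← div_eq_mul_inv, div_le_one (Real.exp_pos _)]
    exact h2
  have h8 : Real.exp (-Real.pi * y ^ 2 * τ) =
      Real.exp (-Real.pi * y ^ 2 * (τ / 2)) * Real.exp (-Real.pi * y ^ 2 * (τ / 2)) := by
    rw [← Real.exp_add]; congr 1; ring
  rw [h8]
  calc |y| * (Real.exp (-Real.pi * y ^ 2 * (τ / 2)) * Real.exp (-Real.pi * y ^ 2 * (τ / 2))) =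
      1 / √τ * ((|y| * √τ * Real.exp (-Real.pi * y ^ 2 * (τ / 2))) *
        Real.exp (-Real.pi * y ^ 2 * (τ / 2))) := by
          field_simp
    _ ≤ 1 / √τ * (1 * Real.exp (-Real.pi * y ^ 2 * (τ / 2))) := by
        apply mul_le_mul_of_nonneg_left _ (by positivity)
        exact mul_le_mul_of_nonneg_right h1 (Real.exp_pos _).le
    _ = _ := by rw [one_mul]

namespace Lat

variable (L : Lat)

/-- the second coefficient -/
noncomputable def D (E : ℝ) : ℝ := L.det ^ 2 / L.A E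

lemma D_pos {E : ℝ} (hE : 0 < E) : 0 < L.D E := by
  have := L.A_pos hE
  have h2 := L.det_ne'
  unfold D
  positivity

lemma hasSum_R {E : ℝ} (hE : 0 < E) {t : ℝ} (ht : 0 < t) :
    HasSum (fun b : ℤ => L.R E t b) (evenKernel L.nu (t * L.D E)) :=
  hasSum_int_evenKernel L.nu (mul_pos ht (L.D_pos hE))

lemma hasSum_R' {E : ℝ} (hE : 0 < E) {t : ℝ} (ht : 0 < t) :
    HasSum (fun b : ℤ => (b + L.nu) * L.R E t b) (oddKernel L.nu (t * L.D E)) :=
  hasSum_int_oddKernel L.nu (mul_pos ht (L.D_pos hE))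

lemma abs_R_le {E : ℝ} (hE : 0 < E) {t : ℝ} (ht : 0 < t) (b : ℤ) :
    |b + L.nu| * L.R E t b ≤ 1 / √(t * L.D E) * L.R E (t / 2) b := by
  have h := abs_mul_exp_le (mul_pos ht (L.D_pos hE)) (b + L.nu)
  have h2 : L.R E (t / 2) b = Real.exp (-Real.pi * (b + L.nu) ^ 2 * (t * L.D E / 2)) := by
    unfold R D; congr 1; ring
  rw [h2]
  exact h

lemma summable_abs_R {E : ℝ} (hE : 0 < E) {t : ℝ} (ht : 0 < t) :
    Summable (fun b : ℤ => |b + L.nu| * L.R E t b) := by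
  apply Summable.of_nonneg_of_le (fun b => mul_nonneg (abs_nonneg _) (L.R_pos E t b).le)
    (L.abs_R_le hE ht)
  exact (L.hasSum_R hE (half_pos ht)).summable.mul_left _

lemma tsum_abs_R_le {E : ℝ} (hE : 0 < E) {t : ℝ} (ht : 0 < t) :
    ∑' b : ℤ, |b + L.nu| * L.R E t b ≤ 1 / √(t * L.D E) * evenKernel L.nu (t / 2 * L.D E) := by
  rw [← (L.hasSum_R hE (half_pos ht)).tsum_eq, ← tsum_mul_left]
  exact (L.summable_abs_R hE ht).tsum_le_tsum (L.abs_R_le hE ht)
    ((L.hasSum_R hE (half_pos ht)).summable.mul_left _)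

lemma summable_exp {E : ℝ} (hE : 0 < E) {t : ℝ} (ht : 0 < t) :
    Summable (fun n : ℤ × ℤ => Real.exp (-Real.pi * t * L.Q E n)) := by
  obtain ⟨C, hC, hC'⟩ := evenKernel_le
  rw [summable_prod_of_nonneg (fun n => (Real.exp_pos _).le)]
  refine ⟨fun b => (L.hasSum_even hE ht b).summable, ?_⟩
  have h1 : ∀ b : ℤ, ∑' a : ℤ, Real.exp (-Real.pi * t * L.Q E (b, a)) =
      L.R E t b * evenKernel (L.mu E b) (t * L.A E) := fun b => (L.hasSum_even hE ht b).tsum_eq
  simp_rw [h1]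
  have hp := mul_pos ht (L.A_pos hE)
  apply Summable.of_nonneg_of_le
    (fun b => mul_nonneg (L.R_pos E t b).le (evenKernel_nonneg' _ hp))
    (fun b => mul_le_mul_of_nonneg_left (hC' (L.mu E b) _ hp) (L.R_pos E t b).le)
  exact (L.hasSum_R hE ht).summable.mul_right _

lemma abs_x2_le {E : ℝ} (hE : 0 < E) {t : ℝ} (ht : 0 < t) (n : ℤ × ℤ) :
    |L.x2 n| * Real.exp (-Real.pi * t * L.Q E n) ≤
      1 / √(t * E⁻¹) * Real.exp (-Real.pi * (t / 2) * L.Q E n) := by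
  have hE' : 0 < E⁻¹ := by positivity
  have h := abs_mul_exp_le (mul_pos ht hE') (L.x2 n)
  have h1 : Real.exp (-Real.pi * t * L.Q E n) = Real.exp (-Real.pi * L.x2 n ^ 2 * (t * E⁻¹)) *
      Real.exp (-Real.pi * t * (E * L.x1 n ^ 2)) := by
    rw [← Real.exp_add]; congr 1; unfold Q; ring
  have h2 : Real.exp (-Real.pi * (t / 2) * L.Q E n) =
      Real.exp (-Real.pi * L.x2 n ^ 2 * (t * E⁻¹ / 2)) *
      Real.exp (-Real.pi * (t / 2) * (E * L.x1 n ^ 2)) := by
    rw [← Real.exp_add]; congr 1; unfold Q; ring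
  rw [h1, h2, ← mul_assoc |L.x2 n|, ← mul_assoc (1 / √(t * E⁻¹))]
  apply mul_le_mul h _ (Real.exp_pos _).le (by positivity)
  apply Real.exp_le_exp.2
  have : 0 ≤ Real.pi * t * (E * L.x1 n ^ 2) := by positivity
  nlinarith

lemma summable_abs_x2 {E : ℝ} (hE : 0 < E) {t : ℝ} (ht : 0 < t) :
    Summable (fun n : ℤ × ℤ => |L.x2 n| * Real.exp (-Real.pi * t * L.Q E n)) :=
  Summable.of_nonneg_of_le (fun _ => mul_nonneg (abs_nonneg _) (Real.exp_pos _).le)
    (L.abs_x2_le hE ht) ((L.summable_exp hE (half_pos ht)).mul_left _)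

lemma summable_x2 {E : ℝ} (hE : 0 < E) {t : ℝ} (ht : 0 < t) :
    Summable (fun n : ℤ × ℤ => L.x2 n * Real.exp (-Real.pi * t * L.Q E n)) := by
  apply Summable.of_norm
  refine (L.summable_abs_x2 hE ht).congr fun n => ?_
  rw [norm_mul, Real.norm_eq_abs, Real.norm_eq_abs, abs_of_pos (Real.exp_pos _)]

/-- the theta series -/
noncomputable def Th (k : ℕ) (E t : ℝ) : ℝ :=
  ∑' n : ℤ × ℤ, L.x2 n ^ k * Real.exp (-Real.pi * t * L.Q E n)

lemma hasSum_Th0 {E : ℝ} (hE : 0 < E) {t : ℝ} (ht : 0 < t) :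
    HasSum (fun b : ℤ => L.R E t b * evenKernel (L.mu E b) (t * L.A E)) (L.Th 0 E t) := by
  have h1 := (L.summable_exp hE ht).hasSum
  have h2 := h1.prod_fiberwise fun b => L.hasSum_even hE ht b
  convert! h2 using 1
  unfold Th
  simp

lemma hasSum_Th1 {E : ℝ} (hE : 0 < E) {t : ℝ} (ht : 0 < t) :
    HasSum (fun b : ℤ => L.R E t b * (L.a2 * oddKernel (L.mu E b) (t * L.A E) +
        (b + L.nu) * (E * L.a1 * L.det / L.A E) * evenKernel (L.mu E b) (t * L.A E)))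
      (L.Th 1 E t) := by
  have h1 := (L.summable_x2 hE ht).hasSum
  have h2 := h1.prod_fiberwise fun b => L.hasSum_odd hE ht b
  convert! h2 using 1
  unfold Th
  simp

/-- uniform bounds for the coefficients -/
lemma exists_M (Λ : ℝ) : ∃ M : ℝ, 1 ≤ M ∧ ∀ E : ℝ, 1 ≤ E → E ≤ Λ →
    L.A E ≤ M ∧ (L.A E)⁻¹ ≤ M ∧ L.D E ≤ M ∧ (L.D E)⁻¹ ≤ M ∧ E ≤ M ∧ |L.a1| ≤ M ∧ |L.a2| ≤ M ∧
      |L.det| ≤ M := by
  have hdet2 : 0 < L.det ^ 2 := by
    have := L.det_ne'
    positivity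
  set U : ℝ := |Λ| * L.a1 ^ 2 + L.a2 ^ 2 with hU
  set V : ℝ := L.a1 ^ 2 + (|Λ| + 1)⁻¹ * L.a2 ^ 2 with hV
  have hV0 : 0 < V := by
    have hpos : (0 : ℝ) < (|Λ| + 1)⁻¹ := by positivity
    by_cases h1 : L.a1 = 0
    · have h2 : L.a2 ≠ 0 := by
        intro h2
        apply L.det_ne
        rw [h1, h2]; ring
      have : 0 < L.a2 ^ 2 := by positivity
      positivity
    · have : 0 < L.a1 ^ 2 := by positivity
      positivity
  have hU0 : 0 ≤ U := by positivity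
  refine ⟨1 + U + V⁻¹ + L.det ^ 2 * V⁻¹ + U / L.det ^ 2 + |Λ| + |L.a1| + |L.a2| + |L.det|, ?_, ?_⟩
  · have : 0 ≤ U / L.det ^ 2 := by positivity
    have : 0 ≤ V⁻¹ := by positivity
    have : 0 ≤ L.det ^ 2 * V⁻¹ := by positivity
    linarith [abs_nonneg Λ, abs_nonneg L.a1, abs_nonneg L.a2, abs_nonneg L.det]
  · intro E hE1 hE2
    have hE : 0 < E := by linarith
    have hA := L.A_pos hE
    have hE3 : E ≤ |Λ| := hE2.trans (le_abs_self Λ)
    have hAU : L.A E ≤ U := by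
      unfold A
      have h1 : E⁻¹ ≤ 1 := inv_le_one_of_one_le₀ hE1
      have h2 : E * L.a1 ^ 2 ≤ |Λ| * L.a1 ^ 2 := mul_le_mul_of_nonneg_right hE3 (sq_nonneg _)
      have h3 : E⁻¹ * L.a2 ^ 2 ≤ 1 * L.a2 ^ 2 := mul_le_mul_of_nonneg_right h1 (sq_nonneg _)
      linarith
    have hVA : V ≤ L.A E := by
      unfold A
      have h1 : (|Λ| + 1)⁻¹ ≤ E⁻¹ := inv_anti₀ hE (by linarith)
      have h2 : 1 * L.a1 ^ 2 ≤ E * L.a1 ^ 2 := mul_le_mul_of_nonneg_right hE1 (sq_nonneg _)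
      have h3 : (|Λ| + 1)⁻¹ * L.a2 ^ 2 ≤ E⁻¹ * L.a2 ^ 2 :=
        mul_le_mul_of_nonneg_right h1 (sq_nonneg _)
      linarith
    have hAinv : (L.A E)⁻¹ ≤ V⁻¹ := inv_anti₀ hV0 hVA
    have hD1 : L.D E ≤ L.det ^ 2 * V⁻¹ := by
      unfold D
      rw [div_eq_mul_inv]
      exact mul_le_mul_of_nonneg_left hAinv hdet2.le
    have hD2 : (L.D E)⁻¹ ≤ U / L.det ^ 2 := by
      unfold D
      rw [inv_div]
      exact div_le_div_of_nonneg_right hAU hdet2.le
    have i1 : 0 ≤ U / L.det ^ 2 := by positivity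
    have i2 : 0 ≤ V⁻¹ := by positivity
    have i3 : 0 ≤ L.det ^ 2 * V⁻¹ := by positivity
    have i4 := abs_nonneg Λ
    have i5 := abs_nonneg L.a1
    have i6 := abs_nonneg L.a2
    have i7 := abs_nonneg L.det
    refine ⟨?_, ?_, ?_, ?_, ?_, ?_, ?_, ?_⟩ <;> linarith

lemma sqrt_div_le {M A D t : ℝ} (hM : 1 ≤ M) (hA : 0 < A) (hD : 0 < D) (ht : 0 < t)
    (h1 : A ≤ M) (h2 : D⁻¹ ≤ M) : √(t * A) / √(t * D) ≤ M := by
  rw [← Real.sqrt_div (by positivity), mul_div_mul_left _ _ ht.ne', Real.sqrt_le_left (by linarith),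
    div_eq_mul_inv, sq]
  exact mul_le_mul h1 h2 (by positivity) (by linarith)

lemma sqrt_mul_le {M A D t : ℝ} (hM : 1 ≤ M) (hA : 0 < A) (hD : 0 < D) (ht : 0 < t) (ht1 : t ≤ 1)
    (h1 : A ≤ M) (h2 : D ≤ M) : √(t * A) * √(t * D) ≤ M := by
  rw [← Real.sqrt_mul (by positivity), Real.sqrt_le_left (by linarith), sq]
  apply mul_le_mul _ _ (by positivity) (by linarith)
  · calc t * A ≤ 1 * M := mul_le_mul ht1 h1 hA.le (by norm_num)
      _ = M := one_mul M
  · calc t * D ≤ 1 * M := mul_le_mul ht1 h2 hD.le (by norm_num)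
      _ = M := one_mul M

/-- asymptotics of the first theta series. -/
lemma Th0_bound (Λ : ℝ) (N : ℕ) : ∃ C : ℝ, 0 ≤ C ∧ ∀ E : ℝ, 1 ≤ E → E ≤ Λ → ∀ t : ℝ, 0 < t → t ≤ 1 →
    |L.Th 0 E t - 1 / (t * |L.det|)| ≤ C * t ^ N := by
  obtain ⟨M, hM, hM'⟩ := L.exists_M Λ
  obtain ⟨C, hC, hC'⟩ := evenKernel_bound N
  obtain ⟨C₀, hC₀, hC₀'⟩ := evenKernel_le
  refine ⟨C * M ^ N * (M + C₀ * M) + M * C * M ^ N, by positivity, ?_⟩
  intro E hE1 hE2 t ht ht1
  obtain ⟨m1, m2, m3, m4, -, -, -, -⟩ := hM' E hE1 hE2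
  have hE : 0 < E := by linarith
  have hA := L.A_pos hE
  have hD := L.D_pos hE
  have htA := mul_pos ht hA
  have htD := mul_pos ht hD
  have sA : 0 < √(t * L.A E) := Real.sqrt_pos.2 htA
  have sD : 0 < √(t * L.D E) := Real.sqrt_pos.2 htD
  have h1 := L.hasSum_Th0 hE ht
  have h2 := L.hasSum_R hE ht
  have h3 := h1.sub (h2.mul_right (1 / √(t * L.A E)))
  have h4 : 1 / (t * |L.det|) = 1 / √(t * L.D E) * (1 / √(t * L.A E)) := by
    rw [one_div_mul_one_div, ← Real.sqrt_mul htD.le]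
    congr 1
    have : t * L.D E * (t * L.A E) = (t * |L.det|) ^ 2 := by
      unfold D
      rw [mul_pow, sq_abs]
      field_simp
    rw [this, Real.sqrt_sq (by positivity)]
  have h5 : L.Th 0 E t - 1 / (t * |L.det|) =
      (L.Th 0 E t - evenKernel L.nu (t * L.D E) * (1 / √(t * L.A E))) +
      (evenKernel L.nu (t * L.D E) - 1 / √(t * L.D E)) * (1 / √(t * L.A E)) := by
    rw [h4]; ring
  have hpow : ∀ x : ℝ, 0 < x → x ≤ M → (t * x) ^ N ≤ M ^ N * t ^ N := by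
    intro x hx hxM
    rw [mul_pow, mul_comm]
    exact mul_le_mul_of_nonneg_right (pow_le_pow_left₀ hx.le hxM N) (by positivity)
  -- first part
  have h6 : |L.Th 0 E t - evenKernel L.nu (t * L.D E) * (1 / √(t * L.A E))| ≤
      evenKernel L.nu (t * L.D E) * (C * (√(t * L.A E) * (t * L.A E) ^ N)) := by
    rw [← Real.norm_eq_abs, ← h3.tsum_eq]
    apply tsum_of_norm_bounded (h2.mul_right _)
    intro b
    rw [← mul_sub, norm_mul, Real.norm_eq_abs, Real.norm_eq_abs, abs_of_pos (L.R_pos E t b)]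
    exact mul_le_mul_of_nonneg_left (hC' _ _ htA) (L.R_pos E t b).le
  have h7 : evenKernel L.nu (t * L.D E) ≤ 1 / √(t * L.D E) + C₀ * √(t * L.D E) :=
    hC₀' _ _ htD
  have h8 : evenKernel L.nu (t * L.D E) * (C * (√(t * L.A E) * (t * L.A E) ^ N)) ≤
      C * M ^ N * (M + C₀ * M) * t ^ N := by
    calc evenKernel L.nu (t * L.D E) * (C * (√(t * L.A E) * (t * L.A E) ^ N)) ≤
        (1 / √(t * L.D E) + C₀ * √(t * L.D E)) * (C * (√(t * L.A E) * (t * L.A E) ^ N)) :=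
          mul_le_mul_of_nonneg_right h7 (by positivity)
      _ = (√(t * L.A E) / √(t * L.D E) + C₀ * (√(t * L.A E) * √(t * L.D E))) *
          (C * (t * L.A E) ^ N) := by
            field_simp
      _ ≤ (M + C₀ * M) * (C * (M ^ N * t ^ N)) := by
          apply mul_le_mul _ _ (by positivity) (by positivity)
          · apply add_le_add (sqrt_div_le hM hA hD ht m1 m4)
            exact mul_le_mul_of_nonneg_left (sqrt_mul_le hM hA hD ht ht1 m1 m3) hC₀
          · exact mul_le_mul_of_nonneg_left (hpow _ hA m1) hC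
      _ = _ := by ring
  have h9 : |(evenKernel L.nu (t * L.D E) - 1 / √(t * L.D E)) * (1 / √(t * L.A E))| ≤
      M * C * M ^ N * t ^ N := by
    rw [abs_mul, abs_of_pos (by positivity : 0 < 1 / √(t * L.A E))]
    calc |evenKernel L.nu (t * L.D E) - 1 / √(t * L.D E)| * (1 / √(t * L.A E)) ≤
        (C * (√(t * L.D E) * (t * L.D E) ^ N)) * (1 / √(t * L.A E)) :=
          mul_le_mul_of_nonneg_right (hC' _ _ htD) (by positivity)
      _ = (√(t * L.D E) / √(t * L.A E)) * (C * (t * L.D E) ^ N) := by field_simp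
      _ ≤ M * (C * (M ^ N * t ^ N)) := by
          apply mul_le_mul (sqrt_div_le hM hD hA ht m3 m2) _ (by positivity) (by positivity)
          exact mul_le_mul_of_nonneg_left (hpow _ hD m3) hC
      _ = _ := by ring
  rw [h5]
  calc _ ≤ _ := abs_add_le _ _
    _ ≤ C * M ^ N * (M + C₀ * M) * t ^ N + M * C * M ^ N * t ^ N := add_le_add (h6.trans h8) h9
    _ = _ := by ring

/-- asymptotics of the second theta series. -/
lemma Th1_bound (Λ : ℝ) (N : ℕ) : ∃ C : ℝ, 0 ≤ C ∧ ∀ E : ℝ, 1 ≤ E → E ≤ Λ → ∀ t : ℝ, 0 < t → t ≤ 1 →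
    |L.Th 1 E t| ≤ C * t ^ N := by
  obtain ⟨M, hM, hM'⟩ := L.exists_M Λ
  obtain ⟨C, hC, hC'⟩ := evenKernel_bound (N + 1)
  obtain ⟨C₀, hC₀, hC₀'⟩ := evenKernel_le
  obtain ⟨C₁, hC₁, hC₁'⟩ := oddKernel_bound N
  refine ⟨M * (C₁ * M ^ N * (M + C₀ * M)) + M ^ 4 * (C * M ^ (N + 3) * (2 + C₀ * M)) +
    M ^ 4 * (M * C₁ * M ^ N), by positivity, ?_⟩
  intro E hE1 hE2 t ht ht1
  obtain ⟨m1, m2, m3, m4, m5, m6, m7, m8⟩ := hM' E hE1 hE2
  have hE : 0 < E := by linarith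
  have hA := L.A_pos hE
  have hD := L.D_pos hE
  have htA := mul_pos ht hA
  have htD := mul_pos ht hD
  have htD2 : 0 < t / 2 * L.D E := by positivity
  have sA : 0 < √(t * L.A E) := Real.sqrt_pos.2 htA
  have sD : 0 < √(t * L.D E) := Real.sqrt_pos.2 htD
  have h1 := L.hasSum_Th1 hE ht
  have h2 := L.hasSum_R hE ht
  have h2' := L.hasSum_R' hE ht
  set κ : ℝ := E * L.a1 * L.det / L.A E with hκ
  have hκM : |κ| ≤ M ^ 4 := by
    rw [hκ, abs_div, abs_mul, abs_mul, abs_of_pos hE, abs_of_pos hA, div_eq_mul_inv]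
    calc E * |L.a1| * |L.det| * (L.A E)⁻¹ ≤ M * M * M * M := by
          apply mul_le_mul _ m2 (by positivity) (by positivity)
          apply mul_le_mul _ m8 (by positivity) (by positivity)
          exact mul_le_mul m5 m6 (by positivity) (by positivity)
      _ = M ^ 4 := by ring
  have hpow : ∀ x : ℝ, 0 < x → x ≤ M → ∀ N : ℕ, (t * x) ^ N ≤ M ^ N * t ^ N := by
    intro x hx hxM N
    rw [mul_pow, mul_comm]
    exact mul_le_mul_of_nonneg_right (pow_le_pow_left₀ hx.le hxM N) (by positivity)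
  -- split the sum in three parts
  have h3 := h1.sub (h2'.mul_right (κ * (1 / √(t * L.A E))))
  have h5 : |L.Th 1 E t - oddKernel L.nu (t * L.D E) * (κ * (1 / √(t * L.A E)))| ≤
      evenKernel L.nu (t * L.D E) * (M * (C₁ * (√(t * L.A E) * (t * L.A E) ^ N))) +
      (∑' b : ℤ, |b + L.nu| * L.R E t b) *
        (M ^ 4 * (C * (√(t * L.A E) * (t * L.A E) ^ (N + 1)))) := by
    rw [← Real.norm_eq_abs, ← h3.tsum_eq]
    apply tsum_of_norm_bounded ((h2.mul_right _).add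
      ((L.summable_abs_R hE ht).hasSum.mul_right _))
    intro b
    have e1 : L.R E t b * (L.a2 * oddKernel (L.mu E b) (t * L.A E) +
        (b + L.nu) * κ * evenKernel (L.mu E b) (t * L.A E)) -
        (b + L.nu) * L.R E t b * (κ * (1 / √(t * L.A E))) =
        L.R E t b * (L.a2 * oddKernel (L.mu E b) (t * L.A E)) +
        ((b + L.nu) * L.R E t b) *
          (κ * (evenKernel (L.mu E b) (t * L.A E) - 1 / √(t * L.A E))) := by ring
    rw [e1]
    refine (norm_add_le _ _).trans (add_le_add ?_ ?_)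
    · rw [norm_mul, norm_mul, Real.norm_eq_abs, Real.norm_eq_abs, Real.norm_eq_abs,
        abs_of_pos (L.R_pos E t b)]
      apply mul_le_mul_of_nonneg_left _ (L.R_pos E t b).le
      exact mul_le_mul m7 (hC₁' _ _ htA) (abs_nonneg _) (by positivity)
    · rw [norm_mul, norm_mul, norm_mul, Real.norm_eq_abs, Real.norm_eq_abs, Real.norm_eq_abs,
        Real.norm_eq_abs, abs_of_pos (L.R_pos E t b)]
      apply mul_le_mul_of_nonneg_left _ (mul_nonneg (abs_nonneg _) (L.R_pos E t b).le)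
      exact mul_le_mul hκM (hC' _ _ htA) (abs_nonneg _) (by positivity)
  have h7 : evenKernel L.nu (t * L.D E) ≤ 1 / √(t * L.D E) + C₀ * √(t * L.D E) :=
    hC₀' _ _ htD
  have h8 : evenKernel L.nu (t * L.D E) * (M * (C₁ * (√(t * L.A E) * (t * L.A E) ^ N))) ≤
      M * (C₁ * M ^ N * (M + C₀ * M)) * t ^ N := by
    calc evenKernel L.nu (t * L.D E) * (M * (C₁ * (√(t * L.A E) * (t * L.A E) ^ N))) ≤
        (1 / √(t * L.D E) + C₀ * √(t * L.D E)) *
          (M * (C₁ * (√(t * L.A E) * (t * L.A E) ^ N))) :=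
          mul_le_mul_of_nonneg_right h7 (by positivity)
      _ = (√(t * L.A E) / √(t * L.D E) + C₀ * (√(t * L.A E) * √(t * L.D E))) *
          (M * (C₁ * (t * L.A E) ^ N)) := by
            field_simp
      _ ≤ (M + C₀ * M) * (M * (C₁ * (M ^ N * t ^ N))) := by
          apply mul_le_mul _ _ (by positivity) (by positivity)
          · apply add_le_add (sqrt_div_le hM hA hD ht m1 m4)
            exact mul_le_mul_of_nonneg_left (sqrt_mul_le hM hA hD ht ht1 m1 m3) hC₀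
          · apply mul_le_mul_of_nonneg_left _ (by positivity)
            exact mul_le_mul_of_nonneg_left (hpow _ hA m1 N) hC₁
      _ = _ := by ring
  -- the first moment
  have h9 : (∑' b : ℤ, |b + L.nu| * L.R E t b) ≤ (2 + C₀ * M) / (t * L.D E) := by
    refine (L.tsum_abs_R_le hE ht).trans ?_
    have g1 := hC₀' L.nu _ htD2
    have g2 : √(t / 2 * L.D E) = √(t * L.D E) / √2 := by
      rw [← Real.sqrt_div htD.le]; congr 1; ring
    have g3 : √2 ≤ 2 := by
      rw [Real.sqrt_le_left (by norm_num)]; norm_num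
    have g4 : 1 ≤ √2 := by
      rw [Real.one_le_sqrt]; norm_num
    have g5 : t * L.D E ≤ M := by
      calc t * L.D E ≤ 1 * M := mul_le_mul ht1 m3 hD.le (by norm_num)
        _ = M := one_mul M
    calc 1 / √(t * L.D E) * evenKernel L.nu (t / 2 * L.D E) ≤
        1 / √(t * L.D E) * (1 / √(t / 2 * L.D E) + C₀ * √(t / 2 * L.D E)) :=
          mul_le_mul_of_nonneg_left g1 (by positivity)
      _ = (√2 + C₀ * ((√(t * L.D E)) ^ 2 / √2)) / (√(t * L.D E)) ^ 2 := by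
          rw [g2]; field_simp
      _ = (√2 + C₀ * (t * L.D E / √2)) / (t * L.D E) := by
          rw [Real.sq_sqrt htD.le]
      _ ≤ (2 + C₀ * M) / (t * L.D E) := by
          apply div_le_div_of_nonneg_right _ htD.le
          apply add_le_add g3
          apply mul_le_mul_of_nonneg_left _ hC₀
          exact (div_le_self htD.le g4).trans g5
  have h10 : (∑' b : ℤ, |b + L.nu| * L.R E t b) *
        (M ^ 4 * (C * (√(t * L.A E) * (t * L.A E) ^ (N + 1)))) ≤
        M ^ 4 * (C * M ^ (N + 3) * (2 + C₀ * M)) * t ^ N := by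
    have g1 : √(t * L.A E) ≤ M := by
      rw [Real.sqrt_le_left (by linarith)]
      calc t * L.A E ≤ 1 * M := mul_le_mul ht1 m1 hA.le (by norm_num)
        _ ≤ M ^ 2 := by nlinarith
    have g2 : (t * L.A E) ^ (N + 1) / (t * L.D E) ≤ M ^ (N + 2) * t ^ N := by
      have : (t * L.A E) ^ (N + 1) / (t * L.D E) = (t * L.A E) ^ N * (L.A E * (L.D E)⁻¹) := by
        field_simp
        ring
      rw [this]
      calc (t * L.A E) ^ N * (L.A E * (L.D E)⁻¹) ≤ (M ^ N * t ^ N) * (M * M) := by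
            apply mul_le_mul (hpow _ hA m1 N) _ (by positivity) (by positivity)
            exact mul_le_mul m1 m4 (by positivity) (by positivity)
        _ = _ := by ring
    calc _ ≤ (2 + C₀ * M) / (t * L.D E) *
        (M ^ 4 * (C * (√(t * L.A E) * (t * L.A E) ^ (N + 1)))) :=
          mul_le_mul_of_nonneg_right h9 (by positivity)
      _ = (2 + C₀ * M) * (M ^ 4 * C) * (√(t * L.A E) * ((t * L.A E) ^ (N + 1) / (t * L.D E))) := by
          field_simp
      _ ≤ (2 + C₀ * M) * (M ^ 4 * C) * (M * (M ^ (N + 2) * t ^ N)) := by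
          apply mul_le_mul_of_nonneg_left _ (by positivity)
          exact mul_le_mul g1 g2 (by positivity) (by positivity)
      _ = _ := by ring
  have h11 : |oddKernel L.nu (t * L.D E) * (κ * (1 / √(t * L.A E)))| ≤
      M ^ 4 * (M * C₁ * M ^ N) * t ^ N := by
    rw [abs_mul, abs_mul, abs_of_pos (by positivity : 0 < 1 / √(t * L.A E))]
    calc |oddKernel L.nu (t * L.D E)| * (|κ| * (1 / √(t * L.A E))) ≤
        (C₁ * (√(t * L.D E) * (t * L.D E) ^ N)) * (M ^ 4 * (1 / √(t * L.A E))) := by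
          apply mul_le_mul (hC₁' _ _ htD) _ (by positivity) (by positivity)
          exact mul_le_mul_of_nonneg_right hκM (by positivity)
      _ = M ^ 4 * ((√(t * L.D E) / √(t * L.A E)) * (C₁ * (t * L.D E) ^ N)) := by field_simp
      _ ≤ M ^ 4 * (M * (C₁ * (M ^ N * t ^ N))) := by
          apply mul_le_mul_of_nonneg_left _ (by positivity)
          apply mul_le_mul (sqrt_div_le hM hD hA ht m3 m2) _ (by positivity) (by positivity)
          exact mul_le_mul_of_nonneg_left (hpow _ hD m3 N) hC₁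
      _ = _ := by ring
  have h12 : L.Th 1 E t =
      (L.Th 1 E t - oddKernel L.nu (t * L.D E) * (κ * (1 / √(t * L.A E)))) +
      oddKernel L.nu (t * L.D E) * (κ * (1 / √(t * L.A E))) := by ring
  rw [h12]
  calc _ ≤ _ := abs_add_le _ _
    _ ≤ (M * (C₁ * M ^ N * (M + C₀ * M)) * t ^ N +
        M ^ 4 * (C * M ^ (N + 3) * (2 + C₀ * M)) * t ^ N) + M ^ 4 * (M * C₁ * M ^ N) * t ^ N :=
      add_le_add (h5.trans (add_le_add h8 h10)) h11
    _ = _ := by ring

end Lat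

end Pool.Agent.ST
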