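import Pool.Agent.Lib.MP_1ef7cf_nt.Kernel
import Pool.Agent.Lib.MP_1ef7cf_nt.Theta3

/-!
Unfolding the theta integral.
-/

open MeasureTheory Set Filter Topology

namespace Pool.Agent.ST

/-- Orbit data: the points of a lattice coset, enumerated by orbits of a hyperbolic unit. -/
structure Orb (D : Type*) where
  L : Lat
  lam : ℝ
  lam_gt : 1 < lam
  sg : ℝ
  sg_sq : sg ^ 2 = 1
  p1 : D → ℝ
  p2 : D → ℝ
  p1_ne : ∀ d, p1 d ≠ 0
  p2_ne : ∀ d, p2 d ≠ 0
  e : D × ℤ ≃ ℤ × ℤ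
  h1 : ∀ d j, L.x1 (e (d, j)) = (sg * lam) ^ j * p1 d
  h2 : ∀ d j, L.x2 (e (d, j)) = (lam⁻¹) ^ j * p2 d
  summ : ∀ σ : ℝ, 1 < σ → Summable (fun d => |p1 d * p2 d| ^ (-σ))

lemma sign_sq {x : ℝ} (hx : x ≠ 0) : Real.sign x ^ 2 = 1 := by
  rcases lt_or_gt_of_ne hx with h | h
  · rw [Real.sign_of_neg h]; norm_num
  · rw [Real.sign_of_pos h]; norm_num

lemma sign_abs (x : ℝ) : Real.sign x * |x| = x := by
  rcases lt_trichotomy x 0 with h | h | h
  · rw [Real.sign_of_neg h, abs_of_neg h]; ring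
  · rw [h]; simp
  · rw [Real.sign_of_pos h, abs_of_pos h]; ring

lemma abs_sign {x : ℝ} (hx : x ≠ 0) : |Real.sign x| = 1 := by
  rcases lt_or_gt_of_ne hx with h | h
  · rw [Real.sign_of_neg h]; norm_num
  · rw [Real.sign_of_pos h]; norm_num

namespace Orb

variable {D : Type*} (O : Orb D)

include O in
lemma countable : Countable D := by
  have : Function.Injective (fun d : D => O.e (d, 0)) := by
    intro a b hab
    have := O.e.injective hab
    exact (Prod.ext_iff.1 this).1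
  exact this.countable

/-- norm -/
noncomputable def nu (d : D) : ℝ := |O.p1 d * O.p2 d|

lemma nu_pos (d : D) : 0 < O.nu d := abs_pos.2 (mul_ne_zero (O.p1_ne d) (O.p2_ne d))

/-- length of the interval -/
noncomputable def W : ℝ := 2 * Real.log O.lam

lemma W_pos : 0 < O.W := by
  unfold W
  have := Real.log_pos O.lam_gt
  linarith

/-- general function attached to a point -/
noncomputable def G (k : ℕ) (t x1 x2 w : ℝ) : ℝ :=
  (√t * Real.exp (-w / 2)) ^ k * (x2 ^ k *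
    Real.exp (-Real.pi * t * (Real.exp w * x1 ^ 2 + (Real.exp w)⁻¹ * x2 ^ 2)))

omit O in
lemma continuous_G (k : ℕ) (t x1 x2 : ℝ) : Continuous (G k t x1 x2) := by
  unfold G
  have : Continuous fun w : ℝ => (Real.exp w)⁻¹ :=
    Continuous.inv₀ Real.continuous_exp fun w => (Real.exp_pos w).ne'
  fun_prop

omit O in
lemma G_eq_kf (k : ℕ) {t : ℝ} (ht : 0 < t) {x1 x2 : ℝ} (h1 : x1 ≠ 0) (h2 : x2 ≠ 0) (w : ℝ) :
    G k t x1 x2 w =
      Real.sign x2 ^ k * kf k (|x1 * x2| * t) (w - Real.log (|x2| / |x1|)) := by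
  have a1 : 0 < |x1| := abs_pos.2 h1
  have a2 : 0 < |x2| := abs_pos.2 h2
  set l := Real.log (|x2| / |x1|) with hl
  have hel : Real.exp l = |x2| / |x1| := Real.exp_log (by positivity)
  have hel2 : Real.exp (l / 2) = √(|x2| / |x1|) := by rw [Real.exp_half, hel]
  unfold G kf ch
  have e1 : √(|x1 * x2| * t) * Real.exp (-(w - l) / 2) = √t * Real.exp (-w / 2) * |x2| := by
    have : -(w - l) / 2 = -w / 2 + l / 2 := by ring
    rw [this, Real.exp_add, hel2, Real.sqrt_mul (abs_nonneg _)]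
    have e2 : √|x1 * x2| * √(|x2| / |x1|) = |x2| := by
      rw [← Real.sqrt_mul (abs_nonneg _), abs_mul]
      have : |x1| * |x2| * (|x2| / |x1|) = |x2| ^ 2 := by field_simp
      rw [this, Real.sqrt_sq a2.le]
    calc √|x1 * x2| * √t * (Real.exp (-w / 2) * √(|x2| / |x1|)) =
        √t * Real.exp (-w / 2) * (√|x1 * x2| * √(|x2| / |x1|)) := by ring
      _ = _ := by rw [e2]
  have e3 : -Real.pi * t * (Real.exp w * x1 ^ 2 + (Real.exp w)⁻¹ * x2 ^ 2) =
      -(Real.pi * (|x1 * x2| * t) * (Real.exp (w - l) + Real.exp (-(w - l)))) := by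
    have : -(w - l) = -w + l := by ring
    rw [this, Real.exp_sub, Real.exp_add, hel, Real.exp_neg, abs_mul, ← sq_abs x1, ← sq_abs x2]
    field_simp
  rw [e1, e3]
  have e4 : x2 ^ k = Real.sign x2 ^ k * |x2| ^ k := by
    rw [← mul_pow, sign_abs]
  rw [e4, mul_pow _ |x2|]
  ring

omit O in
lemma integrable_G (k : ℕ) {t : ℝ} (ht : 0 < t) {x1 x2 : ℝ} (h1 : x1 ≠ 0) (h2 : x2 ≠ 0) :
    Integrable (G k t x1 x2) := by
  have hn : 0 < |x1 * x2| := abs_pos.2 (mul_ne_zero h1 h2)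
  have h3 := ((integrable_kf k (mul_pos hn ht)).comp_sub_right
    (Real.log (|x2| / |x1|))).const_mul (Real.sign x2 ^ k)
  refine h3.congr ?_
  filter_upwards with w
  rw [G_eq_kf k ht h1 h2]

omit O in
lemma integral_G (k : ℕ) {t : ℝ} (ht : 0 < t) {x1 x2 : ℝ} (h1 : x1 ≠ 0) (h2 : x2 ≠ 0) :
    ∫ w, G k t x1 x2 w = Real.sign x2 ^ k * hk k (|x1 * x2| * t) := by
  simp_rw [G_eq_kf k ht h1 h2]
  rw [integral_const_mul, integral_sub_right_eq_self (fun w => kf k (|x1 * x2| * t) w)]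
  rfl

/-- tiling the line -/
lemma hasSum_tile (k : ℕ) {t : ℝ} (ht : 0 < t) (d : D) :
    HasSum (fun j : ℤ => ∫ w in Ioc 0 O.W, G k t (O.p1 d) (O.p2 d) (w + j * O.W))
      (Real.sign (O.p2 d) ^ k * hk k (O.nu d * t)) := by
  have h1 := hasSum_integral_iUnion (μ := volume) (f := G k t (O.p1 d) (O.p2 d))
    (s := fun j : ℤ => Ioc (j • O.W) ((j + 1) • O.W)) (fun j => measurableSet_Ioc)
    (pairwise_disjoint_Ioc_zsmul O.W)
    (by rw [iUnion_Ioc_zsmul O.W_pos]; exact (integrable_G k ht (O.p1_ne d) (O.p2_ne d)).integrableOn)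
  rw [iUnion_Ioc_zsmul O.W_pos, Measure.restrict_univ,
    integral_G k ht (O.p1_ne d) (O.p2_ne d)] at h1
  refine h1.congr_fun fun j => ?_
  have h2 : (j • O.W : ℝ) ≤ (j + 1) • O.W := by
    rw [zsmul_eq_mul, zsmul_eq_mul]
    have := O.W_pos
    push_cast
    nlinarith
  rw [← intervalIntegral.integral_of_le h2, ← intervalIntegral.integral_of_le O.W_pos.le,
    intervalIntegral.integral_comp_add_right (fun w => G k t (O.p1 d) (O.p2 d) w)]
  congr 1
  · rw [zsmul_eq_mul]; ring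
  · rw [zsmul_eq_mul]; push_cast; ring

/-- shift -/
lemma G_e (k : ℕ) (t : ℝ) (d : D) (j : ℤ) (w : ℝ) :
    G k t (O.L.x1 (O.e (d, j))) (O.L.x2 (O.e (d, j))) w =
      G k t (O.p1 d) (O.p2 d) (w + j * O.W) := by
  have hl : 0 < O.lam := by linarith [O.lam_gt]
  have h1 : Real.exp (j * O.W) = (O.lam ^ j) ^ 2 := by
    unfold W
    have : (j : ℝ) * (2 * Real.log O.lam) = j * Real.log O.lam + j * Real.log O.lam := by ring
    rw [this, Real.exp_add, ← Real.log_zpow, Real.exp_log (zpow_pos hl j), sq]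
  have h2 : Real.exp (-(j * O.W) / 2) = (O.lam⁻¹) ^ j := by
    unfold W
    have : -((j : ℝ) * (2 * Real.log O.lam)) / 2 = -(j * Real.log O.lam) := by ring
    rw [this, ← Real.log_zpow, Real.exp_neg, Real.exp_log (zpow_pos hl j), inv_zpow]
  have h3 : ((O.sg * O.lam) ^ j) ^ 2 = (O.lam ^ j) ^ 2 := by
    rw [mul_zpow, mul_pow]
    have : (O.sg ^ j) ^ 2 = 1 := by
      rw [← zpow_natCast, ← zpow_mul, mul_comm, zpow_mul]
      have := O.sg_sq
      simp [this]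
    rw [this, one_mul]
  have hl2 : O.lam ^ j ≠ 0 := (zpow_pos hl j).ne'
  unfold G
  rw [O.h1, O.h2]
  have e1 : -(w + j * O.W) / 2 = -w / 2 + -(j * O.W) / 2 := by ring
  rw [e1, Real.exp_add (-w / 2), h2, Real.exp_add w, h1]
  have e2 : (√t * Real.exp (-w / 2)) ^ k * (((O.lam⁻¹) ^ j * O.p2 d) ^ k *
      Real.exp (-Real.pi * t * (Real.exp w * ((O.sg * O.lam) ^ j * O.p1 d) ^ 2 +
        (Real.exp w)⁻¹ * ((O.lam⁻¹) ^ j * O.p2 d) ^ 2))) =
      (√t * (Real.exp (-w / 2) * (O.lam⁻¹) ^ j)) ^ k * (O.p2 d ^ k *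
      Real.exp (-Real.pi * t * (Real.exp w * ((O.sg * O.lam) ^ j * O.p1 d) ^ 2 +
        (Real.exp w)⁻¹ * ((O.lam⁻¹) ^ j * O.p2 d) ^ 2))) := by
    rw [mul_pow _ (O.p2 d), mul_pow √t, mul_pow √t, mul_pow (Real.exp (-w / 2))]
    ring
  rw [e2]
  congr 3
  rw [mul_pow, h3, mul_pow (O.lam⁻¹ ^ j), inv_zpow]
  field_simp

/-- the theta integral -/
noncomputable def I (k : ℕ) (t : ℝ) : ℝ :=
  ∫ w in Ioc 0 O.W, (√t * Real.exp (-w / 2)) ^ k * O.L.Th k (Real.exp w) t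

lemma summable_absk (k : ℕ) (hk : k ≤ 1) {t : ℝ} (ht : 0 < t) :
    Summable (fun n : ℤ × ℤ => |O.L.x2 n| ^ k * Real.exp (-Real.pi * t * O.L.Q 1 n)) := by
  interval_cases k
  · simpa using O.L.summable_exp one_pos ht
  · simpa using O.L.summable_abs_x2 one_pos ht

lemma norm_G_le (k : ℕ) {t : ℝ} (ht : 0 < t) (n : ℤ × ℤ) {w : ℝ} (hw : w ∈ Ioc 0 O.W) :
    ‖G k t (O.L.x1 n) (O.L.x2 n) w‖ ≤ (√t) ^ k *
      (|O.L.x2 n| ^ k * Real.exp (-Real.pi * (t * Real.exp (-O.W)) * O.L.Q 1 n)) := by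
  unfold G
  rw [norm_mul, norm_mul, norm_pow, norm_pow, Real.norm_eq_abs, Real.norm_eq_abs, Real.norm_eq_abs,
    abs_of_pos (Real.exp_pos _), abs_mul, abs_of_nonneg (Real.sqrt_nonneg t),
    abs_of_pos (Real.exp_pos _)]
  have hw0 : 0 < w := hw.1
  have hw1 : w ≤ O.W := hw.2
  have h1 : Real.exp (-w / 2) ≤ 1 := by
    rw [Real.exp_le_one_iff]; linarith
  have h2 : (√t * Real.exp (-w / 2)) ^ k ≤ (√t) ^ k := by
    apply pow_le_pow_left₀ (by positivity)
    calc √t * Real.exp (-w / 2) ≤ √t * 1 := mul_le_mul_of_nonneg_left h1 (Real.sqrt_nonneg t)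
      _ = √t := mul_one _
  apply mul_le_mul h2 _ (by positivity) (by positivity)
  apply mul_le_mul_of_nonneg_left _ (by positivity)
  apply Real.exp_le_exp.2
  unfold Lat.Q
  have h3 : Real.exp (-O.W) ≤ Real.exp w := Real.exp_le_exp.2 (by linarith)
  have h4 : Real.exp (-O.W) ≤ (Real.exp w)⁻¹ := by
    rw [← Real.exp_neg]; exact Real.exp_le_exp.2 (by linarith)
  have h5 : Real.exp (-O.W) * O.L.x1 n ^ 2 ≤ Real.exp w * O.L.x1 n ^ 2 :=
    mul_le_mul_of_nonneg_right h3 (sq_nonneg _)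
  have h6 : Real.exp (-O.W) * O.L.x2 n ^ 2 ≤ (Real.exp w)⁻¹ * O.L.x2 n ^ 2 :=
    mul_le_mul_of_nonneg_right h4 (sq_nonneg _)
  have h7 : 0 < Real.pi * t := by positivity
  have h8 : Real.exp (-O.W) * (1 * O.L.x1 n ^ 2 + 1⁻¹ * O.L.x2 n ^ 2) ≤
      Real.exp w * O.L.x1 n ^ 2 + (Real.exp w)⁻¹ * O.L.x2 n ^ 2 := by
    rw [inv_one, one_mul, one_mul, mul_add]; linarith
  have h9 := mul_le_mul_of_nonneg_left h8 h7.le
  nlinarith

lemma summable_integral_norm (k : ℕ) (hk : k ≤ 1) {t : ℝ} (ht : 0 < t) :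
    Summable (fun n : ℤ × ℤ => ∫ w in Ioc 0 O.W, ‖G k t (O.L.x1 n) (O.L.x2 n) w‖) := by
  have h1 := ((O.summable_absk k hk (t := t * Real.exp (-O.W)) (by positivity)).mul_left
    ((√t) ^ k)).mul_left (volume.real (Ioc 0 O.W))
  apply Summable.of_nonneg_of_le (fun n => integral_nonneg fun w => norm_nonneg _) _ h1
  intro n
  have h2 : ∫ w in Ioc 0 O.W, ‖G k t (O.L.x1 n) (O.L.x2 n) w‖ ≤
      ∫ w in Ioc 0 O.W, (√t) ^ k *
      (|O.L.x2 n| ^ k * Real.exp (-Real.pi * (t * Real.exp (-O.W)) * O.L.Q 1 n)) := by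
    apply setIntegral_mono_on
    · exact (((continuous_G k t _ _).norm).integrableOn_Icc (a := 0) (b := O.W)).mono_set
        Ioc_subset_Icc_self
    · exact (continuous_const.integrableOn_Icc (a := 0) (b := O.W)).mono_set Ioc_subset_Icc_self
    · exact measurableSet_Ioc
    · intro w hw
      exact O.norm_G_le k ht n hw
  refine h2.trans ?_
  rw [setIntegral_const, smul_eq_mul]

/-- **Unfolding.** -/
theorem hasSum_I (k : ℕ) (hk1 : k ≤ 1) {t : ℝ} (ht : 0 < t) :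
    HasSum (fun d => Real.sign (O.p2 d) ^ k * hk k (O.nu d * t)) (O.I k t) := by
  have h1 := hasSum_integral_of_summable_integral_norm (μ := volume.restrict (Ioc 0 O.W))
    (F := fun (n : ℤ × ℤ) w => G k t (O.L.x1 n) (O.L.x2 n) w)
    (fun n => (((continuous_G k t _ _)).integrableOn_Icc (a := 0) (b := O.W)).mono_set
        Ioc_subset_Icc_self) (O.summable_integral_norm k hk1 ht)
  have h2 : ∀ w : ℝ, ∑' n : ℤ × ℤ, G k t (O.L.x1 n) (O.L.x2 n) w =
      (√t * Real.exp (-w / 2)) ^ k * O.L.Th k (Real.exp w) t := by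
    intro w
    unfold G Lat.Th Lat.Q
    rw [tsum_mul_left]
  simp_rw [h2] at h1
  change HasSum _ (O.I k t) at h1
  have h3 := (O.e.hasSum_iff (f := fun n : ℤ × ℤ =>
    ∫ w in Ioc 0 O.W, G k t (O.L.x1 n) (O.L.x2 n) w)).2 h1
  have h4 := h3.prod_fiberwise (g := fun d => Real.sign (O.p2 d) ^ k * hk k (O.nu d * t)) (by
    intro d
    refine (O.hasSum_tile k ht d).congr_fun fun j => ?_
    simp only [Function.comp_apply]
    apply setIntegral_congr_fun measurableSet_Ioc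
    intro w _
    exact O.G_e k t d j w)
  exact h4

end Orb

end Pool.Agent.ST
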