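import Pool.Agent.Lib.MP_1ef7cf_nt.Desc

/-!
# Square roots of relative norms lie in intermediate fields of even degree
-/

set_option linter.style.haveILetI false

open IntermediateField Polynomial

namespace Pool.Agent.ST

variable {K : Type*} [Field K] [Algebra K ℝ] {H L M : IntermediateField K ℝ}

/-- If `L(√u)/K` is abelian then the square root of the norm of `u` from `L` to `H` lies in each
intermediate field `M` of even degree over `H`. -/
lemma sqrt_fibProd_mem_mid (h1 : H ≤ M) (h2 : M ≤ L) [FiniteDimensional K H] [Normal K H]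
    [FiniteDimensional K M] [FiniteDimensional K L] {u : ℝ} (hu : u ∈ L)
    (hpos : ∀ γ : L ≃ₐ[K] L, 0 < act γ u) [IsAbelianGalois K (sqrtExt L u)]
    (heven : Even (fib h1 (1 : H ≃ₐ[K] H)).card) (σ : H ≃ₐ[K] H) :
    Real.sqrt (fibProd (h1.trans h2) u σ) ∈ M := by
  classical
  have hu0 : 0 < u := by have := hpos 1; rwa [act_one_left hu] at this
  have hLΩ := le_sqrtExt L u
  haveI : FiniteDimensional K (sqrtExt L u) := finiteDimensional_sqrtExt hu hu0.le
  haveI : IsAbelianGalois K L := isAbelianGalois_of_le hLΩ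
  haveI : IsAbelianGalois K M := isAbelianGalois_of_le h2
  haveI : IsAbelianGalois K H := isAbelianGalois_of_le h1
  have hMΩ : M ≤ sqrtExt L u := h2.trans hLΩ
  -- the norms from `L` to `M`
  set w : (M ≃ₐ[K] M) → ℝ := fun δ => fibProd h2 u δ with hw
  have hwpos : ∀ δ, 0 < w δ := fun δ => Finset.prod_pos fun γ _ => hpos γ
  have hwM : ∀ δ, w δ ∈ M := fun δ => fibProd_mem_base h2 hu δ
  have hwΩ : ∀ δ, Real.sqrt (w δ) ∈ sqrtExt L u := fun δ => sqrt_fibProd_mem h2 hu hpos δ
  have hwact : ∀ (g : sqrtExt L u ≃ₐ[K] sqrtExt L u), act g (w 1) = w (res hMΩ g) := by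
    intro g
    rw [← act_res hMΩ g (hwM 1), ← res_res h2 hLΩ g, act_res h2 _ (hwM 1), hw]
    simp only
    rw [act_fibProd h2 hu, mul_one]
  have hprod : fibProd (h1.trans h2) u σ = ∏ δ ∈ fib h1 σ, w δ := by
    rw [← fibProd_trans h1 h2 hu σ]
    change ∏ δ ∈ fib h1 σ, act δ (w 1) = _
    refine Finset.prod_congr rfl fun δ _ => ?_
    obtain ⟨g, rfl⟩ := res_surjective h2 δ
    rw [act_res h2 g (hwM 1)]
    have := act_fibProd h2 hu 1 g
    rw [mul_one] at this
    exact this
  rw [hprod, Real.sqrt_prod _ fun δ _ => (hwpos δ).le]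
  apply mem_of_fixed hMΩ (prod_mem fun δ _ => hwΩ δ)
  intro z hz
  obtain ⟨s, hs1, hs2⟩ := act_sqrt (hwΩ 1) (hwpos 1).le z
  rw [hz _ (hwM 1)] at hs2
  have hzδ : ∀ δ, act z (Real.sqrt (w δ)) = s * Real.sqrt (w δ) := by
    intro δ
    obtain ⟨g, hg⟩ := res_surjective hMΩ δ
    obtain ⟨t, ht, ht'⟩ := act_sqrt (hwΩ 1) (hwpos 1).le g
    have h3 : Real.sqrt (w δ) = t * act g (Real.sqrt (w 1)) := by
      rw [ht', hwact, hg, ← mul_assoc]
      have : t * t = 1 := by rcases ht with rfl | rfl <;> norm_num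
      rw [this, one_mul]
    rw [h3, act_mul _ (const_mem ht _) (act_mem _ (hwΩ 1)), act_const ht,
      act_act_comm _ _ (hwΩ 1), hs2, act_mul _ (const_mem hs1 _) (hwΩ 1), act_const hs1]
    ring
  rw [act_prod z _ _ (fun δ _ => hwΩ δ), Finset.prod_congr rfl fun δ _ => hzδ δ,
    Finset.prod_mul_distrib, Finset.prod_const]
  have hcard : Even (fib h1 σ).card := by rw [card_fib]; exact heven
  rcases hs1 with rfl | rfl
  · simp
  · rw [hcard.neg_one_pow, one_mul]

end Pool.Agent.ST
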