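import Pool.Agent.Lib.MP_1ef7cf_nt.StarkOnly

/-!
# Descent from the assertions for the ratios
-/

open NumberField IsDedekindDomain nonZeroDivisors IntermediateField

namespace Pool.Agent.ST

variable {K : Type*} [Field K] [NumberField K] [Algebra K ℝ] {σ₂ : K →+* ℝ}

/-- The numbers `exp (-2 ζ'(0, A))`, indexed by the Galois group. -/
noncomputable def ex (σ₂ : K →+* ℝ) (m : Ideal (𝓞 K)) {H : IntermediateField K ℝ}
    (Art : RayClassGroup σ₂ m ≃* (H ≃ₐ[K] H)) (σ : H ≃ₐ[K] H) : ℝ :=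
  Real.exp (-2 * zd σ₂ m (Art.symm σ))

/-- The assertion for the ratios of the numbers `exp (-2 ζ'(0, A))`. -/
def RatioP (σ₂ : K →+* ℝ) (m : Ideal (𝓞 K)) : Prop :=
  ∃ (H : IntermediateField K ℝ) (Art : RayClassGroup σ₂ m ≃* (H ≃ₐ[K] H)),
    IsRayClassField σ₂ m H Art ∧ Ratio σ₂ H (ex σ₂ m Art)

/-- The assertion for the square roots of the ratios of the numbers `exp (-2 ζ'(0, A))`. -/
def SqrtP (σ₂ : K →+* ℝ) (m : Ideal (𝓞 K)) : Prop :=
  ∃ (H : IntermediateField K ℝ) (Art : RayClassGroup σ₂ m ≃* (H ≃ₐ[K] H)),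
    IsRayClassField σ₂ m H Art ∧ Ratio σ₂ H (ex σ₂ m Art) ∧
    ∀ σ τ, Real.sqrt (ex σ₂ m Art σ) / Real.sqrt (ex σ₂ m Art τ) ∈ H

/-- From the ratios at `N` to `Stark(K, n)`. -/
theorem stark_of_ratioP (h2 : Module.finrank ℚ K = 2) (hσ : σ₂ ≠ sg1 K) {N n : Ideal (𝓞 K)}
    (hle : N ≤ n) (hN : N ≠ ⊥) (hn : n ≠ ⊥) (hn1 : n ≠ ⊤)
    (hdvd : ∀ v : HeightOneSpectrum (𝓞 K), v.asIdeal ∣ N → v.asIdeal ∣ n)
    {J : (FI K)ˣ} (hJ : J ∈ primeTo (K := K) N) (hray : InRay σ₂ n J)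
    (hodd : ∀ f : ℕ, Odd f → ¬ InRay σ₂ N (J ^ f)) (hR : RatioP σ₂ N) : Stark σ₂ n := by
  have hN1 : N ≠ ⊤ := ne_top_of_le hle hn1
  obtain ⟨HN, ArtN, hrN, hR⟩ := hR
  have hfdN := hrN.finite
  have habN := hrN.isRCF.abelian
  obtain ⟨H, Art, hr, hHH⟩ := rcf_same hle hdvd hrN
  have hfdH := hr.finite
  have habH := hr.isRCF.abelian
  have hev := even_fib_of_ray hle hN hJ hray hodd hr hrN hHH
  obtain ⟨hs, hact⟩ := even_core σ₂ hHH hR (prod_exp_zd h2 hσ hN hN1 ArtN)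
    (e := fun σ => Real.exp (-2 * zd σ₂ n (Art.symm σ)))
    (fun σ => prod_fib_same h2 hσ hle hN hn hn1 hdvd hr hrN hHH σ) hev
  have hdn : STData0 σ₂ n H Art (Real.exp (-2 * zd σ₂ n (Art.symm 1))) := by
    refine ⟨hr, hs, fun A => ?_⟩
    rw [hact, MulEquiv.symm_apply_apply]
  exact hdn.stark h2 hσ hn hn1

/-- From the square roots of the ratios at `N` to the Stark-Tate assertion for `n`. -/
theorem starkTate_of_sqrtP (h2 : Module.finrank ℚ K = 2) (hσ : σ₂ ≠ sg1 K) {N n : Ideal (𝓞 K)}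
    (hle : N ≤ n) (hN : N ≠ ⊥) (hn : n ≠ ⊥) (hn1 : n ≠ ⊤)
    (hdvd : ∀ v : HeightOneSpectrum (𝓞 K), v.asIdeal ∣ N → v.asIdeal ∣ n)
    {J : (FI K)ˣ} (hJ : J ∈ primeTo (K := K) N) (hray : InRay σ₂ n J)
    (hodd : ∀ f : ℕ, Odd f → ¬ InRay σ₂ N (J ^ f)) (hR : SqrtP σ₂ N) : StarkTate σ₂ n := by
  have hN1 : N ≠ ⊤ := ne_top_of_le hle hn1
  obtain ⟨HN, ArtN, hrN, hR, hS⟩ := hR
  have hfdN := hrN.finite
  have habN := hrN.isRCF.abelian
  obtain ⟨H, Art, hr, hHH⟩ := rcf_same hle hdvd hrN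
  have hfdH := hr.finite
  have habH := hr.isRCF.abelian
  have hev := even_fib_of_ray hle hN hJ hray hodd hr hrN hHH
  obtain ⟨hs, hact⟩ := even_core_sqrt σ₂ hHH hR (prod_exp_zd h2 hσ hN hN1 ArtN) hS
    (e := fun σ => Real.exp (-2 * zd σ₂ n (Art.symm σ)))
    (fun σ => prod_fib_same h2 hσ hle hN hn hn1 hdvd hr hrN hHH σ) hev
  have hdn : STData σ₂ n H Art (Real.exp (-2 * zd σ₂ n (Art.symm 1))) := by
    refine ⟨hr, hs, fun A => ?_⟩
    rw [hact, MulEquiv.symm_apply_apply]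
  exact hdn.starkTate h2 hσ hn hn1

/-- The Stark-Tate assertion implies the assertion for the square roots of the ratios. -/
theorem StarkTate.sqrtP {m : Ideal (𝓞 K)} (hst : StarkTate σ₂ m) : SqrtP σ₂ m := by
  obtain ⟨H, Art, u, hd⟩ := hst.data
  have hfd := hd.rcf.finite
  have hab := hd.rcf.isRCF.abelian
  have hu := hd.stark.mem
  have hx : ∀ σ : H ≃ₐ[K] H, ex σ₂ m Art σ = act σ u := by
    intro σ
    obtain ⟨A, rfl⟩ := Art.surjective σ
    rw [hd.act A, ex, MulEquiv.symm_apply_apply]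
  have hpos : ∀ σ, 0 < ex σ₂ m Art σ := fun σ => Real.exp_pos _
  have hm : ∀ σ, ex σ₂ m Art σ ∈ H := fun σ => by rw [hx]; exact act_mem _ hu
  refine ⟨H, Art, hd.rcf, ⟨hpos, fun σ τ => div_mem (hm σ) (hm τ), ?_, ?_, ?_⟩, ?_⟩
  · intro ρ σ τ
    rw [hx, hx, hx, hx, act_div _ (act_mem _ hu) (act_mem _ hu), act_comp _ _ hu, act_comp _ _ hu]
  · intro σ τ
    rw [hx, hx, div_eq_mul_inv, ← act_inv _ hu]
    exact (isIntegral_act σ hu hd.stark.int).mul (isIntegral_act τ (inv_mem hu) hd.stark.int_inv)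
  · intro g hg σ τ
    have h1 : ∀ σ : H ≃ₐ[K] H, ‖emb g (act σ u)‖ = 1 := by
      intro σ
      rw [act_of_mem σ hu, emb_coe]
      exact hd.stark.abs (g.comp (σ : H →+* H)) (by
        intro a
        simp only [RingHom.comp_apply]
        have : (σ : H →+* H) (algebraMap K H a) = algebraMap K H a := σ.commutes a
        rw [this, ← hg a])
    rw [hx, hx, emb_div _ (act_mem _ hu) (act_mem _ hu), norm_div, h1, h1, div_one]
  · have habs := hd.stark.ab
    have hu0 : 0 < u := hd.stark.pos'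
    have hLΩ := le_sqrtExt H u
    have hfds : FiniteDimensional K (sqrtExt H u) := finiteDimensional_sqrtExt hu hu0.le
    have hs := sqrt_mem_sqrtExt H u
    -- ratio to the trivial element
    have key : ∀ γ : H ≃ₐ[K] H, Real.sqrt (act γ u) / Real.sqrt u ∈ H := by
      intro γ
      have hsm := sqrt_act_mem hu hd.stark.pos γ
      apply mem_of_fixed hLΩ (div_mem hsm hs)
      intro z hz
      obtain ⟨g, hg⟩ := res_surjective hLΩ γ
      obtain ⟨t, ht, ht'⟩ := act_sqrt hs hu0.le g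
      have h1 : Real.sqrt (act γ u) = t * act g (Real.sqrt u) := by
        rw [ht', ← act_res hLΩ g hu, hg, ← mul_assoc]
        have : t * t = 1 := by rcases ht with rfl | rfl <;> norm_num
        rw [this, one_mul]
      obtain ⟨s, hs1, hs2⟩ := act_sqrt hs hu0.le z
      rw [hz u hu] at hs2
      have hs0 : s ≠ 0 := by rcases hs1 with rfl | rfl <;> norm_num
      rw [act_div _ hsm hs, h1, act_mul _ (const_mem ht _) (act_mem _ hs), act_const ht,
        act_act_comm _ _ hs, hs2, act_mul _ (const_mem hs1 _) hs, act_const hs1]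
      have h4 : Real.sqrt u ≠ 0 := (Real.sqrt_pos.2 hu0).ne'
      field_simp
    intro σ τ
    have h5 := div_mem (key σ) (key τ)
    rw [hx, hx]
    have h4 : Real.sqrt u ≠ 0 := (Real.sqrt_pos.2 hu0).ne'
    have h6 : Real.sqrt (act τ u) ≠ 0 := (Real.sqrt_pos.2 (hd.stark.pos τ)).ne'
    have h7 : Real.sqrt (act σ u) / Real.sqrt u / (Real.sqrt (act τ u) / Real.sqrt u) =
        Real.sqrt (act σ u) / Real.sqrt (act τ u) := by
      field_simp
    rwa [h7] at h5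

/-- `Stark(K, m)` implies the assertion for the ratios. -/
theorem Stark.ratioP {m : Ideal (𝓞 K)} (hst : Stark σ₂ m) : RatioP σ₂ m := by
  obtain ⟨H, Art, u, hd⟩ := hst.data
  have hfd := hd.rcf.finite
  have hab := hd.rcf.isRCF.abelian
  have hu := hd.su.mem
  have hx : ∀ σ : H ≃ₐ[K] H, ex σ₂ m Art σ = act σ u := by
    intro σ
    obtain ⟨A, rfl⟩ := Art.surjective σ
    rw [hd.act A, ex, MulEquiv.symm_apply_apply]
  have hpos : ∀ σ, 0 < ex σ₂ m Art σ := fun σ => Real.exp_pos _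
  have hm : ∀ σ, ex σ₂ m Art σ ∈ H := fun σ => by rw [hx]; exact act_mem _ hu
  refine ⟨H, Art, hd.rcf, ⟨hpos, fun σ τ => div_mem (hm σ) (hm τ), ?_, ?_, ?_⟩⟩
  · intro ρ σ τ
    rw [hx, hx, hx, hx, act_div _ (act_mem _ hu) (act_mem _ hu), act_comp _ _ hu, act_comp _ _ hu]
  · intro σ τ
    rw [hx, hx, div_eq_mul_inv, ← act_inv _ hu]
    exact (isIntegral_act σ hu hd.su.int).mul (isIntegral_act τ (inv_mem hu) hd.su.int_inv)
  · intro g hg σ τ
    have h1 : ∀ σ : H ≃ₐ[K] H, ‖emb g (act σ u)‖ = 1 := by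
      intro σ
      rw [act_of_mem σ hu, emb_coe]
      exact hd.su.abs (g.comp (σ : H →+* H)) (by
        intro a
        simp only [RingHom.comp_apply]
        have : (σ : H →+* H) (algebraMap K H a) = algebraMap K H a := σ.commutes a
        rw [this, ← hg a])
    rw [hx, hx, emb_div _ (act_mem _ hu) (act_mem _ hu), norm_div, h1, h1, div_one]

end Pool.Agent.ST
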