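import Pool.Agent.Lib.MP_1ef7cf_nt.Mg.G003

/-!
# Relations between the partial zeta functions of two moduli
-/

open NumberField IsDedekindDomain nonZeroDivisors Module ComplexConjugate

namespace Pool.Agent.ST

section part

variable {K : Type*} [Field K] [NumberField K] {σ₂ : K →+* ℝ}

lemma idealsOf_disj {m : Ideal (𝓞 K)} {A B : RayClassGroup σ₂ m} {I : Ideal (𝓞 K)}
    (hA : I ∈ idealsOf σ₂ m A) (hB : I ∈ idealsOf σ₂ m B) : A = B := by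
  obtain ⟨J, hJ, rfl⟩ := hA
  obtain ⟨J', hJ', rfl⟩ := hB
  congr 1
  apply Subtype.ext
  apply Units.ext
  rw [hJ, hJ']

lemma mem_idealsOf_pr {n' n : Ideal (𝓞 K)} (h : n' ≤ n) {A : RayClassGroup σ₂ n}
    {I : Ideal (𝓞 K)} : (I ∈ idealsOf σ₂ n A ∧ IsCoprime I n') ↔
      ∃ A', pr σ₂ h A' = A ∧ I ∈ idealsOf σ₂ n' A' := by
  constructor
  · rintro ⟨⟨J, hJ, rfl⟩, hI⟩
    refine ⟨cls σ₂ n' ⟨J, coe_mem_primeTo hJ hI⟩, ?_, ⟨⟨J, coe_mem_primeTo hJ hI⟩, hJ, rfl⟩⟩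
    rw [pr_cls]
    rfl
  · rintro ⟨A', rfl, ⟨J, hJ, rfl⟩⟩
    refine ⟨⟨inc h J, hJ, ?_⟩, coprime_of_mem_primeTo hJ J.2⟩
    rw [pr_cls]

lemma mem_idealsOf_mul {n : Ideal (𝓞 K)} {A : RayClassGroup σ₂ n} {q : Ideal (𝓞 K)}
    {Q : primeTo (K := K) n} (hQ : ((Q : (FI K)ˣ) : FI K) = (q : FI K)) {I : Ideal (𝓞 K)} :
    (I ∈ idealsOf σ₂ n A ∧ q ∣ I) ↔
      ∃ I' ∈ idealsOf σ₂ n (A * (cls σ₂ n Q)⁻¹), I = q * I' := by
  constructor
  · rintro ⟨⟨J, hJ, rfl⟩, ⟨I', rfl⟩⟩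
    refine ⟨I', ⟨J * Q⁻¹, ?_, by rw [map_mul, map_inv]⟩, rfl⟩
    rw [Subgroup.coe_mul, Units.val_mul, hJ, Subgroup.coe_inv, FractionalIdeal.coeIdeal_mul,
      ← hQ, mul_comm, ← mul_assoc, ← Units.val_mul, inv_mul_cancel, Units.val_one, one_mul]
  · rintro ⟨I', ⟨J, hJ, hJA⟩, rfl⟩
    refine ⟨⟨Q * J, ?_, ?_⟩, dvd_mul_right _ _⟩
    · rw [Subgroup.coe_mul, Units.val_mul, hJ, hQ, FractionalIdeal.coeIdeal_mul]
    · rw [map_mul, hJA, mul_comm, inv_mul_cancel_right]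

lemma coprime_prime_mul_iff {q : HeightOneSpectrum (𝓞 K)} {n I : Ideal (𝓞 K)}
    (hI : IsCoprime I n) : IsCoprime I (n * q.asIdeal) ↔ ¬ q.asIdeal ∣ I := by
  constructor
  · intro h h2
    have h3 : IsCoprime q.asIdeal I := (h.of_mul_right_right).symm
    exact coprime_prime_iff.1 h3 h2
  · intro h
    exact hI.mul_right (coprime_prime_iff.2 h).symm

end part

section sums

variable {K : Type*} [Field K] [NumberField K] {σ₂ : K →+* ℝ}

/-- the function summed -/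
noncomputable def nf (s : ℂ) (I : Ideal (𝓞 K)) : ℂ := ((Ideal.absNorm I : ℕ) : ℂ) ^ (-s)

lemma IsPartialZeta.hasSum_ind {m : Ideal (𝓞 K)} {A : RayClassGroup σ₂ m} {Z : ℂ → ℂ}
    (hZ : IsPartialZeta σ₂ m A Z) {s : ℂ} (hs : 1 < s.re) :
    HasSum ((idealsOf σ₂ m A).indicator (nf s)) (Z s) := by
  rw [← hasSum_subtype_iff_indicator]
  exact hZ.hasSum hs

/-- the relation for partial sums -/
lemma sum_relation {n' n : Ideal (𝓞 K)} (h : n' ≤ n) {A : RayClassGroup σ₂ n}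
    {S : Finset (RayClassGroup σ₂ n')} (hS : ∀ A', A' ∈ S ↔ pr σ₂ h A' = A) {s : ℂ} (I) :
    ∑ A' ∈ S, (idealsOf σ₂ n' A').indicator (nf s) I =
      {I | I ∈ idealsOf σ₂ n A ∧ IsCoprime I n'}.indicator (nf s) I := by
  classical
  by_cases hI : I ∈ idealsOf σ₂ n A ∧ IsCoprime I n'
  · rw [Set.indicator_of_mem (by exact hI)]
    obtain ⟨A', hA', hIA'⟩ := (mem_idealsOf_pr h).1 hI
    rw [Finset.sum_eq_single_of_mem A' ((hS A').2 hA')]
    · rw [Set.indicator_of_mem hIA']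
    · intro B _ hB
      rw [Set.indicator_of_notMem]
      intro hIB
      exact hB (idealsOf_disj hIB hIA')
  · rw [Set.indicator_of_notMem (by exact hI)]
    apply Finset.sum_eq_zero
    intro B hB
    rw [Set.indicator_of_notMem]
    intro hIB
    exact hI ((mem_idealsOf_pr h).2 ⟨B, (hS B).1 hB, hIB⟩)

/-- same prime divisors -/
theorem zeta_relation_same {n' n : Ideal (𝓞 K)} (h : n' ≤ n)
    (hcop : ∀ I : Ideal (𝓞 K), IsCoprime I n → IsCoprime I n')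
    {A : RayClassGroup σ₂ n} {S : Finset (RayClassGroup σ₂ n')}
    (hS : ∀ A', A' ∈ S ↔ pr σ₂ h A' = A) {Z : ℂ → ℂ} {Z' : RayClassGroup σ₂ n' → ℂ → ℂ}
    (hZ : IsPartialZeta σ₂ n A Z) (hZ' : ∀ A', IsPartialZeta σ₂ n' A' (Z' A')) {s : ℂ}
    (hs : 1 < s.re) : Z s = ∑ A' ∈ S, Z' A' s := by
  have h1 := hZ.hasSum_ind hs
  have h2 : HasSum (fun I => ∑ A' ∈ S, (idealsOf σ₂ n' A').indicator (nf s) I)
      (∑ A' ∈ S, Z' A' s) := hasSum_sum fun A' _ => (hZ' A').hasSum_ind hs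
  refine h1.unique (h2.congr_fun fun I => ?_)
  rw [sum_relation h hS]
  congr 1
  ext I
  simp only [Set.mem_ofPred_eq]
  constructor
  · intro hI
    obtain ⟨J, hJ, rfl⟩ := hI
    exact ⟨⟨J, hJ, rfl⟩, hcop _ (coprime_of_mem_primeTo hJ J.2)⟩
  · intro hI; exact hI.1

/-- adding a prime -/
theorem zeta_relation_prime {n : Ideal (𝓞 K)} {q : HeightOneSpectrum (𝓞 K)}
    (h : n * q.asIdeal ≤ n)
    {A : RayClassGroup σ₂ n} {S : Finset (RayClassGroup σ₂ (n * q.asIdeal))}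
    (hS : ∀ A', A' ∈ S ↔ pr σ₂ h A' = A) {Q : primeTo (K := K) n}
    (hQ : ((Q : (FI K)ˣ) : FI K) = (q.asIdeal : FI K))
    {Z Z₁ : ℂ → ℂ} {Z' : RayClassGroup σ₂ (n * q.asIdeal) → ℂ → ℂ}
    (hZ : IsPartialZeta σ₂ n A Z) (hZ₁ : IsPartialZeta σ₂ n (A * (cls σ₂ n Q)⁻¹) Z₁)
    (hZ' : ∀ A', IsPartialZeta σ₂ (n * q.asIdeal) A' (Z' A')) {s : ℂ}
    (hs : 1 < s.re) :
    Z s = ∑ A' ∈ S, Z' A' s + ((Ideal.absNorm q.asIdeal : ℕ) : ℂ) ^ (-s) * Z₁ s := by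
  have h1 := hZ.hasSum_ind hs
  have h2 : HasSum (fun I => ∑ A' ∈ S, (idealsOf σ₂ (n * q.asIdeal) A').indicator (nf s) I)
      (∑ A' ∈ S, Z' A' s) := hasSum_sum fun A' _ => (hZ' A').hasSum_ind hs
  have h3 : HasSum ({I | I ∈ idealsOf σ₂ n A ∧ q.asIdeal ∣ I}.indicator (nf s))
      (((Ideal.absNorm q.asIdeal : ℕ) : ℂ) ^ (-s) * Z₁ s) := by
    have hinj : Function.Injective
        (fun I' : idealsOf σ₂ n (A * (cls σ₂ n Q)⁻¹) => q.asIdeal * I'.1) := by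
      intro a b hab
      have hq0 : q.asIdeal ≠ 0 := by rw [Ideal.zero_eq_bot]; exact q.ne_bot
      exact Subtype.ext (mul_left_cancel₀ hq0 hab)
    rw [← hinj.hasSum_iff]
    · refine ((hZ₁.hasSum hs).mul_left (((Ideal.absNorm q.asIdeal : ℕ) : ℂ) ^ (-s))).congr_fun
        fun I' => ?_
      simp only [Function.comp_apply]
      rw [Set.indicator_of_mem (by exact (mem_idealsOf_mul hQ).2 ⟨I'.1, I'.2, rfl⟩), nf, map_mul,
        Nat.cast_mul, Complex.natCast_mul_natCast_cpow]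
    · intro I hI
      rw [Set.indicator_of_notMem]
      intro hI2
      obtain ⟨I', hI', rfl⟩ := (mem_idealsOf_mul hQ).1 hI2
      exact hI ⟨⟨I', hI'⟩, rfl⟩
  refine h1.unique ((h2.add h3).congr_fun fun I => ?_)
  rw [sum_relation h hS]
  by_cases hI : I ∈ idealsOf σ₂ n A
  · rw [Set.indicator_of_mem hI]
    have hIn : IsCoprime I n := by
      obtain ⟨J, hJ, -⟩ := hI
      exact coprime_of_mem_primeTo hJ J.2
    by_cases hqI : q.asIdeal ∣ I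
    · rw [Set.indicator_of_notMem, Set.indicator_of_mem (by exact ⟨hI, hqI⟩), zero_add]
      rintro ⟨-, h4⟩
      exact (coprime_prime_mul_iff hIn).1 h4 hqI
    · rw [Set.indicator_of_mem (by exact ⟨hI, (coprime_prime_mul_iff hIn).2 hqI⟩),
        Set.indicator_of_notMem (by exact fun h5 => hqI h5.2), add_zero]
  · rw [Set.indicator_of_notMem hI, Set.indicator_of_notMem (by exact fun h5 => hI h5.1),
      Set.indicator_of_notMem (by exact fun h5 => hI h5.1), add_zero]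

end sums

end Pool.Agent.ST
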