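import Pool.Agent.Lib.MP_1ef7cf_nt.ZetaSum

/-!
Sums over prime ideals of a number field near `s = 1`.
-/

set_option linter.style.haveILetI false

open NumberField Filter Topology Ideal nonZeroDivisors IsDedekindDomain

namespace Pool.Agent.ST

section primes

variable (F : Type*) [Field F] [NumberField F]

/-- nonzero primes -/
abbrev PrI := HeightOneSpectrum (𝓞 F)

variable {F}

/-- norm of a prime -/
noncomputable def pn (P : PrI F) : ℕ := absNorm P.asIdeal

lemma two_le_pn (P : PrI F) : 2 ≤ pn P := by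
  have h0 : absNorm P.asIdeal ≠ 0 := by
    rw [Ne, Ideal.absNorm_eq_zero_iff]; exact P.ne_bot
  have h1 : absNorm P.asIdeal ≠ 1 := by
    rw [Ne, Ideal.absNorm_eq_one_iff]; exact P.isPrime.ne_top
  unfold pn
  omega

/-- the term `N P ^ (-s)` -/
noncomputable def px (s : ℝ) (P : PrI F) : ℝ := (pn P : ℝ) ^ (-s)

lemma px_pos (s : ℝ) (P : PrI F) : 0 < px s P := by
  have := two_le_pn P
  unfold px
  apply Real.rpow_pos_of_pos
  positivity

lemma px_le_half {s : ℝ} (hs : 1 ≤ s) (P : PrI F) : px s P ≤ 1 / 2 := by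
  have h2 : (2 : ℝ) ≤ pn P := by exact_mod_cast two_le_pn P
  unfold px
  rw [Real.rpow_neg (by positivity)]
  have h3 : (2 : ℝ) ≤ (pn P : ℝ) ^ s := by
    calc (2 : ℝ) ≤ (pn P : ℝ) ^ (1 : ℝ) := by rw [Real.rpow_one]; exact h2
      _ ≤ (pn P : ℝ) ^ s := Real.rpow_le_rpow_of_exponent_le (by linarith) hs
  rw [inv_eq_one_div]
  exact one_div_le_one_div_of_le (by norm_num) h3

lemma px_sq {s : ℝ} (hs : 1 ≤ s) (P : PrI F) : px s P ^ 2 ≤ px 2 P := by
  have h2 : (2 : ℝ) ≤ pn P := by exact_mod_cast two_le_pn P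
  unfold px
  rw [← Real.rpow_natCast, ← Real.rpow_mul (by positivity)]
  apply Real.rpow_le_rpow_of_exponent_le (by linarith)
  push_cast
  linarith

/-- a prime as a nonzero ideal -/
def toNz (P : PrI F) : NzI F := ⟨P.asIdeal, P.ne_bot⟩

omit [NumberField F] in
lemma toNz_injective : Function.Injective (toNz : PrI F → NzI F) := by
  intro P Q h
  have : P.asIdeal = Q.asIdeal := congrArg Subtype.val h
  exact HeightOneSpectrum.ext this

lemma px_eq (s : ℝ) (P : PrI F) : px s P = (absNorm (toNz P).1 : ℝ) ^ (-s) := by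
  simp only [px, pn, toNz]

lemma summable_px {s : ℝ} (hs : 1 < s) : Summable (fun P : PrI F => px s P) := by
  have h := (summable_ideal F hs).comp_injective (toNz_injective (F := F))
  refine h.congr fun P => ?_
  rw [px_eq]
  rfl

variable (F) in
/-- the prime sum -/
noncomputable def primeSum (s : ℝ) : ℝ := ∑' P : PrI F, px s P

lemma sum_px_sq_le {s : ℝ} (hs : 1 ≤ s) (T : Finset (PrI F)) :
    ∑ P ∈ T, px s P ^ 2 ≤ primeSum F 2 :=
  (Finset.sum_le_sum fun P _ => px_sq hs P).trans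
    ((summable_px (F := F) one_lt_two).sum_le_tsum T fun P _ => (px_pos 2 P).le)

lemma prod_prime_injective {A B : Finset (PrI F)}
    (h : ∏ P ∈ A, P.asIdeal = ∏ P ∈ B, P.asIdeal) : A ⊆ B := by
  intro P hP
  have h1 : P.asIdeal ∣ ∏ P ∈ B, P.asIdeal := by
    rw [← h]; exact Finset.dvd_prod_of_mem _ hP
  have hprime : Prime P.asIdeal := P.prime
  obtain ⟨Q, hQ, hPQ⟩ := (Prime.dvd_finsetProd_iff hprime _).1 h1
  have h2 : Q.asIdeal ≤ P.asIdeal := Ideal.le_of_dvd hPQ
  have h3 : Q.asIdeal = P.asIdeal :=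
    Q.isMaximal.eq_of_le P.isPrime.ne_top h2
  have : Q = P := HeightOneSpectrum.ext h3
  rwa [← this]

lemma exp_sub_sq_le {x : ℝ} (h0 : 0 ≤ x) (h1 : x ≤ 1 / 2) : Real.exp (x - x ^ 2) ≤ 1 + x := by
  have h2 : 1 - (x - x ^ 2) ≤ Real.exp (-(x - x ^ 2)) := by
    have := Real.add_one_le_exp (-(x - x ^ 2)); linarith
  have h3 : 0 < 1 - (x - x ^ 2) := by nlinarith
  rw [Real.exp_neg] at h2
  have h4 : Real.exp (x - x ^ 2) ≤ (1 - (x - x ^ 2))⁻¹ := by
    rw [← inv_inv (Real.exp (x - x ^ 2))]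
    exact inv_anti₀ h3 h2
  refine h4.trans ?_
  rw [inv_eq_one_div, div_le_iff₀ h3]
  nlinarith [pow_nonneg h0 3]

lemma inv_one_sub_le {x : ℝ} (h0 : 0 ≤ x) (h1 : x ≤ 1 / 2) :
    (1 - x)⁻¹ ≤ Real.exp (x + 2 * x ^ 2) := by
  have h2 : (x + 2 * x ^ 2) + 1 ≤ Real.exp (x + 2 * x ^ 2) := Real.add_one_le_exp _
  refine le_trans ?_ h2
  rw [inv_eq_one_div, div_le_iff₀ (by linarith)]
  nlinarith [pow_nonneg h0 3, pow_nonneg h0 2]

/-- lower bound for zeta via squarefree ideals -/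
lemma prod_one_add_le {s : ℝ} (hs : 1 < s) (T : Finset (PrI F)) :
    ∏ P ∈ T, (1 + px s P) ≤ zetaR F s := by
  classical
  rw [Finset.prod_one_add]
  have hne : ∀ A : Finset (PrI F), ∏ P ∈ A, P.asIdeal ≠ ⊥ := by
    intro A
    rw [Ne, ← Ideal.zero_eq_bot, Finset.prod_eq_zero_iff]
    rintro ⟨P, _, hP⟩
    exact P.ne_bot (by rw [hP, Ideal.zero_eq_bot])
  set f : Finset (PrI F) → NzI F := fun A => ⟨∏ P ∈ A, P.asIdeal, hne A⟩ with hf
  have hinj : Function.Injective f := by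
    intro A B hAB
    have h : ∏ P ∈ A, P.asIdeal = ∏ P ∈ B, P.asIdeal := congrArg Subtype.val hAB
    exact Finset.Subset.antisymm (prod_prime_injective h) (prod_prime_injective h.symm)
  have h1 : ∀ A ∈ T.powerset, ∏ P ∈ A, px s P = (absNorm (f A).1 : ℝ) ^ (-s) := by
    intro A _
    simp only [hf, px, pn]
    rw [map_prod, Nat.cast_prod, Real.finsetProd_rpow _ _ (fun P _ => Nat.cast_nonneg _)]
  rw [Finset.sum_congr rfl h1]
  have h2 : ∑ A ∈ T.powerset, (absNorm (f A).1 : ℝ) ^ (-s) =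
      ∑ I ∈ T.powerset.image f, (absNorm I.1 : ℝ) ^ (-s) := by
    rw [Finset.sum_image fun A _ B _ h => hinj h]
  rw [h2]
  exact (summable_ideal F hs).sum_le_tsum _ fun I _ => by positivity

lemma exp_primeSum_le {s : ℝ} (hs : 1 < s) :
    Real.exp (primeSum F s - primeSum F 2) ≤ zetaR F s := by
  have h1 : ∀ T : Finset (PrI F), Real.exp (∑ P ∈ T, px s P - primeSum F 2) ≤ zetaR F s := by
    intro T
    refine le_trans ?_ (prod_one_add_le hs T)
    have h2 : ∑ P ∈ T, px s P - primeSum F 2 ≤ ∑ P ∈ T, (px s P - px s P ^ 2) := by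
      rw [Finset.sum_sub_distrib]
      have := sum_px_sq_le hs.le T
      linarith
    refine (Real.exp_le_exp.2 h2).trans ?_
    rw [Real.exp_sum]
    apply Finset.prod_le_prod (fun P _ => (Real.exp_pos _).le)
    intro P _
    exact exp_sub_sq_le (px_pos s P).le (px_le_half hs.le P)
  have h2 : Tendsto (fun T : Finset (PrI F) => Real.exp (∑ P ∈ T, px s P - primeSum F 2)) atTop
      (𝓝 (Real.exp (primeSum F s - primeSum F 2))) := by
    apply (Real.continuous_exp.tendsto _).comp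
    exact ((summable_px hs).hasSum).sub_const _
  exact le_of_tendsto' h2 h1

end primes

end Pool.Agent.ST
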