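import Pool.Agent.Lib.MP_1ef7cf_nt.LowDens

/-!
# One failure implies many failures
-/

open NumberField Filter Topology Ideal IsDedekindDomain nonZeroDivisors IntermediateField

namespace Pool.Agent.ST

section aux

variable {K : Type*} [Field K] [NumberField K]

lemma tendsto_log_inv : Tendsto (fun s : ℝ => Real.log (1 / (s - 1))) (𝓝[>] 1) atTop := by
  have hlog : Tendsto (fun s : ℝ => -Real.log (s - 1)) (𝓝[>] 1) atTop := by
    have h1 : Tendsto (fun s : ℝ => s - 1) (𝓝[>] 1) (𝓝[>] 0) := by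
      have h2 : Tendsto (fun s : ℝ => s - 1) (𝓝 1) (𝓝 0) := by
        have h3 : Continuous fun s : ℝ => s - 1 := by fun_prop
        have h4 := h3.tendsto 1
        rwa [sub_self] at h4
      refine tendsto_nhdsWithin_iff.2 ⟨h2.mono_left nhdsWithin_le_nhds, ?_⟩
      filter_upwards [self_mem_nhdsWithin] with s hs
      have : (1 : ℝ) < s := hs
      simpa using this
    exact tendsto_neg_atBot_atTop.comp (Real.tendsto_log_nhdsGT_zero.comp h1)
  refine hlog.congr fun s => ?_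
  rw [log_one_div_sub]

/-- finite subsums close to the sum -/
lemma exists_finset_sum {B : Set (PrI K)} {s : ℝ} (hs : 1 < s) {M : ℝ}
    (hM : M < ∑' q, B.indicator (px s) q) :
    ∃ T : Finset (PrI K), (∀ q ∈ T, q ∈ B) ∧ M ≤ ∑ q ∈ T, px s q := by
  classical
  by_contra hcon
  push Not at hcon
  apply absurd hM
  rw [not_lt]
  apply ((summable_px hs).indicator B).tsum_le_of_sum_le
  intro T
  have e : ∑ q ∈ T, B.indicator (px s) q = ∑ q ∈ T.filter (fun q => q ∈ B), px s q := by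
    rw [Finset.sum_filter]
    apply Finset.sum_congr rfl
    intro q _
    rw [Set.indicator_apply]
  rw [e]
  exact (hcon _ fun q hq => (Finset.mem_filter.1 hq).2).le

lemma DensGe.exists_finset {B : Set (PrI K)} {c : ℝ} (hB : DensGe B c) :
    ∃ C : ℝ, 0 ≤ C ∧ ∀ᶠ s in 𝓝[>] (1 : ℝ), ∃ T : Finset (PrI K), (∀ q ∈ T, q ∈ B) ∧
      c * Real.log (1 / (s - 1)) - C ≤ ∑ q ∈ T, px s q := by
  obtain ⟨C, hC⟩ := hB
  refine ⟨|C| + 1, by positivity, ?_⟩
  filter_upwards [hC, self_mem_nhdsWithin] with s h1 h2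
  obtain ⟨T, hT, hT'⟩ := exists_finset_sum (K := K) (B := B) (show (1 : ℝ) < s from h2)
    (M := c * Real.log (1 / (s - 1)) - (|C| + 1)) (by
      have := le_abs_self C
      linarith)
  exact ⟨T, hT, hT'⟩

lemma DensGe.diff_finite {B B' : Set (PrI K)} {c : ℝ} (hB : DensGe B c) (hB' : B'.Finite) :
    DensGe (B \ B') c := by
  obtain ⟨C, hC⟩ := hB
  obtain ⟨D, hD⟩ := (DensLe.of_finite hB').tsum_le
  refine ⟨C + D, ?_⟩
  have hs2 : ∀ᶠ s in 𝓝[>] (1 : ℝ), s < 2 :=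
    mem_nhdsWithin_of_mem_nhds (Iio_mem_nhds (by norm_num))
  filter_upwards [hC, self_mem_nhdsWithin, hs2] with s h1 h2 h3
  have hs1 : (1 : ℝ) < s := h2
  have e2 := hD s hs1 h3
  rw [zero_mul, zero_add] at e2
  have e1 : ∑' q, B.indicator (px s) q ≤ ∑' q, (B \ B').indicator (px s) q +
      ∑' q, B'.indicator (px s) q := by
    have s1 : Summable (B.indicator (px s) : PrI K → ℝ) := (summable_px hs1).indicator _
    have s2 : Summable ((B \ B').indicator (px s) : PrI K → ℝ) := (summable_px hs1).indicator _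
    have s3 : Summable (B'.indicator (px s) : PrI K → ℝ) := (summable_px hs1).indicator _
    rw [← s2.tsum_add s3]
    apply s1.tsum_le_tsum _ (s2.add s3)
    intro q
    have p2 : 0 ≤ (B \ B').indicator (px s) q :=
      Set.indicator_nonneg (fun x _ => (px_pos s x).le) q
    have p3 : 0 ≤ B'.indicator (px s) q := Set.indicator_nonneg (fun x _ => (px_pos s x).le) q
    by_cases hq : q ∈ B
    · by_cases hq' : q ∈ B'
      · rw [Set.indicator_of_mem hq, Set.indicator_of_mem hq' (f := px s)]; linarith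
      · rw [Set.indicator_of_mem hq, Set.indicator_of_mem (show q ∈ B \ B' from ⟨hq, hq'⟩)]
        linarith
    · rw [Set.indicator_of_notMem hq]; linarith
  linarith

end aux

variable {K : Type*} [Field K] [NumberField K] [Algebra K ℝ] {σ₂ : K →+* ℝ}

/-- **One failure implies many failures.** -/
theorem propagate {P Q : Ideal (𝓞 K) → Prop}
    (hP : ∀ m, P m → ∃ (H : IntermediateField K ℝ) (Art : RayClassGroup σ₂ m ≃* (H ≃ₐ[K] H)),
      IsRayClassField σ₂ m H Art) (hQP : ∀ m, Q m → P m)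
    (hloc : ∀ n : Ideal (𝓞 K), n ≠ ⊥ → n ≠ ⊤ →
      (∀ v : HeightOneSpectrum (𝓞 K), (2 : 𝓞 K) ∈ v.asIdeal → v.asIdeal ∣ n) →
      ∃ j : ℕ, ∀ 𝔞 : Ideal (𝓞 K), 𝔞 ≠ ⊥ → IsCoprime n 𝔞 →
        GenP σ₂ P (n * 𝔞 * Ideal.span {(2 : 𝓞 K)} ^ j) 1 → Q (n * 𝔞))
    {n : Ideal (𝓞 K)} (hn : n ≠ ⊥) (hn1 : n ≠ ⊤)
    (htwo : ∀ v : HeightOneSpectrum (𝓞 K), (2 : 𝓞 K) ∈ v.asIdeal → v.asIdeal ∣ n)
    (hfail : ¬ Q n) (C : ℝ) :
    ∃ δ > 0, ∀ s : ℝ, 1 < s → s < 1 + δ → ∃ T : Finset (Ideal (𝓞 K)),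
      (∀ m ∈ T, m ≠ ⊥ ∧ n ∣ m ∧ ¬ P m) ∧
      C * Real.log (1 / (s - 1)) ≤ ∑ m ∈ T, (Ideal.absNorm m : ℝ) ^ (-s) := by
  classical
  obtain ⟨j₀, hj₀⟩ := hloc n hn hn1 htwo
  set n' : Ideal (𝓞 K) := n * Ideal.span {(2 : 𝓞 K)} ^ j₀ with hn'
  have hn'b : n' ≠ ⊥ := mul_ne_bot' hn (pow_ne_bot' span_two_ne_bot _)
  have hn'1 : n' ≠ ⊤ := ne_top_of_le Ideal.mul_le_left hn1
  have htwo' : ∀ v : HeightOneSpectrum (𝓞 K), (2 : 𝓞 K) ∈ v.asIdeal → v.asIdeal ∣ n' :=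
    fun v hv => dvd_mul_of_dvd_left (htwo v hv) _
  obtain ⟨j₁, hj₁⟩ := hloc n' hn'b hn'1 htwo'
  -- first set of primes
  have hG₀ : ¬ GenP σ₂ P n' 1 := by
    intro hG
    apply hfail
    have h1 := hj₀ 1 (by rw [← Ideal.zero_eq_bot]; exact one_ne_zero) isCoprime_one_right
    rw [mul_one] at h1
    exact h1 hG
  have hB := densGe_of_not_genP hP hn'b hG₀
  set B : Set (PrI K) := {q : PrI K | ¬ q.asIdeal ∣ n' ∧ ¬ P (n' * q.asIdeal ^ 1)} with hBdef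
  -- second set of primes
  set c₁ : Ideal (𝓞 K) := n' * Ideal.span {(2 : 𝓞 K)} ^ j₁ with hc₁
  have hc₁b : c₁ ≠ ⊥ := mul_ne_bot' hn'b (pow_ne_bot' span_two_ne_bot _)
  set Bq : PrI K → Set (PrI K) := fun q => {q' : PrI K |
    ¬ q'.asIdeal ∣ n' * q.asIdeal * Ideal.span {(2 : 𝓞 K)} ^ j₁ ∧
      ¬ P (n' * q.asIdeal * Ideal.span {(2 : 𝓞 K)} ^ j₁ * q'.asIdeal ^ 1)} with hBq
  have hB2 : ∀ q ∈ B, DensGe (Bq q) (1 / 2) := by
    rintro q ⟨hq, hqP⟩
    have hcop : IsCoprime n' q.asIdeal := by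
      rw [isCoprime_comm]
      exact coprime_prime_iff.2 hq
    have hne : n' * q.asIdeal * Ideal.span {(2 : 𝓞 K)} ^ j₁ ≠ ⊥ :=
      mul_ne_bot' (mul_ne_bot' hn'b q.ne_bot) (pow_ne_bot' span_two_ne_bot _)
    apply densGe_of_not_genP hP hne
    intro hG
    have h1 := hj₁ q.asIdeal q.ne_bot hcop hG
    apply hqP
    rw [pow_one]
    exact hQP _ h1
  -- constants
  set c₀ : ℝ := (Ideal.absNorm c₁ : ℝ) with hc₀
  have hc₀1 : 1 ≤ c₀ := by
    have h1 : Ideal.absNorm c₁ ≠ 0 := by rw [Ne, Ideal.absNorm_eq_zero_iff]; exact hc₁b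
    rw [hc₀]
    exact_mod_cast Nat.one_le_iff_ne_zero.2 h1
  set M : ℝ := 4 * (|C| + 1) * c₀ ^ 2 with hM
  have hM0 : 0 < M := by positivity
  -- choose `s₁` and the finite set `Q₀`
  obtain ⟨CB, hCB0, hCB⟩ := hB.exists_finset
  have hs2 : ∀ᶠ s in 𝓝[>] (1 : ℝ), s < 2 :=
    mem_nhdsWithin_of_mem_nhds (Iio_mem_nhds (by norm_num))
  obtain ⟨s₁, ⟨Q₀, hQ₀B, hQ₀⟩, hs₁1, hs₁2, hs₁3⟩ :=
    (hCB.and (eventually_mem_nhdsWithin.and
      (hs2.and (tendsto_log_inv.eventually_ge_atTop (2 * (M + CB)))))).exists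
  have hs₁ : (1 : ℝ) < s₁ := hs₁1
  have hQM : M ≤ ∑ q ∈ Q₀, px s₁ q := by linarith
  -- remove `Q₀` from the second sets
  have hB3 : ∀ q ∈ Q₀, ∃ D : ℝ, 0 ≤ D ∧ ∀ᶠ s in 𝓝[>] (1 : ℝ), ∃ T : Finset (PrI K),
      (∀ q' ∈ T, q' ∈ Bq q \ (Q₀ : Set (PrI K))) ∧
      (1 / 2) * Real.log (1 / (s - 1)) - D ≤ ∑ q' ∈ T, px s q' :=
    fun q hq => ((hB2 q (hQ₀B q hq)).diff_finite Q₀.finite_toSet).exists_finset
  choose! D hD0 hD using hB3
  have hall : ∀ᶠ s in 𝓝[>] (1 : ℝ), ∀ q ∈ Q₀, ∃ T : Finset (PrI K),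
      (∀ q' ∈ T, q' ∈ Bq q \ (Q₀ : Set (PrI K))) ∧
      (1 / 2) * Real.log (1 / (s - 1)) - D q ≤ ∑ q' ∈ T, px s q' :=
    (Filter.eventually_all_finset Q₀).2 hD
  set D' : ℝ := ∑ q ∈ Q₀, D q with hD'
  have hD'0 : 0 ≤ D' := Finset.sum_nonneg fun q hq => hD0 q hq
  have hsm : ∀ᶠ s in 𝓝[>] (1 : ℝ), s < s₁ :=
    mem_nhdsWithin_of_mem_nhds (Iio_mem_nhds hs₁)
  have hev := (hall.and (hs2.and (hsm.and
    (tendsto_log_inv.eventually_ge_atTop (4 * D' / M)))))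
  obtain ⟨u, hu1, hu⟩ := mem_nhdsGT_iff_exists_Ioo_subset.1 hev
  have hu1' : (1 : ℝ) < u := hu1
  refine ⟨u - 1, by linarith, fun s hs hsu => ?_⟩
  obtain ⟨hTs, hs2', hss₁, hlog⟩ := hu ⟨hs, by linarith⟩
  have hlog0 : 0 ≤ Real.log (1 / (s - 1)) := log_inv_nonneg hs hs2'
  set ℓ : ℝ := Real.log (1 / (s - 1)) with hℓ
  choose! T hT hT' using hTs
  -- the map
  set f : (Σ _ : PrI K, PrI K) → Ideal (𝓞 K) := fun p =>
    n' * p.1.asIdeal * Ideal.span {(2 : 𝓞 K)} ^ j₁ * p.2.asIdeal with hf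
  set S : Finset (Σ _ : PrI K, PrI K) := Q₀.sigma T with hS
  have hfe : ∀ p, f p = c₁ * (p.1.asIdeal * p.2.asIdeal) := by
    intro p
    simp only [hf, hc₁]
    ring
  have hinj : Set.InjOn f S := by
    rintro ⟨q, q'⟩ hp ⟨t, t'⟩ hp' heq
    rw [Finset.mem_coe, hS, Finset.mem_sigma] at hp hp'
    simp only at hp hp'
    rw [hfe, hfe] at heq
    simp only at heq
    have hc₁0 : c₁ ≠ 0 := by rw [Ideal.zero_eq_bot]; exact hc₁b
    have h1 : q.asIdeal * q'.asIdeal = t.asIdeal * t'.asIdeal := mul_left_cancel₀ hc₁0 heq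
    have h2 : q.asIdeal ∣ t.asIdeal * t'.asIdeal := ⟨q'.asIdeal, h1.symm⟩
    have ht'Q : t' ∉ (Q₀ : Set (PrI K)) := (hT t hp'.1 t' hp'.2).2
    rcases q.prime.dvd_or_dvd h2 with h3 | h3
    · have h4 := eq_of_dvd_prime h3
      subst h4
      have hq0 : q.asIdeal ≠ 0 := by rw [Ideal.zero_eq_bot]; exact q.ne_bot
      have h5 : q'.asIdeal = t'.asIdeal := mul_left_cancel₀ hq0 h1
      have h6 : q' = t' := HeightOneSpectrum.ext h5
      subst h6
      rfl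
    · have h4 := eq_of_dvd_prime h3
      subst h4
      exact absurd (Finset.mem_coe.2 hp.1) ht'Q
  refine ⟨S.image f, ?_, ?_⟩
  · intro m hm
    obtain ⟨⟨q, q'⟩, hp, rfl⟩ := Finset.mem_image.1 hm
    rw [hS, Finset.mem_sigma] at hp
    simp only at hp
    obtain ⟨⟨h3, h4⟩, -⟩ := hT q hp.1 q' hp.2
    refine ⟨?_, ?_, ?_⟩
    · exact mul_ne_bot' (mul_ne_bot' (mul_ne_bot' hn'b q.ne_bot)
        (pow_ne_bot' span_two_ne_bot _)) q'.ne_bot
    · exact dvd_mul_of_dvd_left (dvd_mul_of_dvd_left (dvd_mul_of_dvd_left (dvd_mul_right _ _) _) _) _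
    · rw [pow_one] at h4
      exact h4
  · rw [Finset.sum_image hinj, hS, Finset.sum_sigma]
    have hterm : ∀ q q' : PrI K, (Ideal.absNorm (f ⟨q, q'⟩) : ℝ) ^ (-s) =
        c₀ ^ (-s) * (px s q * px s q') := by
      intro q q'
      rw [hfe]
      simp only [map_mul, Nat.cast_mul]
      rw [Real.mul_rpow (by positivity) (by positivity),
        Real.mul_rpow (by positivity) (by positivity)]
      rfl
    have h1 : ∑ q ∈ Q₀, ∑ q' ∈ T q, (Ideal.absNorm (f ⟨q, q'⟩) : ℝ) ^ (-s) =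
        c₀ ^ (-s) * ∑ q ∈ Q₀, px s q * ∑ q' ∈ T q, px s q' := by
      rw [Finset.mul_sum]
      refine Finset.sum_congr rfl fun q _ => ?_
      rw [Finset.mul_sum, Finset.mul_sum]
      refine Finset.sum_congr rfl fun q' _ => ?_
      exact hterm q q'
    rw [h1]
    have h2 : (1 / 2) * ℓ * M - D' ≤ ∑ q ∈ Q₀, px s q * ∑ q' ∈ T q, px s q' := by
      have h3 : ∀ q ∈ Q₀, px s₁ q * ((1 / 2) * ℓ) - D q ≤ px s q * ∑ q' ∈ T q, px s q' := by
        intro q hq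
        have h4 := hT' q hq
        have h5 : px s₁ q ≤ px s q := px_anti hss₁.le q
        have h6 : px s q ≤ 1 := (px_le_half hs.le q).trans (by norm_num)
        have h7 : 0 < px s q := px_pos s q
        have h8 := hD0 q hq
        have h9 : px s q * ((1 / 2) * ℓ - D q) ≤ px s q * ∑ q' ∈ T q, px s q' :=
          mul_le_mul_of_nonneg_left h4 h7.le
        have h10 : px s₁ q * ((1 / 2) * ℓ) ≤ px s q * ((1 / 2) * ℓ) :=
          mul_le_mul_of_nonneg_right h5 (by positivity)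
        have h11 : px s q * D q ≤ 1 * D q := mul_le_mul_of_nonneg_right h6 h8
        nlinarith
      have h4 := Finset.sum_le_sum h3
      rw [Finset.sum_sub_distrib, ← Finset.sum_mul] at h4
      have h5 : M * ((1 / 2) * ℓ) ≤ (∑ q ∈ Q₀, px s₁ q) * ((1 / 2) * ℓ) :=
        mul_le_mul_of_nonneg_right hQM (by positivity)
      linarith
    have h3 : 4 * D' ≤ ℓ * M := by
      rw [div_le_iff₀ hM0] at hlog
      exact hlog
    have h4 : (1 / 4) * ℓ * M ≤ ∑ q ∈ Q₀, px s q * ∑ q' ∈ T q, px s q' := by linarith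
    have h5 : (c₀ ^ 2)⁻¹ ≤ c₀ ^ (-s) := by
      rw [Real.rpow_neg (by positivity)]
      apply inv_anti₀ (Real.rpow_pos_of_pos (by positivity) _)
      calc c₀ ^ s ≤ c₀ ^ (2 : ℝ) := Real.rpow_le_rpow_of_exponent_le hc₀1 hs2'.le
        _ = c₀ ^ 2 := by norm_num
    have h6 : 0 ≤ (1 / 4) * ℓ * M := by positivity
    calc C * ℓ ≤ (|C| + 1) * ℓ :=
          mul_le_mul_of_nonneg_right (by have := le_abs_self C; linarith) hlog0
      _ = (c₀ ^ 2)⁻¹ * ((1 / 4) * ℓ * M) := by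
          rw [hM]
          have : c₀ ^ 2 ≠ 0 := by positivity
          field_simp
      _ ≤ c₀ ^ (-s) * ((1 / 4) * ℓ * M) := mul_le_mul_of_nonneg_right h5 h6
      _ ≤ _ := mul_le_mul_of_nonneg_left h4 (Real.rpow_nonneg (by positivity) _)

end Pool.Agent.ST
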