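import Pool.Agent.Lib.MP_1ef7cf_nt.Gen
import Pool.Agent.Lib.MP_1ef7cf_nt.RCG3

/-!
# Ray class fields: inclusion and compatibility of the Artin maps
-/

open NumberField IsDedekindDomain nonZeroDivisors IntermediateField

namespace Pool.Agent.ST

section rcf

variable {K : Type*} [Field K] [NumberField K] [Algebra K ℝ]

/-- A ray class field, with the Frobenius property only required away from the set `B`. -/
structure IsRCF (σ₂ : K →+* ℝ) (n : Ideal (𝓞 K)) (B : Set (HeightOneSpectrum (𝓞 K)))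
    (H : IntermediateField K ℝ) (Art : RayClassGroup σ₂ n ≃* (H ≃ₐ[K] H)) : Prop where
  finite : FiniteDimensional K H
  galois : IsGalois K H
  frob : ∀ (v : HeightOneSpectrum (𝓞 K)) (J : primeTo n), v ∉ B →
    ((J : (FI K)ˣ) : FI K) = v.asIdeal →
    ∀ (P : Ideal (𝓞 H)) [P.IsPrime], P.under (𝓞 K) = v.asIdeal →
      Algebra.IsUnramifiedAt (𝓞 K) P ∧
      ∀ x : 𝓞 H, Art (cls σ₂ n J) • x - x ^ Ideal.absNorm v.asIdeal ∈ P

lemma IsRayClassField.isRCF {σ₂ : K →+* ℝ} {n : Ideal (𝓞 K)} {H : IntermediateField K ℝ}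
    {Art : RayClassGroup σ₂ n ≃* (H ≃ₐ[K] H)} (h : IsRayClassField σ₂ n H Art) :
    IsRCF σ₂ n ∅ H Art :=
  ⟨h.finite, h.galois, fun v J _ => h.frob v J⟩

lemma IsRCF.isRayClassField {σ₂ : K →+* ℝ} {n : Ideal (𝓞 K)} {H : IntermediateField K ℝ}
    {Art : RayClassGroup σ₂ n ≃* (H ≃ₐ[K] H)} (h : IsRCF σ₂ n ∅ H Art) :
    IsRayClassField σ₂ n H Art :=
  ⟨h.finite, h.galois, fun v J => h.frob v J (by simp)⟩

variable {σ₂ : K →+* ℝ}

lemma IsRCF.comm {n : Ideal (𝓞 K)} {B : Set (HeightOneSpectrum (𝓞 K))}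
    {H : IntermediateField K ℝ} {Art : RayClassGroup σ₂ n ≃* (H ≃ₐ[K] H)}
    (_h : IsRCF σ₂ n B H Art) (σ τ : H ≃ₐ[K] H) : σ * τ = τ * σ := by
  rw [← Art.apply_symm_apply σ, ← Art.apply_symm_apply τ, ← map_mul, mul_comm, map_mul]

lemma IsRCF.abelian {n : Ideal (𝓞 K)} {B : Set (HeightOneSpectrum (𝓞 K))}
    {H : IntermediateField K ℝ} {Art : RayClassGroup σ₂ n ≃* (H ≃ₐ[K] H)}
    (h : IsRCF σ₂ n B H Art) : IsAbelianGalois K H := by
  have := h.galois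
  exact isAbelianGalois_of_comm h.comm

lemma IsRCF.frobP {n : Ideal (𝓞 K)} {B : Set (HeightOneSpectrum (𝓞 K))}
    {H : IntermediateField K ℝ} {Art : RayClassGroup σ₂ n ≃* (H ≃ₐ[K] H)}
    (h : IsRCF σ₂ n B H Art) (P : PrI H) (hB : und K P ∉ B) (J : primeTo (K := K) n)
    (hJ : ((J : (FI K)ˣ) : FI K) = (und K P).asIdeal) :
    Algebra.IsUnramifiedAt (𝓞 K) P.asIdeal ∧ IsFrob K P (Art (cls σ₂ n J)) := by
  have := P.isPrime
  exact h.frob (und K P) J hB hJ P.asIdeal rfl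

/-- the class of a prime ideal -/
noncomputable def prJ (n : Ideal (𝓞 K)) (v : HeightOneSpectrum (𝓞 K)) (hv : ¬ v.asIdeal ∣ n) :
    primeTo (K := K) n :=
  ⟨uI v.asIdeal v.ne_bot, coe_mem_primeTo (coe_uI _ _) (coprime_prime_iff.2 hv)⟩

omit [Algebra K ℝ] in
lemma coe_prJ (n : Ideal (𝓞 K)) (v : HeightOneSpectrum (𝓞 K)) (hv : ¬ v.asIdeal ∣ n) :
    ((prJ n v hv : (FI K)ˣ) : FI K) = v.asIdeal := rfl

omit [Algebra K ℝ] in
lemma finite_dvd {n : Ideal (𝓞 K)} (hn : n ≠ ⊥) :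
    {v : HeightOneSpectrum (𝓞 K) | v.asIdeal ∣ n}.Finite := Ideal.finite_factors hn

omit [Algebra K ℝ] in
lemma not_dvd_of_le {n' n : Ideal (𝓞 K)} (h : n' ≤ n) {v : HeightOneSpectrum (𝓞 K)}
    (hv : ¬ v.asIdeal ∣ n') : ¬ v.asIdeal ∣ n := fun hd => hv (hd.trans (Ideal.dvd_iff_le.2 h))

/-- **Inclusion of ray class fields** (Bauer). -/
theorem IsRCF.le {n' n : Ideal (𝓞 K)} (hle : n' ≤ n) (hn' : n' ≠ ⊥)
    {B' B : Set (HeightOneSpectrum (𝓞 K))} (hB' : B'.Finite) (hB : B.Finite)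
    {H' H : IntermediateField K ℝ} {Art' : RayClassGroup σ₂ n' ≃* (H' ≃ₐ[K] H')}
    {Art : RayClassGroup σ₂ n ≃* (H ≃ₐ[K] H)}
    (h' : IsRCF σ₂ n' B' H' Art') (h : IsRCF σ₂ n B H Art) : H ≤ H' := by
  by_contra hcon
  have := h'.finite
  have := h.finite
  have := h'.abelian
  have := h.abelian
  have := isAbelianGalois_sup (L := H') (M := H)
  have hne : H' ≠ H' ⊔ H := by
    intro heq
    apply hcon
    rw [heq]
    exact le_sup_right
  have hfin : (B' ∪ B ∪ {v : HeightOneSpectrum (𝓞 K) | v.asIdeal ∣ n'}).Finite :=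
    (hB'.union hB).union (finite_dvd hn')
  obtain ⟨P, hP1, hP2, σ, hσ1, hσ2, hσ3⟩ :=
    exists_frob_sub (le_sup_left : H' ≤ H' ⊔ H) hne _ hfin
  obtain ⟨P₁, hP₁, -, hP₁'⟩ := isFrob_res (le_sup_left : H' ≤ H' ⊔ H) P
  obtain ⟨P₂, hP₂, -, hP₂'⟩ := isFrob_res (le_sup_right : H ≤ H' ⊔ H) P
  have hv : ¬ (und K P).asIdeal ∣ n' := fun hd => hP1 (Or.inr hd)
  have f1 := h'.frobP P₁ (fun hb => hP1 (Or.inl (Or.inl (hP₁ ▸ hb)))) (prJ n' (und K P) hv)
    (by rw [coe_prJ, hP₁])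
  have f2 := h.frobP P₂ (fun hb => hP1 (Or.inl (Or.inr (hP₂ ▸ hb))))
    (prJ n (und K P) (not_dvd_of_le hle hv)) (by rw [coe_prJ, hP₂])
  have := numberField_of_fd H'
  have := numberField_of_fd H
  have := f1.1
  have := f2.1
  have g1 := isFrob_unique (hP₁' σ hσ1) f1.2
  have g2 := isFrob_unique (hP₂' σ hσ1) f2.2
  rw [hσ2] at g1
  have g3 : cls σ₂ n' (prJ n' (und K P) hv) = 1 := by
    apply Art'.injective
    rw [← g1, map_one]
  have g4 : cls σ₂ n (prJ n (und K P) (not_dvd_of_le hle hv)) = 1 := by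
    have : cls σ₂ n (prJ n (und K P) (not_dvd_of_le hle hv)) =
        pr σ₂ hle (cls σ₂ n' (prJ n' (und K P) hv)) := rfl
    rw [this, g3, map_one]
  rw [g4, map_one] at g2
  apply hσ3
  apply eq_of_eq_on_sup (L₁ := H') (L₂ := H) le_rfl le_sup_left le_sup_right
  · intro x hx
    rw [← act_res (le_sup_left : H' ≤ H' ⊔ H) σ hx, hσ2, act_one_left hx,
      act_one_left ((le_sup_left : H' ≤ H' ⊔ H) hx)]
  · intro x hx
    rw [← act_res (le_sup_right : H ≤ H' ⊔ H) σ hx, g2, act_one_left hx,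
      act_one_left ((le_sup_right : H ≤ H' ⊔ H) hx)]

/-- **Compatibility of the Artin maps.** -/
theorem IsRCF.res_art {n' n : Ideal (𝓞 K)} (hle : n' ≤ n) (hn' : n' ≠ ⊥)
    {B' B : Set (HeightOneSpectrum (𝓞 K))} (hB' : B'.Finite) (hB : B.Finite)
    {H' H : IntermediateField K ℝ} {Art' : RayClassGroup σ₂ n' ≃* (H' ≃ₐ[K] H')}
    {Art : RayClassGroup σ₂ n ≃* (H ≃ₐ[K] H)} [Normal K H]
    (h' : IsRCF σ₂ n' B' H' Art') (h : IsRCF σ₂ n B H Art) (hH : H ≤ H')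
    (A : RayClassGroup σ₂ n') : res hH (Art' A) = Art (pr σ₂ hle A) := by
  have := h'.finite
  have := h.finite
  have := h'.galois
  have := numberField_of_fd H'
  have := numberField_of_fd H
  let T : Subgroup (H' ≃ₐ[K] H') :=
    MonoidHom.eqLocus (res hH) ((Art : RayClassGroup σ₂ n →* (H ≃ₐ[K] H)).comp
      ((pr σ₂ hle).comp (Art'.symm : (H' ≃ₐ[K] H') →* RayClassGroup σ₂ n')))
  have hT : T = ⊤ := by
    have hfin : (B' ∪ B ∪ {v : HeightOneSpectrum (𝓞 K) | v.asIdeal ∣ n'}).Finite :=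
      (hB'.union hB).union (finite_dvd hn')
    apply frob_gen h'.comm T _ hfin
    intro P hP1 hP2 σ hσ
    obtain ⟨P₂, hP₂, -, hP₂'⟩ := isFrob_res hH P
    have hv : ¬ (und K P).asIdeal ∣ n' := fun hd => hP1 (Or.inr hd)
    have f1 := h'.frobP P (fun hb => hP1 (Or.inl (Or.inl hb))) (prJ n' (und K P) hv)
      (by rw [coe_prJ])
    have f2 := h.frobP P₂ (fun hb => hP1 (Or.inl (Or.inr (hP₂ ▸ hb))))
      (prJ n (und K P) (not_dvd_of_le hle hv)) (by rw [coe_prJ, hP₂])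
    have := f1.1
    have := f2.1
    have g1 := isFrob_unique hσ f1.2
    have g2 := isFrob_unique (hP₂' σ hσ) f2.2
    change res hH σ = Art (pr σ₂ hle (Art'.symm σ))
    rw [g2, g1, MulEquiv.symm_apply_apply]
    rfl
  have h3 : Art' A ∈ T := by rw [hT]; exact Subgroup.mem_top _
  have h4 : res hH (Art' A) = Art (pr σ₂ hle (Art'.symm (Art' A))) := h3
  rw [h4, MulEquiv.symm_apply_apply]

end rcf

end Pool.Agent.ST
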