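import Pool.Agent.Lib.MP_1ef7cf_nt.RCF

/-!
# Descending ray class fields
-/

open NumberField IsDedekindDomain nonZeroDivisors IntermediateField

namespace Pool.Agent.ST

lemma exists_mulEquiv {G A B : Type*} [Group G] [Group A] [Group B] (p : G →* A) (f : G →* B)
    (hp : Function.Surjective p) (hf : Function.Surjective f) (h : p.ker = f.ker) :
    ∃ e : A ≃* B, ∀ g, e (p g) = f g := by
  refine ⟨(QuotientGroup.quotientKerEquivOfSurjective p hp).symm.trans
    ((QuotientGroup.quotientMulEquivOfEq h).trans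
      (QuotientGroup.quotientKerEquivOfSurjective f hf)), fun g => ?_⟩
  have h1 : (QuotientGroup.quotientKerEquivOfSurjective p hp).symm (p g) =
      (QuotientGroup.mk g : G ⧸ p.ker) := by
    rw [MulEquiv.symm_apply_eq]; rfl
  rw [MulEquiv.trans_apply, MulEquiv.trans_apply, h1]
  rfl

section

variable {K : Type*} [Field K] [NumberField K] [Algebra K ℝ] {σ₂ : K →+* ℝ}

lemma isFrob_res' {H L : IntermediateField K ℝ} [FiniteDimensional K L]
    [FiniteDimensional K H] [Normal K H] (h : H ≤ L) (P₁ : PrI H) :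
    ∃ P : PrI L, und K P = und K P₁ ∧
      (Algebra.IsUnramifiedAt (𝓞 K) P.asIdeal → Algebra.IsUnramifiedAt (𝓞 K) P₁.asIdeal) ∧
      ∀ σ : L ≃ₐ[K] L, IsFrob K P σ → IsFrob K P₁ (res h σ) := by
  have := numberField_of_fd H
  have := numberField_of_fd L
  let _ : Algebra H L := (inclusion h).toAlgebra
  have : IsScalarTower K H L := IsScalarTower.of_algebraMap_eq' rfl
  obtain ⟨P, hP⟩ := exists_ovr (K := H) (L := L) P₁
  refine ⟨P, by rw [← hP, und_und], fun hun => ?_, fun σ hσ => ?_⟩
  · rw [← hP]; exact unramified_und P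
  · rw [← hP]
    refine isFrob_und (fun x => ?_) hσ
    exact AlgEquiv.restrictNormal_commutes σ H x

/-- Descent of a ray class field to a divisor of the modulus. -/
theorem exists_down {n' n : Ideal (𝓞 K)} (hle : n' ≤ n)
    (hsurj : Function.Surjective (pr σ₂ hle)) {B' : Set (HeightOneSpectrum (𝓞 K))}
    {H' : IntermediateField K ℝ} {Art' : RayClassGroup σ₂ n' ≃* (H' ≃ₐ[K] H')}
    (h' : IsRCF σ₂ n' B' H' Art') :
    ∃ (H : IntermediateField K ℝ) (Art : RayClassGroup σ₂ n ≃* (H ≃ₐ[K] H)),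
      IsRCF σ₂ n (B' ∪ {v | v.asIdeal ∣ n'}) H Art ∧ H ≤ H' := by
  have := h'.finite
  have := h'.galois
  set N : Subgroup (H' ≃ₐ[K] H') := (pr σ₂ hle).ker.map (Art' : _ →* (H' ≃ₐ[K] H')) with hN
  set F : IntermediateField K H' := IntermediateField.fixedField N with hF
  have hfix : IntermediateField.fixingSubgroup F = N := IntermediateField.fixingSubgroup_fixedField N
  have hNn : N.Normal := ⟨fun n hn g => by rwa [h'.comm g n, mul_inv_cancel_right]⟩
  have hFG : IsGalois K F := by
    have : (IntermediateField.fixingSubgroup F).Normal := by rw [hfix]; exact hNn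
    exact IsGalois.of_fixedField_normal_subgroup N
  set H : IntermediateField K ℝ := IntermediateField.lift F with hH
  have hHH : H ≤ H' := IntermediateField.lift_le F
  have hG : IsGalois K H := IsGalois.of_algEquiv (IntermediateField.liftAlgEquiv F)
  have hfd : FiniteDimensional K H :=
    Module.Finite.equiv (IntermediateField.liftAlgEquiv F).toLinearEquiv
  have hker : ∀ σ : H' ≃ₐ[K] H', res hHH σ = 1 ↔ σ ∈ N := by
    intro σ
    rw [res_eq_one_iff, ← hfix, IntermediateField.mem_fixingSubgroup_iff]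
    constructor
    · intro h x hx
      have h1 := h (x : ℝ) ((IntermediateField.mem_lift x).2 hx)
      rw [act_coe] at h1
      exact Subtype.ext h1
    · intro h x hx
      have hx' : x ∈ H' := hHH hx
      have h1 := h ⟨x, hx'⟩ ((IntermediateField.mem_lift (⟨x, hx'⟩ : H')).1 hx)
      rw [act_of_mem _ hx', h1]
  obtain ⟨Art, hArt⟩ := exists_mulEquiv (pr σ₂ hle)
    ((res hHH).comp (Art' : _ →* (H' ≃ₐ[K] H'))) hsurj
    ((res_surjective hHH).comp Art'.surjective) (by
      ext A
      rw [MonoidHom.mem_ker, MonoidHom.mem_ker, MonoidHom.comp_apply]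
      change _ ↔ res hHH (Art' A) = 1
      rw [hker, hN, Subgroup.mem_map]
      constructor
      · intro h; exact ⟨A, h, rfl⟩
      · rintro ⟨A', h1, h2⟩
        have h3 : A' = A := Art'.injective h2
        rw [← h3]; exact h1)
  refine ⟨H, Art, ⟨hfd, hG, ?_⟩, hHH⟩
  intro v J hv hJ P hP hPv
  have hPne : P ≠ ⊥ := by
    rintro rfl
    apply v.ne_bot
    rw [← hPv, Ideal.under, Ideal.comap_bot_of_injective]
    exact FaithfulSMul.algebraMap_injective _ _
  let P₁ : PrI H := ⟨P, hP, hPne⟩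
  have hP₁ : und K P₁ = v := by
    apply HeightOneSpectrum.ext
    exact hPv
  obtain ⟨P', hP'1, hP'2, hP'3⟩ := isFrob_res' hHH P₁
  have hvn : ¬ v.asIdeal ∣ n' := fun hd => hv (Or.inr hd)
  have f1 := h'.frobP P' (by
    rw [hP'1, hP₁]
    exact fun hb => hv (Or.inl hb)) (prJ n' v hvn) (by rw [coe_prJ, hP'1, hP₁])
  refine ⟨hP'2 f1.1, ?_⟩
  have f2 := hP'3 _ f1.2
  have f3 : res hHH (Art' (cls σ₂ n' (prJ n' v hvn))) = Art (cls σ₂ n J) := by
    have h4 := hArt (cls σ₂ n' (prJ n' v hvn))
    have h5 : pr σ₂ hle (cls σ₂ n' (prJ n' v hvn)) = cls σ₂ n J := by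
      rw [pr_cls]
      congr 1
      apply Subtype.ext
      apply Units.ext
      rw [hJ]
      rfl
    rw [h5] at h4
    rw [h4]
    rfl
  rw [f3] at f2
  intro x
  have f4 := f2 x
  rw [hP₁] at f4
  exact f4

end

end Pool.Agent.ST
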