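import Pool.Agent.Lib.MP_1ef7cf_nt.RCF2

/-!
# Existence of the ray class field of a divisor of the modulus; intersections
-/

open NumberField IsDedekindDomain nonZeroDivisors IntermediateField

namespace Pool.Agent.ST

section

variable {K : Type*} [Field K] [NumberField K] {σ₂ : K →+* ℝ}

lemma pr_surjective {n' n : Ideal (𝓞 K)} (hle : n' ≤ n) {q : HeightOneSpectrum (𝓞 K)}
    (hnq : n' = n * q.asIdeal) (hn : n ≠ ⊥) (hq : ¬ q.asIdeal ∣ n) :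
    Function.Surjective (pr σ₂ hle) := by
  subst hnq
  intro A
  obtain ⟨J, rfl⟩ := cls_surjective n A
  obtain ⟨J', hJ', hray⟩ := exists_moved (σ₂ := σ₂) hn q hq J.2
  refine ⟨cls σ₂ _ ⟨J', hJ'⟩, ?_⟩
  rw [pr_cls]
  exact ((cls_eq_iff _ _).2 hray).symm

lemma pr_refl {n : Ideal (𝓞 K)} (h : n ≤ n) (A : RayClassGroup σ₂ n) : pr σ₂ h A = A := by
  obtain ⟨J, rfl⟩ := cls_surjective n A
  rfl

lemma pr_pr {n'' n' n : Ideal (𝓞 K)} (h1 : n'' ≤ n') (h2 : n' ≤ n) (A : RayClassGroup σ₂ n'') :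
    pr σ₂ h2 (pr σ₂ h1 A) = pr σ₂ (h1.trans h2) A := by
  obtain ⟨J, rfl⟩ := cls_surjective n'' A
  rfl

lemma eq_of_dvd_prime {v q : HeightOneSpectrum (𝓞 K)} (h : v.asIdeal ∣ q.asIdeal) : v = q := by
  apply HeightOneSpectrum.ext
  have h1 : q.asIdeal ≤ v.asIdeal := Ideal.dvd_iff_le.1 h
  exact (q.isMaximal.eq_of_le v.isPrime.ne_top h1).symm

lemma dvd_mul_prime {v q : HeightOneSpectrum (𝓞 K)} {n : Ideal (𝓞 K)}
    (h : v.asIdeal ∣ n * q.asIdeal) : v.asIdeal ∣ n ∨ v = q := by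
  have h1 : Prime v.asIdeal := v.prime
  rcases h1.dvd_or_dvd h with h | h
  · exact Or.inl h
  · exact Or.inr (eq_of_dvd_prime h)

end

section

variable {K : Type*} [Field K] [NumberField K] [Algebra K ℝ] {σ₂ : K →+* ℝ}

omit [NumberField K] in
lemma res_self {H : IntermediateField K ℝ} [Normal K H] (h : H ≤ H) (σ : H ≃ₐ[K] H) :
    res h σ = σ := by
  apply act_ext
  intro x hx
  rw [act_res h σ hx]

/-- Existence of the ray class field of modulus `n` from those of modulus `n q₀` and `n q₁`. -/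
theorem exists_rcf {n n₀ n₁ : Ideal (𝓞 K)} (hn : n ≠ ⊥) {q₀ q₁ : HeightOneSpectrum (𝓞 K)}
    (hq : q₀ ≠ q₁) (hq₀ : ¬ q₀.asIdeal ∣ n) (hq₁ : ¬ q₁.asIdeal ∣ n)
    (hn₀ : n₀ = n * q₀.asIdeal) (hn₁ : n₁ = n * q₁.asIdeal)
    {H₀ H₁ : IntermediateField K ℝ} {Art₀ : RayClassGroup σ₂ n₀ ≃* (H₀ ≃ₐ[K] H₀)}
    {Art₁ : RayClassGroup σ₂ n₁ ≃* (H₁ ≃ₐ[K] H₁)} (h₀ : IsRayClassField σ₂ n₀ H₀ Art₀)
    (h₁ : IsRayClassField σ₂ n₁ H₁ Art₁) :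
    ∃ (H : IntermediateField K ℝ) (Art : RayClassGroup σ₂ n ≃* (H ≃ₐ[K] H)),
      IsRayClassField σ₂ n H Art := by
  have hle₀ : n₀ ≤ n := by rw [hn₀]; exact Ideal.mul_le_left
  have hle₁ : n₁ ≤ n := by rw [hn₁]; exact Ideal.mul_le_left
  have hne₀ : n₀ ≠ ⊥ := by rw [hn₀]; exact mul_ne_bot' hn q₀.ne_bot
  have hne₁ : n₁ ≠ ⊥ := by rw [hn₁]; exact mul_ne_bot' hn q₁.ne_bot
  obtain ⟨F₀, A₀, r₀, -⟩ := exists_down hle₀ (pr_surjective (σ₂ := σ₂) hle₀ hn₀ hn hq₀) h₀.isRCF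
  obtain ⟨F₁, A₁, r₁, -⟩ := exists_down hle₁ (pr_surjective (σ₂ := σ₂) hle₁ hn₁ hn hq₁) h₁.isRCF
  have hfin₀ : ((∅ : Set (HeightOneSpectrum (𝓞 K))) ∪ {v | v.asIdeal ∣ n₀}).Finite :=
    Set.finite_empty.union (finite_dvd hne₀)
  have hfin₁ : ((∅ : Set (HeightOneSpectrum (𝓞 K))) ∪ {v | v.asIdeal ∣ n₁}).Finite :=
    Set.finite_empty.union (finite_dvd hne₁)
  have heq : F₀ = F₁ :=
    le_antisymm (IsRCF.le le_rfl hn hfin₁ hfin₀ r₁ r₀) (IsRCF.le le_rfl hn hfin₀ hfin₁ r₀ r₁)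
  subst heq
  have := r₀.galois
  have hArt : ∀ A, A₁ A = A₀ A := by
    intro A
    have h3 := IsRCF.res_art (σ₂ := σ₂) le_rfl hn hfin₁ hfin₀ r₁ r₀ le_rfl A
    rw [res_self, pr_refl] at h3
    exact h3
  refine ⟨F₀, A₀, r₀.finite, r₀.galois, ?_⟩
  intro v J hJ P hP hPv
  have hvn : ¬ v.asIdeal ∣ n := by
    have h3 := coprime_of_mem_primeTo hJ J.2
    exact coprime_prime_iff.1 h3
  by_cases hv : v = q₀
  · subst hv
    have h4 := r₁.frob v J (by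
      rintro (hb | hb)
      · exact hb
      · simp only [Set.mem_ofPred_eq] at hb
        rw [hn₁] at hb
        rcases dvd_mul_prime hb with hb | hb
        · exact hvn hb
        · exact hq hb) hJ P hPv
    rw [hArt] at h4
    exact h4
  · exact r₀.frob v J (by
      rintro (hb | hb)
      · exact hb
      · simp only [Set.mem_ofPred_eq] at hb
        rw [hn₀] at hb
        rcases dvd_mul_prime hb with hb | hb
        · exact hvn hb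
        · exact hv hb) hJ P hPv

/-- Intersection of ray class fields. -/
theorem inf_le {n n₀ n₁ n₂ : Ideal (𝓞 K)} (hn : n ≠ ⊥) {q₀ q₁ : HeightOneSpectrum (𝓞 K)}
    (hq : q₀ ≠ q₁) (hq₁ : ¬ q₁.asIdeal ∣ n)
    (hn₀ : n₀ = n * q₀.asIdeal) (hn₁ : n₁ = n * q₁.asIdeal)
    (hn₂ : n₂ = n * q₀.asIdeal * q₁.asIdeal)
    {H H₀ H₁ H₂ : IntermediateField K ℝ} {Art : RayClassGroup σ₂ n ≃* (H ≃ₐ[K] H)}
    {Art₀ : RayClassGroup σ₂ n₀ ≃* (H₀ ≃ₐ[K] H₀)}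
    {Art₁ : RayClassGroup σ₂ n₁ ≃* (H₁ ≃ₐ[K] H₁)}
    {Art₂ : RayClassGroup σ₂ n₂ ≃* (H₂ ≃ₐ[K] H₂)}
    (h : IsRayClassField σ₂ n H Art) (h₀ : IsRayClassField σ₂ n₀ H₀ Art₀)
    (h₁ : IsRayClassField σ₂ n₁ H₁ Art₁) (h₂ : IsRayClassField σ₂ n₂ H₂ Art₂) :
    H₀ ⊓ H₁ ≤ H := by
  have hne₂ : n₂ ≠ ⊥ := by
    rw [hn₂]; exact mul_ne_bot' (mul_ne_bot' hn q₀.ne_bot) q₁.ne_bot
  have hl0 : n₂ ≤ n₀ := by rw [hn₂, hn₀]; exact Ideal.mul_le_left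
  have hl1 : n₂ ≤ n₁ := by
    rw [hn₂, hn₁, mul_right_comm]; exact Ideal.mul_le_left
  have hl : n₂ ≤ n := by
    refine hl0.trans ?_
    rw [hn₀]; exact Ideal.mul_le_left
  have := h.galois
  have := h₀.galois
  have := h₁.galois
  have := h₂.galois
  have := h₂.finite
  have e0 : H₀ ≤ H₂ := IsRCF.le hl0 hne₂ Set.finite_empty Set.finite_empty h₂.isRCF h₀.isRCF
  have e1 : H₁ ≤ H₂ := IsRCF.le hl1 hne₂ Set.finite_empty Set.finite_empty h₂.isRCF h₁.isRCF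
  have e : H ≤ H₂ := IsRCF.le hl hne₂ Set.finite_empty Set.finite_empty h₂.isRCF h.isRCF
  rintro x ⟨hx0, hx1⟩
  apply mem_of_fixed e (e0 hx0)
  intro γ hγ
  have h3 : res e γ = 1 := (res_eq_one_iff e γ).2 hγ
  obtain ⟨A, rfl⟩ := Art₂.surjective γ
  rw [IsRCF.res_art hl hne₂ Set.finite_empty Set.finite_empty h₂.isRCF h.isRCF] at h3
  have h4 : pr σ₂ hl A = 1 := by
    apply Art.injective
    rw [h3, map_one]
  obtain ⟨J, rfl⟩ := cls_surjective n₂ A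
  rw [pr_cls, cls_eq_one_iff, coe_inc] at h4
  subst hn₂ hn₀ hn₁
  obtain ⟨J₁, hJ₁, J₂, hJ₂, hJJ, hr1, hr2⟩ := exists_split hn q₀ q₁ hq₁ hq J.2 h4
  have hcls : cls σ₂ (n * q₀.asIdeal * q₁.asIdeal) J =
      cls σ₂ _ ⟨J₁, hJ₁⟩ * cls σ₂ _ ⟨J₂, hJ₂⟩ := by
    rw [← map_mul]
    congr 1
    apply Subtype.ext
    exact hJJ
  have f1 : act (Art₂ (cls σ₂ _ ⟨J₁, hJ₁⟩)) x = x := by
    have h5 : res e0 (Art₂ (cls σ₂ _ ⟨J₁, hJ₁⟩)) = 1 := by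
      rw [IsRCF.res_art hl0 hne₂ Set.finite_empty Set.finite_empty h₂.isRCF h₀.isRCF]
      rw [pr_cls, (cls_eq_one_iff _).2 (by rw [coe_inc]; exact hr1), map_one]
    exact (res_eq_one_iff e0 _).1 h5 x hx0
  have f2 : act (Art₂ (cls σ₂ _ ⟨J₂, hJ₂⟩)) x = x := by
    have h5 : res e1 (Art₂ (cls σ₂ _ ⟨J₂, hJ₂⟩)) = 1 := by
      rw [IsRCF.res_art hl1 hne₂ Set.finite_empty Set.finite_empty h₂.isRCF h₁.isRCF]
      rw [pr_cls, (cls_eq_one_iff _).2 (by rw [coe_inc]; exact hr2), map_one]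
    exact (res_eq_one_iff e1 _).1 h5 x hx1
  rw [hcls, map_mul, act_comp _ _ (e0 hx0), f2, f1]

end

end Pool.Agent.ST
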