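import Pool.Agent.Lib.MP_1ef7cf_nt.Defs

/-!
# Ray class groups: basic facts
-/

open NumberField IsDedekindDomain nonZeroDivisors

namespace Pool.Agent.ST

section basic

variable {K : Type*} [Field K] [NumberField K]

lemma mem_primeTo {m : Ideal (𝓞 K)} {J : (FI K)ˣ} : J ∈ primeTo m ↔
    ∀ v : HeightOneSpectrum (𝓞 K), v.asIdeal ∣ m → FractionalIdeal.count K v (J : FI K) = 0 :=
  Iff.rfl

lemma coprime_prime_iff {v : HeightOneSpectrum (𝓞 K)} {m : Ideal (𝓞 K)} :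
    IsCoprime v.asIdeal m ↔ ¬ v.asIdeal ∣ m := by
  constructor
  · intro h hd
    have h1 : IsCoprime v.asIdeal v.asIdeal := h.of_isCoprime_of_dvd_right hd
    rw [Ideal.isCoprime_iff_sup_eq, sup_idem] at h1
    exact v.isPrime.ne_top h1
  · intro h
    rw [Ideal.isCoprime_iff_sup_eq]
    by_contra hn
    have h1 : v.asIdeal = v.asIdeal ⊔ m := v.isMaximal.eq_of_le hn le_sup_left
    apply h
    rw [Ideal.dvd_iff_le]
    rw [h1]
    exact le_sup_right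

/-- an ideal as a unit of the monoid of fractional ideals -/
noncomputable def uI (I : Ideal (𝓞 K)) (hI : I ≠ ⊥) : (FI K)ˣ :=
  Units.mk0 (I : FI K) (by rwa [FractionalIdeal.coeIdeal_ne_zero])

@[simp] lemma coe_uI (I : Ideal (𝓞 K)) (hI : I ≠ ⊥) : ((uI I hI : (FI K)ˣ) : FI K) = I := rfl

/-- a principal ideal as a unit of the monoid of fractional ideals -/
noncomputable def uP (α : K) (hα : α ≠ 0) : (FI K)ˣ :=
  Units.mk0 (FractionalIdeal.spanSingleton (𝓞 K)⁰ α) (by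
    rwa [FractionalIdeal.spanSingleton_ne_zero_iff])

@[simp] lemma coe_uP (α : K) (hα : α ≠ 0) :
    ((uP α hα : (FI K)ˣ) : FI K) = FractionalIdeal.spanSingleton (𝓞 K)⁰ α := rfl

lemma count_coe_eq_zero_iff (v : HeightOneSpectrum (𝓞 K)) {I : Ideal (𝓞 K)} (hI : I ≠ ⊥) :
    FractionalIdeal.count K v (I : FI K) = 0 ↔ ¬ v.asIdeal ∣ I := by
  classical
  rw [FractionalIdeal.count_coe K v hI, ← Associates.count_ne_zero_iff_dvd hI v.irreducible,
    not_not, Nat.cast_eq_zero]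

lemma coe_mem_primeTo {m : Ideal (𝓞 K)} {J : (FI K)ˣ} {I : Ideal (𝓞 K)} (h : (J : FI K) = I)
    (hIm : IsCoprime I m) : J ∈ primeTo m := by
  have hI : I ≠ ⊥ := by
    rintro rfl
    apply J.ne_zero
    rw [h, FractionalIdeal.coeIdeal_bot]
  intro v hv
  rw [h, count_coe_eq_zero_iff v hI]
  intro hd
  exact coprime_prime_iff.1 (hIm.of_isCoprime_of_dvd_left hd) hv

lemma coprime_of_mem_primeTo {m : Ideal (𝓞 K)} {J : (FI K)ˣ} {I : Ideal (𝓞 K)}
    (h : (J : FI K) = I) (hJ : J ∈ primeTo m) : IsCoprime I m := by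
  have hI : I ≠ ⊥ := by
    rintro rfl
    apply J.ne_zero
    rw [h, FractionalIdeal.coeIdeal_bot]
  rw [Ideal.isCoprime_iff_sup_eq]
  by_contra hn
  obtain ⟨M, hM, hle⟩ := Ideal.exists_le_maximal _ hn
  have hMI : I ≤ M := le_sup_left.trans hle
  have hM0 : M ≠ ⊥ := by
    rintro rfl
    exact hI (le_bot_iff.1 hMI)
  have h1 := hJ ⟨M, hM.isPrime, hM0⟩ (Ideal.dvd_iff_le.2 (le_sup_right.trans hle))
  rw [h, count_coe_eq_zero_iff _ hI] at h1
  exact h1 (Ideal.dvd_iff_le.2 hMI)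

omit [NumberField K] in
lemma isCoprime_of_le {I m n : Ideal (𝓞 K)} (h : IsCoprime I m) (hle : m ≤ n) : IsCoprime I n := by
  rw [Ideal.isCoprime_iff_sup_eq] at h ⊢
  rw [eq_top_iff, ← h]
  exact sup_le_sup_left hle I

lemma primeTo_mono {m n : Ideal (𝓞 K)} (h : m ≤ n) : primeTo (K := K) m ≤ primeTo n := by
  intro J hJ v hv
  exact hJ v (hv.trans (Ideal.dvd_iff_le.2 h))

/-- A fractional ideal prime to `m` is a quotient of integral ideals prime to `m`. -/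
lemma exists_integral {m : Ideal (𝓞 K)} {J : (FI K)ˣ} (hJ : J ∈ primeTo m) :
    ∃ I₁ I₂ : Ideal (𝓞 K), I₁ ≠ ⊥ ∧ I₂ ≠ ⊥ ∧ IsCoprime I₁ m ∧ IsCoprime I₂ m ∧
      (J : FI K) * (I₂ : FI K) = (I₁ : FI K) := by
  classical
  have hfin : {v : HeightOneSpectrum (𝓞 K) | FractionalIdeal.count K v (J : FI K) ≠ 0}.Finite := by
    have := FractionalIdeal.finite_factors (K := K) (R := 𝓞 K) (J : FI K)
    rwa [Filter.eventually_cofinite] at this
  set S := hfin.toFinset with hS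
  have hSc : ∀ v ∈ S, ¬ v.asIdeal ∣ m := by
    intro v hv hd
    rw [hS, Set.Finite.mem_toFinset] at hv
    exact hv (hJ v hd)
  have hprod : (J : FI K) = ∏ v ∈ S, (v.asIdeal : FI K) ^ FractionalIdeal.count K v (J : FI K) := by
    conv_lhs => rw [← FractionalIdeal.finprod_heightOneSpectrum_factorization' K J.ne_zero]
    rw [finprod_eq_prod_of_mulSupport_subset]
    intro v hv
    rw [hS, Set.Finite.coe_toFinset]
    intro h0
    rw [Function.mem_mulSupport, h0, zpow_zero] at hv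
    exact hv rfl
  have hne : ∀ f : HeightOneSpectrum (𝓞 K) → ℕ, ∏ v ∈ S, v.asIdeal ^ f v ≠ ⊥ := by
    intro f
    rw [← Ideal.zero_eq_bot, Finset.prod_ne_zero_iff]
    intro v _
    apply pow_ne_zero
    exact v.ne_bot
  have hcop : ∀ f : HeightOneSpectrum (𝓞 K) → ℕ, IsCoprime (∏ v ∈ S, v.asIdeal ^ f v) m := by
    intro f
    apply IsCoprime.prod_left
    intro v hv
    exact (coprime_prime_iff.2 (hSc v hv)).pow_left
  refine ⟨∏ v ∈ S, v.asIdeal ^ (FractionalIdeal.count K v (J : FI K)).toNat,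
    ∏ v ∈ S, v.asIdeal ^ (-FractionalIdeal.count K v (J : FI K)).toNat, hne _, hne _,
    hcop _, hcop _, ?_⟩
  have hcoe : ∀ f : HeightOneSpectrum (𝓞 K) → ℕ,
      ((∏ v ∈ S, v.asIdeal ^ f v : Ideal (𝓞 K)) : FI K) = ∏ v ∈ S, ((v.asIdeal : FI K) ^ f v) := by
    intro f
    have h1 := map_prod (FractionalIdeal.coeIdealHom (𝓞 K)⁰ K) (fun v : HeightOneSpectrum (𝓞 K) =>
      v.asIdeal ^ f v) S
    simp only [map_pow] at h1
    exact h1
  rw [hcoe, hcoe]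
  conv_lhs =>
    enter [1]
    rw [hprod]
  rw [← Finset.prod_mul_distrib]
  apply Finset.prod_congr rfl
  intro v _
  have hv0 : (v.asIdeal : FI K) ≠ 0 := by
    rw [FractionalIdeal.coeIdeal_ne_zero]; exact v.ne_bot
  rw [← zpow_natCast, ← zpow_natCast, ← zpow_add₀ hv0]
  congr 1
  omega

end basic

section crt

variable {K : Type*} [Field K] [NumberField K]

omit [NumberField K] in
lemma exists_crt {n₁ n₂ : Ideal (𝓞 K)} (h : IsCoprime n₁ n₂) (x₁ x₂ : 𝓞 K) :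
    ∃ y : 𝓞 K, y - x₁ ∈ n₁ ∧ y - x₂ ∈ n₂ := by
  obtain ⟨a, ha, b, hb, hab⟩ := Ideal.isCoprime_iff_exists.1 h
  refine ⟨x₂ * a + x₁ * b, ?_, ?_⟩
  · have : x₂ * a + x₁ * b - x₁ = (x₂ - x₁) * a := by linear_combination x₁ * hab
    rw [this]; exact n₁.mul_mem_left _ ha
  · have : x₂ * a + x₁ * b - x₂ = (x₁ - x₂) * b := by linear_combination x₂ * hab
    rw [this]; exact n₂.mul_mem_left _ hb

lemma exists_pos (σ₂ : K →+* ℝ) {c : Ideal (𝓞 K)} (hc : c ≠ ⊥) (y : 𝓞 K) :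
    ∃ z : 𝓞 K, z - y ∈ c ∧ 0 < σ₂ z := by
  have hN : (Ideal.absNorm c : 𝓞 K) ∈ c := Ideal.absNorm_mem c
  have hN0 : 1 ≤ (Ideal.absNorm c : ℝ) := by
    have : Ideal.absNorm c ≠ 0 := by rwa [Ne, Ideal.absNorm_eq_zero_iff]
    exact_mod_cast Nat.one_le_iff_ne_zero.2 this
  obtain ⟨k, hk⟩ := exists_nat_gt (-σ₂ y)
  refine ⟨y + k * Ideal.absNorm c, ?_, ?_⟩
  · have : y + (k : 𝓞 K) * Ideal.absNorm c - y = k * Ideal.absNorm c := by ring
    rw [this]; exact c.mul_mem_left _ hN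
  · have h1 : σ₂ ((y + (k : 𝓞 K) * Ideal.absNorm c : 𝓞 K) : K) =
        σ₂ (y : K) + k * (Ideal.absNorm c : ℝ) := by
      push_cast
      rw [map_add, map_mul, map_natCast, map_natCast]
    rw [h1]
    have : (k : ℝ) * 1 ≤ k * (Ideal.absNorm c : ℝ) :=
      mul_le_mul_of_nonneg_left hN0 (Nat.cast_nonneg k)
    linarith

lemma exists_neg (σ₂ : K →+* ℝ) {c : Ideal (𝓞 K)} (hc : c ≠ ⊥) (y : 𝓞 K) :
    ∃ z : 𝓞 K, z - y ∈ c ∧ σ₂ z < 0 := by
  obtain ⟨z, hz, hz'⟩ := exists_pos σ₂ hc (-y)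
  refine ⟨-z, ?_, ?_⟩
  · have : -z - y = -(z - -y) := by ring
    rw [this]; exact c.neg_mem hz
  · push_cast
    rw [map_neg]; linarith

omit [NumberField K] in
lemma ne_bot_of_coprime_ne {m I : Ideal (𝓞 K)} (h : IsCoprime I m) (hm : m ≠ ⊤) : I ≠ ⊥ := by
  rintro rfl
  rw [Ideal.isCoprime_iff_sup_eq, bot_sup_eq] at h
  exact hm h

omit [NumberField K] in
lemma coprime_span_of_sub_one_mem {m : Ideal (𝓞 K)} {b : 𝓞 K} (h : b - 1 ∈ m) :
    IsCoprime (Ideal.span {b}) m := by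
  apply coprime_of_sub_mem (b := 1) _ h
  rw [Ideal.isCoprime_iff_sup_eq, Ideal.span_singleton_one, top_sup_eq]

/-- a suitable element of an ideal prime to `m` -/
lemma exists_elt (σ₂ : K →+* ℝ) {m I : Ideal (𝓞 K)} (hm : m ≠ ⊥) (hI : I ≠ ⊥)
    (h : IsCoprime I m) : ∃ b : 𝓞 K, b ∈ I ∧ b - 1 ∈ m ∧ 0 < σ₂ b := by
  obtain ⟨y, hy1, hy2⟩ := exists_crt h 0 1
  have hne : I * m ≠ ⊥ := by
    rw [← Ideal.zero_eq_bot] at hI hm ⊢
    exact mul_ne_zero hI hm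
  obtain ⟨z, hz, hz'⟩ := exists_pos σ₂ hne y
  have h1 : z - y ∈ I := (Ideal.mul_le_left : I * m ≤ I) hz
  have h2 : z - y ∈ m := (Ideal.mul_le_right : I * m ≤ m) hz
  refine ⟨z, ?_, ?_, hz'⟩
  · have : z = (z - y) + (y - 0) := by ring
    rw [this]; exact I.add_mem h1 hy1
  · have : z - 1 = (z - y) + (y - 1) := by ring
    rw [this]; exact m.add_mem h2 hy2

end crt

end Pool.Agent.ST
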