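import Pool.Agent.Lib.MP_1ef7cf_nt.RCG

/-!
# Ray class groups: maps between different moduli
-/

open NumberField IsDedekindDomain nonZeroDivisors

namespace Pool.Agent.ST

section maps

variable {K : Type*} [Field K] [NumberField K] (σ₂ : K →+* ℝ)

omit [NumberField K] in
lemma OneMod.mono {n' n : Ideal (𝓞 K)} (h : n' ≤ n) {α : K} (hα : OneMod n' α) : OneMod n α := by
  obtain ⟨a, b, hb, hab, e⟩ := hα
  exact ⟨a, b, isCoprime_of_le hb h, h hab, e⟩

/-- membership in the ray, for fractional ideals -/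
def InRay (m : Ideal (𝓞 K)) (J : (FI K)ˣ) : Prop :=
  ∃ α : K, OneMod m α ∧ 0 < σ₂ α ∧ (J : FI K) = FractionalIdeal.spanSingleton (𝓞 K)⁰ α

variable {σ₂}

lemma mem_ray {m : Ideal (𝓞 K)} {J : primeTo (K := K) m} : J ∈ ray σ₂ m ↔ InRay σ₂ m (J : (FI K)ˣ) :=
  Iff.rfl

lemma InRay.mul {m : Ideal (𝓞 K)} {J J' : (FI K)ˣ} (h : InRay σ₂ m J) (h' : InRay σ₂ m J') :
    InRay σ₂ m (J * J') := by
  obtain ⟨α, h1, h2, h3⟩ := h
  obtain ⟨β, g1, g2, g3⟩ := h'
  refine ⟨α * β, h1.mul g1, by rw [map_mul]; exact mul_pos h2 g2, ?_⟩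
  rw [Units.val_mul, h3, g3, FractionalIdeal.spanSingleton_mul_spanSingleton]

lemma InRay.inv {m : Ideal (𝓞 K)} {J : (FI K)ˣ} (h : InRay σ₂ m J) : InRay σ₂ m J⁻¹ := by
  obtain ⟨α, h1, h2, h3⟩ := h
  refine ⟨α⁻¹, h1.inv, by rw [map_inv₀]; exact inv_pos.2 h2, ?_⟩
  rw [Units.val_inv_eq_inv_val, h3, FractionalIdeal.spanSingleton_inv]

lemma InRay.mono {n' n : Ideal (𝓞 K)} (h : n' ≤ n) {J : (FI K)ˣ} (hJ : InRay σ₂ n' J) :
    InRay σ₂ n J := by
  obtain ⟨α, h1, h2, h3⟩ := hJ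
  exact ⟨α, h1.mono h, h2, h3⟩

/-- inclusion -/
noncomputable def inc {n' n : Ideal (𝓞 K)} (h : n' ≤ n) : primeTo (K := K) n' →* primeTo (K := K) n :=
  Subgroup.inclusion (primeTo_mono h)

lemma coe_inc {n' n : Ideal (𝓞 K)} (h : n' ≤ n) (J : primeTo (K := K) n') :
    ((inc h J : primeTo n) : (FI K)ˣ) = J := rfl

lemma cls_surjective (m : Ideal (𝓞 K)) : Function.Surjective (cls σ₂ m) :=
  QuotientGroup.mk'_surjective _

lemma cls_eq_one_iff {m : Ideal (𝓞 K)} (J : primeTo (K := K) m) :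
    cls σ₂ m J = 1 ↔ InRay σ₂ m (J : (FI K)ˣ) := by
  rw [← mem_ray]
  exact QuotientGroup.eq_one_iff J

lemma cls_eq_iff {m : Ideal (𝓞 K)} (J J' : primeTo (K := K) m) :
    cls σ₂ m J = cls σ₂ m J' ↔ InRay σ₂ m ((J : (FI K)ˣ)⁻¹ * (J' : (FI K)ˣ)) := by
  have h : cls σ₂ m J = cls σ₂ m J' ↔ J⁻¹ * J' ∈ ray σ₂ m := QuotientGroup.eq
  rw [h, mem_ray]
  rfl

variable (σ₂) in
/-- the natural map between ray class groups -/
noncomputable def pr {n' n : Ideal (𝓞 K)} (h : n' ≤ n) : RayClassGroup σ₂ n' →* RayClassGroup σ₂ n :=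
  QuotientGroup.lift (ray σ₂ n') ((cls σ₂ n).comp (inc h)) (by
    intro J hJ
    rw [MonoidHom.mem_ker, MonoidHom.comp_apply, cls_eq_one_iff, coe_inc]
    exact (mem_ray.1 hJ).mono h)

lemma pr_cls {n' n : Ideal (𝓞 K)} (h : n' ≤ n) (J : primeTo (K := K) n') :
    pr σ₂ h (cls σ₂ n' J) = cls σ₂ n (inc h J) := rfl

lemma coe_span_singleton (b : 𝓞 K) :
    ((Ideal.span {b} : Ideal (𝓞 K)) : FI K) = FractionalIdeal.spanSingleton (𝓞 K)⁰ (b : K) := by
  rw [FractionalIdeal.coeIdeal_span_singleton]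

omit [NumberField K] in
lemma oneMod_of_sub_one_mem {m : Ideal (𝓞 K)} {b : 𝓞 K} (h : b - 1 ∈ m) : OneMod m (b : K) :=
  ⟨b, 1, by rw [Ideal.isCoprime_iff_sup_eq, Ideal.span_singleton_one, top_sup_eq], h, by simp⟩

/-- If a product of a fractional ideal prime to `m` and a principal integral ideal is integral... -/
lemma exists_mul_integral {m : Ideal (𝓞 K)} (hm : m ≠ ⊥) {J : (FI K)ˣ} (hJ : J ∈ primeTo m) :
    ∃ (b : 𝓞 K) (I : Ideal (𝓞 K)), b - 1 ∈ m ∧ 0 < σ₂ b ∧ I ≠ ⊥ ∧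
      FractionalIdeal.spanSingleton (𝓞 K)⁰ (b : K) * (J : FI K) = (I : FI K) := by
  obtain ⟨I₁, I₂, h1, h2, h3, h4, h5⟩ := exists_integral hJ
  obtain ⟨b, hb1, hb2, hb3⟩ := exists_elt σ₂ hm h2 h4
  have hb0 : b ≠ 0 := by
    rintro rfl
    simp at hb3
  obtain ⟨I₃, hI₃⟩ := Ideal.dvd_iff_le.2 ((Ideal.span_singleton_le_iff_mem I₂).2 hb1)
  refine ⟨b, I₃ * I₁, hb2, hb3, ?_, ?_⟩
  · have h6 : I₃ ≠ ⊥ := by
      rintro rfl
      rw [Ideal.mul_bot, Ideal.span_singleton_eq_bot] at hI₃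
      exact hb0 hI₃
    rw [← Ideal.zero_eq_bot] at h1 h6 ⊢
    exact mul_ne_zero h6 h1
  · rw [← coe_span_singleton, hI₃, FractionalIdeal.coeIdeal_mul, FractionalIdeal.coeIdeal_mul, ← h5]
    ring

/-- representation of ray elements prime to a bigger modulus. -/
lemma rep {n' n : Ideal (𝓞 K)} (hn' : n' ≠ ⊥) {J : (FI K)ˣ} (hJ : J ∈ primeTo n')
    (hray : InRay σ₂ n J) : ∃ a b : 𝓞 K, IsCoprime (Ideal.span {a}) n' ∧
      IsCoprime (Ideal.span {b}) n' ∧ a - b ∈ n ∧ a ≠ 0 ∧ b ≠ 0 ∧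
      0 < σ₂ ((a : K) / (b : K)) ∧
      (J : FI K) = FractionalIdeal.spanSingleton (𝓞 K)⁰ ((a : K) / (b : K)) := by
  obtain ⟨α, ⟨c, d, hd, hcd, rfl⟩, h2, h3⟩ := hray
  obtain ⟨b, I, hb1, hb2, hI, hbI⟩ := exists_mul_integral (σ₂ := σ₂) hn' hJ
  have hb0 : b ≠ 0 := by
    rintro rfl
    simp at hb2
  have hb0' : (b : K) ≠ 0 := by exact_mod_cast hb0
  have hα0 : (c : K) / (d : K) ≠ 0 := by
    intro h0
    rw [h0, map_zero] at h2
    exact lt_irrefl _ h2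
  have hd0 : (d : K) ≠ 0 := fun h0 => hα0 (by rw [h0, div_zero])
  have hc0 : (c : K) ≠ 0 := fun h0 => hα0 (by rw [h0, zero_div])
  -- `b c / d` is an integer
  rw [h3, FractionalIdeal.spanSingleton_mul_spanSingleton] at hbI
  have hmem : (b : K) * ((c : K) / (d : K)) ∈ (I : FI K) := by
    rw [← hbI]; exact FractionalIdeal.mem_spanSingleton_self _ _
  rw [FractionalIdeal.mem_coeIdeal] at hmem
  obtain ⟨a, haI, ha⟩ := hmem
  have ha' : (a : K) = (b : K) * ((c : K) / (d : K)) := ha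
  have ha0 : a ≠ 0 := by
    rintro rfl
    apply mul_ne_zero hb0' hα0
    rw [← ha']; simp
  have hspan : Ideal.span {a} = I := by
    have : ((Ideal.span {a} : Ideal (𝓞 K)) : FI K) = (I : FI K) := by
      rw [coe_span_singleton, ha', hbI]
    exact FractionalIdeal.coeIdeal_injective this
  have hdiv : (a : K) / (b : K) = (c : K) / (d : K) := by
    rw [ha']; field_simp
  have hbc : IsCoprime (Ideal.span {b}) n' := coprime_span_of_sub_one_mem hb1
  have hac : IsCoprime (Ideal.span {a}) n' := by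
    rw [hspan]
    have h5 : uP (b : K) hb0' * J ∈ primeTo n' := by
      apply (primeTo n').mul_mem _ hJ
      apply coe_mem_primeTo (I := Ideal.span {b}) _ hbc
      rw [coe_uP, coe_span_singleton]
    apply coprime_of_mem_primeTo (J := uP (b : K) hb0' * J) _ h5
    rw [Units.val_mul, coe_uP, h3, FractionalIdeal.spanSingleton_mul_spanSingleton, hbI]
  refine ⟨a, b, hac, hbc, ?_, ha0, hb0, by rw [hdiv]; exact h2, by rw [hdiv]; exact h3⟩
  -- `a ≡ b` mod `n`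
  have e1 : d * (a - b) = b * (c - d) := by
    have : ((d * (a - b) : 𝓞 K) : K) = ((b * (c - d) : 𝓞 K) : K) := by
      simp only [RingOfIntegers.coe_eq_algebraMap, map_mul, map_sub] at ha' hd0 ⊢
      rw [ha']
      field_simp
    exact RingOfIntegers.coe_injective this
  have e2 : d * (a - b) ∈ n := by rw [e1]; exact n.mul_mem_left _ hcd
  obtain ⟨x, hx, y, hy, hxy⟩ := Ideal.isCoprime_iff_exists.1 hd
  obtain ⟨z, rfl⟩ := Ideal.mem_span_singleton'.1 hx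
  have e3 : a - b = z * (d * (a - b)) + (a - b) * y := by linear_combination (-(a - b)) * hxy
  rw [e3]
  exact n.add_mem (n.mul_mem_left _ e2) (n.mul_mem_left _ hy)

end maps

end Pool.Agent.ST
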