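import Mathlib

/-!
# Ray class groups, ray class fields and partial zeta functions of real quadratic fields

Definitions used in the statement of the main theorem.
-/

open NumberField IsDedekindDomain nonZeroDivisors IntermediateField

namespace Pool.Agent.StarkRQ

section defs

/-- The group of the nonzero fractional ideals of the number field `K`. -/
def IdealGroup (K : Type*) [Field K] [NumberField K] : Type _ := (FractionalIdeal (𝓞 K)⁰ K)ˣ

noncomputable instance (K : Type*) [Field K] [NumberField K] : CommGroup (IdealGroup K) :=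
  Units.instCommGroupUnits

variable {K : Type*} [Field K] [NumberField K]

/-- The fractional ideal given by an element of `IdealGroup K`. -/
def IdealGroup.val (J : IdealGroup K) : FractionalIdeal (𝓞 K)⁰ K := Units.val J

/-- `J` is prime to the integral ideal `m`: no prime ideal dividing `m` occurs in the factorization
of `J`. -/
def IsPrimeTo (m : Ideal (𝓞 K)) (J : IdealGroup K) : Prop :=
  ∀ v : HeightOneSpectrum (𝓞 K), v.asIdeal ∣ m → FractionalIdeal.count K v J.val = 0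

lemma IsPrimeTo.one (m : Ideal (𝓞 K)) : IsPrimeTo m 1 := by
  intro v _
  have h : (1 : IdealGroup K).val = 1 := rfl
  rw [h, FractionalIdeal.count_one]

lemma IsPrimeTo.mul {m : Ideal (𝓞 K)} {a b : IdealGroup K} (ha : IsPrimeTo m a)
    (hb : IsPrimeTo m b) : IsPrimeTo m (a * b) := by
  intro v hv
  have h : (a * b).val = a.val * b.val := rfl
  have h1 : a.val ≠ 0 := Units.ne_zero (show (FractionalIdeal (𝓞 K)⁰ K)ˣ from a)
  have h2 : b.val ≠ 0 := Units.ne_zero (show (FractionalIdeal (𝓞 K)⁰ K)ˣ from b)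
  rw [h, FractionalIdeal.count_mul K v h1 h2, ha v hv, hb v hv, add_zero]

lemma IsPrimeTo.inv {m : Ideal (𝓞 K)} {a : IdealGroup K} (ha : IsPrimeTo m a) :
    IsPrimeTo m a⁻¹ := by
  intro v hv
  have h : (a⁻¹).val = (a.val)⁻¹ :=
    Units.val_inv_eq_inv_val (show (FractionalIdeal (𝓞 K)⁰ K)ˣ from a)
  rw [h, FractionalIdeal.count_inv, ha v hv, neg_zero]

/-- The group of the nonzero fractional ideals of `K` prime to the integral ideal `m`. -/
def primeTo (m : Ideal (𝓞 K)) : Subgroup (IdealGroup K) where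
  carrier := {J | IsPrimeTo m J}
  one_mem' := IsPrimeTo.one m
  mul_mem' := IsPrimeTo.mul
  inv_mem' := IsPrimeTo.inv

/-- The type of the nonzero fractional ideals of `K` prime to the integral ideal `m`. -/
def PrimeTo (m : Ideal (𝓞 K)) : Type _ := primeTo m

noncomputable instance (m : Ideal (𝓞 K)) : CommGroup (PrimeTo m) := Subgroup.toCommGroup (primeTo m)

/-- The fractional ideal given by an element of `PrimeTo m`. -/
def PrimeTo.val {m : Ideal (𝓞 K)} (J : PrimeTo m) : FractionalIdeal (𝓞 K)⁰ K :=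
  IdealGroup.val (Subtype.val J)

/-- `α ≡ 1` modulo `m`, multiplicatively: `α = a / b` with `a`, `b` integers of `K`, `b` prime to
`m` and `a ≡ b` modulo `m`. -/
def OneMod (m : Ideal (𝓞 K)) (α : K) : Prop :=
  ∃ a b : 𝓞 K, IsCoprime (Ideal.span {b}) m ∧ a - b ∈ m ∧ α = (a : K) / (b : K)

omit [NumberField K] in
lemma OneMod.one (m : Ideal (𝓞 K)) : OneMod m (1 : K) :=
  ⟨1, 1, by
    rw [Ideal.isCoprime_iff_sup_eq, Ideal.span_singleton_one, top_sup_eq], by simp, by simp⟩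

omit [NumberField K] in
lemma OneMod.mul {m : Ideal (𝓞 K)} {α β : K} (hα : OneMod m α) (hβ : OneMod m β) :
    OneMod m (α * β) := by
  obtain ⟨a, b, hb, hab, rfl⟩ := hα
  obtain ⟨c, d, hd, hcd, rfl⟩ := hβ
  refine ⟨a * c, b * d, ?_, ?_, ?_⟩
  · rw [← Ideal.span_singleton_mul_span_singleton]
    exact hb.mul_left hd
  · have : a * c - b * d = a * (c - d) + d * (a - b) := by ring
    rw [this]
    exact m.add_mem (m.mul_mem_left _ hcd) (m.mul_mem_left _ hab)
  · push_cast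
    rw [div_mul_div_comm]

omit [NumberField K] in
lemma coprime_of_sub_mem {m : Ideal (𝓞 K)} {a b : 𝓞 K} (hb : IsCoprime (Ideal.span {b}) m)
    (hab : a - b ∈ m) : IsCoprime (Ideal.span {a}) m := by
  rw [Ideal.isCoprime_iff_exists] at hb ⊢
  obtain ⟨x, hx, y, hy, hxy⟩ := hb
  obtain ⟨c, rfl⟩ := Ideal.mem_span_singleton'.1 hx
  refine ⟨c * a, Ideal.mem_span_singleton'.2 ⟨c, rfl⟩, y - c * (a - b),
    m.sub_mem hy (m.mul_mem_left _ hab), ?_⟩
  linear_combination hxy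

omit [NumberField K] in
lemma OneMod.inv {m : Ideal (𝓞 K)} {α : K} (hα : OneMod m α) : OneMod m α⁻¹ := by
  obtain ⟨a, b, hb, hab, rfl⟩ := hα
  refine ⟨b, a, coprime_of_sub_mem hb hab, ?_, ?_⟩
  · have : b - a = -(a - b) := by ring
    rw [this]
    exact m.neg_mem hab
  · rw [inv_div]

/-- `J = (α)` for some `α ≡ 1` modulo `m` (multiplicatively) with `σ₂ α > 0`. -/
def IsRay (σ₂ : K →+* ℝ) (m : Ideal (𝓞 K)) (J : PrimeTo m) : Prop :=
  ∃ α : K, OneMod m α ∧ 0 < σ₂ α ∧ J.val = FractionalIdeal.spanSingleton (𝓞 K)⁰ α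

lemma IsRay.one (σ₂ : K →+* ℝ) (m : Ideal (𝓞 K)) : IsRay σ₂ m 1 :=
  ⟨1, OneMod.one m, by simp, by
    rw [FractionalIdeal.spanSingleton_one]; rfl⟩

lemma IsRay.mul {σ₂ : K →+* ℝ} {m : Ideal (𝓞 K)} {J J' : PrimeTo m} (h : IsRay σ₂ m J)
    (h' : IsRay σ₂ m J') : IsRay σ₂ m (J * J') := by
  obtain ⟨α, h1, h2, h3⟩ := h
  obtain ⟨β, g1, g2, g3⟩ := h'
  refine ⟨α * β, h1.mul g1, by rw [map_mul]; exact mul_pos h2 g2, ?_⟩
  have h : (J * J').val = J.val * J'.val := rfl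
  rw [h, h3, g3, FractionalIdeal.spanSingleton_mul_spanSingleton]

lemma IsRay.inv {σ₂ : K →+* ℝ} {m : Ideal (𝓞 K)} {J : PrimeTo m} (h : IsRay σ₂ m J) :
    IsRay σ₂ m J⁻¹ := by
  obtain ⟨α, h1, h2, h3⟩ := h
  refine ⟨α⁻¹, h1.inv, by rw [map_inv₀]; exact inv_pos.2 h2, ?_⟩
  have h : (J⁻¹).val = (J.val)⁻¹ :=
    Units.val_inv_eq_inv_val (show (FractionalIdeal (𝓞 K)⁰ K)ˣ from Subtype.val J)
  rw [h, h3, FractionalIdeal.spanSingleton_inv]

/-- The subgroup of the ideals `(α)` with `α ≡ 1` modulo `m` (multiplicatively) and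
`σ₂ α > 0`. -/
def ray (σ₂ : K →+* ℝ) (m : Ideal (𝓞 K)) : Subgroup (PrimeTo m) where
  carrier := {J | IsRay σ₂ m J}
  one_mem' := IsRay.one σ₂ m
  mul_mem' := IsRay.mul
  inv_mem' := IsRay.inv

/-- The ray class group of modulus `m ∞₂`, where `∞₂` is the real place given by `σ₂`. -/
def RayClassGroup (σ₂ : K →+* ℝ) (m : Ideal (𝓞 K)) := PrimeTo m ⧸ ray σ₂ m

noncomputable instance (σ₂ : K →+* ℝ) (m : Ideal (𝓞 K)) : CommGroup (RayClassGroup σ₂ m) :=
  QuotientGroup.Quotient.commGroup (ray σ₂ m)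

/-- The ray class of a fractional ideal prime to `m`. -/
noncomputable def cls (σ₂ : K →+* ℝ) (m : Ideal (𝓞 K)) (J : PrimeTo m) : RayClassGroup σ₂ m :=
  QuotientGroup.mk J

/-- The integral ideals in the ray class `A`. -/
def idealsOf (σ₂ : K →+* ℝ) (m : Ideal (𝓞 K)) (A : RayClassGroup σ₂ m) : Set (Ideal (𝓞 K)) :=
  {I | ∃ J : PrimeTo m, J.val = I ∧ cls σ₂ m J = A}

/-- `Z` is the partial zeta function of the ray class `A`: the analytic continuation to `ℂ ∖ {1}`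
of the sum of `N(𝔞) ^ (-s)` over the integral ideals `𝔞` in `A`. -/
def IsPartialZeta (σ₂ : K →+* ℝ) (m : Ideal (𝓞 K)) (A : RayClassGroup σ₂ m) (Z : ℂ → ℂ) : Prop :=
  AnalyticOnNhd ℂ Z {1}ᶜ ∧
    ∀ s : ℂ, 1 < s.re → Z s = ∑' I : idealsOf σ₂ m A, ((Ideal.absNorm I.1 : ℕ) : ℂ) ^ (-s)

variable [Algebra K ℝ]

/-- Each prime ideal `P` of `H` above the prime ideal `v` of `K` is unramified over `K`, and `φ` is
the Frobenius automorphism at `P`. -/
def IsFrobAt (H : IntermediateField K ℝ) (v : HeightOneSpectrum (𝓞 K)) (φ : H ≃ₐ[K] H) : Prop :=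
  ∀ (P : Ideal (𝓞 H)) [P.IsPrime], P.under (𝓞 K) = v.asIdeal →
    Algebra.IsUnramifiedAt (𝓞 K) P ∧ ∀ x : 𝓞 H, φ • x - x ^ Ideal.absNorm v.asIdeal ∈ P

/-- `H` (a subfield of `ℝ` containing `K`) is the ray class field of modulus `m ∞₂` and `Art` is
the Artin isomorphism: `H / K` is a finite Galois extension, and for each prime ideal `𝔭` not
dividing `m` and each prime ideal `P` of `H` above `𝔭`, `P` is unramified over `K` and the image of
the class of `𝔭` is the Frobenius automorphism at `P`. -/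
structure IsRayClassField (σ₂ : K →+* ℝ) (m : Ideal (𝓞 K)) (H : IntermediateField K ℝ)
    (Art : RayClassGroup σ₂ m ≃* (H ≃ₐ[K] H)) : Prop where
  finite : FiniteDimensional K H
  galois : IsGalois K H
  frob : ∀ (v : HeightOneSpectrum (𝓞 K)) (J : PrimeTo m), J.val = v.asIdeal →
    IsFrobAt H v (Art (cls σ₂ m J))

/-- The conditions 1-3 of `Stark(K, m)` for units `ε A` of `H`; here `Z A` is the partial zeta
function of `A`. -/
structure IsStark (σ₂ : K →+* ℝ) (m : Ideal (𝓞 K)) (H : IntermediateField K ℝ)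
    (Art : RayClassGroup σ₂ m ≃* (H ≃ₐ[K] H)) (Z : RayClassGroup σ₂ m → ℂ → ℂ)
    (ε : RayClassGroup σ₂ m → (𝓞 H)ˣ) : Prop where
  value : ∀ A, ((((ε A : 𝓞 H) : H) : ℝ) : ℂ) = Complex.exp (-2 * deriv (Z A) 0)
  galois : ∀ A B, Art B ((ε A : 𝓞 H) : H) = ((ε (A * B) : 𝓞 H) : H)
  abs_eq_one : ∀ A, ∀ g : H →+* ℂ, (∀ a : K, g (algebraMap K H a) = (σ₂ a : ℂ)) →
    ‖g ((ε A : 𝓞 H) : H)‖ = 1

/-- The assertion of Q1 for `(K, m)`: the conditions 1-3 of `Stark(K, m)` hold, and for each ray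
class `A` the extension `H(√ε_A) / K` is abelian. -/
def StarkTate (σ₂ : K →+* ℝ) (m : Ideal (𝓞 K)) : Prop :=
  ∃ (H : IntermediateField K ℝ) (Art : RayClassGroup σ₂ m ≃* (H ≃ₐ[K] H))
    (Z : RayClassGroup σ₂ m → ℂ → ℂ) (ε : RayClassGroup σ₂ m → (𝓞 H)ˣ),
    IsRayClassField σ₂ m H Art ∧ (∀ A, IsPartialZeta σ₂ m A (Z A)) ∧ IsStark σ₂ m H Art Z ε ∧
    ∀ A, IsAbelianGalois K (H ⊔ K⟮√(((ε A : 𝓞 H) : H) : ℝ)⟯ : IntermediateField K ℝ)

end defs

end Pool.Agent.StarkRQ
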