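import Pool.Agent.Lib.MP_1ef7cf_nt.SDefs

/-!
# Assertions for the ratios of the Stark units

Definitions used in the statements of the main theorems.
-/

open NumberField IsDedekindDomain nonZeroDivisors IntermediateField

namespace Pool.Agent.StarkRQ

variable {K : Type*} [Field K] [NumberField K]

/-- At least two primes `q` not dividing `m` satisfy `P (m * q ^ k)`, and the classes of these primes
generate the ray class group of modulus `m ∞₂`. -/
def Generated (σ₂ : K →+* ℝ) (P : Ideal (𝓞 K) → Prop) (m : Ideal (𝓞 K)) (k : ℕ) : Prop :=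
  {q : HeightOneSpectrum (𝓞 K) | ¬ q.asIdeal ∣ m ∧ P (m * q.asIdeal ^ k)}.Nontrivial ∧
  Subgroup.closure {A : RayClassGroup σ₂ m | ∃ (q : HeightOneSpectrum (𝓞 K)) (J : PrimeTo m),
    J.val = q.asIdeal ∧ P (m * q.asIdeal ^ k) ∧ cls σ₂ m J = A} = ⊤

variable [Algebra K ℝ]

/-- The assertion `Stark(K, m)`: the conditions 1-3. -/
def Stark (σ₂ : K →+* ℝ) (m : Ideal (𝓞 K)) : Prop :=
  ∃ (H : IntermediateField K ℝ) (Art : RayClassGroup σ₂ m ≃* (H ≃ₐ[K] H))
    (Z : RayClassGroup σ₂ m → ℂ → ℂ) (ε : RayClassGroup σ₂ m → (𝓞 H)ˣ),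
    IsRayClassField σ₂ m H Art ∧ (∀ A, IsPartialZeta σ₂ m A (Z A)) ∧ IsStark σ₂ m H Art Z ε

/-- The assertion of `Stark(K, m)` for the ratios only: for all ray classes `A` and `B` the number
`exp (-2 ζ'(0, A) + 2 ζ'(0, B))` is a unit of the ray class field `H`, which `Art C` maps to the
one for the classes `A * C` and `B * C`, and its absolute value is `1` at all embeddings of `H` over
`σ₂`. -/
def StarkRatios (σ₂ : K →+* ℝ) (m : Ideal (𝓞 K)) : Prop :=
  ∃ (H : IntermediateField K ℝ) (Art : RayClassGroup σ₂ m ≃* (H ≃ₐ[K] H))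
    (Z : RayClassGroup σ₂ m → ℂ → ℂ)
    (δ : RayClassGroup σ₂ m → RayClassGroup σ₂ m → (𝓞 H)ˣ),
    IsRayClassField σ₂ m H Art ∧ (∀ A, IsPartialZeta σ₂ m A (Z A)) ∧
    ∀ A B, ((((δ A B : 𝓞 H) : H) : ℝ) : ℂ) = Complex.exp (-2 * deriv (Z A) 0 + 2 * deriv (Z B) 0) ∧
      (∀ C, Art C ((δ A B : 𝓞 H) : H) = ((δ (A * C) (B * C) : 𝓞 H) : H)) ∧
      ∀ g : H →+* ℂ, (∀ a : K, g (algebraMap K H a) = (σ₂ a : ℂ)) →
        ‖g ((δ A B : 𝓞 H) : H)‖ = 1

/-- The assertion of Q1 for the ratios only, without any condition on the signs and without the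
condition that an extension is abelian: for all ray classes `A` and `B` the number
`exp (-ζ'(0, A) + ζ'(0, B))` is a unit of the ray class field `H`, its square is mapped by `Art C` to
the one for the classes `A * C` and `B * C`, and its absolute value is `1` at all embeddings of `H`
over `σ₂`. -/
def StarkTateRatios (σ₂ : K →+* ℝ) (m : Ideal (𝓞 K)) : Prop :=
  ∃ (H : IntermediateField K ℝ) (Art : RayClassGroup σ₂ m ≃* (H ≃ₐ[K] H))
    (Z : RayClassGroup σ₂ m → ℂ → ℂ)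
    (ρ : RayClassGroup σ₂ m → RayClassGroup σ₂ m → (𝓞 H)ˣ),
    IsRayClassField σ₂ m H Art ∧ (∀ A, IsPartialZeta σ₂ m A (Z A)) ∧
    ∀ A B, ((((ρ A B : 𝓞 H) : H) : ℝ) : ℂ) = Complex.exp (-deriv (Z A) 0 + deriv (Z B) 0) ∧
      (∀ C, Art C (((ρ A B : 𝓞 H) : H) ^ 2) = ((ρ (A * C) (B * C) : 𝓞 H) : H) ^ 2) ∧
      ∀ g : H →+* ℂ, (∀ a : K, g (algebraMap K H a) = (σ₂ a : ℂ)) →
        ‖g ((ρ A B : 𝓞 H) : H)‖ = 1

end Pool.Agent.StarkRQ
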