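import Pool.Agent.Lib.MP_1ef7cf_nt.SDefs

/-!
# Stark's conditions for subextensions of the ray class field

Definitions used in the statement of the theorem on towers of `2`-extensions.
-/

open NumberField IsDedekindDomain nonZeroDivisors IntermediateField

namespace Pool.Agent.StarkRQ

variable {K : Type*} [Field K] [NumberField K] [Algebra K ℝ]

/-- The field `L(cos (2 π / 2 ^ k))`: the compositum of `L` and of the maximal real subfield of the
field of the `2 ^ k`-th roots of unity. -/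
noncomputable def layer (L : IntermediateField K ℝ) (k : ℕ) : IntermediateField K ℝ :=
  L ⊔ K⟮Real.cos (2 * Real.pi / 2 ^ k)⟯

/-- The conditions 1-3 of Stark's conjecture for the extension `L / K` and the set of the places
`∞₁`, `∞₂` and of the primes dividing `m`. Here `L` is a subfield of the ray class field `H` of
modulus `m ∞₂`, `Z A` is the partial zeta function of the ray class `A`, and `η A` is a unit of `L`:
1. `η A = exp (-2 ∑ ζ'(0, B))`, where `B` runs over the ray classes such that `Art B` and `Art A`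
  agree on `L`,
2. `Art B` maps `η A` to `η (A * B)`,
3. `|g (η A)| = 1` for each embedding `g` of `L` into `ℂ` over `σ₂`. -/
structure IsStarkIn (σ₂ : K →+* ℝ) (m : Ideal (𝓞 K)) (H : IntermediateField K ℝ)
    (Art : RayClassGroup σ₂ m ≃* (H ≃ₐ[K] H)) (Z : RayClassGroup σ₂ m → ℂ → ℂ)
    (L : IntermediateField K ℝ) (hL : L ≤ H) (η : RayClassGroup σ₂ m → (𝓞 L)ˣ) : Prop where
  value : ∀ A, ((((η A : 𝓞 L) : L) : ℝ) : ℂ) =
    Complex.exp (-2 * ∑ᶠ B ∈ {B : RayClassGroup σ₂ m |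
      ∀ x : H, (x : ℝ) ∈ L → Art B x = Art A x}, deriv (Z B) 0)
  galois : ∀ A B, ((Art B (inclusion hL ((η A : 𝓞 L) : L)) : H) : ℝ) =
    (((η (A * B) : 𝓞 L) : L) : ℝ)
  abs_eq_one : ∀ A, ∀ g : L →+* ℂ, (∀ a : K, g (algebraMap K L a) = (σ₂ a : ℂ)) →
    ‖g ((η A : 𝓞 L) : L)‖ = 1

/-- `L` is a subfield of the ray class field of modulus `m ∞₂`, and units of `L` with the
conditions 1-3 exist. -/
def StarkIn (σ₂ : K →+* ℝ) (m : Ideal (𝓞 K)) (L : IntermediateField K ℝ) : Prop :=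
  ∃ (H : IntermediateField K ℝ) (Art : RayClassGroup σ₂ m ≃* (H ≃ₐ[K] H))
    (Z : RayClassGroup σ₂ m → ℂ → ℂ) (hL : L ≤ H) (η : RayClassGroup σ₂ m → (𝓞 L)ˣ),
    IsRayClassField σ₂ m H Art ∧ (∀ A, IsPartialZeta σ₂ m A (Z A)) ∧
    IsStarkIn σ₂ m H Art Z L hL η

/-- `L` is a subfield of the ray class field of modulus `m ∞₂`, units `η A` of `L` with the
conditions 1-3 exist, and for each ray class `A` the extension `L(√η_A) / K` is abelian. -/
def StarkTateIn (σ₂ : K →+* ℝ) (m : Ideal (𝓞 K)) (L : IntermediateField K ℝ) : Prop :=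
  ∃ (H : IntermediateField K ℝ) (Art : RayClassGroup σ₂ m ≃* (H ≃ₐ[K] H))
    (Z : RayClassGroup σ₂ m → ℂ → ℂ) (hL : L ≤ H) (η : RayClassGroup σ₂ m → (𝓞 L)ˣ),
    IsRayClassField σ₂ m H Art ∧ (∀ A, IsPartialZeta σ₂ m A (Z A)) ∧
    IsStarkIn σ₂ m H Art Z L hL η ∧
    ∀ A, IsAbelianGalois K (L ⊔ K⟮√(((η A : 𝓞 L) : L) : ℝ)⟯ : IntermediateField K ℝ)

end Pool.Agent.StarkRQ
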