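import Pool.Agent.Lib.MP_1ef7cf_nt.SharpMain2

/-!
# The assertion `Stark(K, m)`, without the condition on the square roots
-/

open NumberField IsDedekindDomain nonZeroDivisors IntermediateField

namespace Pool.Agent.ST

variable {K : Type*} [Field K] [NumberField K] [Algebra K ℝ] {σ₂ : K →+* ℝ}

/-- The assertion `Stark(K, m)`: the conditions 1-3. -/
def Stark (σ₂ : K →+* ℝ) (m : Ideal (𝓞 K)) : Prop :=
  ∃ (H : IntermediateField K ℝ) (Art : RayClassGroup σ₂ m ≃* (H ≃ₐ[K] H))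
    (Z : RayClassGroup σ₂ m → ℂ → ℂ) (ε : RayClassGroup σ₂ m → (𝓞 H)ˣ),
    IsRayClassField σ₂ m H Art ∧
    (∀ A, IsPartialZeta σ₂ m A (Z A)) ∧
    (∀ A, ((((ε A : 𝓞 H) : H) : ℝ) : ℂ) = Complex.exp (-2 * deriv (Z A) 0)) ∧
    (∀ A B, Art B ((ε A : 𝓞 H) : H) = ((ε (A * B) : 𝓞 H) : H)) ∧
    (∀ A, ∀ g : H →+* ℂ, (∀ a : K, g (algebraMap K H a) = (σ₂ a : ℂ)) →
      ‖g ((ε A : 𝓞 H) : H)‖ = 1)

/-- The data of a ray class field with a unit satisfying the conditions 1-3. -/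
structure STData0 (σ₂ : K →+* ℝ) (m : Ideal (𝓞 K)) (H : IntermediateField K ℝ)
    (Art : RayClassGroup σ₂ m ≃* (H ≃ₐ[K] H)) (u : ℝ) : Prop where
  rcf : IsRayClassField σ₂ m H Art
  su : IsSU σ₂ H u
  act : ∀ A, act (Art A) u = Real.exp (-2 * zd σ₂ m A)

lemma Stark.data {m : Ideal (𝓞 K)} (hst : Stark σ₂ m) :
    ∃ (H : IntermediateField K ℝ) (Art : RayClassGroup σ₂ m ≃* (H ≃ₐ[K] H)) (u : ℝ),
      STData0 σ₂ m H Art u := by
  obtain ⟨H, Art, Z, ε, hr, hZ, hε, hact, habs⟩ := hst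
  set u : ℝ := (((ε 1 : 𝓞 H) : H) : ℝ) with hu
  have humem : u ∈ H := ((ε 1 : 𝓞 H) : H).2
  have hval : ∀ A, (((ε A : 𝓞 H) : H) : ℝ) = Real.exp (-2 * zd σ₂ m A) := by
    intro A
    have h1 := hε A
    rw [← zd_eq (hZ A)] at h1
    have h2 : ((Real.exp (-2 * zd σ₂ m A) : ℝ) : ℂ) = Complex.exp (-2 * (zd σ₂ m A : ℂ)) := by
      rw [Complex.ofReal_exp]
      push_cast
      rfl
    rw [← h2] at h1
    exact_mod_cast h1
  have hactu : ∀ A, Pool.Agent.ST.act (Art A) u = Real.exp (-2 * zd σ₂ m A) := by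
    intro A
    rw [← hval A, hu, act_coe, hact 1 A, one_mul]
  have hint : IsIntegral ℤ u := by
    have h1 : IsIntegral ℤ ((ε 1 : 𝓞 H) : H) := RingOfIntegers.isIntegral_coe _
    exact h1.map (algebraMap H ℝ).toIntAlgHom
  have hint' : IsIntegral ℤ u⁻¹ := by
    have h1 : IsIntegral ℤ ((((ε 1)⁻¹ : (𝓞 H)ˣ) : 𝓞 H) : H) := RingOfIntegers.isIntegral_coe _
    have h2 : ((((((ε 1)⁻¹ : (𝓞 H)ˣ) : 𝓞 H) : H)) : ℝ) * u = 1 := by
      have h3 : (((ε 1)⁻¹ : (𝓞 H)ˣ) : 𝓞 H) * (ε 1 : 𝓞 H) = 1 := Units.inv_mul _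
      have h4 : algebraMap (𝓞 H) H (((ε 1)⁻¹ : (𝓞 H)ˣ) : 𝓞 H) * algebraMap (𝓞 H) H (ε 1 : 𝓞 H) =
          1 := by rw [← map_mul, h3, map_one]
      exact congrArg (fun x : H => (x : ℝ)) h4
    rw [← eq_inv_of_mul_eq_one_left h2]
    exact h1.map (algebraMap H ℝ).toIntAlgHom
  refine ⟨H, Art, u, hr, ⟨humem, ?_, hint, hint', ?_⟩, hactu⟩
  · intro σ
    obtain ⟨A, rfl⟩ := Art.surjective σ
    rw [hactu]; exact Real.exp_pos _
  · intro g hg
    exact habs 1 g hg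

lemma STData0.stark (h2 : Module.finrank ℚ K = 2) (hσ : σ₂ ≠ sg1 K) {m : Ideal (𝓞 K)}
    (hm : m ≠ ⊥) (hm1 : m ≠ ⊤) {H : IntermediateField K ℝ}
    {Art : RayClassGroup σ₂ m ≃* (H ≃ₐ[K] H)} {u : ℝ} (h : STData0 σ₂ m H Art u) :
    Stark σ₂ m := by
  choose Z hZ _ using exists_pz (σ₂ := σ₂) h2 hσ hm hm1
  have hmem := h.su.mem
  have hu0 : u ≠ 0 := h.su.pos'.ne'
  have hfd := h.rcf.finite
  have hx : ∀ A, ∃ v : (𝓞 H)ˣ, ((v : 𝓞 H) : H) = Art A ⟨u, hmem⟩ := by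
    intro A
    apply exists_unit
    · intro h0
      have : (⟨u, hmem⟩ : H) = 0 := (Art A).injective (by rw [h0, map_zero])
      exact hu0 (congrArg Subtype.val this)
    · have h1 : IsIntegral ℤ (⟨u, hmem⟩ : H) :=
        (isIntegral_algebraMap_iff (algebraMap H ℝ).injective).1 h.su.int
      exact h1.map ((Art A : H →+* H).toIntAlgHom)
    · have h1 : IsIntegral ℤ (⟨u⁻¹, inv_mem hmem⟩ : H) :=
        (isIntegral_algebraMap_iff (algebraMap H ℝ).injective).1 h.su.int_inv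
      have h3 : (Art A ⟨u, hmem⟩)⁻¹ = Art A ⟨u⁻¹, inv_mem hmem⟩ := by
        rw [← map_inv₀]; rfl
      rw [h3]
      exact h1.map ((Art A : H →+* H).toIntAlgHom)
  choose ε hε using hx
  have hval : ∀ A, (((ε A : 𝓞 H) : H) : ℝ) = Real.exp (-2 * zd σ₂ m A) := by
    intro A
    rw [← h.act A, act_of_mem _ hmem, hε]
  refine ⟨H, Art, Z, ε, h.rcf, hZ, ?_, ?_, ?_⟩
  · intro A
    rw [hval, Complex.ofReal_exp, ← zd_eq (hZ A)]
    push_cast
    rfl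
  · intro A B
    rw [hε, hε, mul_comm A B, map_mul]
    rfl
  · intro A g hg
    rw [hε]
    exact h.su.abs (g.comp (Art A : H →+* H)) (by
      intro a
      simp only [RingHom.comp_apply]
      have : (Art A : H →+* H) (algebraMap K H a) = algebraMap K H a := (Art A).commutes a
      rw [this, ← hg a])

omit [NumberField K] in
/-- The norm of a unit with the properties is such a unit. -/
lemma IsSU.fibProd {H L : IntermediateField K ℝ} (h : H ≤ L) [FiniteDimensional K H]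
    [IsGalois K H] [FiniteDimensional K L] [IsGalois K L] {u : ℝ} (hu : IsSU σ₂ L u) :
    IsSU σ₂ H (fibProd h u 1) := by
  have hmem : Pool.Agent.ST.fibProd h u 1 ∈ H := fibProd_mem_base h hu.mem 1
  refine ⟨hmem, ?_, ?_, ?_, ?_⟩
  · intro σ
    obtain ⟨δ, rfl⟩ := res_surjective h σ
    rw [act_res h δ hmem, act_fibProd h hu.mem]
    exact Finset.prod_pos fun γ _ => hu.pos γ
  · apply IsIntegral.prod
    intro γ _
    exact isIntegral_act γ hu.mem hu.int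
  · unfold Pool.Agent.ST.fibProd
    rw [← Finset.prod_inv_distrib]
    apply IsIntegral.prod
    intro γ _
    rw [← act_inv _ hu.mem]
    exact isIntegral_act γ (inv_mem hu.mem) hu.int_inv
  · intro g hg
    obtain ⟨g', hg'⟩ := exists_extend g h
    rw [← emb_of_mem g hmem, ← hg' _ hmem, Pool.Agent.ST.fibProd,
      emb_prod g' _ _ fun γ _ => act_mem γ hu.mem, norm_prod]
    apply Finset.prod_eq_one
    intro γ _
    have h1 := hu.abs (g'.comp (γ : L →+* L)) (by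
      intro a
      simp only [RingHom.comp_apply]
      have : (γ : L →+* L) (algebraMap K L a) = algebraMap K L a := γ.commutes a
      rw [this, ← hg a]
      have h3 := hg' (algebraMap K ℝ a) (H.algebraMap_mem a)
      rw [emb_of_mem _ (H.algebraMap_mem a), emb_of_mem _ (L.algebraMap_mem a)] at h3
      exact h3)
    rw [act_of_mem γ hu.mem, emb_coe]
    exact h1

/-- Descent to a modulus with the same prime divisors. -/
theorem stark_same (h2 : Module.finrank ℚ K = 2) (hσ : σ₂ ≠ sg1 K) {n' n : Ideal (𝓞 K)}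
    (hle : n' ≤ n) (hn' : n' ≠ ⊥) (hn : n ≠ ⊥) (hn1 : n ≠ ⊤)
    (hdvd : ∀ v : HeightOneSpectrum (𝓞 K), v.asIdeal ∣ n' → v.asIdeal ∣ n)
    (hst : Stark σ₂ n') : Stark σ₂ n := by
  obtain ⟨H', Art', u', hd'⟩ := hst.data
  obtain ⟨H, Art, hrcf, hHH⟩ := rcf_same hle hdvd hd'.rcf
  have hprime : ∀ J : (FI K)ˣ, J ∈ primeTo n → J ∈ primeTo n' := fun J hJ v hv => hJ v (hdvd v hv)
  have hcop : ∀ I : Ideal (𝓞 K), IsCoprime I n → IsCoprime I n' := by
    intro I hI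
    have hI0 : I ≠ ⊥ := ne_bot_of_coprime_ne hI hn1
    exact coprime_of_mem_primeTo (J := uI I hI0) (coe_uI I hI0)
      (hprime _ (coe_mem_primeTo (coe_uI I hI0) hI))
  have := hrcf.finite
  have := hrcf.galois
  have := hd'.rcf.finite
  have := hd'.rcf.galois
  have hd : STData0 σ₂ n H Art (fibProd hHH u' 1) := by
    refine ⟨hrcf, hd'.su.fibProd hHH, fun A => ?_⟩
    rw [act_fibProd_one hHH hd'.su.mem, fibProd_eq Art Art' hHH A hd'.act,
      zd_relation_same h2 hσ hle hn' hn hn1 hcop (mem_ovCls hle hn' hrcf hd'.rcf hHH A)]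
  exact hd.stark h2 hσ hn hn1

/-- The ratios at level `N`, from `Stark` at the levels `N q`, `q` in a generating set. -/
theorem ratio_level (h2 : Module.finrank ℚ K = 2) (hσ : σ₂ ≠ sg1 K) {N : Ideal (𝓞 K)}
    (hN : N ≠ ⊥) (hN1 : N ≠ ⊤) (hG : GenP σ₂ (Stark σ₂) N 1) :
    ∃ (H : IntermediateField K ℝ) (Art : RayClassGroup σ₂ N ≃* (H ≃ₐ[K] H)),
      IsRayClassField σ₂ N H Art ∧
      Ratio σ₂ H (fun σ => Real.exp (-2 * zd σ₂ N (Art.symm σ))) := by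
  classical
  obtain ⟨⟨q₀, q₁, hq, hq₀, hq₁, hs₀, hs₁⟩, hgen⟩ := hG
  rw [pow_one] at hs₀ hs₁
  obtain ⟨_, _, _, d₀⟩ := hs₀.data
  obtain ⟨_, _, _, d₁⟩ := hs₁.data
  obtain ⟨H, Art, hr⟩ := exists_rcf hN hq hq₀ hq₁ rfl rfl d₀.rcf d₁.rcf
  have hfdH := hr.finite
  have habH := hr.isRCF.abelian
  refine ⟨H, Art, hr, ?_⟩
  let ι := {q : HeightOneSpectrum (𝓞 K) // ¬ q.asIdeal ∣ N ∧ Stark σ₂ (N * q.asIdeal)}
  choose F Art1 u hd using fun i : ι => (i.2.2).data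
  have hne : ∀ i : ι, N * i.1.asIdeal ≠ ⊥ := fun i => mul_ne_bot' hN i.1.ne_bot
  have hlei : ∀ i : ι, N * i.1.asIdeal ≤ N := fun i => Ideal.mul_le_left
  have hfd : ∀ i, FiniteDimensional K (F i) := fun i => (hd i).rcf.finite
  have hab : ∀ i, IsAbelianGalois K (F i) := fun i => (hd i).rcf.isRCF.abelian
  have hF : ∀ i, H ≤ F i := fun i => IsRCF.le (hlei i) (hne i) Set.finite_empty Set.finite_empty
    (hd i).rcf.isRCF hr.isRCF
  let φ : ι → (H ≃ₐ[K] H) := fun i => Art (cls σ₂ N (prJ N i.1 i.2.1))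
  let e : (H ≃ₐ[K] H) → ℝ := fun σ => Real.exp (-2 * zd σ₂ N (Art.symm σ))
  have epos : ∀ σ, 0 < e σ := fun σ => Real.exp_pos _
  have hnorm : ∀ i σ, fibProd (hF i) (u i) σ = e σ / e (σ * (φ i)⁻¹) := by
    intro i σ
    obtain ⟨A, rfl⟩ := Art.surjective σ
    rw [fibProd_prime h2 hσ hN hN1 rfl hr (hd i).rcf (hF i) A (hd i).act (coe_prJ N i.1 i.2.1)]
    have h3 : Art.symm (Art A * (φ i)⁻¹) = A * (cls σ₂ N (prJ N i.1 i.2.1))⁻¹ := by
      rw [MulEquiv.symm_apply_eq, map_mul, map_inv]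
    simp only [e]
    rw [h3, MulEquiv.symm_apply_apply]
  have hgr : Subgroup.closure (Set.range φ) = ⊤ := by
    have h3 : (Subgroup.closure {A : RayClassGroup σ₂ N | ∃ (q : HeightOneSpectrum (𝓞 K))
        (h : ¬ q.asIdeal ∣ N), cls σ₂ N (prJ N q h) = A ∧ Stark σ₂ (N * q.asIdeal ^ 1)}) ≤
        (Subgroup.closure (Set.range φ)).comap (Art : RayClassGroup σ₂ N →* (H ≃ₐ[K] H)) := by
      rw [Subgroup.closure_le]
      rintro A ⟨q, hqN, rfl, hs⟩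
      rw [pow_one] at hs
      apply Subgroup.subset_closure
      exact ⟨⟨q, hqN, hs⟩, rfl⟩
    rw [hgen] at h3
    rw [eq_top_iff]
    intro σ _
    obtain ⟨A, rfl⟩ := Art.surjective σ
    exact h3 (Subgroup.mem_top A)
  exact ratio_core σ₂ e epos φ F hF u (fun i => (hd i).su) hnorm hgr

/-- **Local theorem** for the assertion `Stark(K, n)`. -/
theorem local_stark (h2 : Module.finrank ℚ K = 2) (hσ : σ₂ ≠ sg1 K) {n : Ideal (𝓞 K)}
    (hn : n ≠ ⊥) (hn1 : n ≠ ⊤)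
    (htwo : ∀ v : HeightOneSpectrum (𝓞 K), (2 : 𝓞 K) ∈ v.asIdeal → v.asIdeal ∣ n) :
    ∃ j₀ : ℕ, ∀ j ≥ j₀, GenP σ₂ (Stark σ₂) (n * Ideal.span {(2 : 𝓞 K)} ^ j) 1 →
      Stark σ₂ n := by
  obtain ⟨a₀, ha₀⟩ := exists_level (σ₂ := σ₂) h2 hn htwo
  refine ⟨a₀, fun j hj hG => ?_⟩
  obtain ⟨-, J, hJ, hray, hodd⟩ := ha₀ j hj
  set N : Ideal (𝓞 K) := n * Ideal.span {(2 : 𝓞 K)} ^ j with hN
  have hNb : N ≠ ⊥ := mul_ne_bot' hn (pow_ne_bot' span_two_ne_bot _)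
  have hle : N ≤ n := Ideal.mul_le_left
  have hN1 : N ≠ ⊤ := ne_top_of_le hle hn1
  have hdvd : ∀ v : HeightOneSpectrum (𝓞 K), v.asIdeal ∣ N → v.asIdeal ∣ n :=
    fun v hv => dvd_level htwo hv
  obtain ⟨HN, ArtN, hrN, hR⟩ := ratio_level h2 hσ hNb hN1 hG
  have hfdN := hrN.finite
  have habN := hrN.isRCF.abelian
  obtain ⟨H, Art, hr, hHH⟩ := rcf_same hle hdvd hrN
  have hfdH := hr.finite
  have habH := hr.isRCF.abelian
  have hev := even_fib_of_ray hle hNb hJ hray hodd hr hrN hHH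
  obtain ⟨hs, hact⟩ := even_core σ₂ hHH hR (prod_exp_zd h2 hσ hNb hN1 ArtN)
    (e := fun σ => Real.exp (-2 * zd σ₂ n (Art.symm σ)))
    (fun σ => prod_fib_same h2 hσ hle hNb hn hn1 hdvd hr hrN hHH σ) hev
  have hdn : STData0 σ₂ n H Art (Real.exp (-2 * zd σ₂ n (Art.symm 1))) := by
    refine ⟨hr, hs, fun A => ?_⟩
    rw [hact, MulEquiv.symm_apply_apply]
  exact hdn.stark h2 hσ hn hn1

end Pool.Agent.ST
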