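import Pool.Agent.Lib.MP_1ef7cf_nt.Conv
import Pool.Agent.Lib.MP_1ef7cf_nt.Mg.G002
import Pool.Agent.Lib.MP_1ef7cf_nt.Gen2
import Pool.Agent.Lib.MP_1ef7cf_nt.RCF4

/-!
# Removing a prime from the modulus
-/

open NumberField IsDedekindDomain nonZeroDivisors IntermediateField

namespace Pool.Agent.ST

variable {K : Type*} [Field K] [NumberField K] [Algebra K ℝ] {σ₂ : K →+* ℝ}

omit [NumberField K] [Algebra K ℝ] in
lemma prod_ne_bot (s : Finset (HeightOneSpectrum (𝓞 K))) : ∏ v ∈ s, v.asIdeal ≠ ⊥ := by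
  classical
  induction s using Finset.induction_on with
  | empty => rw [Finset.prod_empty]; exact one_ne_zero
  | insert a s ha ih => rw [Finset.prod_insert ha]; exact mul_ne_bot' a.ne_bot ih

omit [NumberField K] [Algebra K ℝ] in
lemma prod_le_of_mem {s : Finset (HeightOneSpectrum (𝓞 K))} {v : HeightOneSpectrum (𝓞 K)}
    (hv : v ∈ s) : ∏ w ∈ s, w.asIdeal ≤ v.asIdeal :=
  Ideal.prod_le_inf.trans (Finset.inf_le hv)

omit [Algebra K ℝ] in
/-- there are primes outside a finite set -/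
lemma exists_prime_notMem {B : Set (HeightOneSpectrum (𝓞 K))} (hB : B.Finite) :
    ∃ q : HeightOneSpectrum (𝓞 K), q ∉ B := by
  classical
  by_contra hcon
  push Not at hcon
  obtain ⟨I, hI0, hI1⟩ : ∃ I : Ideal (𝓞 K), I ≠ ⊥ ∧ ∀ v ∈ B, I ≤ v.asIdeal :=
    ⟨∏ v ∈ hB.toFinset, v.asIdeal, prod_ne_bot _, fun v hv =>
      prod_le_of_mem (hB.mem_toFinset.2 hv)⟩
  obtain ⟨N, hN0, hNI⟩ : ∃ N : ℕ, N ≠ 0 ∧ (N : 𝓞 K) ∈ I :=
    ⟨Ideal.absNorm I, by rwa [Ne, Ideal.absNorm_eq_zero_iff], Ideal.absNorm_mem I⟩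
  have hnu : ¬ IsUnit ((N + 1 : ℕ) : 𝓞 K) := by
    intro hu
    have h1 := Ideal.absNorm_span_natCast (S := 𝓞 K) (N + 1)
    rw [Ideal.span_singleton_eq_top.2 hu, ← Ideal.one_eq_top, map_one] at h1
    have h3 : 0 < Module.finrank ℤ (𝓞 K) := by
      rw [RingOfIntegers.rank]; exact Module.finrank_pos
    have h4 : N + 1 ≤ (N + 1) ^ Module.finrank ℤ (𝓞 K) := Nat.le_self_pow h3.ne' _
    omega
  obtain ⟨M, hM, hM2⟩ := exists_max_ideal_of_mem_nonunits hnu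
  have hM0 : M ≠ ⊥ := by
    rintro rfl
    rw [Ideal.mem_bot, Nat.cast_eq_zero] at hM2
    omega
  have h5 : I ≤ M := hI1 ⟨M, hM.isPrime, hM0⟩ (hcon _)
  apply hM.ne_top
  rw [Ideal.eq_top_iff_one]
  have h6 : (1 : 𝓞 K) = ((N + 1 : ℕ) : 𝓞 K) - (N : 𝓞 K) := by push_cast; ring
  rw [h6]
  exact M.sub_mem hM2 (h5 hNI)
/-- The condition on units needed for the removal of primes: a square root, in the ray class field
of modulus `n`, of a unit of `K` congruent to `1` modulo `n` and positive at `σ₂`, lies in `K`. -/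
def EN (σ₂ : K →+* ℝ) (n : Ideal (𝓞 K)) : Prop :=
  ∀ (H : IntermediateField K ℝ) (Art : RayClassGroup σ₂ n ≃* (H ≃ₐ[K] H)),
    IsRayClassField σ₂ n H Art → ∀ u : (𝓞 K)ˣ, EU σ₂ n u → ∀ y ∈ H,
    y ^ 2 = algebraMap K ℝ ((u : 𝓞 K) : K) → ∃ a : K, algebraMap K ℝ a = y

omit [NumberField K] [Algebra K ℝ] in
lemma isSquare_zpow_mod {q : Ideal (𝓞 K)} {η : (𝓞 K)ˣ}
    (h : IsSquare (Ideal.Quotient.mk q (η : 𝓞 K))) (k : ℤ) :
    IsSquare (Ideal.Quotient.mk q ((η ^ k : (𝓞 K)ˣ) : 𝓞 K)) := by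
  set f : (𝓞 K)ˣ →* (𝓞 K ⧸ q)ˣ := Units.map (Ideal.Quotient.mk q : 𝓞 K →* 𝓞 K ⧸ q) with hf
  have h1 : IsSquare (f η) := by
    obtain ⟨a, ha⟩ := h
    have hau : IsUnit a := by
      have : IsUnit (a * a) := by rw [← ha]; exact η.isUnit.map _
      exact isUnit_of_mul_isUnit_left this
    refine ⟨hau.unit, Units.ext ?_⟩
    rw [Units.val_mul, IsUnit.unit_spec]
    exact ha
  have h2 : IsSquare (f (η ^ k)) := by
    rw [map_zpow]; exact h1.zpow k
  obtain ⟨b, hb⟩ := h2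
  refine ⟨(b : 𝓞 K ⧸ q), ?_⟩
  have := congrArg Units.val hb
  rw [Units.val_mul] at this
  exact this

omit [Algebra K ℝ] in
lemma not_dvd_mul_prime {n : Ideal (𝓞 K)} {v q : HeightOneSpectrum (𝓞 K)}
    (h : ¬ v.asIdeal ∣ n) (hvq : v ≠ q) : ¬ v.asIdeal ∣ n * q.asIdeal := by
  intro hd
  rcases dvd_mul_prime hd with h1 | h1
  · exact h h1
  · exact hvq h1

/-- **Removing a prime from the modulus.** -/
theorem step (h2 : Module.finrank ℚ K = 2) (hσ : σ₂ ≠ sg1 K) {n : Ideal (𝓞 K)} (hn : n ≠ ⊥)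
    (hn1 : n ≠ ⊤) (hE : EN σ₂ n)
    (hst1 : ∀ q : HeightOneSpectrum (𝓞 K), ¬ q.asIdeal ∣ n → StarkTate σ₂ (n * q.asIdeal))
    (hst2 : ∀ q q' : HeightOneSpectrum (𝓞 K), ¬ q.asIdeal ∣ n → ¬ q'.asIdeal ∣ n → q ≠ q' →
      StarkTate σ₂ (n * q.asIdeal * q'.asIdeal)) : StarkTate σ₂ n := by
  classical
  -- the ray class field
  obtain ⟨q₀, hq₀⟩ := exists_prime_notMem (finite_dvd hn)
  obtain ⟨q₁, hq₁⟩ := exists_prime_notMem ((finite_dvd hn).insert q₀)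
  rw [Set.mem_insert_iff, not_or] at hq₁
  obtain ⟨_, _, _, d₀⟩ := (hst1 q₀ hq₀).data
  obtain ⟨_, _, _, d₁⟩ := (hst1 q₁ hq₁.2).data
  obtain ⟨H, Art, hr⟩ := exists_rcf hn (Ne.symm hq₁.1) hq₀ hq₁.2 rfl rfl d₀.rcf d₁.rcf
  have hfdH := hr.finite
  have habH := hr.isRCF.abelian
  obtain ⟨η, hη, hη1, hη2⟩ := exists_gen σ₂ h2 hn
  -- data for the good primes
  let ι := {q : HeightOneSpectrum (𝓞 K) // Good n η q}
  choose F Art1 u hd using fun i : ι => (hst1 i.1 i.2.1).data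
  have hne : ∀ i : ι, n * i.1.asIdeal ≠ ⊥ := fun i => mul_ne_bot' hn i.1.ne_bot
  have hle : ∀ i : ι, n * i.1.asIdeal ≤ n := fun i => Ideal.mul_le_left
  have hfd : ∀ i, FiniteDimensional K (F i) := fun i => (hd i).rcf.finite
  have hab : ∀ i, IsAbelianGalois K (F i) := fun i => (hd i).rcf.isRCF.abelian
  have hF : ∀ i, H ≤ F i := fun i => IsRCF.le (hle i) (hne i) Set.finite_empty Set.finite_empty
    (hd i).rcf.isRCF hr.isRCF
  let φ : ι → (H ≃ₐ[K] H) := fun i => Art (cls σ₂ n (prJ n i.1 i.2.1))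
  let e : (H ≃ₐ[K] H) → ℝ := fun σ => Real.exp (-2 * zd σ₂ n (Art.symm σ))
  have epos : ∀ σ, 0 < e σ := fun σ => Real.exp_pos _
  let _ : Fintype (RayClassGroup σ₂ n) := Fintype.ofEquiv _ Art.symm.toEquiv
  have eprod : ∏ σ, e σ = 1 := by
    rw [← Real.exp_sum, ← Finset.mul_sum]
    have h3 : ∑ σ, zd σ₂ n (Art.symm σ) = ∑ A, zd σ₂ n A :=
      Equiv.sum_comp Art.symm.toEquiv _
    rw [h3, sum_zd h2 hσ hn hn1, mul_zero, Real.exp_zero]
  have heven : ∀ i, Even (fib (hF i) (1 : H ≃ₐ[K] H)).card := by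
    intro i
    refine even_fib hn i.2.1 rfl i.2.2.1 ?_ hr (hd i).rcf (hF i)
    intro w hw1 hw2
    obtain ⟨k, rfl⟩ := hη2 w ⟨hw1, hw2⟩
    exact isSquare_zpow_mod i.2.2.2 k
  have hnorm : ∀ i σ, fibProd (hF i) (u i) σ = e σ / e (σ * (φ i)⁻¹) := by
    intro i σ
    obtain ⟨A, rfl⟩ := Art.surjective σ
    rw [fibProd_prime h2 hσ hn hn1 rfl hr (hd i).rcf (hF i) A (hd i).act (coe_prJ n i.1 i.2.1)]
    have h3 : Art.symm (Art A * (φ i)⁻¹) = A * (cls σ₂ n (prJ n i.1 i.2.1))⁻¹ := by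
      rw [MulEquiv.symm_apply_eq, map_mul, map_inv]
    simp only [e]
    rw [h3, MulEquiv.symm_apply_apply]
  have hinf : ∀ i j, i ≠ j → F i ⊓ F j ≤ H := by
    intro i j hij
    have hij' : i.1 ≠ j.1 := fun h => hij (Subtype.ext h)
    obtain ⟨_, _, _, d₂⟩ := (hst2 i.1 j.1 i.2.1 j.2.1 hij').data
    exact inf_le hn hij' j.2.1 rfl rfl rfl hr (hd i).rcf (hd j).rcf d₂.rcf
  have hgn : Subgroup.closure {σ | ∃ i j, i ≠ j ∧ φ i = σ ∧ φ j = σ} = ⊤ :=
    hgen hn η hr (fun y hy hy2 => hE H Art hr η hη y hy hy2) φ fun i => rfl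
  -- the data for pairs
  have hpair : ∀ i j, i ≠ j → ∃ U : ℝ, U ∈ (F i ⊔ F j : IntermediateField K ℝ) ∧ 0 ≤ U ∧
      IsAbelianGalois K (sqrtExt (F i ⊔ F j) U) ∧
      (∃ Φj : F i ≃ₐ[K] F i, res (hF i) Φj = φ j ∧
        fibProd (le_sup_left : F i ≤ F i ⊔ F j) U 1 = u i / act Φj⁻¹ (u i)) ∧
      (∃ Φi : F j ≃ₐ[K] F j, res (hF j) Φi = φ i ∧
        fibProd (le_sup_right : F j ≤ F i ⊔ F j) U 1 = u j / act Φi⁻¹ (u j)) := by
    intro i j hij
    have hij' : i.1 ≠ j.1 := fun h => hij (Subtype.ext h)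
    obtain ⟨M, ArtM, w, dM⟩ := (hst2 i.1 j.1 i.2.1 j.2.1 hij').data
    have hneM : n * i.1.asIdeal * j.1.asIdeal ≠ ⊥ := mul_ne_bot' (hne i) j.1.ne_bot
    have hMi : n * i.1.asIdeal * j.1.asIdeal ≤ n * i.1.asIdeal := Ideal.mul_le_left
    have hMj : n * i.1.asIdeal * j.1.asIdeal ≤ n * j.1.asIdeal := by
      rw [mul_right_comm]; exact Ideal.mul_le_left
    have hFiM : F i ≤ M := IsRCF.le hMi hneM Set.finite_empty Set.finite_empty dM.rcf.isRCF
      (hd i).rcf.isRCF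
    have hFjM : F j ≤ M := IsRCF.le hMj hneM Set.finite_empty Set.finite_empty dM.rcf.isRCF
      (hd j).rcf.isRCF
    have hsup : F i ⊔ F j ≤ M := sup_le hFiM hFjM
    have hMfd := dM.rcf.finite
    have hMab := dM.rcf.isRCF.abelian
    have hsab : IsAbelianGalois K (F i ⊔ F j : IntermediateField K ℝ) := isAbelianGalois_sup
    have hMsq := dM.stark.ab
    have hUst := dM.stark.fibProd hsup
    have hti : n * i.1.asIdeal ≠ ⊤ := ne_top_of_le (hle i) hn1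
    have htj : n * j.1.asIdeal ≠ ⊤ := ne_top_of_le (hle j) hn1
    have ndj : ¬ j.1.asIdeal ∣ n * i.1.asIdeal := not_dvd_mul_prime j.2.1 (Ne.symm hij')
    have ndi : ¬ i.1.asIdeal ∣ n * j.1.asIdeal := not_dvd_mul_prime i.2.1 hij'
    refine ⟨fibProd hsup w 1, hUst.mem, hUst.pos'.le, hUst.ab, ?_, ?_⟩
    · refine ⟨Art1 i (cls σ₂ _ (prJ _ j.1 ndj)), ?_, ?_⟩
      · rw [IsRCF.res_art (hle i) (hne i) Set.finite_empty Set.finite_empty (hd i).rcf.isRCF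
          hr.isRCF]
        rfl
      · rw [fibProd_trans le_sup_left hsup dM.stark.mem]
        have h3 := fibProd_prime h2 hσ (hne i) hti rfl (hd i).rcf dM.rcf hFiM 1 dM.act
          (coe_prJ _ j.1 ndj)
        rw [map_one] at h3
        rw [h3, ← map_inv (Art1 i), (hd i).act, one_mul]
        congr 1
        have h4 := (hd i).act 1
        rw [map_one, act_one_left (hd i).stark.mem] at h4
        exact h4.symm
    · refine ⟨Art1 j (cls σ₂ _ (prJ _ i.1 ndi)), ?_, ?_⟩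
      · rw [IsRCF.res_art (hle j) (hne j) Set.finite_empty Set.finite_empty (hd j).rcf.isRCF
          hr.isRCF]
        rfl
      · rw [fibProd_trans le_sup_right hsup dM.stark.mem]
        have h3 := fibProd_prime h2 hσ (hne j) htj (mul_right_comm _ _ _) (hd j).rcf dM.rcf hFjM 1
          dM.act (coe_prJ _ i.1 ndi)
        rw [map_one] at h3
        rw [h3, ← map_inv (Art1 j), (hd j).act, one_mul]
        congr 1
        have h4 := (hd j).act 1
        rw [map_one, act_one_left (hd j).stark.mem] at h4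
        exact h4.symm
  obtain ⟨hs, hact⟩ := core σ₂ e epos eprod φ F hF u (fun i => (hd i).stark) heven hnorm hinf hgn
    hpair
  have hdn : STData σ₂ n H Art (e 1) := by
    refine ⟨hr, hs, fun A => ?_⟩
    rw [hact]
    simp only [e]
    rw [MulEquiv.symm_apply_apply]
  exact hdn.starkTate h2 hσ hn hn1

end Pool.Agent.ST
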