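import Mathlib

/-!
Uniform one-dimensional theta bounds.
-/

open HurwitzZeta

namespace Pool.Agent.ST

lemma pow_mul_exp_neg_le (N : ℕ) {x : ℝ} (hx : 0 ≤ x) :
    x ^ N * Real.exp (-x) ≤ N.factorial := by
  have h := Real.pow_div_factorial_le_exp x hx N
  rw [div_le_iff₀ (by positivity)] at h
  rw [Real.exp_neg, ← div_eq_mul_inv, div_le_iff₀ (Real.exp_pos _)]
  linarith

/-- the constant `∑ 1 / n ^ 2` over the integers. -/
noncomputable def Z2 : ℝ := ∑' n : ℤ, ((n : ℝ) ^ 2)⁻¹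

lemma summable_Z2 : Summable (fun n : ℤ => ((n : ℝ) ^ 2)⁻¹) := by
  have := (Real.summable_one_div_int_pow (p := 2)).2 one_lt_two
  simpa using this

lemma Z2_nonneg : 0 ≤ Z2 := tsum_nonneg fun n => by positivity

lemma one_le_int_sq {n : ℤ} (hn : n ≠ 0) : (1 : ℝ) ≤ (n : ℝ) ^ 2 := by
  have h : (1 : ℤ) ≤ n ^ 2 := by
    have : 0 < n ^ 2 := by positivity
    omega
  exact_mod_cast h

lemma one_le_int_abs {n : ℤ} (hn : n ≠ 0) : (1 : ℝ) ≤ |(n : ℝ)| := by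
  have h : (1 : ℤ) ≤ |n| := Int.one_le_abs hn
  exact_mod_cast h

lemma term_le (N : ℕ) {y : ℝ} (hy : 0 < y) {n : ℤ} (hn : n ≠ 0) :
    Real.exp (-Real.pi * n ^ 2 * y) ≤ (N + 1).factorial * (y ^ (N + 1))⁻¹ * ((n : ℝ) ^ 2)⁻¹ := by
  have h1 := one_le_int_sq hn
  have hpi : 1 ≤ Real.pi := by linarith [Real.pi_gt_three]
  have h2 := pow_mul_exp_neg_le (N + 1) (x := Real.pi * n ^ 2 * y) (by positivity)
  have h3 : y ^ (N + 1) * (n : ℝ) ^ 2 ≤ (Real.pi * n ^ 2 * y) ^ (N + 1) := by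
    rw [mul_pow, mul_pow, mul_comm (y ^ (N + 1))]
    apply mul_le_mul_of_nonneg_right _ (by positivity)
    calc (n : ℝ) ^ 2 = 1 * ((n : ℝ) ^ 2) ^ 1 := by ring
      _ ≤ Real.pi ^ (N + 1) * ((n : ℝ) ^ 2) ^ (N + 1) := by
        apply mul_le_mul (one_le_pow₀ hpi) (pow_le_pow_right₀ h1 (by omega)) (by positivity)
          (by positivity)
  have h4 : y ^ (N + 1) * (n : ℝ) ^ 2 * Real.exp (-(Real.pi * n ^ 2 * y)) ≤ (N + 1).factorial :=
    (mul_le_mul_of_nonneg_right h3 (Real.exp_pos _).le).trans h2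
  have h5 : 0 < y ^ (N + 1) * (n : ℝ) ^ 2 := by positivity
  have h6 : -Real.pi * n ^ 2 * y = -(Real.pi * n ^ 2 * y) := by ring
  rw [h6, mul_assoc _ (_⁻¹) (_⁻¹), ← mul_inv, ← div_eq_mul_inv, le_div_iff₀ h5]
  linarith

lemma term_le' (N : ℕ) {y : ℝ} (hy : 0 < y) (n : ℤ) :
    |(n : ℝ)| * Real.exp (-Real.pi * n ^ 2 * y) ≤
      (N + 2).factorial * (y ^ (N + 2))⁻¹ * ((n : ℝ) ^ 2)⁻¹ := by
  by_cases hn : n = 0
  · subst hn; simp
  have h1 := one_le_int_abs hn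
  have h0 := one_le_int_sq hn
  have hpi : 1 ≤ Real.pi := by linarith [Real.pi_gt_three]
  have h2 := pow_mul_exp_neg_le (N + 2) (x := Real.pi * n ^ 2 * y) (by positivity)
  have h3 : y ^ (N + 2) * ((n : ℝ) ^ 2 * |(n : ℝ)|) ≤ (Real.pi * n ^ 2 * y) ^ (N + 2) := by
    rw [mul_pow, mul_pow, mul_comm (y ^ (N + 2))]
    apply mul_le_mul_of_nonneg_right _ (by positivity)
    calc (n : ℝ) ^ 2 * |(n : ℝ)| ≤ (n : ℝ) ^ 2 * (n : ℝ) ^ 2 := by
          apply mul_le_mul_of_nonneg_left _ (by positivity)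
          rw [← sq_abs]
          nlinarith
      _ = 1 * ((n : ℝ) ^ 2) ^ 2 := by ring
      _ ≤ Real.pi ^ (N + 2) * ((n : ℝ) ^ 2) ^ (N + 2) := by
        apply mul_le_mul (one_le_pow₀ hpi) (pow_le_pow_right₀ h0 (by omega)) (by positivity)
          (by positivity)
  have h4 : y ^ (N + 2) * ((n : ℝ) ^ 2 * |(n : ℝ)|) * Real.exp (-(Real.pi * n ^ 2 * y)) ≤
      (N + 2).factorial :=
    (mul_le_mul_of_nonneg_right h3 (Real.exp_pos _).le).trans h2
  have h5 : 0 < y ^ (N + 2) * (n : ℝ) ^ 2 := by positivity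
  have h6 : -Real.pi * n ^ 2 * y = -(Real.pi * n ^ 2 * y) := by ring
  rw [h6, mul_assoc _ (_⁻¹) (_⁻¹), ← mul_inv, ← div_eq_mul_inv, le_div_iff₀ h5]
  linarith

lemma evenKernel_bound (N : ℕ) : ∃ C : ℝ, 0 ≤ C ∧ ∀ (μ τ : ℝ), 0 < τ →
    |evenKernel μ τ - 1 / √τ| ≤ C * (√τ * τ ^ N) := by
  refine ⟨(N + 1).factorial * Z2, mul_nonneg (by positivity) Z2_nonneg, ?_⟩
  intro μ τ hτ
  have hy : 0 < 1 / τ := by positivity
  have h1 := hasSum_int_cosKernel₀ μ hy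
  have h2 : ‖((cosKernel μ (1 / τ) : ℂ) - 1)‖ ≤ (N + 1).factorial * ((1 / τ) ^ (N + 1))⁻¹ * Z2 := by
    rw [← h1.tsum_eq, Z2, ← tsum_mul_left]
    apply tsum_of_norm_bounded (summable_Z2.mul_left _).hasSum
    intro n
    by_cases hn : n = 0
    · subst hn; simp
    · rw [if_neg hn, norm_mul]
      have h3 : ‖Complex.exp (2 * Real.pi * Complex.I * μ * n)‖ = 1 := by
        have : (2 * Real.pi * Complex.I * μ * n : ℂ) = ((2 * Real.pi * μ * n : ℝ) : ℂ) * Complex.I := by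
          push_cast; ring
        rw [this, Complex.norm_exp_ofReal_mul_I]
      rw [h3, one_mul, Complex.norm_real, Real.norm_eq_abs, abs_of_pos (Real.exp_pos _)]
      exact term_le N hy hn
  have h3 : ‖((cosKernel μ (1 / τ) : ℂ) - 1)‖ = |cosKernel μ (1 / τ) - 1| := by
    rw [← Complex.ofReal_one, ← Complex.ofReal_sub, Complex.norm_real, Real.norm_eq_abs]
  rw [h3] at h2
  rw [evenKernel_functional_equation, ← Real.sqrt_eq_rpow]
  have h4 : 1 / √τ * cosKernel μ (1 / τ) - 1 / √τ = 1 / √τ * (cosKernel μ (1 / τ) - 1) := by ring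
  have hs : 0 < √τ := Real.sqrt_pos.2 hτ
  rw [h4, abs_mul, abs_of_pos (by positivity : 0 < 1 / √τ)]
  calc 1 / √τ * |cosKernel μ (1 / τ) - 1| ≤
      1 / √τ * ((N + 1).factorial * ((1 / τ) ^ (N + 1))⁻¹ * Z2) := by
        apply mul_le_mul_of_nonneg_left h2 (by positivity)
    _ = (N + 1).factorial * Z2 * (√τ * τ ^ N) := by
        have h5 : τ = √τ * √τ := (Real.mul_self_sqrt hτ.le).symm
        rw [one_div_pow, one_div, one_div, inv_inv, pow_succ]
        have h6 : (√τ)⁻¹ * τ = √τ := by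
          nth_rewrite 2 [h5]
          field_simp
        calc (√τ)⁻¹ * ((N + 1).factorial * (τ ^ N * τ) * Z2) =
            (N + 1).factorial * Z2 * (((√τ)⁻¹ * τ) * τ ^ N) := by ring
          _ = _ := by rw [h6]

lemma oddKernel_bound (N : ℕ) : ∃ C : ℝ, 0 ≤ C ∧ ∀ (μ τ : ℝ), 0 < τ →
    |oddKernel μ τ| ≤ C * (√τ * τ ^ N) := by
  refine ⟨(N + 2).factorial * Z2, mul_nonneg (by positivity) Z2_nonneg, ?_⟩
  intro μ τ hτ
  have hy : 0 < 1 / τ := by positivity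
  have h1 := hasSum_int_sinKernel μ hy
  have h2 : ‖(sinKernel μ (1 / τ) : ℂ)‖ ≤ (N + 2).factorial * ((1 / τ) ^ (N + 2))⁻¹ * Z2 := by
    rw [← h1.tsum_eq, Z2, ← tsum_mul_left]
    apply tsum_of_norm_bounded (summable_Z2.mul_left _).hasSum
    intro n
    rw [norm_mul, norm_mul, norm_mul]
    have h3 : ‖Complex.exp (2 * Real.pi * Complex.I * μ * n)‖ = 1 := by
      have : (2 * Real.pi * Complex.I * μ * n : ℂ) = ((2 * Real.pi * μ * n : ℝ) : ℂ) * Complex.I := by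
        push_cast; ring
      rw [this, Complex.norm_exp_ofReal_mul_I]
    rw [h3, Complex.norm_real, Real.norm_eq_abs, abs_of_pos (Real.exp_pos _), norm_neg,
      Complex.norm_I, one_mul, mul_one, Complex.norm_intCast]
    exact term_le' N hy n
  rw [Complex.norm_real, Real.norm_eq_abs] at h2
  have hs : 0 < √τ := Real.sqrt_pos.2 hτ
  have h7 : τ ^ (3 / 2 : ℝ) = τ * √τ := by
    rw [Real.sqrt_eq_rpow]
    nth_rewrite 2 [← Real.rpow_one τ]
    rw [← Real.rpow_add hτ]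
    norm_num
  rw [oddKernel_functional_equation, h7, abs_mul, abs_of_pos (by positivity : 0 < 1 / (τ * √τ))]
  calc 1 / (τ * √τ) * |sinKernel μ (1 / τ)| ≤
      1 / (τ * √τ) * ((N + 2).factorial * ((1 / τ) ^ (N + 2))⁻¹ * Z2) := by
        apply mul_le_mul_of_nonneg_left h2 (by positivity)
    _ = (N + 2).factorial * Z2 * (√τ * τ ^ N) := by
        have h5 : τ = √τ * √τ := (Real.mul_self_sqrt hτ.le).symm
        rw [one_div_pow, one_div, one_div, inv_inv]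
        have h6 : (√τ)⁻¹ * τ = √τ := by
          nth_rewrite 2 [h5]
          field_simp
        calc (τ * √τ)⁻¹ * ((N + 2).factorial * τ ^ (N + 2) * Z2) =
            (N + 2).factorial * Z2 * (((√τ)⁻¹ * τ) * (τ⁻¹ * τ) * τ ^ N) := by
              rw [mul_inv, pow_add]; ring
          _ = _ := by rw [h6, inv_mul_cancel₀ hτ.ne', mul_one]

end Pool.Agent.ST
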