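import Pool.Agent.Lib.MP_1ef7cf_nt.Even

/-!
# Raising the power of `2` in the modulus
-/

open NumberField IsDedekindDomain nonZeroDivisors IntermediateField

namespace Pool.Agent.ST

section norm

variable {K : Type*} [Field K] [NumberField K]

lemma norm_one_add_mul (c : ℤ) (β : 𝓞 K) :
    ∃ t : ℤ, Algebra.norm ℤ (1 + (c : 𝓞 K) * β) = 1 + c * t := by
  classical
  let b := RingOfIntegers.basis K
  rw [Algebra.norm_eq_matrix_det b]
  have h1 : Algebra.leftMulMatrix b (1 + (c : 𝓞 K) * β) = 1 + c • Algebra.leftMulMatrix b β := by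
    rw [map_add, map_one]
    congr 1
    have : (c : 𝓞 K) * β = c • β := by rw [zsmul_eq_mul]
    rw [this, map_zsmul]
  have key : ∀ M : Matrix (Module.Free.ChooseBasisIndex ℤ (𝓞 K))
      (Module.Free.ChooseBasisIndex ℤ (𝓞 K)) ℤ, ∃ t : ℤ, (1 + c • M).det = 1 + c * t := by
    intro M
    have h2 := Matrix.det_one_add_smul c M
    refine ⟨M.trace + Polynomial.eval c (Matrix.det (1 + (Polynomial.X : Polynomial ℤ) •
      M.map Polynomial.C)).divX.divX * c, ?_⟩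
    rw [h2]
    ring
  rw [h1]
  exact key _

lemma geom_odd (B : ℤ) : ∀ f : ℕ, ∃ t : ℤ, ∑ i ∈ Finset.range f, (1 + 2 * B) ^ i = f + 2 * t := by
  have hpow : ∀ i : ℕ, ∃ t : ℤ, (1 + 2 * B) ^ i = 1 + 2 * t := by
    intro i
    induction i with
    | zero => exact ⟨0, by norm_num⟩
    | succ i ih =>
      obtain ⟨t, ht⟩ := ih
      exact ⟨t + B + 2 * t * B, by rw [pow_succ, ht]; ring⟩
  intro f
  induction f with
  | zero => exact ⟨0, by simp⟩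
  | succ f ih =>
    obtain ⟨t, ht⟩ := ih
    obtain ⟨s, hs⟩ := hpow f
    exact ⟨t + s, by rw [Finset.sum_range_succ, ht, hs]; push_cast; ring⟩

/-- The arithmetic fact behind the even degree. -/
lemma not_dvd_aux {c : ℤ} (hc : 1 ≤ c) {f j : ℕ} (hf : Odd f) (hj : 8 * c * (2 * c + 1) < 2 ^ j)
    (hj2 : 2 ≤ j) :
    ¬ (2 : ℤ) ^ j ∣ ((1 + 4 * c) ^ 2) ^ f - 1 ∧ ¬ (2 : ℤ) ^ j ∣ ((1 + 4 * c) ^ 2) ^ f + 1 := by
  set A : ℤ := (1 + 4 * c) ^ 2 with hA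
  have hA1 : A = 1 + 2 * (4 * c + 8 * c ^ 2) := by rw [hA]; ring
  have h4 : (4 : ℤ) ∣ 2 ^ j := by
    obtain ⟨i, rfl⟩ := Nat.exists_eq_add_of_le hj2
    exact ⟨2 ^ i, by rw [pow_add]; norm_num⟩
  constructor
  · intro h
    have h1 := geom_sum_mul A f
    obtain ⟨t, ht⟩ := geom_odd (4 * c + 8 * c ^ 2) f
    rw [← hA1] at ht
    rw [← h1, ht] at h
    have hcop : IsCoprime ((2 : ℤ) ^ j) ((f : ℤ) + 2 * t) := by
      apply IsCoprime.pow_left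
      obtain ⟨k, hk⟩ := hf
      exact ⟨-(k + t), 1, by rw [hk]; push_cast; ring⟩
    have h5 : (2 : ℤ) ^ j ∣ A - 1 := hcop.dvd_of_dvd_mul_left h
    have h6 : A - 1 = 8 * c * (2 * c + 1) := by rw [hA]; ring
    rw [h6] at h5
    have h7 := Int.le_of_dvd (by positivity) h5
    linarith
  · intro h
    have h5 : (4 : ℤ) ∣ A ^ f + 1 := h4.trans h
    have h6 : (4 : ℤ) ∣ A ^ f - 1 := by
      have h7 : (4 : ℤ) ∣ A - 1 := ⟨2 * c + 4 * c ^ 2, by rw [hA]; ring⟩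
      have h8 : A - 1 ∣ A ^ f - 1 := by
        have := sub_dvd_pow_sub_pow A 1 f
        rwa [one_pow] at this
      exact h7.trans h8
    have h9 := dvd_sub h5 h6
    have h10 : A ^ f + 1 - (A ^ f - 1) = 2 := by ring
    rw [h10] at h9
    norm_num at h9

end norm

section level

variable {K : Type*} [Field K] [NumberField K] {σ₂ : K →+* ℝ}

/-- A class in the kernel of `Cl(n 2 ^ j) → Cl(n)` without trivial odd powers. -/
theorem exists_ray_elt (h2 : Module.finrank ℚ K = 2) {n : Ideal (𝓞 K)} (hn : n ≠ ⊥) :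
    ∃ j₀ : ℕ, ∀ j ≥ j₀, ∃ J : (FI K)ˣ,
      J ∈ primeTo (K := K) (n * Ideal.span {(2 : 𝓞 K)} ^ j) ∧ InRay σ₂ n J ∧
      ∀ f : ℕ, Odd f → ¬ InRay σ₂ (n * Ideal.span {(2 : 𝓞 K)} ^ j) (J ^ f) := by
  set c : ℕ := Ideal.absNorm n with hc
  have hcn : ((c : ℕ) : 𝓞 K) ∈ n := Ideal.absNorm_mem n
  have hc1 : 1 ≤ c := by
    have : c ≠ 0 := by rw [hc, Ne, Ideal.absNorm_eq_zero_iff]; exact hn
    omega
  refine ⟨8 * c * (2 * c + 1), fun j hj => ?_⟩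
  have hj2 : 2 ≤ j := by nlinarith
  have hjlt : 8 * (c : ℤ) * (2 * c + 1) < 2 ^ j := by
    have h3 : 8 * c * (2 * c + 1) < 2 ^ j := lt_of_le_of_lt hj (Nat.lt_two_pow_self)
    exact_mod_cast h3
  set a : 𝓞 K := ((1 + 4 * c : ℕ) : 𝓞 K) with ha
  have hσa : σ₂ (a : K) = ((1 + 4 * c : ℕ) : ℝ) := by
    have h3 : ∀ m : ℕ, σ₂ (((m : ℕ) : 𝓞 K) : K) = (m : ℝ) := fun m =>
      map_natCast (σ₂.comp (algebraMap (𝓞 K) K)) m
    rw [ha, h3]
  have hapos : 0 < σ₂ (a : K) := by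
    rw [hσa]
    positivity
  have ha0 : a ≠ 0 := ne_zero_of_pos hapos
  have ha0' : (a : K) ≠ 0 := coe_ne_zero' ha0
  have ha1 : a - 1 ∈ n := by
    have : a - 1 = 4 * ((c : ℕ) : 𝓞 K) := by rw [ha]; push_cast; ring
    rw [this]; exact n.mul_mem_left _ hcn
  have ha2 : a - 1 ∈ Ideal.span {(2 : 𝓞 K)} := by
    rw [Ideal.mem_span_singleton]
    exact ⟨2 * ((c : ℕ) : 𝓞 K), by rw [ha]; push_cast; ring⟩
  have hcop : IsCoprime (Ideal.span {a}) (n * Ideal.span {(2 : 𝓞 K)} ^ j) :=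
    (coprime_span_of_sub_one_mem ha1).mul_right ((coprime_span_of_sub_one_mem ha2).pow_right)
  have hJ : ((uP (a : K) ha0' : (FI K)ˣ) : FI K) = ((Ideal.span {a} : Ideal (𝓞 K)) : FI K) := by
    rw [coe_uP, coe_span_singleton]
  refine ⟨uP (a : K) ha0', coe_mem_primeTo hJ hcop,
    ⟨(a : K), oneMod_of_sub_one_mem ha1, hapos, by rw [coe_uP]⟩, ?_⟩
  rintro f hf ⟨α, hα1, hα2, hα3⟩
  have h3 : ((Ideal.span {a ^ f} : Ideal (𝓞 K)) : FI K) =
      FractionalIdeal.spanSingleton (𝓞 K)⁰ α := by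
    rw [← hα3, Units.val_pow_eq_pow_val, hJ, ← Ideal.span_singleton_pow,
      FractionalIdeal.coeIdeal_pow]
  obtain ⟨x, hx1, hx2, hx3⟩ := int_of_coe_eq hα1 h3
  obtain ⟨u, hu⟩ := Ideal.span_singleton_eq_span_singleton.1 hx3
  have hx4 : x - 1 ∈ Ideal.span {(2 : 𝓞 K) ^ j} := by
    rw [← Ideal.span_singleton_pow]
    exact Ideal.mul_le_left (I := Ideal.span {(2 : 𝓞 K)} ^ j) (J := n)
      (by rw [mul_comm]; exact hx2)
  obtain ⟨β, hβ⟩ := Ideal.mem_span_singleton.1 hx4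
  have hx5 : x = 1 + (((2 : ℤ) ^ j : ℤ) : 𝓞 K) * β := by
    push_cast
    rw [← hβ]; ring
  obtain ⟨t, ht⟩ := norm_one_add_mul ((2 : ℤ) ^ j) β
  rw [← hx5] at ht
  have hfr : Module.finrank ℤ (𝓞 K) = 2 := by rw [RingOfIntegers.rank, h2]
  have hna : Algebra.norm ℤ a = (1 + 4 * (c : ℤ)) ^ 2 := by
    have : a = algebraMap ℤ (𝓞 K) (1 + 4 * (c : ℤ)) := by
      rw [ha, eq_intCast]; push_cast; ring
    rw [this, Algebra.norm_algebraMap, hfr]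
  have hnx : Algebra.norm ℤ x = ((1 + 4 * (c : ℤ)) ^ 2) ^ f * Algebra.norm ℤ (u : 𝓞 K) := by
    rw [← hu, map_mul, map_pow, hna]
  have hnu : IsUnit (Algebra.norm ℤ (u : 𝓞 K)) := u.isUnit.map (Algebra.norm ℤ)
  obtain ⟨g1, g2⟩ := not_dvd_aux (c := (c : ℤ)) (by exact_mod_cast hc1) hf hjlt hj2
  rcases Int.isUnit_iff.1 hnu with h | h
  · rw [h, mul_one] at hnx
    apply g1
    exact ⟨t, by rw [← hnx, ht]; ring⟩
  · rw [h] at hnx
    apply g2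
    exact ⟨-t, by
      have : ((1 + 4 * (c : ℤ)) ^ 2) ^ f = -(Algebra.norm ℤ x) := by rw [hnx]; ring
      rw [this, ht]; ring⟩

end level

section level2

variable {K : Type*} [Field K] [NumberField K] [Algebra K ℝ] {σ₂ : K →+* ℝ}

/-- The degree of the extension of ray class fields is even. -/
theorem even_fib_of_ray {n N : Ideal (𝓞 K)} (hle : N ≤ n) (hN : N ≠ ⊥) {J : (FI K)ˣ}
    (hJ : J ∈ primeTo (K := K) N) (hray : InRay σ₂ n J)
    (hodd : ∀ f : ℕ, Odd f → ¬ InRay σ₂ N (J ^ f))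
    {H H' : IntermediateField K ℝ} {Art : RayClassGroup σ₂ n ≃* (H ≃ₐ[K] H)}
    {Art' : RayClassGroup σ₂ N ≃* (H' ≃ₐ[K] H')}
    (h : IsRayClassField σ₂ n H Art) (h' : IsRayClassField σ₂ N H' Art')
    [Normal K H] [FiniteDimensional K H'] (hHH : H ≤ H') :
    Even (fib hHH (1 : H ≃ₐ[K] H)).card := by
  by_contra hne
  rw [Nat.not_even_iff_odd] at hne
  apply hodd _ hne
  have h1 : cls σ₂ n (inc hle ⟨J, hJ⟩) = 1 := (cls_eq_one_iff _).2 (by rw [coe_inc]; exact hray)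
  have h2 : res hHH (Art' (cls σ₂ _ ⟨J, hJ⟩)) = 1 := by
    rw [IsRCF.res_art hle hN Set.finite_empty Set.finite_empty h'.isRCF h.isRCF, pr_cls, h1,
      map_one]
  have h3 : (fib hHH (1 : H ≃ₐ[K] H)).card = Nat.card (res hHH).ker := by
    rw [← Nat.card_eq_finsetCard]
    refine Nat.card_congr (Equiv.subtypeEquivRight fun γ => ?_)
    rw [mem_fib, MonoidHom.mem_ker]
  have h4 : (Art' (cls σ₂ _ ⟨J, hJ⟩)) ^ (fib hHH (1 : H ≃ₐ[K] H)).card = 1 := by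
    rw [h3]
    have h5 := pow_card_eq_one' (x := (⟨Art' (cls σ₂ _ ⟨J, hJ⟩), h2⟩ : (res hHH).ker))
    exact congrArg Subtype.val h5
  rw [← map_pow, ← map_pow] at h4
  have h6 : cls σ₂ N (⟨J, hJ⟩ ^ (fib hHH (1 : H ≃ₐ[K] H)).card) = 1 := by
    apply Art'.injective
    rw [h4, map_one]
  rw [cls_eq_one_iff] at h6
  exact h6

/-- For `n` divisible by a prime `𝔭` above `2` the units congruent to `1` modulo `n 𝔭 ^ j` are
squares, `j` large. -/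
theorem exists_sq_level (h2 : Module.finrank ℚ K = 2) {n : Ideal (𝓞 K)} (hn : n ≠ ⊥)
    {p : HeightOneSpectrum (𝓞 K)} (hp2 : (2 : 𝓞 K) ∈ p.asIdeal) (hpn : p.asIdeal ∣ n) :
    ∃ j : ℕ, ∀ u : (𝓞 K)ˣ, EU σ₂ (n * p.asIdeal ^ j) u → IsSquare u := by
  obtain ⟨η, hη, hη1, hη2⟩ := exists_gen σ₂ h2 hn
  have hne : (η : 𝓞 K) - 1 ≠ 0 := by
    intro h
    have h3 : (η : 𝓞 K) = 1 := sub_eq_zero.1 h
    have h4 : sg1 K ((η : 𝓞 K) : K) = 1 := by rw [h3]; simp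
    rw [h4, abs_one] at hη1
    exact lt_irrefl _ hη1
  have hηp : (η : 𝓞 K) - 1 ∈ p.asIdeal := Ideal.dvd_iff_le.1 hpn hη.1
  obtain ⟨j, hj⟩ : ∃ j : ℕ, (η : 𝓞 K) - 1 ∉ p.asIdeal ^ j := by
    by_contra hcon
    push Not at hcon
    have h5 : (η : 𝓞 K) - 1 ∈ (⨅ i : ℕ, p.asIdeal ^ i) := by
      rw [Ideal.mem_iInf]; exact hcon
    rw [Ideal.iInf_pow_eq_bot_of_isDomain p.asIdeal p.isPrime.ne_top] at h5
    exact hne h5
  refine ⟨j, ?_⟩
  intro u hu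
  have hle : n * p.asIdeal ^ j ≤ n := Ideal.mul_le_left
  have hle' : n * p.asIdeal ^ j ≤ p.asIdeal ^ j := Ideal.mul_le_right
  obtain ⟨k, rfl⟩ := hη2 u ⟨hle hu.1, hu.2⟩
  rcases Int.even_or_odd k with hk | hk
  · exact hk.isSquare_zpow η
  · exfalso
    apply hj
    obtain ⟨i, hi⟩ : ∃ i : ℕ, k = 2 * i + 1 ∨ -k = 2 * i + 1 := by
      obtain ⟨l, hl⟩ := hk
      rcases le_or_gt 0 l with h6 | h6
      · exact ⟨l.toNat, Or.inl (by omega)⟩
      · exact ⟨(-l - 1).toNat, Or.inr (by omega)⟩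
    rcases hi with hi | hi
    · have h7 := hle' hu.1
      have h8 : ((η ^ k : (𝓞 K)ˣ) : 𝓞 K) = (η : 𝓞 K) ^ (2 * i + 1) := by
        rw [hi]
        have : ((2 : ℤ) * (i : ℤ) + 1) = ((2 * i + 1 : ℕ) : ℤ) := by push_cast; ring
        rw [this, zpow_natCast, Units.val_pow_eq_pow_val]
      rw [h8] at h7
      exact sub_one_mem_of_odd hp2 hηp h7
    · have h7 := hle' (hu.inv).1
      have h8 : (((η ^ k)⁻¹ : (𝓞 K)ˣ) : 𝓞 K) = (η : 𝓞 K) ^ (2 * i + 1) := by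
        rw [← zpow_neg, hi]
        have : ((2 : ℤ) * (i : ℤ) + 1) = ((2 * i + 1 : ℕ) : ℤ) := by push_cast; ring
        rw [this, zpow_natCast, Units.val_pow_eq_pow_val]
      rw [h8] at h7
      exact sub_one_mem_of_odd hp2 hηp h7

end level2

end Pool.Agent.ST
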